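import Pool.Agent.LibSM56A.A_X2

/-! ROW A_X4 (SHORT/MEDIUM): smooth bumps near a point of `Base` are admissible.

`κ` small: `a, b, c` vanish outside the `κ`-neighbourhoods of `x.1, x.2.1, x.2.2`: with `4κ + 2ε ≤` the gaps `1 - (x.1+x.2.1+x.2.2)`, `1/2 - (x.1+x.2.1-x.2.2)` and `3κ < min`
of the coordinates; `z + z' ≤ 3/4 - ε` is half the sum of the two. Continuity and compact support of the product; boundedness of each factor. -/

set_option autoImplicit false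

namespace Pool.Agent.LibSM56A

open MeasureTheory Set Filter Topology Complex
open Pool.Agent.LibSM47 Pool.Agent.LibSM56

private lemma A_X4_bd (a : ℝ → ℝ) (ha : Continuous a) (κ x : ℝ) (h : ∀ t, κ ≤ |t - x| → a t = 0) :
    ∃ M : ℝ, 0 ≤ M ∧ ∀ t, |a t| ≤ M := by
  obtain ⟨C, hC⟩ := (isCompact_Icc (a := x - κ) (b := x + κ)).exists_bound_of_continuousOn ha.continuousOn
  refine ⟨max C 0, le_max_right _ _, fun t => ?_⟩
  by_cases ht : κ ≤ |t - x|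
  · rw [h t ht, abs_zero]; exact le_max_right _ _
  · push Not at ht
    have h1 := abs_lt.1 ht
    exact (hC t ⟨by linarith [h1.1], by linarith [h1.2]⟩).trans (le_max_left _ _)

theorem bx_adm (x : ℝ × ℝ × ℝ) (hx : x ∈ Base) : ∃ κ₀ : ℝ, 0 < κ₀ ∧ ∃ ε : ℝ, 0 < ε ∧ ε ≤ 1 / 10 ∧ ∀ κ : ℝ, 0 < κ → κ ≤ κ₀ →
    ∀ a b c : ℝ → ℝ, Continuous a → Continuous b → Continuous c → (∀ t, κ ≤ |t - x.1| → a t = 0) →
    (∀ t, κ ≤ |t - x.2.1| → b t = 0) → (∀ t, κ ≤ |t - x.2.2| → c t = 0) →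
    AdmP ε (bx a b c) ∧ ∃ M : ℝ, ∀ t, |a t| ≤ M ∧ |b t| ≤ M ∧ |c t| ≤ M := by
  obtain ⟨h1, h2, h3, h4, h5⟩ := hx
  obtain ⟨s, hs⟩ : ∃ s, s = min (1 - (x.1 + x.2.1 + x.2.2)) (1 / 2 - (x.1 + x.2.1 - x.2.2)) := ⟨_, rfl⟩
  have hs0 : 0 < s := by rw [hs]; exact lt_min (by linarith) (by linarith)
  have hs1 : s ≤ 1 - (x.1 + x.2.1 + x.2.2) := by rw [hs]; exact min_le_left _ _
  have hs2 : s ≤ 1 / 2 - (x.1 + x.2.1 - x.2.2) := by rw [hs]; exact min_le_right _ _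
  refine ⟨s / 6, by positivity, min (s / 2) (1 / 10), lt_min (by positivity) (by norm_num), min_le_right _ _, ?_⟩
  intro κ hκ hκ0 a b c ha hb hc ha0 hb0 hc0
  have hε : min (s / 2) (1 / 10) ≤ s / 2 := min_le_left _ _
  refine ⟨⟨?_, ?_, ?_⟩, ?_⟩
  · unfold bx
    have e1 : Continuous (fun v : ℝ × ℝ × ℝ => a v.1) := ha.comp (by fun_prop)
    have e2 : Continuous (fun v : ℝ × ℝ × ℝ => b v.2.1) := hb.comp (by fun_prop)
    have e3 : Continuous (fun v : ℝ × ℝ × ℝ => c v.2.2) := hc.comp (by fun_prop)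
    exact (e1.mul e2).mul e3
  · refine HasCompactSupport.intro (isCompact_closedBall x κ) fun v hv => ?_
    by_contra hne
    apply hv
    unfold bx at hne
    have e1 : a v.1 ≠ 0 := left_ne_zero_of_mul (left_ne_zero_of_mul hne)
    have e2 : b v.2.1 ≠ 0 := right_ne_zero_of_mul (left_ne_zero_of_mul hne)
    have e3 : c v.2.2 ≠ 0 := right_ne_zero_of_mul hne
    have f1 : |v.1 - x.1| ≤ κ := by
      by_contra h; exact e1 (ha0 _ (le_of_lt (not_le.1 h)))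
    have f2 : |v.2.1 - x.2.1| ≤ κ := by
      by_contra h; exact e2 (hb0 _ (le_of_lt (not_le.1 h)))
    have f3 : |v.2.2 - x.2.2| ≤ κ := by
      by_contra h; exact e3 (hc0 _ (le_of_lt (not_le.1 h)))
    rw [Metric.mem_closedBall, Prod.dist_eq, Prod.dist_eq, Real.dist_eq, Real.dist_eq, Real.dist_eq]
    exact max_le f1 (max_le f2 f3)
  · intro z z' y hz hz' hy hne
    unfold bx at hne
    have e1 : a z ≠ 0 := left_ne_zero_of_mul (left_ne_zero_of_mul hne)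
    have e2 : b z' ≠ 0 := right_ne_zero_of_mul (left_ne_zero_of_mul hne)
    have e3 : c y ≠ 0 := right_ne_zero_of_mul hne
    have f1 : |z - x.1| < κ := by
      by_contra h; exact e1 (ha0 _ (not_lt.1 h))
    have f2 : |z' - x.2.1| < κ := by
      by_contra h; exact e2 (hb0 _ (not_lt.1 h))
    have f3 : |y - x.2.2| < κ := by
      by_contra h; exact e3 (hc0 _ (not_lt.1 h))
    obtain ⟨g1, g1'⟩ := abs_lt.1 f1
    obtain ⟨g2, g2'⟩ := abs_lt.1 f2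
    obtain ⟨g3, g3'⟩ := abs_lt.1 f3
    refine ⟨by linarith, by linarith, by linarith⟩
  · obtain ⟨M1, hM1, k1⟩ := A_X4_bd a ha κ x.1 ha0
    obtain ⟨M2, hM2, k2⟩ := A_X4_bd b hb κ x.2.1 hb0
    obtain ⟨M3, hM3, k3⟩ := A_X4_bd c hc κ x.2.2 hc0
    exact ⟨M1 + M2 + M3, fun t => ⟨by linarith [k1 t], by linarith [k2 t], by linarith [k3 t]⟩⟩

/-- Good points from the error part. -/
theorem goodAt_of_VVOK (x : ℝ × ℝ × ℝ) (hx : x ∈ Base)
    (h : ∃ κ : ℝ, 0 < κ ∧ ∀ a b c : ℝ → ℝ, ContDiff ℝ ((⊤ : ℕ∞) : WithTop ℕ∞) a → ContDiff ℝ ((⊤ : ℕ∞) : WithTop ℕ∞) b →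
      ContDiff ℝ ((⊤ : ℕ∞) : WithTop ℕ∞) c → (∀ t, κ ≤ |t - x.1| → a t = 0) → (∀ t, κ ≤ |t - x.2.1| → b t = 0) →
      (∀ t, κ ≤ |t - x.2.2| → c t = 0) → VVOK (bx a b c)) : GoodAt x := by
  obtain ⟨κ₀, hκ0, ε, hε, hε', hadm⟩ := bx_adm x hx
  obtain ⟨κ₁, hκ1, hV⟩ := h
  refine ⟨min κ₀ κ₁, lt_min hκ0 hκ1, ?_⟩
  intro a b c ha hb hc ha0 hb0 hc0
  have h1 : VVOK (bx a b c) := hV a b c ha hb hc
    (fun t ht => ha0 t ((min_le_right _ _).trans ht)) (fun t ht => hb0 t ((min_le_right _ _).trans ht))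
    (fun t ht => hc0 t ((min_le_right _ _).trans ht))
  have h2 := (hadm (min κ₀ κ₁) (lt_min hκ0 hκ1) (min_le_left _ _) a b c ha.continuous hb.continuous hc.continuous
    ha0 hb0 hc0).1
  exact errOK_of_VVOK _ ε hε hε' h2 h1

end Pool.Agent.LibSM56A
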