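import Pool.Agent.LibSM56A.A_X4

/-! ROW A_X3 (MEDIUM): from the one-modulus bound (section B) to `VVOK` for weights supported in `z + z' ≤ 1/2 - ε`.

`P = bx a b c`: `cP = m^{-1/2} n^{-1/2} ∑_{de=m} φ(d)/d a(log d/L) b(log e/L) c(log n/L)`; for fixed `m` the sum over `n` (`q ∈ idx T`, `q.1 = m`) is over
`n ≤ N = ⌊T^{1-ε}/m⌋` (else the product vanishes for every `d,e`: support), `β n = c(log n/L)/M` (0 if `n > T`), `|c| ≤ M`; `BMain` with `η = ε/16`, `δ ≤ ε/1000`: the sum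
over `m ≤ T^{1/2-ε}` of `hh(m) m^{-1/2} T^{-1/2+η+6δ} (√m + √N)` is `≤ C T^{-1/2+2η+6δ} (T^{1/2-ε} + T^{(1-ε)/2} L) ≤ C`. -/

set_option autoImplicit false

namespace Pool.Agent.LibSM56A

open MeasureTheory Set Filter Topology Complex
open Pool.Agent.LibSM47 Pool.Agent.LibSM56

/-- The statement of section (B): one modulus `m ≤ T^{1/2}`. -/
def BMain : Prop := ∀ η ε₁ δ : ℝ, 0 < η → 0 < ε₁ → 0 < δ → δ ≤ 1 / 100 → ∃ C T₀ : ℝ, 0 < C ∧ ∀ T : ℝ, T₀ ≤ T →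
  ∀ u : ℝ, ε₁ * T ≤ u → u ≤ T → ∀ m N : ℕ, 1 ≤ m → (m : ℝ) ^ 2 ≤ T → (m : ℝ) * N ≤ T → ∀ β : ℕ → ℂ, (∀ n, ‖β n‖ ≤ 1) →
    ‖∑ n ∈ (Finset.Icc 1 N).filter (fun n => Nat.Coprime m n), β n * (((n : ℝ) ^ (-(1 / 2) : ℝ) : ℝ) : ℂ) * VV T (T ^ (1 - δ)) u m n‖ ≤
      C * T ^ (-(1 / 2) + η + 6 * δ) * √((m : ℝ) + N)

/-- the part of the weight which depends on `m` -/
private noncomputable def X3_A (a b : ℝ → ℝ) (T : ℝ) (m : ℕ) : ℝ :=
  ∑ x ∈ m.divisorsAntidiagonal, (Nat.totient x.1 : ℝ) / x.1 *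
    (a (Real.log x.1 / Real.log T) * b (Real.log x.2 / Real.log T))

private theorem X3_cP (a b c : ℝ → ℝ) (T : ℝ) (m n : ℕ) :
    cP (bx a b c) T (m, n) = (m : ℝ) ^ (-(1 / 2) : ℝ) * (n : ℝ) ^ (-(1 / 2) : ℝ) *
      (X3_A a b T m * c (Real.log n / Real.log T)) := by
  unfold cP X3_A bx
  simp only
  rw [Real.mul_rpow (Nat.cast_nonneg _) (Nat.cast_nonneg _), Finset.sum_mul]
  congr 1
  refine Finset.sum_congr rfl fun x _ => ?_
  ring

private theorem X3_A_le (a b : ℝ → ℝ) (T M : ℝ) (hM : 0 ≤ M) (ha : ∀ t, |a t| ≤ M) (hb : ∀ t, |b t| ≤ M) (m : ℕ) :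
    |X3_A a b T m| ≤ M ^ 2 * hh m := by
  unfold X3_A hh
  rw [← Nat.sum_divisorsAntidiagonal (f := fun d _ => (Nat.totient d : ℝ) / d) (n := m), Finset.mul_sum]
  refine (Finset.abs_sum_le_sum_abs _ _).trans (Finset.sum_le_sum fun x _ => ?_)
  have h0 : (0 : ℝ) ≤ (Nat.totient x.1 : ℝ) / x.1 := by positivity
  rw [abs_mul, abs_of_nonneg h0, abs_mul, mul_comm (M ^ 2), pow_two]
  exact mul_le_mul_of_nonneg_left (mul_le_mul (ha _) (hb _) (abs_nonneg _) hM) h0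

private theorem X3_mem {m : ℕ} {x : ℕ × ℕ} (hx : x ∈ m.divisorsAntidiagonal) :
    x.1 * x.2 = m ∧ 1 ≤ x.1 ∧ 1 ≤ x.2 := by
  obtain ⟨h1, h2⟩ := Nat.mem_divisorsAntidiagonal.1 hx
  refine ⟨h1, ?_, ?_⟩
  · rcases Nat.eq_zero_or_pos x.1 with h | h
    · rw [h, zero_mul] at h1
      exact absurd h1.symm h2
    · exact h
  · rcases Nat.eq_zero_or_pos x.2 with h | h
    · rw [h, mul_zero] at h1
      exact absurd h1.symm h2
    · exact h

/-- from a bound for the logarithm to a bound for the number -/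
private theorem X3_exp {T : ℝ} (hT : 1 < T) {x s : ℝ} (hx : 0 < x) (h : Real.log x / Real.log T ≤ s) : x ≤ T ^ s := by
  have hL : 0 < Real.log T := Real.log_pos hT
  rw [div_le_iff₀ hL] at h
  rw [← Real.log_le_log_iff hx (Real.rpow_pos_of_pos (by linarith) _), Real.log_rpow (by linarith)]
  exact h

theorem VVOK_of_BMain (hB : BMain) (a b c : ℝ → ℝ) (hc : Continuous c) (ε : ℝ) (hε : 0 < ε) (hε' : ε ≤ 1 / 10)
    (hP : AdmP ε (bx a b c)) (hM : ∃ M : ℝ, ∀ t, |a t| ≤ M ∧ |b t| ≤ M ∧ |c t| ≤ M)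
    (hs : ∀ z z' y : ℝ, 0 ≤ z → 0 ≤ z' → 0 ≤ y → bx a b c (z, z', y) ≠ 0 → z + z' ≤ 1 / 2 - ε) : VVOK (bx a b c) := by
  classical
  obtain ⟨M0, hM0⟩ := hM
  set M : ℝ := max M0 1 with hMdef
  have hM1 : 1 ≤ M := le_max_right _ _
  have hMa : ∀ t, |a t| ≤ M := fun t => (hM0 t).1.trans (le_max_left _ _)
  have hMb : ∀ t, |b t| ≤ M := fun t => (hM0 t).2.1.trans (le_max_left _ _)
  have hMc : ∀ t, |c t| ≤ M := fun t => (hM0 t).2.2.trans (le_max_left _ _)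
  intro ε₁ hε₁
  refine ⟨ε / 1000, by positivity, fun δ hδ hδ' => ?_⟩
  obtain ⟨C1, T1, hC1, h1⟩ := hB (ε / 16) ε₁ δ (by positivity) hε₁ hδ (by linarith)
  obtain ⟨C2, hC2, h2⟩ := card_div_le (ε / 16) (by positivity)
  refine ⟨3 * (C2 * M ^ 3 * C1), max T1 3, fun T hT u hu1 hu2 => ?_⟩
  have hT1 : T1 ≤ T := (le_max_left _ _).trans hT
  have hT3 : 3 ≤ T := (le_max_right _ _).trans hT
  have hTp : 0 < T := by linarith
  have hL1 : 1 ≤ Real.log T := by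
    have h := Real.exp_one_lt_d9
    rw [Real.le_log_iff_exp_le hTp]
    linarith
  have hL0 : 0 < Real.log T := by linarith
  set B : ℝ := C2 * M ^ 3 * C1 * T ^ (-(1 / 2) + ε / 8 + 6 * δ) with hBdef
  have hB0 : 0 ≤ B := by positivity
  set g : ℕ → ℝ := fun m => if (m : ℝ) ≤ T ^ (1 / 2 - ε) then B * (1 + T ^ ((1 - ε) / 2) * (m : ℝ)⁻¹) else 0 with hg
  have hg0 : ∀ m, 0 ≤ g m := by
    intro m
    simp only [hg]
    split_ifs
    · positivity
    · exact le_refl 0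
  -- one modulus
  have key : ∀ m ∈ Finset.Icc 1 ⌊T⌋₊, |∑ n ∈ Finset.Icc 1 ⌊T⌋₊, if Nat.Coprime m n then
      cP (bx a b c) T (m, n) * (VV T (T ^ (1 - δ)) u m n).re else 0| ≤ g m := by
    intro m hm
    obtain ⟨hm1, hm2⟩ := Finset.mem_Icc.1 hm
    rw [Nat.le_floor_iff hTp.le] at hm2
    have hmR : (1 : ℝ) ≤ m := by exact_mod_cast hm1
    have hm0 : (0 : ℝ) < m := by linarith
    by_cases hall : ∀ n ∈ Finset.Icc 1 ⌊T⌋₊, X3_A a b T m * c (Real.log n / Real.log T) = 0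
    · rw [Finset.sum_eq_zero, abs_zero]
      · exact hg0 m
      · intro n hn
        split_ifs
        · rw [X3_cP, hall n hn, mul_zero, zero_mul]
        · rfl
    push Not at hall
    obtain ⟨n0, hn0, hne⟩ := hall
    have hA := left_ne_zero_of_mul hne
    have hc0 := right_ne_zero_of_mul hne
    obtain ⟨x, hx, hxne⟩ := Finset.exists_ne_zero_of_sum_ne_zero hA
    have hab := right_ne_zero_of_mul hxne
    obtain ⟨hx1, hx2, hx3⟩ := X3_mem hx
    have hx2R : (1 : ℝ) ≤ x.1 := by exact_mod_cast hx2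
    have hx3R : (1 : ℝ) ≤ x.2 := by exact_mod_cast hx3
    have hlog : Real.log x.1 / Real.log T + Real.log x.2 / Real.log T = Real.log m / Real.log T := by
      rw [← add_div, ← Real.log_mul (by positivity) (by positivity), ← hx1]
      push_cast
      rfl
    have hz0 : 0 ≤ Real.log x.1 / Real.log T := div_nonneg (Real.log_nonneg hx2R) hL0.le
    have hz1 : 0 ≤ Real.log x.2 / Real.log T := div_nonneg (Real.log_nonneg hx3R) hL0.le
    have hmT : (m : ℝ) ≤ T ^ (1 / 2 - ε) := by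
      obtain ⟨hn1, -⟩ := Finset.mem_Icc.1 hn0
      have hn1R : (1 : ℝ) ≤ n0 := by exact_mod_cast hn1
      have h3 := hs _ _ _ hz0 hz1 (div_nonneg (Real.log_nonneg hn1R) hL0.le)
        (show bx a b c (Real.log x.1 / Real.log T, Real.log x.2 / Real.log T, Real.log n0 / Real.log T) ≠ 0 from
          mul_ne_zero hab hc0)
      rw [hlog] at h3
      exact X3_exp (by linarith) hm0 h3
    have hsup : ∀ n : ℕ, 1 ≤ n → c (Real.log n / Real.log T) ≠ 0 → (m : ℝ) * n ≤ T ^ (1 - ε) := by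
      intro n hn hcn
      have hn1R : (1 : ℝ) ≤ n := by exact_mod_cast hn
      obtain ⟨-, -, h3⟩ := hP
      obtain ⟨h4, -, -⟩ := h3 _ _ _ hz0 hz1 (div_nonneg (Real.log_nonneg hn1R) hL0.le)
        (show bx a b c (Real.log x.1 / Real.log T, Real.log x.2 / Real.log T, Real.log n / Real.log T) ≠ 0 from
          mul_ne_zero hab hcn)
      rw [hlog, ← add_div, ← Real.log_mul (by positivity) (by positivity)] at h4
      exact X3_exp (by linarith) (by positivity) h4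
    set N : ℕ := ⌊T ^ (1 - ε) / m⌋₊ with hN
    have hTe : T ^ (1 - ε) ≤ T := by
      conv_rhs => rw [← Real.rpow_one T]
      exact Real.rpow_le_rpow_of_exponent_le (by linarith) (by linarith)
    have hNle : (N : ℝ) ≤ T ^ (1 - ε) / m := Nat.floor_le (by positivity)
    have hmN : (m : ℝ) * N ≤ T := by
      have := mul_le_mul_of_nonneg_left hNle hm0.le
      rw [mul_div_cancel₀ _ hm0.ne'] at this
      exact this.trans hTe
    have hNT : N ≤ ⌊T⌋₊ := by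
      apply Nat.floor_le_floor
      exact (div_le_self (by positivity) hmR).trans hTe
    have hm2' : (m : ℝ) ^ 2 ≤ T := by
      have h3 : (m : ℝ) ^ 2 ≤ (T ^ (1 / 2 - ε)) ^ 2 := pow_le_pow_left₀ hm0.le hmT 2
      rw [← Real.rpow_natCast (T ^ (1 / 2 - ε)) 2, ← Real.rpow_mul hTp.le] at h3
      refine h3.trans ?_
      conv_rhs => rw [← Real.rpow_one T]
      exact Real.rpow_le_rpow_of_exponent_le (by linarith) (by push_cast; linarith)
    set β : ℕ → ℂ := fun n => ((c (Real.log n / Real.log T) / M : ℝ) : ℂ) with hβ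
    have hβ1 : ∀ n, ‖β n‖ ≤ 1 := by
      intro n
      simp only [hβ, Complex.norm_real, Real.norm_eq_abs, abs_div, abs_of_nonneg (by linarith : (0 : ℝ) ≤ M)]
      rw [div_le_one (by linarith)]
      exact hMc _
    have hmain := h1 T hT1 u hu1 hu2 m N hm1 hm2' hmN β hβ1
    set Sg : ℂ := ∑ n ∈ (Finset.Icc 1 N).filter (fun n => Nat.Coprime m n),
      β n * (((n : ℝ) ^ (-(1 / 2) : ℝ) : ℝ) : ℂ) * VV T (T ^ (1 - δ)) u m n with hSg
    have hsum : ∑ n ∈ Finset.Icc 1 ⌊T⌋₊, (if Nat.Coprime m n then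
        cP (bx a b c) T (m, n) * (VV T (T ^ (1 - δ)) u m n).re else 0) =
        (m : ℝ) ^ (-(1 / 2) : ℝ) * X3_A a b T m * M * Sg.re := by
      rw [← Finset.sum_filter, hSg, Complex.re_sum, Finset.mul_sum]
      symm
      refine Finset.sum_subset_zero_on_sdiff ?_ ?_ ?_
      · apply Finset.filter_subset_filter
        exact Finset.Icc_subset_Icc_right hNT
      · intro n hn
        obtain ⟨hn1, hn2⟩ := Finset.mem_sdiff.1 hn
        obtain ⟨hn3, hn4⟩ := Finset.mem_filter.1 hn1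
        obtain ⟨hn5, -⟩ := Finset.mem_Icc.1 hn3
        have hc0 : c (Real.log n / Real.log T) = 0 := by
          by_contra hcn
          apply hn2
          rw [Finset.mem_filter, Finset.mem_Icc]
          refine ⟨⟨hn5, ?_⟩, hn4⟩
          apply Nat.le_floor
          rw [le_div_iff₀ hm0, mul_comm]
          exact hsup n hn5 hcn
        rw [X3_cP, hc0, mul_zero, mul_zero, zero_mul]
      · intro n _
        rw [X3_cP, hβ]
        simp only
        rw [← Complex.ofReal_mul, Complex.re_ofReal_mul]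
        field_simp
    rw [hsum]
    have hSre : |Sg.re| ≤ C1 * T ^ (-(1 / 2) + ε / 16 + 6 * δ) * √((m : ℝ) + N) :=
      (Complex.abs_re_le_norm _).trans hmain
    have hhm : hh m ≤ C2 * T ^ (ε / 16) := by
      refine (hh_le_card m).trans ((h2 m hm1).trans ?_)
      exact mul_le_mul_of_nonneg_left (Real.rpow_le_rpow hm0.le hm2 (by positivity)) hC2.le
    have hAm : |X3_A a b T m| ≤ M ^ 2 * (C2 * T ^ (ε / 16)) :=
      (X3_A_le a b T M (by linarith) hMa hMb m).trans (mul_le_mul_of_nonneg_left hhm (by positivity))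
    have hsq : (m : ℝ) ^ (-(1 / 2) : ℝ) * √((m : ℝ) + N) ≤ 1 + T ^ ((1 - ε) / 2) * (m : ℝ)⁻¹ := by
      have e1 : (m : ℝ) ^ (-(1 / 2) : ℝ) = (√(m : ℝ))⁻¹ := by
        rw [Real.rpow_neg hm0.le, Real.sqrt_eq_rpow]
      have hsm : 0 < √(m : ℝ) := Real.sqrt_pos.2 hm0
      have e2 : √((m : ℝ) + N) ≤ √(m : ℝ) + √(N : ℝ) := by
        rw [Real.sqrt_le_left (by positivity)]
        nlinarith [Real.sq_sqrt hm0.le, Real.sq_sqrt (Nat.cast_nonneg (α := ℝ) N),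
          mul_nonneg hsm.le (Real.sqrt_nonneg (N : ℝ))]
      have e3 : √(N : ℝ) ≤ T ^ ((1 - ε) / 2) / √(m : ℝ) := by
        refine (Real.sqrt_le_sqrt hNle).trans (le_of_eq ?_)
        rw [Real.sqrt_div' _ hm0.le, Real.sqrt_eq_rpow, ← Real.rpow_mul hTp.le]
        congr 2
        ring
      rw [e1]
      calc (√(m : ℝ))⁻¹ * √((m : ℝ) + N) ≤ (√(m : ℝ))⁻¹ * (√(m : ℝ) + T ^ ((1 - ε) / 2) / √(m : ℝ)) :=
            mul_le_mul_of_nonneg_left (by linarith) (by positivity)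
        _ = 1 + T ^ ((1 - ε) / 2) * (m : ℝ)⁻¹ := by
            have e4 : (m : ℝ)⁻¹ = (√(m : ℝ))⁻¹ * (√(m : ℝ))⁻¹ := by
              rw [← mul_inv, Real.mul_self_sqrt hm0.le]
            rw [e4]
            field_simp
    simp only [hg]
    rw [if_pos hmT, abs_mul, abs_mul, abs_mul, abs_of_nonneg (by linarith : (0 : ℝ) ≤ M),
      abs_of_nonneg (by positivity : (0 : ℝ) ≤ (m : ℝ) ^ (-(1 / 2) : ℝ))]
    have hTT : T ^ (ε / 16) * T ^ (-(1 / 2) + ε / 16 + 6 * δ) = T ^ (-(1 / 2) + ε / 8 + 6 * δ) := by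
      rw [← Real.rpow_add hTp]
      congr 1
      ring
    calc (m : ℝ) ^ (-(1 / 2) : ℝ) * |X3_A a b T m| * M * |Sg.re|
        ≤ (m : ℝ) ^ (-(1 / 2) : ℝ) * (M ^ 2 * (C2 * T ^ (ε / 16))) * M *
          (C1 * T ^ (-(1 / 2) + ε / 16 + 6 * δ) * √((m : ℝ) + N)) := by
          gcongr
      _ = C2 * M ^ 3 * C1 * (T ^ (ε / 16) * T ^ (-(1 / 2) + ε / 16 + 6 * δ)) *
          ((m : ℝ) ^ (-(1 / 2) : ℝ) * √((m : ℝ) + N)) := by ring
      _ = B * ((m : ℝ) ^ (-(1 / 2) : ℝ) * √((m : ℝ) + N)) := by rw [hTT]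
      _ ≤ B * (1 + T ^ ((1 - ε) / 2) * (m : ℝ)⁻¹) := mul_le_mul_of_nonneg_left hsq hB0
  -- summation over the moduli
  have hsplit : ∑ q ∈ idx T, cP (bx a b c) T q * (VV T (T ^ (1 - δ)) u q.1 q.2).re =
      ∑ m ∈ Finset.Icc 1 ⌊T⌋₊, ∑ n ∈ Finset.Icc 1 ⌊T⌋₊, if Nat.Coprime m n then
        cP (bx a b c) T (m, n) * (VV T (T ^ (1 - δ)) u m n).re else 0 := by
    unfold idx
    rw [Finset.sum_filter, Finset.sum_product]
  rw [hsplit]
  have hsumg : ∑ m ∈ Finset.Icc 1 ⌊T⌋₊, g m ≤ B * (T ^ (1 / 2 - ε) + T ^ ((1 - ε) / 2) * (1 + Real.log T)) := by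
    simp only [hg]
    rw [← Finset.sum_filter, ← Finset.mul_sum, Finset.sum_add_distrib, ← Finset.mul_sum]
    refine mul_le_mul_of_nonneg_left (add_le_add ?_ (mul_le_mul_of_nonneg_left ?_ (by positivity))) hB0
    · rw [Finset.sum_const, nsmul_eq_mul, mul_one]
      have hsub : (Finset.Icc 1 ⌊T⌋₊).filter (fun m : ℕ => (m : ℝ) ≤ T ^ (1 / 2 - ε)) ⊆
          Finset.Icc 1 ⌊T ^ (1 / 2 - ε)⌋₊ := by
        intro m hm
        obtain ⟨h3, h4⟩ := Finset.mem_filter.1 hm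
        exact Finset.mem_Icc.2 ⟨(Finset.mem_Icc.1 h3).1, Nat.le_floor h4⟩
      have h5 := Finset.card_le_card hsub
      rw [Nat.card_Icc, Nat.add_sub_cancel] at h5
      have h6 : ((⌊T ^ (1 / 2 - ε)⌋₊ : ℕ) : ℝ) ≤ T ^ (1 / 2 - ε) := Nat.floor_le (by positivity)
      exact le_trans (by exact_mod_cast h5) h6
    · have h6 := harmonic_le_one_add_log ⌊T⌋₊
      rw [harmonic_eq_sum_Icc] at h6
      push_cast at h6
      have h7 : Real.log (⌊T⌋₊ : ℝ) ≤ Real.log T := by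
        rcases Nat.eq_zero_or_pos ⌊T⌋₊ with h | h
        · rw [h, Nat.cast_zero, Real.log_zero]
          exact hL0.le
        · exact Real.log_le_log (by exact_mod_cast h) (Nat.floor_le hTp.le)
      refine le_trans (Finset.sum_le_sum_of_subset_of_nonneg (Finset.filter_subset _ _) fun m _ _ => ?_) (h6.trans ?_)
      · positivity
      · linarith
  have hlow : T ^ (1 / 2 - ε) ≤ T ^ ((1 - ε) / 2) :=
    Real.rpow_le_rpow_of_exponent_le (by linarith) (by linarith)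
  have hBT : B * T ^ ((1 - ε) / 2) ≤ C2 * M ^ 3 * C1 := by
    rw [hBdef, mul_assoc, ← Real.rpow_add hTp]
    have h3 : T ^ (-(1 / 2) + ε / 8 + 6 * δ + (1 - ε) / 2) ≤ 1 :=
      Real.rpow_le_one_of_one_le_of_nonpos (by linarith) (by linarith)
    have h4 : (0 : ℝ) ≤ C2 * M ^ 3 * C1 := by positivity
    calc C2 * M ^ 3 * C1 * T ^ (-(1 / 2) + ε / 8 + 6 * δ + (1 - ε) / 2) ≤ C2 * M ^ 3 * C1 * 1 :=
          mul_le_mul_of_nonneg_left h3 h4
      _ = C2 * M ^ 3 * C1 := mul_one _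
  have hpow : Real.log T ≤ Real.log T ^ 6 := le_self_pow₀ hL1 (by norm_num)
  have hK : (0 : ℝ) ≤ C2 * M ^ 3 * C1 := by positivity
  calc |∑ m ∈ Finset.Icc 1 ⌊T⌋₊, ∑ n ∈ Finset.Icc 1 ⌊T⌋₊, if Nat.Coprime m n then
        cP (bx a b c) T (m, n) * (VV T (T ^ (1 - δ)) u m n).re else 0|
      ≤ ∑ m ∈ Finset.Icc 1 ⌊T⌋₊, |∑ n ∈ Finset.Icc 1 ⌊T⌋₊, if Nat.Coprime m n then
        cP (bx a b c) T (m, n) * (VV T (T ^ (1 - δ)) u m n).re else 0| := Finset.abs_sum_le_sum_abs _ _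
    _ ≤ ∑ m ∈ Finset.Icc 1 ⌊T⌋₊, g m := Finset.sum_le_sum key
    _ ≤ B * (T ^ (1 / 2 - ε) + T ^ ((1 - ε) / 2) * (1 + Real.log T)) := hsumg
    _ ≤ B * (T ^ ((1 - ε) / 2) + T ^ ((1 - ε) / 2) * (1 + Real.log T)) :=
        mul_le_mul_of_nonneg_left (by linarith) hB0
    _ = (B * T ^ ((1 - ε) / 2)) * (2 + Real.log T) := by ring
    _ ≤ (C2 * M ^ 3 * C1) * (2 + Real.log T) := mul_le_mul_of_nonneg_right hBT (by linarith)
    _ ≤ (C2 * M ^ 3 * C1) * (3 * Real.log T ^ 6) := mul_le_mul_of_nonneg_left (by linarith) hK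
    _ = 3 * (C2 * M ^ 3 * C1) * Real.log T ^ 6 := by ring

/-- Points with `z + z' < 1/2` are good. -/
theorem goodAt_B (hB : BMain) (x : ℝ × ℝ × ℝ) (hx : x ∈ Base) (h : x.1 + x.2.1 < 1 / 2) : GoodAt x := by
  obtain ⟨κ₀, hκ₀, ε, hε, hε', hadm⟩ := bx_adm x hx
  set ε2 : ℝ := min ε ((1 / 2 - (x.1 + x.2.1)) / 2) with hε2
  have hε2p : 0 < ε2 := lt_min hε (by linarith)
  set κ : ℝ := min κ₀ (ε2 / 2) with hκ
  have hκp : 0 < κ := lt_min hκ₀ (by positivity)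
  apply goodAt_of_VVOK x hx
  refine ⟨κ, hκp, fun a b c ha hb hc h1 h2 h3 => ?_⟩
  obtain ⟨hA, hM⟩ := hadm κ hκp (min_le_left _ _) a b c ha.continuous hb.continuous hc.continuous h1 h2 h3
  have hA2 : AdmP ε2 (bx a b c) := by
    obtain ⟨k1, k2, k3⟩ := hA
    refine ⟨k1, k2, fun z z' y hz hz' hy hne => ?_⟩
    obtain ⟨k4, k5, k6⟩ := k3 z z' y hz hz' hy hne
    have := min_le_left ε ((1 / 2 - (x.1 + x.2.1)) / 2)
    refine ⟨?_, ?_, ?_⟩ <;> linarith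
  refine VVOK_of_BMain hB a b c hc.continuous ε2 hε2p ((min_le_left _ _).trans hε') hA2 hM ?_
  intro z z' y hz hz' hy hne
  have hne' : a z * b z' * c y ≠ 0 := hne
  have ha0 : a z ≠ 0 := fun h0 => hne' (by rw [h0, zero_mul, zero_mul])
  have hb0 : b z' ≠ 0 := fun h0 => hne' (by rw [h0, mul_zero, zero_mul])
  have k1 : |z - x.1| < κ := by
    by_contra hcon
    exact ha0 (h1 z (not_lt.1 hcon))
  have k2 : |z' - x.2.1| < κ := by
    by_contra hcon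
    exact hb0 (h2 z' (not_lt.1 hcon))
  have k3 := (abs_lt.1 k1).2
  have k4 := (abs_lt.1 k2).2
  have k5 : κ ≤ ε2 / 2 := min_le_right _ _
  have k6 : ε2 ≤ (1 / 2 - (x.1 + x.2.1)) / 2 := min_le_right _ _
  linarith

end Pool.Agent.LibSM56A
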