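import Pool.Agent.LibSM56A.A_Defs
import Pool.Agent.LibSM47.D_D5

/-! ROW A_G2 (MEDIUM): `Γ(s) h_b(s)` in the strip `0 < Re s < 1` (free line).

`0 < x < 1`: `‖Γ(x+iy)‖ e^{π|y|/2} ≤ C (1+|y|)²` uniformly for `x ∈ [c₁, c₂] ⊂ (0,1)`: `Γ(s) Γ(5/2-x) = B(s, 5/2-x) Γ(5/2+iy)`, `|B| ≤ B(x, 5/2-x)`, or `gam_bd` with
`θ = π/2 - 1/(1+|y|)` as in the proof of `SD.Gamma_up` (LibSM47/D_D5.lean). Same for `1-x`. Then
`‖gG‖ ≤ ‖Γ(s)‖ ‖Γ(1-s)‖³ e^{3π|y|/2} ≤ C (1+|y|)^8 e^{-π|y|/2}` (`‖(2π)^{3s-3}‖ ≤ 1`). -/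

set_option autoImplicit false

namespace Pool.Agent.LibSM56A

open MeasureTheory Set Filter Topology Complex
open Pool.Agent.LibSM47

private theorem A_G2_up (c₁ c₂ : ℝ) (h0 : 0 < c₁) (h1 : c₂ < 1) : ∃ C : ℝ, 0 < C ∧
    ∀ x ∈ Icc c₁ c₂, ∀ y : ℝ,
    ‖Complex.Gamma (line x y)‖ * Real.exp (Real.pi / 2 * |y|) ≤ C * (1 + |y|) ^ 2 := by
  have hcont : ContinuousOn Real.Gamma (Icc c₁ c₂) := by
    intro x hx
    refine (Real.differentiableAt_Gamma fun m => ?_).continuousAt.continuousWithinAt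
    have h2 : 0 < x := h0.trans_le hx.1
    have h3 : (0 : ℝ) ≤ m := Nat.cast_nonneg m
    linarith
  obtain ⟨M, hM⟩ := isCompact_Icc.exists_bound_of_continuousOn hcont
  refine ⟨Real.exp 1 * (max M 1 * (Real.pi / 2) ^ 2), by positivity, fun x hx y => ?_⟩
  have hx0 : 0 < x := h0.trans_le hx.1
  have hx1 : x < 1 := hx.2.trans_lt h1
  have hGx : Real.Gamma x ≤ max M 1 := by
    have h2 := hM x hx
    rw [Real.norm_eq_abs] at h2
    exact ((le_abs_self _).trans h2).trans (le_max_left _ _)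
  set u : ℝ := 1 / (1 + |y|) with hu
  have hy : 0 ≤ |y| := abs_nonneg y
  have hu0 : 0 < u := by positivity
  have hu1 : u ≤ 1 := by
    rw [hu, div_le_one (by linarith)]
    linarith
  have hpi : 3 < Real.pi := Real.pi_gt_three
  set w : ℝ := Real.pi / 2 - u with hw
  have hw0 : 0 < w := by rw [hw]; linarith
  have hw1 : w < Real.pi / 2 := by rw [hw]; linarith
  have hcosw : Real.cos w = Real.sin u := by rw [hw, Real.cos_pi_div_two_sub]
  obtain ⟨θ, hθ, hθy, hcos⟩ : ∃ θ : ℝ, |θ| < Real.pi / 2 ∧ y * θ = |y| * w ∧ Real.cos θ = Real.sin u := by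
    rcases le_total 0 y with h | h
    · exact ⟨w, by rwa [abs_of_pos hw0], by rw [abs_of_nonneg h], hcosw⟩
    · refine ⟨-w, by rwa [abs_neg, abs_of_pos hw0], by rw [abs_of_nonpos h]; ring, ?_⟩
      rw [Real.cos_neg, hcosw]
  have hre : (line x y).re = x := by simp [line]
  have him : (line x y).im = y := by simp [line]
  have h1 := Pool.Agent.LibPH.gam_bd (s := line x y) (by rw [hre]; exact hx0) hθ
  rw [hre, him, hθy, hcos] at h1
  have h2 : Real.pi / 2 * |y| ≤ 1 + |y| * w := by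
    have h3 : |y| * u ≤ 1 := by
      rw [hu, mul_one_div, div_le_one (by linarith)]
      linarith
    rw [hw]
    nlinarith
  have h4 : Real.exp (Real.pi / 2 * |y|) ≤ Real.exp 1 * Real.exp (|y| * w) := by
    rw [← Real.exp_add]
    exact Real.exp_le_exp.2 h2
  have h5 : 2 / Real.pi * u ≤ Real.sin u := Real.mul_le_sin hu0.le (by linarith)
  have h6 : 0 < 2 / Real.pi * u := by positivity
  have h7 : Real.sin u ^ (-x) ≤ (2 / Real.pi * u) ^ (-x) :=
    Real.rpow_le_rpow_of_nonpos h6 h5 (by linarith)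
  have h8 : (2 / Real.pi * u) ^ (-x) = (Real.pi / 2 * (1 + |y|)) ^ x := by
    rw [Real.rpow_neg h6.le, ← Real.inv_rpow h6.le]
    congr 1
    rw [hu]
    field_simp
  have h9 : 1 ≤ Real.pi / 2 * (1 + |y|) := by nlinarith
  have h10 : (Real.pi / 2 * (1 + |y|)) ^ x ≤ (Real.pi / 2 * (1 + |y|)) ^ (2 : ℝ) :=
    Real.rpow_le_rpow_of_exponent_le h9 (by linarith)
  have h11 : (Real.pi / 2 * (1 + |y|)) ^ (2 : ℝ) = (Real.pi / 2) ^ 2 * (1 + |y|) ^ 2 := by
    rw [Real.rpow_two, mul_pow]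
  have h12 : Real.sin u ^ (-x) ≤ (Real.pi / 2) ^ 2 * (1 + |y|) ^ 2 := by
    rw [← h11]
    exact h7.trans (h8.le.trans h10)
  have hs0 : 0 ≤ Real.sin u ^ (-x) := Real.rpow_nonneg (h6.le.trans h5) _
  have hG0 : 0 < Real.Gamma x := Real.Gamma_pos_of_pos hx0
  calc ‖Complex.Gamma (line x y)‖ * Real.exp (Real.pi / 2 * |y|)
      ≤ ‖Complex.Gamma (line x y)‖ * (Real.exp 1 * Real.exp (|y| * w)) :=
        mul_le_mul_of_nonneg_left h4 (norm_nonneg _)
    _ = Real.exp 1 * (‖Complex.Gamma (line x y)‖ * Real.exp (|y| * w)) := by ring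
    _ ≤ Real.exp 1 * (Real.Gamma x * Real.sin u ^ (-x)) :=
        mul_le_mul_of_nonneg_left h1 (Real.exp_pos 1).le
    _ ≤ Real.exp 1 * (max M 1 * ((Real.pi / 2) ^ 2 * (1 + |y|) ^ 2)) := by
        refine mul_le_mul_of_nonneg_left ?_ (Real.exp_pos 1).le
        exact mul_le_mul hGx h12 hs0 (hG0.le.trans hGx)
    _ = Real.exp 1 * (max M 1 * (Real.pi / 2) ^ 2) * (1 + |y|) ^ 2 := by ring

private theorem A_G2_exp (b : B3) (s : ℂ) :
    ‖cexp (((SD.sg b.1 : ℂ) + SD.sg b.2.1 + SD.sg b.2.2) * Real.pi * I * s / 2)‖ ≤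
      Real.exp (Real.pi / 2 * |s.im|) ^ 3 := by
  rw [Complex.norm_exp, ← Real.exp_nat_mul]
  refine Real.exp_le_exp.2 ?_
  have h1 : (((SD.sg b.1 : ℂ) + SD.sg b.2.1 + SD.sg b.2.2) * Real.pi * I * s / 2).re =
      -(((SD.sg b.1 : ℝ) + SD.sg b.2.1 + SD.sg b.2.2) * Real.pi * s.im / 2) := by
    have h2 : ((SD.sg b.1 : ℂ) + SD.sg b.2.1 + SD.sg b.2.2) * Real.pi * I * s / 2 =
        ((((SD.sg b.1 : ℝ) + SD.sg b.2.1 + SD.sg b.2.2) * Real.pi / 2 : ℝ) : ℂ) * (I * s) := by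
      push_cast
      ring
    rw [h2, Complex.re_ofReal_mul, Complex.I_mul_re]
    ring
  rw [h1]
  have h3 : |((SD.sg b.1 : ℝ) + SD.sg b.2.1 + SD.sg b.2.2)| ≤ 3 := by
    have h4 : ∀ c : Bool, |(SD.sg c : ℝ)| ≤ 1 := by
      intro c
      cases c <;> simp [SD.sg]
    have h5 := abs_add_le ((SD.sg b.1 : ℝ) + SD.sg b.2.1) (SD.sg b.2.2 : ℝ)
    have h6 := abs_add_le (SD.sg b.1 : ℝ) (SD.sg b.2.1 : ℝ)
    linarith [h4 b.1, h4 b.2.1, h4 b.2.2]
  have h7 : -(((SD.sg b.1 : ℝ) + SD.sg b.2.1 + SD.sg b.2.2) * Real.pi * s.im / 2) ≤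
      |((SD.sg b.1 : ℝ) + SD.sg b.2.1 + SD.sg b.2.2) * Real.pi * s.im / 2| := neg_le_abs _
  have h8 : |((SD.sg b.1 : ℝ) + SD.sg b.2.1 + SD.sg b.2.2) * Real.pi * s.im / 2| =
      |((SD.sg b.1 : ℝ) + SD.sg b.2.1 + SD.sg b.2.2)| * (Real.pi / 2 * |s.im|) := by
    rw [abs_div, abs_mul, abs_mul, abs_of_pos Real.pi_pos, abs_of_pos (by norm_num : (0 : ℝ) < 2)]
    ring
  have h9 : 0 ≤ Real.pi / 2 * |s.im| := by positivity
  have h10 := mul_le_mul_of_nonneg_right h3 h9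
  push_cast
  linarith

theorem gG_mid_strip (c₁ c₂ : ℝ) (h0 : 0 < c₁) (h1 : c₂ < 1) : ∃ C : ℝ, 0 < C ∧ ∀ (b : B3), ∀ x ∈ Icc c₁ c₂, ∀ y : ℝ,
    ‖gG b (line x y)‖ ≤ C * (1 + |y|) ^ 8 * Real.exp (-(Real.pi / 2 * |y|)) := by
  obtain ⟨C1, hC1, H1⟩ := A_G2_up c₁ c₂ h0 h1
  obtain ⟨C2, hC2, H2⟩ := A_G2_up (1 - c₂) (1 - c₁) (by linarith) (by linarith)
  refine ⟨C1 * C2 ^ 3, by positivity, fun b x hx y => ?_⟩
  have hsub : 1 - line x y = line (1 - x) (-y) := by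
    unfold line
    push_cast
    ring
  have K1 := H1 x hx y
  have K2 := H2 (1 - x) ⟨by linarith [hx.2], by linarith [hx.1]⟩ (-y)
  rw [← hsub, abs_neg] at K2
  have hE := A_G2_exp b (1 - line x y)
  have him : (1 - line x y).im = -y := by rw [hsub]; simp [line]
  rw [him, abs_neg] at hE
  have hP : ‖(2 * Real.pi : ℂ) ^ (3 * line x y - 3)‖ ≤ 1 := by
    have h3 : (2 * Real.pi : ℂ) = ((2 * Real.pi : ℝ) : ℂ) := by push_cast; rfl
    rw [h3, Complex.norm_cpow_eq_rpow_re_of_pos (by positivity)]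
    have h4 : (3 * line x y - 3).re = 3 * x - 3 := by simp [line]
    rw [h4]
    exact Real.rpow_le_one_of_one_le_of_nonpos (by linarith [Real.pi_gt_three])
      (by linarith [hx.2])
  set E : ℝ := Real.exp (Real.pi / 2 * |y|) with hEdef
  have hE0 : 0 < E := Real.exp_pos _
  have hEi : Real.exp (-(Real.pi / 2 * |y|)) = E⁻¹ := by rw [Real.exp_neg]
  unfold gG hb
  rw [norm_mul, norm_mul, norm_mul, norm_pow, hEi]
  set a := ‖Complex.Gamma (line x y)‖ with ha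
  set c := ‖Complex.Gamma (1 - line x y)‖ with hc
  have ha0 : 0 ≤ a := norm_nonneg _
  have hc0 : 0 ≤ c := norm_nonneg _
  have h5 : a * (‖(2 * Real.pi : ℂ) ^ (3 * line x y - 3)‖ * c ^ 3 *
      ‖cexp (((SD.sg b.1 : ℂ) + SD.sg b.2.1 + SD.sg b.2.2) * Real.pi * I * (1 - line x y) / 2)‖) ≤
      a * (1 * c ^ 3 * E ^ 3) := by
    refine mul_le_mul_of_nonneg_left ?_ ha0
    refine mul_le_mul ?_ hE (norm_nonneg _) (by positivity)
    exact mul_le_mul_of_nonneg_right hP (by positivity)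
  refine h5.trans ?_
  have h6 : a * (1 * c ^ 3 * E ^ 3) = (a * E) * (c * E) ^ 3 * E⁻¹ := by
    field_simp
  rw [h6]
  refine mul_le_mul_of_nonneg_right ?_ (inv_nonneg.2 hE0.le)
  calc (a * E) * (c * E) ^ 3 ≤ (C1 * (1 + |y|) ^ 2) * (C2 * (1 + |y|) ^ 2) ^ 3 := by
        gcongr
    _ = C1 * C2 ^ 3 * (1 + |y|) ^ 8 := by ring

private theorem A_G2_diff (b : B3) {s : ℂ} (h0 : 0 < s.re) (h1 : s.re < 1) :
    DifferentiableAt ℂ (gG b) s := by
  have hG : DifferentiableAt ℂ Complex.Gamma s := by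
    refine Complex.differentiableAt_Gamma s fun m hm => ?_
    have h2 := congrArg Complex.re hm
    rw [Complex.neg_re, Complex.natCast_re] at h2
    have h3 : (0 : ℝ) ≤ m := Nat.cast_nonneg m
    linarith
  have hG' : DifferentiableAt ℂ (fun s : ℂ => Complex.Gamma (1 - s)) s := by
    have h4 : DifferentiableAt ℂ Complex.Gamma (1 - s) := by
      refine Complex.differentiableAt_Gamma _ fun m hm => ?_
      have h2 := congrArg Complex.re hm
      rw [Complex.neg_re, Complex.natCast_re, Complex.sub_re, Complex.one_re] at h2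
      have h3 : (0 : ℝ) ≤ m := Nat.cast_nonneg m
      linarith
    exact h4.comp s ((differentiableAt_const _).sub differentiableAt_id)
  have hP : DifferentiableAt ℂ (fun s : ℂ => (2 * Real.pi : ℂ) ^ (3 * s - 3)) s := by
    refine DifferentiableAt.const_cpow (by fun_prop) (Or.inl ?_)
    exact mul_ne_zero two_ne_zero (Complex.ofReal_ne_zero.2 Real.pi_ne_zero)
  have hX : DifferentiableAt ℂ (fun s : ℂ => cexp (((SD.sg b.1 : ℂ) + SD.sg b.2.1 + SD.sg b.2.2) *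
      Real.pi * I * (1 - s) / 2)) s := by
    fun_prop
  exact hG.mul ((hP.mul (hG'.pow 3)).mul hX)

theorem gG_mid_cont (b : B3) {c : ℝ} (h0 : 0 < c) (h1 : c < 1) : Continuous (fun y : ℝ => gG b (line c y)) := by
  refine continuous_iff_continuousAt.2 fun y => ?_
  have hre : (line c y).re = c := by simp [line]
  have h2 : ContinuousAt (gG b) (line c y) :=
    (A_G2_diff b (by rw [hre]; exact h0) (by rw [hre]; exact h1)).continuousAt
  have h3 : ContinuousAt (fun y : ℝ => line c y) y := by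
    unfold line
    fun_prop
  exact ContinuousAt.comp (f := fun y : ℝ => line c y) (g := gG b) h2 h3

/-- `Γ h_b` is differentiable in the open strip. -/
theorem gG_mid_diff (b : B3) {s : ℂ} (h0 : 0 < s.re) (h1 : s.re < 1) : DifferentiableAt ℂ (gG b) s :=
  A_G2_diff b h0 h1

end Pool.Agent.LibSM56A
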