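import Pool.Agent.LibSM56A.A_K
import Pool.Agent.LibSM56A.A_G2
import Pool.Agent.LibPH.X02

/-! ROW A_B2 (MEDIUM): L¹ bounds of `Ω_b` on `Re s = c`, `0 < c < 1`. Same proof as row A_B (`Om_half`): `∫ (1+|y|)^B ‖gG‖ ‖K^{-s}‖ dy ≤ C ‖K‖^{-c} ρ^{B+9}`,
`‖K‖ ≥ Re K ≥ 1/T`, `nu_momN` with `N = B+9`. -/

set_option autoImplicit false

namespace Pool.Agent.LibSM56A

open MeasureTheory Set Filter Topology Complex
open Pool.Agent.LibSM47

private theorem abm_exp {a : ℝ} (ha : 0 < a) : Integrable (fun y : ℝ => Real.exp (-(a * |y|))) := by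
  rw [← integrableOn_univ, ← Set.Iic_union_Ioi (a := (0 : ℝ)), integrableOn_union]
  constructor
  · refine (integrableOn_exp_mul_Iic ha 0).congr_fun (fun y hy => ?_) measurableSet_Iic
    show Real.exp (a * y) = Real.exp (-(a * |y|))
    rw [abs_of_nonpos hy]
    ring_nf
  · refine (integrableOn_exp_mul_Ioi (a := -a) (neg_lt_zero.2 ha) 0).congr_fun
      (fun y hy => ?_) measurableSet_Ioi
    show Real.exp (-a * y) = Real.exp (-(a * |y|))
    rw [abs_of_pos hy]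
    ring_nf

private theorem abm_int {a : ℝ} (ha : 0 < a) : ∫ y : ℝ, Real.exp (-(a * |y|)) = 2 / a := by
  rw [integral_comp_abs (f := fun y => Real.exp (-(a * y)))]
  have h := integral_exp_mul_Ioi (a := -a) (neg_lt_zero.2 ha) 0
  have e : (fun y : ℝ => Real.exp (-(a * y))) = fun y => Real.exp (-a * y) := by
    ext y; ring_nf
  rw [e, h]
  simp
  field_simp

private theorem abm_le {δ : ℝ} (h0 : 0 < δ) (k : ℕ) (y : ℝ) :
    (1 + |y|) ^ k * Real.exp (-(δ * |y|))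
      ≤ (k.factorial * Real.exp (δ / 2) / (δ / 2) ^ k) * Real.exp (-(δ / 2 * |y|)) := by
  have hx : 0 ≤ δ / 2 * (1 + |y|) := by positivity
  have h1 := Real.pow_div_factorial_le_exp (δ / 2 * (1 + |y|)) hx k
  have h2 : (1 + |y|) ^ k ≤ k.factorial * Real.exp (δ / 2 * (1 + |y|)) / (δ / 2) ^ k := by
    rw [le_div_iff₀ (by positivity), mul_comm, ← mul_pow]
    rwa [div_le_iff₀ (by positivity), mul_comm (Real.exp _)] at h1
  have h3 : k.factorial * Real.exp (δ / 2 * (1 + |y|)) / (δ / 2) ^ k * Real.exp (-(δ * |y|))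
      = (k.factorial * Real.exp (δ / 2) / (δ / 2) ^ k) * Real.exp (-(δ / 2 * |y|)) := by
    have h4 : Real.exp (δ / 2 * (1 + |y|)) * Real.exp (-(δ * |y|))
        = Real.exp (δ / 2) * Real.exp (-(δ / 2 * |y|)) := by
      rw [← Real.exp_add, ← Real.exp_add]
      ring_nf
    rw [div_mul_eq_mul_div, mul_assoc, h4, ← mul_assoc, div_mul_eq_mul_div _ _ (Real.exp _)]
  rw [← h3]
  exact mul_le_mul_of_nonneg_right h2 (Real.exp_pos _).le

private theorem abm_R {z : ℂ} (hz : 0 < z.re) :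
    0 < Real.pi / 2 - |arg z| ∧ Real.pi / 2 - |arg z| ≤ Real.pi / 2 ∧
      (Real.pi / 2 - |arg z|)⁻¹ ≤ ‖z‖ / z.re := by
  have hφ : |arg z| < Real.pi / 2 := abs_arg_lt_pi_div_two_iff.mpr (Or.inl hz)
  have hφ0 : 0 ≤ |arg z| := abs_nonneg _
  have hα0 : 0 < Real.pi / 2 - |arg z| := by linarith
  have hz0 : 0 < ‖z‖ := by
    have h := Complex.abs_re_le_norm z
    rw [abs_of_pos hz] at h
    linarith
  refine ⟨hα0, by linarith, ?_⟩
  have hsα : Real.sin (Real.pi / 2 - |arg z|) = z.re / ‖z‖ := by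
    rw [Real.sin_pi_div_two_sub, Real.cos_abs, Complex.cos_arg (norm_pos_iff.mp hz0)]
  have h2 : z.re / ‖z‖ ≤ Real.pi / 2 - |arg z| := by rw [← hsα]; exact Real.sin_le hα0.le
  have h3 : 0 < z.re / ‖z‖ := by positivity
  calc (Real.pi / 2 - |arg z|)⁻¹ ≤ (z.re / ‖z‖)⁻¹ := by gcongr
    _ = ‖z‖ / z.re := by rw [inv_div]

/-- The inner integral. -/
private theorem abm_inner (b : B3) (c : ℝ) (M B : ℕ) {Cg : ℝ} (hCg : 0 < Cg)
    (hg : ∀ y : ℝ, ‖gG b (line c y)‖ ≤ Cg * (1 + |y|) ^ M * Real.exp (-(Real.pi / 2 * |y|)))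
    (hgc : Continuous (fun y : ℝ => gG b (line c y))) {z : ℂ} (hz : 0 < z.re) {ρ : ℝ} (hρ : ‖z‖ / z.re ≤ 10 * ρ) :
    Integrable (fun y : ℝ => (1 + |y|) ^ B * (‖gG b (line c y)‖ * ‖z ^ (-(line c y))‖)) ∧
    ∫ y : ℝ, (1 + |y|) ^ B * (‖gG b (line c y)‖ * ‖z ^ (-(line c y))‖) ≤
      (Cg * ((B + M).factorial * Real.exp (Real.pi / 4) * 20 ^ (B + M) * 40)) * (‖z‖ ^ (-c) * ρ ^ (B + M + 1)) := by
  obtain ⟨hα0, hα1, hα2⟩ := abm_R hz
  set α : ℝ := Real.pi / 2 - |arg z| with hα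
  have hz0 : z ≠ 0 := by
    rintro rfl
    simp at hz
  have hpt : ∀ y : ℝ, (1 + |y|) ^ B * (‖gG b (line c y)‖ * ‖z ^ (-(line c y))‖) ≤
      (Cg * ‖z‖ ^ (-c) * ((B + M).factorial * Real.exp (α / 2) / (α / 2) ^ (B + M))) *
        Real.exp (-(α / 2 * |y|)) := by
    intro y
    have h1 : ‖z ^ (-(line c y))‖ = ‖z‖ ^ (-c) * Real.exp (y * arg z) := by
      unfold line
      exact LibPH.cpow_norm hz c y
    have h2 : y * arg z ≤ |y| * |arg z| := by
      rw [← abs_mul]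
      exact le_abs_self _
    have h3 := abm_le hα0 (B + M) y
    have hn : 0 ≤ ‖z‖ ^ (-c) := by positivity
    calc (1 + |y|) ^ B * (‖gG b (line c y)‖ * ‖z ^ (-(line c y))‖)
        ≤ (1 + |y|) ^ B * ((Cg * (1 + |y|) ^ M * Real.exp (-(Real.pi / 2 * |y|))) *
          (‖z‖ ^ (-c) * Real.exp (|y| * |arg z|))) := by
          rw [h1]
          gcongr
          exact hg y
      _ = (Cg * ‖z‖ ^ (-c)) * ((1 + |y|) ^ (B + M) * (Real.exp (-(Real.pi / 2 * |y|)) *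
          Real.exp (|y| * |arg z|))) := by
          rw [pow_add]; ring
      _ = (Cg * ‖z‖ ^ (-c)) * ((1 + |y|) ^ (B + M) * Real.exp (-(α * |y|))) := by
          rw [← Real.exp_add]
          congr 3
          rw [hα]; ring
      _ ≤ (Cg * ‖z‖ ^ (-c)) * (((B + M).factorial * Real.exp (α / 2) / (α / 2) ^ (B + M)) *
          Real.exp (-(α / 2 * |y|))) := by gcongr
      _ = _ := by ring
  have hi := (abm_exp (a := α / 2) (by positivity)).const_mul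
    (Cg * ‖z‖ ^ (-c) * ((B + M).factorial * Real.exp (α / 2) / (α / 2) ^ (B + M)))
  have hcont : Continuous (fun y : ℝ => (1 + |y|) ^ B * (‖gG b (line c y)‖ * ‖z ^ (-(line c y))‖)) := by
    have h1 : Continuous (fun y : ℝ => z ^ (-(line c y))) := by
      unfold line
      exact Continuous.const_cpow (by fun_prop) (Or.inl hz0)
    fun_prop
  have hnn : ∀ y : ℝ, 0 ≤ (1 + |y|) ^ B * (‖gG b (line c y)‖ * ‖z ^ (-(line c y))‖) := fun y => by positivity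
  have hint : Integrable (fun y : ℝ => (1 + |y|) ^ B * (‖gG b (line c y)‖ * ‖z ^ (-(line c y))‖)) := by
    refine hi.mono' hcont.aestronglyMeasurable (ae_of_all _ fun y => ?_)
    rw [Real.norm_of_nonneg (hnn y)]
    exact hpt y
  refine ⟨hint, ?_⟩
  refine (integral_mono hint hi hpt).trans ?_
  rw [integral_const_mul, abm_int (by positivity)]
  have hαi : α⁻¹ ≤ 10 * ρ := hα2.trans hρ
  have hρ0 : 0 ≤ ρ := by
    have : 0 ≤ α⁻¹ := by positivity
    linarith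
  have e1 : Real.exp (α / 2) ≤ Real.exp (Real.pi / 4) := Real.exp_le_exp.2 (by linarith)
  have e2 : 1 / (α / 2) ^ (B + M) ≤ (20 * ρ) ^ (B + M) := by
    rw [one_div, ← inv_pow]
    refine pow_le_pow_left₀ (by positivity) ?_ _
    rw [inv_div, div_eq_mul_inv]
    linarith
  have e3 : 2 / (α / 2) ≤ 40 * ρ := by
    have : 2 / (α / 2) = 4 * α⁻¹ := by
      rw [div_div_eq_mul_div]
      ring
    rw [this]
    linarith
  have e0 : (0:ℝ) ≤ 1 / (α / 2) ^ (B + M) := by positivity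
  calc Cg * ‖z‖ ^ (-c) * ((B + M).factorial * Real.exp (α / 2) / (α / 2) ^ (B + M)) * (2 / (α / 2))
      = Cg * ‖z‖ ^ (-c) * ((B + M).factorial * Real.exp (α / 2) * (1 / (α / 2) ^ (B + M))) * (2 / (α / 2)) := by
        ring
    _ ≤ Cg * ‖z‖ ^ (-c) * ((B + M).factorial * Real.exp (Real.pi / 4) * (20 * ρ) ^ (B + M)) * (40 * ρ) := by
        gcongr
    _ = _ := by
        rw [mul_pow, pow_succ]; ring

private theorem abm_main (c : ℝ) (M B r : ℕ) (δ : ℝ) (hδ : 0 < δ) (hδ1 : δ ≤ 1 / 10)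
    (hg : ∃ C : ℝ, 0 < C ∧ ∀ (b : B3) (y : ℝ),
      ‖gG b (line c y)‖ ≤ C * (1 + |y|) ^ M * Real.exp (-(Real.pi / 2 * |y|)))
    (hgc : ∀ b : B3, Continuous (fun y : ℝ => gG b (line c y)))
    (hK : ∃ C : ℝ, 0 < C ∧ ∀ T : ℝ, 4 ≤ T → ∀ ξ ∈ Icc (-(1 / 4) : ℝ) (1 / 4),
      ‖KK (wq T ξ)‖ ^ (-c) ≤ C * T ^ c * (‖wq T ξ‖ / (wq T ξ).re) ^ r) :
    ∃ C T₀ : ℝ, 0 < C ∧ 4 ≤ T₀ ∧ ∀ T : ℝ, T₀ ≤ T → ∀ u : ℝ, 0 ≤ u → u ≤ T → ∀ b : B3,
      Integrable (fun y : ℝ => (1 + |y|) ^ B * ‖Om T (T ^ (1 - δ)) u b (line c y)‖) ∧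
      ∫ y : ℝ, (1 + |y|) ^ B * ‖Om T (T ^ (1 - δ)) u b (line c y)‖ ≤
        C * T ^ (c + (((r + (B + M + 1) : ℕ) : ℝ) + 1) * δ - 1) := by
  obtain ⟨Cg, hCg, hg⟩ := hg
  obtain ⟨C1, hC1, hK⟩ := hK
  obtain ⟨C2, T2, hC2, hmom⟩ := nu_momN (r + (B + M + 1)) δ hδ hδ1
  set C3 : ℝ := Cg * ((B + M).factorial * Real.exp (Real.pi / 4) * 20 ^ (B + M) * 40) with hC3
  have hC3p : 0 < C3 := by positivity
  refine ⟨2 * C3 * C1 * C2, max 4 T2, by positivity, le_max_left _ _, fun T hT u hu0 hu b => ?_⟩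
  have hT4 : 4 ≤ T := le_trans (le_max_left _ _) hT
  have hT0 : 0 < T := by linarith
  have hTc : 0 < T ^ c := Real.rpow_pos_of_pos hT0 _
  have hmom := hmom T (le_trans (le_max_right _ _) hT) u hu0 hu
  set V := T ^ (1 - δ) with hV
  set N := r + (B + M + 1) with hN
  have hwre : ∀ ξ : ℝ, (wq T ξ).re = 1 / T := fun ξ => by
    unfold wq; simp
  have hwpos : ∀ ξ : ℝ, 0 < (wq T ξ).re := fun ξ => by rw [hwre]; positivity
  have hKre : ∀ ξ ∈ Icc (-(1 / 4) : ℝ) (1 / 4), 0 < (KK (wq T ξ)).re := fun ξ hξ =>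
    lt_of_lt_of_le (hwpos ξ) (KK_re (hwpos ξ) (wq_half hT4 hξ))
  have hrho : ∀ ξ ∈ Icc (-(1 / 4) : ℝ) (1 / 4),
      ‖KK (wq T ξ)‖ / (KK (wq T ξ)).re ≤ 10 * (‖wq T ξ‖ / (wq T ξ).re) := by
    intro ξ hξ
    have h1 := KK_re (hwpos ξ) (wq_half hT4 hξ)
    have h2 := KK_norm (hwpos ξ) (wq_half hT4 hξ)
    have h3 := hwpos ξ
    calc ‖KK (wq T ξ)‖ / (KK (wq T ξ)).re ≤ (10 * ‖wq T ξ‖) / (wq T ξ).re := by gcongr
      _ = _ := by ring
  set μ : Measure ℝ := volume.restrict (Icc (-(1 / 4) : ℝ) (1 / 4)) with hμ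
  set F : ℝ × ℝ → ℂ := fun p => ((((1 + |p.1|) ^ B : ℝ)) : ℂ) *
    (gG b (line c p.1) * (nv T V u p.2 * KK (wq T p.2) ^ (-(line c p.1)))) with hF
  have hFn : ∀ y ξ : ℝ, ‖F (y, ξ)‖ = ‖nv T V u ξ‖ *
      ((1 + |y|) ^ B * (‖gG b (line c y)‖ * ‖KK (wq T ξ) ^ (-(line c y))‖)) := by
    intro y ξ
    simp only [hF]
    rw [norm_mul, norm_mul, norm_mul, Complex.norm_real, Real.norm_of_nonneg (by positivity)]
    ring
  -- measurability
  have hmeas : AEStronglyMeasurable F (volume.prod μ) := by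
    have h1 : (volume : Measure ℝ).prod μ =
        ((volume : Measure ℝ).prod (volume : Measure ℝ)).restrict (univ ×ˢ Icc (-(1 / 4) : ℝ) (1 / 4)) := by
      rw [hμ, ← Measure.prod_restrict, Measure.restrict_univ]
    rw [h1]
    refine ContinuousOn.aestronglyMeasurable ?_ (MeasurableSet.univ.prod measurableSet_Icc)
    have h2 : ContinuousOn (fun p : ℝ × ℝ => KK (wq T p.2) ^ (-(line c p.1)))
        (univ ×ˢ Icc (-(1 / 4) : ℝ) (1 / 4)) := by
      refine ContinuousOn.cpow ?_ ?_ ?_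
      · exact ((KK_cont T).comp continuous_snd).continuousOn
      · unfold line
        exact Continuous.continuousOn (by fun_prop)
      · intro p hp
        exact Or.inl (hKre p.2 hp.2)
    have h3 : Continuous (fun p : ℝ × ℝ => gG b (line c p.1)) := (hgc b).comp continuous_fst
    have h4 : Continuous (fun p : ℝ × ℝ => nv T V u p.2) := (nv_cont T V u).comp continuous_snd
    have h5 : Continuous (fun p : ℝ × ℝ => ((((1 + |p.1|) ^ B : ℝ)) : ℂ)) := by fun_prop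
    exact h5.continuousOn.mul (h3.continuousOn.mul (h4.continuousOn.mul h2))
  -- inner integrals
  have hin : ∀ ξ ∈ Icc (-(1 / 4) : ℝ) (1 / 4), Integrable (fun y : ℝ => F (y, ξ)) ∧
      ∫ y : ℝ, ‖F (y, ξ)‖ ≤ (2 * C3 * C1 * T ^ c) * ((‖wq T ξ‖ / (wq T ξ).re) ^ N * ‖nu T V u ξ‖) := by
    intro ξ hξ
    obtain ⟨g1, g2⟩ := abm_inner b c M B hCg (fun y => hg b y) (hgc b) (hKre ξ hξ) (hrho ξ hξ)
    have hcF : Continuous (fun y : ℝ => F (y, ξ)) := by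
      have h1 : Continuous (fun y : ℝ => KK (wq T ξ) ^ (-(line c y))) := by
        have hz0 : KK (wq T ξ) ≠ 0 := by
          intro h
          have := hKre ξ hξ
          rw [h] at this
          simp at this
        unfold line
        exact Continuous.const_cpow (by fun_prop) (Or.inl hz0)
      have h3 := hgc b
      simp only [hF]
      fun_prop
    constructor
    · rw [← integrable_norm_iff hcF.aestronglyMeasurable]
      have e : (fun y : ℝ => ‖F (y, ξ)‖) = fun y => ‖nv T V u ξ‖ *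
          ((1 + |y|) ^ B * (‖gG b (line c y)‖ * ‖KK (wq T ξ) ^ (-(line c y))‖)) := by
        ext y; exact hFn y ξ
      rw [e]
      exact g1.const_mul _
    · have e : (fun y : ℝ => ‖F (y, ξ)‖) = fun y => ‖nv T V u ξ‖ *
          ((1 + |y|) ^ B * (‖gG b (line c y)‖ * ‖KK (wq T ξ) ^ (-(line c y))‖)) := by
        ext y; exact hFn y ξ
      rw [e, integral_const_mul]
      have hρ0 : 0 ≤ ‖wq T ξ‖ / (wq T ξ).re := div_nonneg (norm_nonneg _) (hwpos ξ).le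
      calc ‖nv T V u ξ‖ * ∫ y : ℝ, (1 + |y|) ^ B * (‖gG b (line c y)‖ * ‖KK (wq T ξ) ^ (-(line c y))‖)
          ≤ (2 * ‖nu T V u ξ‖) * (C3 * ((C1 * T ^ c * (‖wq T ξ‖ / (wq T ξ).re) ^ r) *
            (‖wq T ξ‖ / (wq T ξ).re) ^ (B + M + 1))) := by
            refine mul_le_mul (nv_norm T V u hξ) (g2.trans ?_) (integral_nonneg fun y => by positivity)
              (by positivity)
            rw [← hC3]
            have := hK T hT4 ξ hξ
            gcongr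
        _ = _ := by
            rw [hN, pow_add _ r]; ring
  have hae : ∀ᵐ ξ ∂μ, ξ ∈ Icc (-(1 / 4) : ℝ) (1 / 4) := ae_restrict_mem measurableSet_Icc
  -- integrability of the majorant
  have hmajc : Integrable (fun ξ => (2 * C3 * C1 * T ^ c) * ((‖wq T ξ‖ / (wq T ξ).re) ^ N * ‖nu T V u ξ‖)) μ := by
    have hc1 : Continuous (fun ξ : ℝ => (2 * C3 * C1 * T ^ c) * ((‖wq T ξ‖ / (wq T ξ).re) ^ N * ‖nu T V u ξ‖)) := by
      have e : (fun ξ : ℝ => (2 * C3 * C1 * T ^ c) * ((‖wq T ξ‖ / (wq T ξ).re) ^ N * ‖nu T V u ξ‖)) =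
          fun ξ : ℝ => (2 * C3 * C1 * T ^ c) * ((‖wq T ξ‖ / (1 / T)) ^ N * ‖nu T V u ξ‖) := by
        ext ξ; rw [hwre]
      rw [e]
      unfold wq nu
      fun_prop
    exact hc1.continuousOn.integrableOn_compact isCompact_Icc
  have hnormint : Integrable (fun ξ => ∫ y : ℝ, ‖F (y, ξ)‖) μ := by
    refine hmajc.mono' ?_ ?_
    · exact (hmeas.norm.prod_swap).integral_prod_right'
    · filter_upwards [hae] with ξ hξ
      rw [Real.norm_of_nonneg (integral_nonneg fun y => norm_nonneg _)]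
      exact (hin ξ hξ).2
  have hFint : Integrable F (volume.prod μ) := by
    rw [integrable_prod_iff' hmeas]
    refine ⟨?_, hnormint⟩
    filter_upwards [hae] with ξ hξ
    exact (hin ξ hξ).1
  have hOm : ∀ y : ℝ, (1 + |y|) ^ B * ‖Om T V u b (line c y)‖ = ‖∫ ξ, F (y, ξ) ∂μ‖ := by
    intro y
    simp only [hF]
    rw [integral_const_mul, integral_const_mul, norm_mul, Complex.norm_real, Real.norm_of_nonneg (by positivity)]
    rfl
  constructor
  · have e : (fun y : ℝ => (1 + |y|) ^ B * ‖Om T V u b (line c y)‖) = fun y => ‖∫ ξ, F (y, ξ) ∂μ‖ := by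
      ext y; exact hOm y
    rw [e]
    exact hFint.integral_prod_left.norm
  · have e : (fun y : ℝ => (1 + |y|) ^ B * ‖Om T V u b (line c y)‖) = fun y => ‖∫ ξ, F (y, ξ) ∂μ‖ := by
      ext y; exact hOm y
    rw [e]
    have s1 : ∫ y : ℝ, ‖∫ ξ, F (y, ξ) ∂μ‖ ≤ ∫ y : ℝ, ∫ ξ, ‖F (y, ξ)‖ ∂μ := by
      refine integral_mono hFint.integral_prod_left.norm hFint.norm.integral_prod_left fun y => ?_
      exact norm_integral_le_integral_norm _
    have s2 : ∫ y : ℝ, (∫ ξ, ‖F (y, ξ)‖ ∂μ) = ∫ ξ, (∫ y : ℝ, ‖F (y, ξ)‖) ∂μ :=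
      integral_integral_swap (f := fun y ξ => ‖F (y, ξ)‖) hFint.norm
    have s3 : ∫ ξ, (∫ y : ℝ, ‖F (y, ξ)‖) ∂μ ≤
        ∫ ξ, (2 * C3 * C1 * T ^ c) * ((‖wq T ξ‖ / (wq T ξ).re) ^ N * ‖nu T V u ξ‖) ∂μ := by
      refine integral_mono_ae hnormint hmajc ?_
      filter_upwards [hae] with ξ hξ
      exact (hin ξ hξ).2
    refine s1.trans (s2.le.trans (s3.trans ?_))
    rw [integral_const_mul]
    have s4 : T ^ (c + ((N : ℝ) + 1) * δ - 1) = T ^ c * T ^ (((N : ℝ) + 1) * δ - 1) := by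
      rw [← Real.rpow_add hT0]
      congr 1
      ring
    rw [s4]
    calc (2 * C3 * C1 * T ^ c) * ∫ ξ, (‖wq T ξ‖ / (wq T ξ).re) ^ N * ‖nu T V u ξ‖ ∂μ
        ≤ (2 * C3 * C1 * T ^ c) * (C2 * T ^ (((N : ℝ) + 1) * δ - 1)) := by gcongr
      _ = _ := by ring

theorem Om_mid (B : ℕ) (c ε₁ δ : ℝ) (h0 : 0 < c) (h1 : c < 1) (hε1 : 0 < ε₁) (hδ : 0 < δ) (hδ1 : δ ≤ 1 / 10) :
    ∃ C T₀ : ℝ, 0 < C ∧ ∀ T : ℝ, T₀ ≤ T → ∀ u : ℝ, ε₁ * T ≤ u → u ≤ T → ∀ b : B3,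
      Integrable (fun y : ℝ => (1 + |y|) ^ B * ‖Om T (T ^ (1 - δ)) u b (line c y)‖) ∧
      ∫ y : ℝ, (1 + |y|) ^ B * ‖Om T (T ^ (1 - δ)) u b (line c y)‖ ≤ C * T ^ (((B : ℝ) + 10) * δ + c - 1) := by
  obtain ⟨Cg, hCg, hg⟩ := gG_mid_strip c c h0 h1
  obtain ⟨C, T₀, hC, hT4, h⟩ := abm_main c 8 B 0 δ hδ hδ1
    ⟨Cg, hCg, fun b y => hg b c ⟨le_refl _, le_refl _⟩ y⟩
    (fun b => gG_mid_cont b h0 h1)
    ⟨1, one_pos, fun T hT ξ hξ => by
      have hT0 : 0 < T := by linarith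
      have hre : (wq T ξ).re = 1 / T := by unfold wq; simp
      have hpos : 0 < (wq T ξ).re := by rw [hre]; positivity
      have h1 := KK_re hpos (wq_half hT hξ)
      rw [hre] at h1
      have h2 : 1 / T ≤ ‖KK (wq T ξ)‖ := h1.trans ((le_abs_self _).trans (Complex.abs_re_le_norm _))
      rw [pow_zero, mul_one, one_mul]
      have h3 : T ^ c = (1 / T) ^ (-c) := by
        rw [Real.rpow_neg (by positivity), Real.div_rpow zero_le_one hT0.le, Real.one_rpow, ← one_div, one_div_one_div]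
      rw [h3]
      exact Real.rpow_le_rpow_of_nonpos (by positivity) h2 (by linarith)⟩
  refine ⟨C, T₀, hC, fun T hT u hu1 hu b => ?_⟩
  have hT0 : 4 ≤ T := hT4.trans hT
  obtain ⟨i1, i2⟩ := h T hT u (le_trans (by positivity) hu1) hu b
  refine ⟨i1, i2.trans (le_of_eq ?_)⟩
  congr 2
  push_cast
  ring

end Pool.Agent.LibSM56A
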