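import Pool.Agent.LibSM56A.A_Defs
import Pool.Agent.LibSM47.D_B0
import Pool.Agent.LibSM47.D_A2

/-! ROW A_D (SHORT): the dual series, crude bounds and the cut.

FT_Ph_norm: `‖Ph‖ ≤ 8` (`SD.Ph_norm`), `m³` terms, `‖stdAddChar‖ = 1`. DS_summable: `SD.summable_pr`, `SD.norm_pr_cpow`. mem_trLe: each factor is `≤ pr a ≤ Λ`.
DS_split: `tsum` = finite sum over `trLe Λ` + rest (`sum_add_tsum_compl` or `tsum_add` of the two indicator families, `tsum_eq_sum`). -/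

set_option autoImplicit false

namespace Pool.Agent.LibSM56A

open MeasureTheory Set Filter Topology Complex
open Pool.Agent.LibSM47

theorem mem_trLe {Λ : ℕ} {a : SD.Tr} : a ∈ trLe Λ ↔ SD.pr a ≤ Λ := by
  unfold trLe
  rw [Finset.mem_filter, Finset.mem_product, Finset.mem_product]
  constructor
  · exact fun h => h.2
  · intro h
    have h1 : (1 : ℕ) ≤ (a.1 : ℕ) := a.1.2
    have h2 : (1 : ℕ) ≤ (a.2.1 : ℕ) := a.2.1.2
    have h3 : (1 : ℕ) ≤ (a.2.2 : ℕ) := a.2.2.2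
    have h4 : (a.1 : ℕ) * (a.2.1 : ℕ) * (a.2.2 : ℕ) ≤ Λ := h
    have key : ∀ x : ℕ+, (x : ℕ) ≤ Λ → x ∈ Finset.Icc 1 (Nat.succPNat Λ) := by
      intro x hx
      rw [Finset.mem_Icc]
      refine ⟨PNat.one_le x, ?_⟩
      rw [← PNat.coe_le_coe, Nat.succPNat_coe]
      omega
    refine ⟨⟨key _ ?_, key _ ?_, key _ ?_⟩, h⟩
    · calc (a.1 : ℕ) ≤ (a.1 : ℕ) * (a.2.1 : ℕ) := Nat.le_mul_of_pos_right _ h2
        _ ≤ (a.1 : ℕ) * (a.2.1 : ℕ) * (a.2.2 : ℕ) := Nat.le_mul_of_pos_right _ h3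
        _ ≤ Λ := h4
    · calc (a.2.1 : ℕ) ≤ (a.1 : ℕ) * (a.2.1 : ℕ) := Nat.le_mul_of_pos_left _ h1
        _ ≤ (a.1 : ℕ) * (a.2.1 : ℕ) * (a.2.2 : ℕ) := Nat.le_mul_of_pos_right _ h3
        _ ≤ Λ := h4
    · calc (a.2.2 : ℕ) ≤ (a.1 : ℕ) * (a.2.1 : ℕ) * (a.2.2 : ℕ) :=
          Nat.le_mul_of_pos_left _ (Nat.mul_pos h1 h2)
        _ ≤ Λ := h4

theorem FT_Ph_norm (m : ℕ) [NeZero m] (n : ZMod m) (l : Z3 m) : ‖FT m (SD.Ph m n) l‖ ≤ 8 * (m : ℝ) ^ 3 := by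
  unfold FT
  refine (norm_sum_le _ _).trans ?_
  have h1 : ∀ v ∈ (Finset.univ : Finset (Z3 m)), ‖SD.Ph m n v *
      ZMod.stdAddChar (-(l.1 * v.1 + l.2.1 * v.2.1 + l.2.2 * v.2.2))‖ ≤ 8 := by
    intro v _
    rw [norm_mul, AddChar.norm_apply, mul_one]
    exact SD.Ph_norm m n v
  refine (Finset.sum_le_sum h1).trans (le_of_eq ?_)
  rw [Finset.sum_const, Finset.card_univ, Fintype.card_prod, Fintype.card_prod, ZMod.card]
  simp only [nsmul_eq_mul, Nat.cast_mul]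
  ring

theorem DS_summable (m : ℕ) [NeZero m] (n : ZMod m) (b : B3) {s : ℂ} (hs : 1 < s.re) :
    Summable (fun a : SD.Tr => ‖FT m (SD.Ph m n) (SD.sl m b a) * (SD.pr a : ℂ) ^ (-s)‖) := by
  have h1 := (SD.summable_pr hs).mul_left (8 * (m : ℝ) ^ 3)
  refine Summable.of_nonneg_of_le (fun _ => norm_nonneg _) (fun a => ?_) h1
  rw [norm_mul, SD.norm_pr_cpow, neg_re]
  exact mul_le_mul_of_nonneg_right (FT_Ph_norm m n _) (Real.rpow_nonneg (Nat.cast_nonneg _) _)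

theorem DS_split (m : ℕ) [NeZero m] (n : ZMod m) (b : B3) (Λ : ℕ) {s : ℂ} (hs : 1 < s.re) :
    SD.DS m n b s = DSle m n b Λ s + DSgt m n b Λ s := by
  unfold SD.DS DSle DSgt
  have hS : Summable (fun a : SD.Tr => FT m (SD.Ph m n) (SD.sl m b a) * (SD.pr a : ℂ) ^ (-s)) :=
    (DS_summable m n b hs).of_norm
  have h1 : ∀ a : SD.Tr, FT m (SD.Ph m n) (SD.sl m b a) * (SD.pr a : ℂ) ^ (-s) =
      (if SD.pr a ≤ Λ then FT m (SD.Ph m n) (SD.sl m b a) * (SD.pr a : ℂ) ^ (-s) else 0) +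
      (if SD.pr a ≤ Λ then 0 else FT m (SD.Ph m n) (SD.sl m b a) * (SD.pr a : ℂ) ^ (-s)) := by
    intro a
    split_ifs <;> simp
  have hA : ∀ a ∉ trLe Λ, (if SD.pr a ≤ Λ then
      FT m (SD.Ph m n) (SD.sl m b a) * (SD.pr a : ℂ) ^ (-s) else 0) = 0 := by
    intro a ha
    rw [mem_trLe] at ha
    rw [if_neg ha]
  have hsA : Summable (fun a : SD.Tr => if SD.pr a ≤ Λ then
      FT m (SD.Ph m n) (SD.sl m b a) * (SD.pr a : ℂ) ^ (-s) else 0) :=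
    summable_of_ne_finset_zero hA
  have hsB : Summable (fun a : SD.Tr => if SD.pr a ≤ Λ then 0 else
      FT m (SD.Ph m n) (SD.sl m b a) * (SD.pr a : ℂ) ^ (-s)) := by
    refine (hS.sub hsA).congr fun a => ?_
    split_ifs <;> simp
  rw [tsum_congr h1, hsA.tsum_add hsB, tsum_eq_sum hA]
  congr 1
  refine Finset.sum_congr rfl fun a ha => ?_
  rw [mem_trLe] at ha
  rw [if_pos ha]

/-- Number of triples, crude. -/
theorem card_trLe (Λ : ℕ) : ((trLe Λ).card : ℝ) ≤ ((Λ : ℝ) + 1) ^ 3 := by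
  unfold trLe
  have h1 : (Finset.Icc 1 (Nat.succPNat Λ)).card = Λ + 1 := by
    rw [PNat.card_Icc]
    simp
  have h2 := Finset.card_filter_le
    ((Finset.Icc 1 (Nat.succPNat Λ)) ×ˢ ((Finset.Icc 1 (Nat.succPNat Λ)) ×ˢ
      (Finset.Icc 1 (Nat.succPNat Λ)))) (fun a : SD.Tr => SD.pr a ≤ Λ)
  rw [Finset.card_product, Finset.card_product, h1] at h2
  have h3 : ((Λ + 1) * ((Λ + 1) * (Λ + 1)) : ℕ) = (Λ + 1) ^ 3 := by ring
  rw [h3] at h2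
  exact_mod_cast h2

end Pool.Agent.LibSM56A
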