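import Pool.Agent.LibSM56A.A_K
import Pool.Agent.LibPH.X02
import Pool.Agent.LibPH.X06

/-! ROW A_F (MEDIUM): exchange of the window integral and a vertical line.

On `ξ ∈ [-1/4,1/4]`: `Re K(w) ≥ 1/T` and `‖K(w)‖ ≤ 5`, so `|arg K(w)| ≤ π/2 - a` with `a = a(T) > 0` (e.g. `a = 1/(5T)`: `cos(arg K) = Re K/‖K‖`), and
`‖K^{-(c+iy)}‖ = ‖K‖^{-c} e^{y arg K}` (`LibPH.cpow_norm`). So the double integrand is dominated by `C (1+|y|)^N e^{-a|y|} ‖nv‖` (compact in `ξ`):
`MeasureTheory.integral_integral_swap`. Joint measurability: continuity of `(ξ,y) ↦ K(w)^{-(c+iy)}` on `Icc × ℝ` (slit plane). -/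

set_option autoImplicit false

namespace Pool.Agent.LibSM56A

open MeasureTheory Set Filter Topology Complex
open Pool.Agent.LibSM47

/-- `Re K > 0` on the whole line. -/
private theorem AF_re {T : ℝ} (hT : 4 ≤ T) (ξ : ℝ) : 0 < (KK (wq T ξ)).re := by
  have e : -(I * wq T ξ) = ((-ξ : ℝ) : ℂ) + ((-(1 / T) : ℝ) : ℂ) * I := by
    unfold wq
    push_cast
    ring_nf
    rw [I_sq]
    ring
  have h1 : (cexp (-(I * wq T ξ)) - 1).im = -(Real.exp (-ξ) * Real.sin (1 / T)) := by
    rw [e, sub_im, one_im, sub_zero, Complex.exp_im]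
    simp only [add_re, ofReal_re, mul_re, I_re, mul_zero, ofReal_im, I_im, mul_one, sub_self,
      add_zero, add_im, mul_im, zero_add]
    rw [Real.sin_neg]
    ring
  have h2 : (KK (wq T ξ)).re = 2 * Real.pi * (Real.exp (-ξ) * Real.sin (1 / T)) := by
    unfold KK
    rw [mul_re, mul_im, mul_re, h1]
    simp only [ofReal_re, ofReal_im, I_re, I_im]
    ring
  rw [h2]
  have hT0 : 0 < 1 / T := by positivity
  have h3 : 1 / T ≤ 1 / 4 := one_div_le_one_div_of_le (by norm_num) hT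
  have h4 : 0 < Real.sin (1 / T) :=
    Real.sin_pos_of_pos_of_lt_pi hT0 (by linarith [Real.pi_gt_three])
  have := Real.pi_pos
  positivity

private theorem AF_line (c : ℝ) : Continuous (line c) := by
  unfold line
  fun_prop

private theorem AF_pow (T c : ℝ) (hT : 4 ≤ T) :
    Continuous fun p : ℝ × ℝ => KK (wq T p.1) ^ (-(line c p.2)) := by
  refine Continuous.cpow ((KK_cont T).comp continuous_fst)
    ((AF_line c).comp continuous_snd).neg fun p => ?_
  exact Or.inl (AF_re hT p.1)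

theorem WW_cont (T V u c : ℝ) (hT : 4 ≤ T) : Continuous (fun y : ℝ => WW T V u (line c y)) := by
  unfold WW
  refine continuous_parametric_integral_of_continuous
    (f := fun (y ξ : ℝ) => nv T V u ξ * KK (wq T ξ) ^ (-(line c y))) ?_ isCompact_Icc
  have h1 : Continuous fun p : ℝ × ℝ => nv T V u p.2 := (nv_cont T V u).comp continuous_snd
  have h2 : Continuous fun p : ℝ × ℝ => KK (wq T p.2) ^ (-(line c p.1)) := by
    refine Continuous.cpow ((KK_cont T).comp continuous_snd)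
      ((AF_line c).comp continuous_fst).neg fun p => ?_
    exact Or.inl (AF_re hT p.2)
  exact h1.mul h2

/-- The uniform bound on the window. -/
private theorem AF_bd (T c : ℝ) (hT : 4 ≤ T) : ∃ a M : ℝ, 0 < a ∧ 0 ≤ M ∧
    ∀ ξ ∈ Icc (-(1 / 4) : ℝ) (1 / 4), ∀ y : ℝ, ‖KK (wq T ξ) ^ (-(line c y))‖ ≤
      M * Real.exp ((Real.pi / 2 - a) * |y|) := by
  have hne : (Icc (-(1 / 4) : ℝ) (1 / 4)).Nonempty := ⟨0, by norm_num⟩
  have hcA : Continuous fun ξ : ℝ => |arg (KK (wq T ξ))| := by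
    refine continuous_abs.comp (continuous_iff_continuousAt.2 fun ξ => ?_)
    exact ContinuousAt.comp (g := arg) (f := fun ξ : ℝ => KK (wq T ξ))
      (Complex.continuousAt_arg (Or.inl (AF_re hT ξ))) (KK_cont T).continuousAt
  obtain ⟨ξ0, hξ0, hmax⟩ := isCompact_Icc.exists_isMaxOn hne hcA.continuousOn
  have h0 : |arg (KK (wq T ξ0))| < Real.pi / 2 :=
    Complex.abs_arg_lt_pi_div_two_iff.2 (Or.inl (AF_re hT ξ0))
  have hcN : Continuous fun ξ : ℝ => ‖KK (wq T ξ)‖ ^ (-c) := by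
    refine (KK_cont T).norm.rpow_const fun ξ => Or.inl ?_
    have h1 := AF_re hT ξ
    refine norm_ne_zero_iff.2 fun h2 => ?_
    rw [h2, zero_re] at h1
    exact lt_irrefl _ h1
  obtain ⟨M, hM⟩ := isCompact_Icc.exists_bound_of_continuousOn (s := Icc (-(1 / 4) : ℝ) (1 / 4))
    hcN.continuousOn
  have hM0 : 0 ≤ M := (norm_nonneg _).trans (hM 0 (by norm_num))
  refine ⟨Real.pi / 2 - |arg (KK (wq T ξ0))|, M, by linarith, hM0, fun ξ hξ y => ?_⟩
  unfold line
  rw [LibPH.cpow_norm (AF_re hT ξ)]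
  have h2 : ‖KK (wq T ξ)‖ ^ (-c) ≤ M := by
    have := hM ξ hξ
    rwa [Real.norm_of_nonneg (by positivity)] at this
  have h3 : |arg (KK (wq T ξ))| ≤ |arg (KK (wq T ξ0))| := hmax hξ
  have h4 : y * arg (KK (wq T ξ)) ≤
      (Real.pi / 2 - (Real.pi / 2 - |arg (KK (wq T ξ0))|)) * |y| := by
    have h5 : y * arg (KK (wq T ξ)) ≤ |y| * |arg (KK (wq T ξ))| := by
      rw [← abs_mul]
      exact le_abs_self _
    have h6 := mul_le_mul_of_nonneg_left h3 (abs_nonneg y)
    linarith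
  exact mul_le_mul h2 (Real.exp_le_exp.2 h4) (Real.exp_pos _).le hM0

theorem fub_line (T V u c : ℝ) (hT : 4 ≤ T) (F : ℝ → ℂ) (hF : Continuous F) (N : ℕ) (C : ℝ)
    (hb : ∀ y : ℝ, ‖F y‖ ≤ C * (1 + |y|) ^ N * Real.exp (-(Real.pi / 2 * |y|))) :
    Integrable (fun y : ℝ => F y * WW T V u (line c y)) ∧
    ∫ ξ in Icc (-(1 / 4) : ℝ) (1 / 4), nv T V u ξ * (∫ y : ℝ, F y * KK (wq T ξ) ^ (-(line c y))) =
      ∫ y : ℝ, F y * WW T V u (line c y) := by
  obtain ⟨a, M, ha, hM, hbd⟩ := AF_bd T c hT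
  have hC : 0 ≤ C := by
    have h1 := hb 0
    simp only [abs_zero, add_zero, one_pow, mul_one, mul_zero, neg_zero, Real.exp_zero] at h1
    exact (norm_nonneg _).trans h1
  obtain ⟨G, hG⟩ : ∃ G : ℝ × ℝ → ℂ, G = fun p =>
      nv T V u p.1 * (F p.2 * KK (wq T p.1) ^ (-(line c p.2))) := ⟨_, rfl⟩
  have hGc : Continuous G := by
    rw [hG]
    have h1 : Continuous fun p : ℝ × ℝ => nv T V u p.1 := (nv_cont T V u).comp continuous_fst
    have h2 : Continuous fun p : ℝ × ℝ => F p.2 := hF.comp continuous_snd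
    exact h1.mul (h2.mul (AF_pow T c hT))
  have hdom : Integrable (fun p : ℝ × ℝ => ‖nv T V u p.1‖ *
      (C * M * ((1 + |p.2|) ^ N * Real.exp (-(2 * a / 2 * |p.2|)))))
      ((volume.restrict (Icc (-(1 / 4) : ℝ) (1 / 4))).prod (volume : Measure ℝ)) := by
    refine Integrable.mul_prod (μ := volume.restrict (Icc (-(1 / 4) : ℝ) (1 / 4)))
      (ν := (volume : Measure ℝ)) (f := fun ξ : ℝ => ‖nv T V u ξ‖)
      (g := fun y : ℝ => C * M * ((1 + |y|) ^ N * Real.exp (-(2 * a / 2 * |y|)))) ?_ (LibPH.x06_dom (by positivity) N (C * M))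
    exact ((nv_cont T V u).norm.integrableOn_Icc)
  have hint : Integrable G ((volume.restrict (Icc (-(1 / 4) : ℝ) (1 / 4))).prod
      (volume : Measure ℝ)) := by
    refine hdom.mono' hGc.aestronglyMeasurable ?_
    have e1 : (volume.restrict (Icc (-(1 / 4) : ℝ) (1 / 4))).prod (volume : Measure ℝ) =
        ((volume : Measure ℝ).prod (volume : Measure ℝ)).restrict
          (Icc (-(1 / 4) : ℝ) (1 / 4) ×ˢ univ) := by
      rw [← Measure.prod_restrict, Measure.restrict_univ]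
    rw [e1]
    refine (ae_restrict_iff' (measurableSet_Icc.prod MeasurableSet.univ)).2
      (Eventually.of_forall fun p hp => ?_)
    have h1 := hbd p.1 hp.1 p.2
    have h2 := hb p.2
    rw [hG]
    simp only [norm_mul]
    refine mul_le_mul_of_nonneg_left ?_ (norm_nonneg _)
    calc ‖F p.2‖ * ‖KK (wq T p.1) ^ (-(line c p.2))‖ ≤
          (C * (1 + |p.2|) ^ N * Real.exp (-(Real.pi / 2 * |p.2|))) *
            (M * Real.exp ((Real.pi / 2 - a) * |p.2|)) :=
          mul_le_mul h2 h1 (norm_nonneg _) (by positivity)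
      _ = C * M * ((1 + |p.2|) ^ N * (Real.exp (-(Real.pi / 2 * |p.2|)) *
            Real.exp ((Real.pi / 2 - a) * |p.2|))) := by ring
      _ = C * M * ((1 + |p.2|) ^ N * Real.exp (-(2 * a / 2 * |p.2|))) := by
          rw [← Real.exp_add]
          congr 3
          ring
  have hswap := integral_integral_swap (f := fun ξ y => G (ξ, y)) hint
  have hright : ∀ y : ℝ, ∫ ξ in Icc (-(1 / 4) : ℝ) (1 / 4), G (ξ, y) =
      F y * WW T V u (line c y) := by
    intro y
    unfold WW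
    rw [hG, ← integral_const_mul]
    refine integral_congr_ae (Eventually.of_forall fun ξ => ?_)
    simp only
    ring
  have hleft : ∀ ξ : ℝ, ∫ y : ℝ, G (ξ, y) =
      nv T V u ξ * (∫ y : ℝ, F y * KK (wq T ξ) ^ (-(line c y))) := by
    intro ξ
    rw [hG]
    simp only
    rw [integral_const_mul]
  simp only [hright, hleft] at hswap
  refine ⟨?_, hswap⟩
  refine (hint.integral_prod_right).congr (Eventually.of_forall fun y => ?_)
  exact hright y

end Pool.Agent.LibSM56A
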