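import Pool.Agent.LibSM56A.A_G2
import Pool.Agent.LibSM56A.A_F
import Pool.Agent.LibSM47.D_E2

/-! ROW A_S2 (MEDIUM): change of the line inside `0 < Re s < 1`.

For fixed `κ` with `Re κ > 0`: `∫ gG X^{-s} κ^{-s}` on `Re s = c` equals the same on `Re s = 1/2` (no pole; `gG_mid_strip`,
`‖κ^{-s}‖ = ‖κ‖^{-x} e^{y arg κ}`, `|arg κ| < π/2`; template `SD.shift_Lam`), then `fub_line` on both lines with `F = gG X^{-s}` and `κ = K(w)`. -/

set_option autoImplicit false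

namespace Pool.Agent.LibSM56A

open MeasureTheory Set Filter Topology Complex
open Pool.Agent.LibSM47

private theorem s2_exp {a : ℝ} (ha : 0 < a) : Integrable (fun y : ℝ => Real.exp (-(a * |y|))) := by
  rw [← integrableOn_univ, ← Set.Iic_union_Ioi (a := (0 : ℝ)), integrableOn_union]
  constructor
  · refine (integrableOn_exp_mul_Iic ha 0).congr_fun (fun y hy => ?_) measurableSet_Iic
    show Real.exp (a * y) = Real.exp (-(a * |y|))
    rw [abs_of_nonpos hy]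
    ring_nf
  · refine (integrableOn_exp_mul_Ioi (a := -a) (neg_lt_zero.2 ha) 0).congr_fun
      (fun y hy => ?_) measurableSet_Ioi
    show Real.exp (-a * y) = Real.exp (-(a * |y|))
    rw [abs_of_pos hy]
    ring_nf

private theorem s2_le {δ : ℝ} (h0 : 0 < δ) (k : ℕ) (y : ℝ) :
    (1 + |y|) ^ k * Real.exp (-(δ / 2 * |y|))
      ≤ (k.factorial * Real.exp (δ / 4) / (δ / 4) ^ k) * Real.exp (-(δ / 4 * |y|)) := by
  have hx : 0 ≤ δ / 4 * (1 + |y|) := by positivity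
  have h1 := Real.pow_div_factorial_le_exp (δ / 4 * (1 + |y|)) hx k
  have h2 : (1 + |y|) ^ k ≤ k.factorial * Real.exp (δ / 4 * (1 + |y|)) / (δ / 4) ^ k := by
    rw [le_div_iff₀ (by positivity), mul_comm, ← mul_pow]
    rwa [div_le_iff₀ (by positivity), mul_comm (Real.exp _)] at h1
  have h3 : k.factorial * Real.exp (δ / 4 * (1 + |y|)) / (δ / 4) ^ k * Real.exp (-(δ / 2 * |y|))
      = (k.factorial * Real.exp (δ / 4) / (δ / 4) ^ k) * Real.exp (-(δ / 4 * |y|)) := by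
    have h4 : Real.exp (δ / 4 * (1 + |y|)) * Real.exp (-(δ / 2 * |y|))
        = Real.exp (δ / 4) * Real.exp (-(δ / 4 * |y|)) := by
      rw [← Real.exp_add, ← Real.exp_add]
      ring_nf
    rw [div_mul_eq_mul_div, mul_assoc, h4, ← mul_assoc, div_mul_eq_mul_div _ _ (Real.exp _)]
  rw [← h3]
  exact mul_le_mul_of_nonneg_right h2 (Real.exp_pos _).le

private theorem s2_lim {a : ℝ} (ha : 0 < a) {l : Filter ℝ} (hl : Tendsto (fun y : ℝ => |y|) l atTop) :
    Tendsto (fun y : ℝ => Real.exp (-(a * |y|))) l (𝓝 0) :=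
  Real.tendsto_exp_neg_atTop_nhds_zero.comp (hl.const_mul_atTop ha)

private theorem s2_tend {δ : ℝ} (h0 : 0 < δ) (k : ℕ) (c : ℝ) {l : Filter ℝ}
    (hl : Tendsto (fun y : ℝ => |y|) l atTop) :
    Tendsto (fun y : ℝ => c * ((1 + |y|) ^ k * Real.exp (-(δ / 2 * |y|)))) l (𝓝 0) := by
  have h1 : Tendsto (fun y : ℝ => (1 + |y|) ^ k * Real.exp (-(δ / 2 * |y|))) l (𝓝 0) := by
    refine squeeze_zero (fun y => by positivity) (s2_le h0 k) ?_
    have h2 := (s2_lim (a := δ / 4) (by positivity) hl).const_mul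
      ((k.factorial * Real.exp (δ / 4) / (δ / 4) ^ k : ℝ))
    rwa [mul_zero] at h2
  have h3 := h1.const_mul c
  rwa [mul_zero] at h3

private theorem s2_dom {δ : ℝ} (h0 : 0 < δ) (k : ℕ) (c : ℝ) :
    Integrable (fun y : ℝ => c * ((1 + |y|) ^ k * Real.exp (-(δ / 2 * |y|)))) ∧
    Tendsto (fun y : ℝ => c * ((1 + |y|) ^ k * Real.exp (-(δ / 2 * |y|)))) atTop (𝓝 0) ∧
    Tendsto (fun y : ℝ => c * ((1 + |y|) ^ k * Real.exp (-(δ / 2 * |y|)))) atBot (𝓝 0) := by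
  refine ⟨?_, s2_tend h0 k c tendsto_abs_atTop_atTop, s2_tend h0 k c tendsto_abs_atBot_atTop⟩
  refine Integrable.const_mul ?_ c
  refine Integrable.mono' ((s2_exp (a := δ / 4) (by positivity)).const_mul
    (k.factorial * Real.exp (δ / 4) / (δ / 4) ^ k)) ?_ (Eventually.of_forall fun y => ?_)
  · exact (by fun_prop : Continuous fun y : ℝ =>
      (1 + |y|) ^ k * Real.exp (-(δ / 2 * |y|))).aestronglyMeasurable
  · rw [Real.norm_of_nonneg (by positivity)]
    exact s2_le h0 k y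

/-- For a positive base the power on an interval of exponents is at most the sum of the powers at the ends. -/
private theorem s2_rpow {r a b x : ℝ} (hr : 0 < r) (hx : x ∈ Icc a b) : r ^ (-x) ≤ r ^ (-a) + r ^ (-b) := by
  rcases le_total 1 r with h | h
  · have h1 : r ^ (-x) ≤ r ^ (-a) := Real.rpow_le_rpow_of_exponent_le h (by linarith [hx.1])
    have h2 : 0 ≤ r ^ (-b) := Real.rpow_nonneg hr.le _
    linarith
  · have h1 : r ^ (-x) ≤ r ^ (-b) := Real.rpow_le_rpow_of_exponent_ge hr h (by linarith [hx.2])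
    have h2 : 0 ≤ r ^ (-a) := Real.rpow_nonneg hr.le _
    linarith

/-- The power of a positive real number on a vertical line. -/
private theorem s2_X {X : ℝ} (hX : 0 < X) (x y : ℝ) : ‖(X : ℂ) ^ (-(line x y))‖ = X ^ (-x) := by
  rw [Complex.norm_cpow_eq_rpow_re_of_pos hX]
  simp [line]

private theorem s2_shift (b : B3) {X : ℝ} (hX : 0 < X) {κ : ℂ} (hκ : 0 < κ.re) {a c : ℝ} (ha : 0 < a) (hac : a < c) (hc : c < 1) :
    ∫ y : ℝ, gG b (line a y) * (X : ℂ) ^ (-(line a y)) * κ ^ (-(line a y)) =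
    ∫ y : ℝ, gG b (line c y) * (X : ℂ) ^ (-(line c y)) * κ ^ (-(line c y)) := by
  obtain ⟨C, hC, hb⟩ := gG_mid_strip a c ha hc
  have harg : |κ.arg| < Real.pi / 2 := Complex.abs_arg_lt_pi_div_two_iff.2 (Or.inl hκ)
  have hκ0 : κ ≠ 0 := by
    rintro rfl
    simp at hκ
  have hX0 : (X : ℂ) ≠ 0 := by exact_mod_cast hX.ne'
  have hn : 0 < ‖κ‖ := norm_pos_iff.2 hκ0
  set δ : ℝ := 2 * (Real.pi / 2 - |κ.arg|) with hδ
  have hδ0 : 0 < δ := by rw [hδ]; linarith
  obtain ⟨g1, g2, g3⟩ := s2_dom hδ0 8 (C * (X ^ (-a) + X ^ (-c)) * (‖κ‖ ^ (-a) + ‖κ‖ ^ (-c)))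
  have key := (Pool.Agent.LibZM.vertical_shift
    (G := fun s => gG b s * (X : ℂ) ^ (-s) * κ ^ (-s)) (a := a) (b := c)
    hac.le (fun s hs hs2 => ?_) g1 g2 g3 (fun x hx y => ?_)).2
  · exact key
  · have h0 : 0 < s.re := lt_of_lt_of_le ha hs
    have h1 : s.re < 1 := lt_of_le_of_lt hs2 hc
    exact ((gG_mid_diff b h0 h1).mul ((differentiableAt_id.neg).const_cpow (Or.inl hX0))).mul
      ((differentiableAt_id.neg).const_cpow (Or.inl hκ0))
  · have h3 := hb b x hx y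
    have h4 := s2_X hX x y
    have h5 := LibPH.cpow_norm hκ x y
    have h6 : y * arg κ ≤ |κ.arg| * |y| := by
      calc y * arg κ ≤ |y * arg κ| := le_abs_self _
        _ = |κ.arg| * |y| := by rw [abs_mul, mul_comm]
    have h7 : X ^ (-x) ≤ X ^ (-a) + X ^ (-c) := s2_rpow hX hx
    have h8 : ‖κ‖ ^ (-x) ≤ ‖κ‖ ^ (-a) + ‖κ‖ ^ (-c) := s2_rpow hn hx
    have h9 : (0 : ℝ) ≤ X ^ (-x) := Real.rpow_nonneg hX.le _
    have h10 : (0 : ℝ) ≤ ‖κ‖ ^ (-x) := Real.rpow_nonneg hn.le _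
    show ‖gG b (line x y) * (X : ℂ) ^ (-(line x y)) * κ ^ (-((x : ℂ) + y * I))‖ ≤ _
    rw [norm_mul, norm_mul, h4, h5]
    calc ‖gG b (line x y)‖ * X ^ (-x) * (‖κ‖ ^ (-x) * Real.exp (y * κ.arg))
        ≤ (C * (1 + |y|) ^ 8 * Real.exp (-(Real.pi / 2 * |y|))) * (X ^ (-a) + X ^ (-c)) *
            ((‖κ‖ ^ (-a) + ‖κ‖ ^ (-c)) * Real.exp (|κ.arg| * |y|)) := by
          gcongr
      _ = C * (X ^ (-a) + X ^ (-c)) * (‖κ‖ ^ (-a) + ‖κ‖ ^ (-c)) *
            ((1 + |y|) ^ 8 * Real.exp (-(δ / 2 * |y|))) := by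
          have e1 : Real.exp (-(δ / 2 * |y|)) = Real.exp (-(Real.pi / 2 * |y|)) * Real.exp (|κ.arg| * |y|) := by
            rw [← Real.exp_add, hδ]
            congr 1
            ring
          rw [e1]
          ring

private theorem s2_fub {T V u : ℝ} (hT : 4 ≤ T) (b : B3) {X c : ℝ} (hX : 0 < X) (h0 : 0 < c) (h1 : c < 1) :
    Ic T V u b X c = ∫ ξ in Icc (-(1 / 4) : ℝ) (1 / 4), nv T V u ξ *
      (∫ y : ℝ, gG b (line c y) * (X : ℂ) ^ (-(line c y)) * KK (wq T ξ) ^ (-(line c y))) := by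
  obtain ⟨C, hC, hb⟩ := gG_mid_strip c c h0 h1
  have hX0 : (X : ℂ) ≠ 0 := by exact_mod_cast hX.ne'
  have hXc : Continuous (fun y : ℝ => (X : ℂ) ^ (-(line c y))) := by
    have hl : Continuous (fun y : ℝ => -(line c y)) := by
      unfold line
      fun_prop
    exact hl.const_cpow (Or.inl hX0)
  have h := (fub_line T V u c hT (fun y => gG b (line c y) * (X : ℂ) ^ (-(line c y)))
    ((gG_mid_cont b h0 h1).mul hXc) 8 (C * X ^ (-c)) (fun y => ?_)).2
  · rw [h]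
    unfold Ic Om
    refine integral_congr_ae (Eventually.of_forall fun y => ?_)
    show gG b (line c y) * WW T V u (line c y) * (X : ℂ) ^ (-(line c y)) =
      gG b (line c y) * (X : ℂ) ^ (-(line c y)) * WW T V u (line c y)
    ring
  · show ‖gG b (line c y) * (X : ℂ) ^ (-(line c y))‖ ≤ _
    rw [norm_mul, s2_X hX c y]
    have h2 := hb b c ⟨le_rfl, le_rfl⟩ y
    have h3 : (0 : ℝ) ≤ X ^ (-c) := Real.rpow_nonneg hX.le _
    calc ‖gG b (line c y)‖ * X ^ (-c) ≤ (C * (1 + |y|) ^ 8 * Real.exp (-(Real.pi / 2 * |y|))) * X ^ (-c) :=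
          mul_le_mul_of_nonneg_right h2 h3
      _ = C * X ^ (-c) * (1 + |y|) ^ 8 * Real.exp (-(Real.pi / 2 * |y|)) := by ring

theorem Ic_mid {T V u : ℝ} (hT : 4 ≤ T) (b : B3) {X c : ℝ} (hX : 0 < X) (h0 : 0 < c) (h1 : c < 1) :
    Ic T V u b X c = Ic T V u b X (1 / 2) := by
  rw [s2_fub hT b hX h0 h1, s2_fub hT b hX (by norm_num : (0 : ℝ) < 1 / 2) (by norm_num)]
  refine setIntegral_congr_fun measurableSet_Icc (fun ξ hξ => ?_)
  have hw : 0 < (wq T ξ).re := by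
    have : (wq T ξ).re = 1 / T := by
      simp [wq]
    rw [this]
    positivity
  have hκ : 0 < (KK (wq T ξ)).re := lt_of_lt_of_le hw (KK_re hw (wq_half hT hξ))
  show nv T V u ξ * _ = nv T V u ξ * _
  congr 1
  rcases lt_trichotomy c (1 / 2) with h | h | h
  · exact s2_shift b hX hκ h0 h (by norm_num)
  · rw [h]
  · exact (s2_shift b hX hκ (by norm_num : (0 : ℝ) < 1 / 2) h h1).symm

end Pool.Agent.LibSM56A
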