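import Pool.Agent.LibSM56A.A_E4
import Pool.Agent.LibSM56A.A_S2

/-! ROW A_E5 (SHORT): the Voronoi form with a free line `Re s = c ∈ (0,1)` for the short part. From `voronoi k` and
`(n m²)^{-s} DSle(1-s) = ∑_{a ∈ trLe Λ} F(a) pr(a)^{-1} X_a^{-s}`, `X_a = n m²/pr(a)`, exchange of the finite sum and the integral (integrability: `fub_line`), `Ic_mid`. -/

set_option autoImplicit false

namespace Pool.Agent.LibSM56A

open MeasureTheory Set Filter Topology Complex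
open Pool.Agent.LibSM47

/-- The integrand of `Ic` is integrable. -/
private theorem A_E5_int {T V u : ℝ} (hT : 4 ≤ T) (b : B3) {X c : ℝ} (hX : 0 < X) (h0 : 0 < c)
    (h1 : c < 1) : Integrable (fun y : ℝ => Om T V u b (line c y) * (X : ℂ) ^ (-(line c y))) := by
  obtain ⟨C, hC, hb⟩ := gG_mid_strip c c h0 h1
  have hX0 : (X : ℂ) ≠ 0 := Complex.ofReal_ne_zero.2 hX.ne'
  have hline : Continuous (fun y : ℝ => -(line c y)) := by
    unfold line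
    fun_prop
  have hXc : Continuous (fun y : ℝ => (X : ℂ) ^ (-(line c y))) :=
    hline.const_cpow (Or.inl hX0)
  have hF : Continuous (fun y : ℝ => gG b (line c y) * (X : ℂ) ^ (-(line c y))) :=
    (gG_mid_cont b h0 h1).mul hXc
  have hn : ∀ y : ℝ, ‖(X : ℂ) ^ (-(line c y))‖ = X ^ (-c) := by
    intro y
    rw [Complex.norm_cpow_eq_rpow_re_of_pos hX]
    congr 1
    simp [line]
  have h := (fub_line T V u c hT (fun y : ℝ => gG b (line c y) * (X : ℂ) ^ (-(line c y))) hF 8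
    (C * X ^ (-c)) (by
      intro y
      rw [norm_mul, hn y]
      have h2 := hb b c ⟨le_refl _, le_refl _⟩ y
      have h3 : 0 ≤ X ^ (-c) := Real.rpow_nonneg hX.le _
      calc ‖gG b (line c y)‖ * X ^ (-c)
          ≤ (C * (1 + |y|) ^ 8 * Real.exp (-(Real.pi / 2 * |y|))) * X ^ (-c) :=
            mul_le_mul_of_nonneg_right h2 h3
        _ = _ := by ring)).1
  refine h.congr (Filter.Eventually.of_forall fun y => ?_)
  show gG b (line c y) * (X : ℂ) ^ (-(line c y)) * WW T V u (line c y) = _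
  unfold Om
  ring

/-- The short part as a finite sum of the functions `Ic`. -/
private theorem A_E5_short {T V u : ℝ} (hT : 4 ≤ T) (m : ℕ) [NeZero m] (n : ℕ) (hn : 1 ≤ n) (b : B3)
    (Λ : ℕ) {c : ℝ} (h0 : 0 < c) (h1 : c < 1) :
    (∫ y : ℝ, Om T V u b (line c y) * ((n * m ^ 2 : ℕ) : ℂ) ^ (-(line c y)) *
          DSle m (n : ZMod m) b Λ (1 - line c y)) =
      ∑ a ∈ trLe Λ, (FT m (SD.Ph m (n : ZMod m)) (SD.sl m b a) * ((SD.pr a : ℕ) : ℂ)⁻¹) *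
        Ic T V u b (((n * m ^ 2 : ℕ) : ℝ) / (SD.pr a : ℝ)) c := by
  have hm : 0 < m := Nat.pos_of_ne_zero (NeZero.ne m)
  have hN : 0 < n * m ^ 2 := by positivity
  have hNr : (0 : ℝ) < ((n * m ^ 2 : ℕ) : ℝ) := by exact_mod_cast hN
  have hpr : ∀ a : SD.Tr, (0 : ℝ) < (SD.pr a : ℝ) := fun a => by exact_mod_cast SD.pr_pos a
  have hpt : ∀ y : ℝ, Om T V u b (line c y) * ((n * m ^ 2 : ℕ) : ℂ) ^ (-(line c y)) *
      DSle m (n : ZMod m) b Λ (1 - line c y) =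
      ∑ a ∈ trLe Λ, (FT m (SD.Ph m (n : ZMod m)) (SD.sl m b a) * ((SD.pr a : ℕ) : ℂ)⁻¹) *
        (Om T V u b (line c y) *
          (((((n * m ^ 2 : ℕ) : ℝ) / (SD.pr a : ℝ) : ℝ)) : ℂ) ^ (-(line c y))) := by
    intro y
    unfold DSle
    rw [Finset.mul_sum]
    refine Finset.sum_congr rfl fun a _ => ?_
    have hp := hpr a
    have hp0 : ((SD.pr a : ℕ) : ℂ) ≠ 0 := by
      have := (SD.pr_pos a).ne'
      exact_mod_cast this
    set s : ℂ := line c y with hs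
    have e1 : ((n * m ^ 2 : ℕ) : ℂ) ^ (-s) =
        (((((n * m ^ 2 : ℕ) : ℝ) / (SD.pr a : ℝ) : ℝ)) : ℂ) ^ (-s) * ((SD.pr a : ℕ) : ℂ) ^ (-s) := by
      have h2 : ((n * m ^ 2 : ℕ) : ℂ) =
          (((((n * m ^ 2 : ℕ) : ℝ) / (SD.pr a : ℝ) : ℝ)) : ℂ) * ((SD.pr a : ℝ) : ℂ) := by
        rw [← Complex.ofReal_mul, div_mul_cancel₀ _ hp.ne']
        norm_cast
      rw [h2, Complex.mul_cpow_ofReal_nonneg (by positivity) hp.le]
      norm_cast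
    have e2 : ((SD.pr a : ℕ) : ℂ) ^ (-(1 - s)) = ((SD.pr a : ℕ) : ℂ)⁻¹ * ((SD.pr a : ℕ) : ℂ) ^ s := by
      rw [show -(1 - s) = -1 + s by ring, Complex.cpow_add _ _ hp0, Complex.cpow_neg_one]
    have e3 : ((SD.pr a : ℕ) : ℂ) ^ (-s) * ((SD.pr a : ℕ) : ℂ) ^ s = 1 := by
      rw [← Complex.cpow_add _ _ hp0, neg_add_cancel, Complex.cpow_zero]
    rw [e1, e2]
    calc Om T V u b s * ((((((n * m ^ 2 : ℕ) : ℝ) / (SD.pr a : ℝ) : ℝ)) : ℂ) ^ (-s) *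
          ((SD.pr a : ℕ) : ℂ) ^ (-s)) * (FT m (SD.Ph m (n : ZMod m)) (SD.sl m b a) *
          (((SD.pr a : ℕ) : ℂ)⁻¹ * ((SD.pr a : ℕ) : ℂ) ^ s))
        = (((SD.pr a : ℕ) : ℂ) ^ (-s) * ((SD.pr a : ℕ) : ℂ) ^ s) *
          ((FT m (SD.Ph m (n : ZMod m)) (SD.sl m b a) * ((SD.pr a : ℕ) : ℂ)⁻¹) *
          (Om T V u b s * (((((n * m ^ 2 : ℕ) : ℝ) / (SD.pr a : ℝ) : ℝ)) : ℂ) ^ (-s))) := by ring
      _ = _ := by rw [e3, one_mul]
  have hi : ∀ a : SD.Tr, Integrable (fun y : ℝ => Om T V u b (line c y) *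
      (((((n * m ^ 2 : ℕ) : ℝ) / (SD.pr a : ℝ) : ℝ)) : ℂ) ^ (-(line c y))) := fun a =>
    A_E5_int hT b (div_pos hNr (hpr a)) h0 h1
  rw [integral_congr_ae (Filter.Eventually.of_forall hpt),
    integral_finsetSum _ fun a _ => (hi a).const_mul _]
  refine Finset.sum_congr rfl fun a _ => ?_
  rw [integral_const_mul]
  rfl

theorem voronoi_c (k : ℕ) (c ε₁ δ : ℝ) (h0 : 0 < c) (h1 : c < 1) (hε1 : 0 < ε₁) (hδ : 0 < δ) (hδ1 : δ ≤ 1 / 10) :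
    ∃ T₀ : ℝ, ∀ T : ℝ, T₀ ≤ T → ∀ u : ℝ, ε₁ * T ≤ u → u ≤ T → ∀ (m : ℕ) [NeZero m] (n : ℕ), 1 ≤ n → Nat.Coprime n m →
      (m : ℝ) ≤ T → (n : ℝ) ≤ T → ∀ Λ : ℕ, (Λ : ℝ) ≤ T ^ 4 →
    ‖VV T (T ^ (1 - δ)) u m n - ((√((n : ℝ) / m) : ℝ) : ℂ) * ∑ b : B3,
      ((∫ y : ℝ, Om T (T ^ (1 - δ)) u b (line c y) * ((n * m ^ 2 : ℕ) : ℂ) ^ (-(line c y)) *
          DSle m (n : ZMod m) b Λ (1 - line c y)) +
       ∫ y : ℝ, Om T (T ^ (1 - δ)) u b (line (-(k : ℝ) - 1 / 2) y) * ((n * m ^ 2 : ℕ) : ℂ) ^ (-(line (-(k : ℝ) - 1 / 2) y)) *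
          DSgt m (n : ZMod m) b Λ (1 - line (-(k : ℝ) - 1 / 2) y))‖ ≤ T ^ (-(2 : ℝ)) := by
  obtain ⟨T₀, hT₀⟩ := voronoi k ε₁ δ hε1 hδ hδ1
  refine ⟨max T₀ 4, fun T hT u hu1 hu2 m _ n hn hcop hmT hnT Λ hΛ => ?_⟩
  have hT4 : 4 ≤ T := (le_max_right _ _).trans hT
  have h := hT₀ T ((le_max_left _ _).trans hT) u hu1 hu2 m n hn hcop hmT hnT Λ hΛ
  have hm : 0 < m := Nat.pos_of_ne_zero (NeZero.ne m)
  have hN : 0 < n * m ^ 2 := by positivity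
  have hNr : (0 : ℝ) < ((n * m ^ 2 : ℕ) : ℝ) := by exact_mod_cast hN
  have hpr : ∀ a : SD.Tr, (0 : ℝ) < (SD.pr a : ℝ) := fun a => by exact_mod_cast SD.pr_pos a
  have key : ∀ b : B3, (∫ y : ℝ, Om T (T ^ (1 - δ)) u b (line c y) *
        ((n * m ^ 2 : ℕ) : ℂ) ^ (-(line c y)) * DSle m (n : ZMod m) b Λ (1 - line c y)) =
      ∫ y : ℝ, Om T (T ^ (1 - δ)) u b (line (1 / 2) y) *
        ((n * m ^ 2 : ℕ) : ℂ) ^ (-(line (1 / 2) y)) * DSle m (n : ZMod m) b Λ (1 - line (1 / 2) y) := by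
    intro b
    rw [A_E5_short hT4 m n hn b Λ h0 h1, A_E5_short hT4 m n hn b Λ (by norm_num) (by norm_num)]
    refine Finset.sum_congr rfl fun a _ => ?_
    rw [Ic_mid hT4 b (div_pos hNr (hpr a)) h0 h1]
  simp only [key]
  exact h

end Pool.Agent.LibSM56A
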