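import Pool.Agent.LibSM56A.A_Defs

/-! ROW A_G (MEDIUM): the size of `Γ(s) h_b(s)` on vertical lines.

`‖Γ(1/2+iy)‖² = π/cosh(πy) ≤ 2π e^{-π|y|}` (grep: LibSM47 X_*, LibZM, `Complex.Gamma_mul_Gamma_one_sub`), `‖(2π)^{3s-3}‖ ≤ 1` for `Re s ≤ 1`,
`‖e^{ε πi(1-s)/2}‖ = e^{ε π y/2} ≤ e^{3π|y|/2}` (`|ε| ≤ 3`).
gG_half: `‖Γ(1/2+iy)‖⁴ e^{3π|y|/2} ≤ C e^{-π|y|/2}`.
gG_left: `s = -k-1/2+iy`: `Γ(s) ∏_{i≤k} (s+i) = Γ(1/2+iy)`, `|s+i| ≥ 1/2`; `Γ(1-s) = ∏_{i≤k} (1/2+i-iy) Γ(1/2-iy)`, `|..| ≤ (k+1)(1+|y|)`. (Induction on `k`.)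
gG_strip: `Re s = x ∈ [-k-1/2, 1/2]`, `|y| ≥ 1`: `‖Γ(x'+iy)‖ ≤ C (1+|y|)² e^{-π|y|/2}` uniformly for `x' ∈ [1/2, 3/2]`
(`Γ(s) Γ(5/2-x') = B(s, 5/2-x') Γ(5/2+iy)`, `|B| ≤ B(x', 5/2-x')`; or any strip bound of the pool: grep `Gamma_up`, `gam_bd`, `Gamma_strip`; the
proof of `Gamma_up` in LibSM47/D_D5.lean), then shift by integers, `|s+i| ≥ |y| ≥ 1`. -/

set_option autoImplicit false

namespace Pool.Agent.LibSM56A

open MeasureTheory Set Filter Topology Complex
open Pool.Agent.LibSM47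

private theorem AG_re (c y : ℝ) : (line c y).re = c := by simp [line]

private theorem AG_im (c y : ℝ) : (line c y).im = y := by simp [line]

private theorem AG_one_sub (c y : ℝ) : 1 - line c y = line (1 - c) (-y) := by
  unfold line
  push_cast
  ring

private theorem AG_add_one (c y : ℝ) : line c y + 1 = line (c + 1) y := by
  unfold line
  push_cast
  ring

private theorem AG_norm_le (c y : ℝ) : ‖line c y‖ ≤ |c| + |y| := by
  have h := Complex.norm_le_abs_re_add_abs_im (line c y)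
  rwa [AG_re, AG_im] at h

private theorem AG_le_re (c y : ℝ) : |c| ≤ ‖line c y‖ := by
  have h := Complex.abs_re_le_norm (line c y)
  rwa [AG_re] at h

private theorem AG_le_im (c y : ℝ) : |y| ≤ ‖line c y‖ := by
  have h := Complex.abs_im_le_norm (line c y)
  rwa [AG_im] at h

private theorem AG_half (y : ℝ) : ‖Complex.Gamma (line (1 / 2) y)‖ * Real.exp (Real.pi / 2 * |y|) ≤ 3 := by
  have h1 := Complex.Gamma_mul_Gamma_one_sub (line (1 / 2) y)
  have h2 : 1 - line (1 / 2) y = (starRingEnd ℂ) (line (1 / 2) y) := by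
    unfold line
    simp only [map_add, map_mul, Complex.conj_ofReal, Complex.conj_I]
    push_cast
    ring
  have h3 : Complex.sin (Real.pi * line (1 / 2) y) = ((Real.cosh (Real.pi * y) : ℝ) : ℂ) := by
    have h4 : (Real.pi : ℂ) * line (1 / 2) y = (Real.pi * y) * I + Real.pi / 2 := by
      unfold line
      push_cast
      ring
    rw [h4, Complex.sin_add_pi_div_two, Complex.cos_mul_I]
    push_cast
    rfl
  rw [h2, Complex.Gamma_conj, h3] at h1
  have h5 : ‖Complex.Gamma (line (1 / 2) y)‖ ^ 2 = Real.pi / Real.cosh (Real.pi * y) := by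
    have h6 := congrArg norm h1
    rw [norm_mul, RCLike.norm_conj, norm_div, Complex.norm_real, Complex.norm_real, Real.norm_eq_abs,
      Real.norm_eq_abs, abs_of_pos Real.pi_pos, abs_of_pos (Real.cosh_pos _)] at h6
    rw [pow_two, h6]
  have h7 : Real.exp (Real.pi * |y|) ≤ 2 * Real.cosh (Real.pi * y) := by
    rw [← Real.cosh_abs, abs_mul, abs_of_pos Real.pi_pos, Real.cosh_eq]
    have := Real.exp_pos (-(Real.pi * |y|))
    linarith
  have h8 : Real.exp (Real.pi / 2 * |y|) ^ 2 = Real.exp (Real.pi * |y|) := by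
    rw [← Real.exp_nat_mul]
    congr 1
    push_cast
    ring
  have h9 : (‖Complex.Gamma (line (1 / 2) y)‖ * Real.exp (Real.pi / 2 * |y|)) ^ 2 ≤ 3 ^ 2 := by
    rw [mul_pow, h5, h8]
    have hc := Real.cosh_pos (Real.pi * y)
    calc Real.pi / Real.cosh (Real.pi * y) * Real.exp (Real.pi * |y|)
        ≤ Real.pi / Real.cosh (Real.pi * y) * (2 * Real.cosh (Real.pi * y)) :=
          mul_le_mul_of_nonneg_left h7 (by positivity)
      _ = 2 * Real.pi := by field_simp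
      _ ≤ 3 ^ 2 := by
          have := Real.pi_lt_four
          linarith
  exact (pow_le_pow_iff_left₀ (by positivity) (by norm_num) (by norm_num)).1 h9

/-- Shift to the left by one. -/
private theorem AG_shift (c y : ℝ) (h : line c y ≠ 0) :
    ‖Complex.Gamma (line (c + 1) y)‖ = ‖line c y‖ * ‖Complex.Gamma (line c y)‖ := by
  rw [← AG_add_one, Complex.Gamma_add_one _ h, norm_mul]

private theorem AG_ne (c y : ℝ) (h : 0 < ‖line c y‖) : line c y ≠ 0 := norm_pos_iff.1 h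

private theorem AG_leftG (j : ℕ) (y : ℝ) :
    ‖Complex.Gamma (line (1 / 2 - (j : ℝ)) y)‖ * Real.exp (Real.pi / 2 * |y|) ≤ 3 * 2 ^ j := by
  induction j with
  | zero => simpa using AG_half y
  | succ j ih =>
      have h1 : (1 / 2 - ((j + 1 : ℕ) : ℝ)) + 1 = 1 / 2 - (j : ℝ) := by
        push_cast
        ring
      have h2 : 1 / 2 ≤ ‖line (1 / 2 - ((j + 1 : ℕ) : ℝ)) y‖ := by
        refine le_trans ?_ (AG_le_re _ y)
        rw [abs_of_nonpos]
        · push_cast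
          have : (0 : ℝ) ≤ j := Nat.cast_nonneg j
          linarith
        · push_cast
          have : (0 : ℝ) ≤ j := Nat.cast_nonneg j
          linarith
      have h3 := AG_shift _ y (AG_ne _ y (lt_of_lt_of_le (by norm_num) h2))
      rw [h1] at h3
      rw [h3] at ih
      have h4 : 0 ≤ ‖Complex.Gamma (line (1 / 2 - ((j + 1 : ℕ) : ℝ)) y)‖ * Real.exp (Real.pi / 2 * |y|) := by
        positivity
      have h5 : 1 / 2 * (‖Complex.Gamma (line (1 / 2 - ((j + 1 : ℕ) : ℝ)) y)‖ * Real.exp (Real.pi / 2 * |y|)) ≤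
          3 * 2 ^ j := by
        refine le_trans (mul_le_mul_of_nonneg_right h2 h4) (le_trans (le_of_eq ?_) ih)
        ring
      rw [pow_succ]
      linarith

private theorem AG_rightG (j : ℕ) (y : ℝ) :
    ‖Complex.Gamma (line (1 / 2 + (j : ℝ)) y)‖ * Real.exp (Real.pi / 2 * |y|) ≤
      3 * (j.factorial : ℝ) * (1 + |y|) ^ j := by
  induction j with
  | zero => simpa using AG_half y
  | succ j ih =>
      have h1 : 1 / 2 + ((j + 1 : ℕ) : ℝ) = (1 / 2 + (j : ℝ)) + 1 := by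
        push_cast
        ring
      have hj : (0 : ℝ) ≤ j := Nat.cast_nonneg j
      have h2 : 1 / 2 ≤ ‖line (1 / 2 + (j : ℝ)) y‖ := by
        refine le_trans ?_ (AG_le_re _ y)
        rw [abs_of_nonneg (by linarith)]
        linarith
      have h3 := AG_shift _ y (AG_ne _ y (lt_of_lt_of_le (by norm_num) h2))
      have h4 : ‖line (1 / 2 + (j : ℝ)) y‖ ≤ ((j : ℝ) + 1) * (1 + |y|) := by
        refine (AG_norm_le _ y).trans ?_
        rw [abs_of_nonneg (by linarith)]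
        nlinarith [abs_nonneg y]
      rw [h1, h3, Nat.factorial_succ, pow_succ]
      have h5 : 0 ≤ ‖Complex.Gamma (line (1 / 2 + (j : ℝ)) y)‖ * Real.exp (Real.pi / 2 * |y|) := by positivity
      calc ‖line (1 / 2 + (j : ℝ)) y‖ * ‖Complex.Gamma (line (1 / 2 + (j : ℝ)) y)‖ * Real.exp (Real.pi / 2 * |y|)
          = ‖line (1 / 2 + (j : ℝ)) y‖ *
            (‖Complex.Gamma (line (1 / 2 + (j : ℝ)) y)‖ * Real.exp (Real.pi / 2 * |y|)) := by ring
        _ ≤ (((j : ℝ) + 1) * (1 + |y|)) * (3 * (j.factorial : ℝ) * (1 + |y|) ^ j) :=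
            mul_le_mul h4 ih h5 (by positivity)
        _ = 3 * (((j + 1) * j.factorial : ℕ) : ℝ) * ((1 + |y|) ^ j * (1 + |y|)) := by
            push_cast
            ring

/-- Growth in a strip to the right of `Re s = 1/2`. -/
private theorem AG_up (N : ℕ) : ∃ C : ℝ, 0 < C ∧ ∀ x ∈ Icc (1 / 2 : ℝ) (N : ℝ), ∀ y : ℝ,
    ‖Complex.Gamma (line x y)‖ * Real.exp (Real.pi / 2 * |y|) ≤ C * (1 + |y|) ^ N := by
  have hcont : ContinuousOn Real.Gamma (Icc (1 / 2 : ℝ) (N : ℝ)) := by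
    intro x hx
    refine (Real.differentiableAt_Gamma ?_).continuousAt.continuousWithinAt
    intro m
    have h1 : (1 / 2 : ℝ) ≤ x := hx.1
    have h2 : (0 : ℝ) ≤ m := Nat.cast_nonneg m
    intro h
    linarith
  obtain ⟨B, hB⟩ := isCompact_Icc.exists_bound_of_continuousOn hcont
  have hpi : 3 < Real.pi := Real.pi_gt_three
  refine ⟨Real.exp 1 * (max B 1) * (Real.pi / 2) ^ N, by positivity, fun x hx y => ?_⟩
  have hx0 : 0 < x := lt_of_lt_of_le (by norm_num) hx.1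
  have hGx : Real.Gamma x ≤ max B 1 := (le_abs_self _).trans ((hB x hx).trans (le_max_left _ _))
  have hG : 0 < Real.Gamma x := Real.Gamma_pos_of_pos hx0
  set u : ℝ := 1 / (1 + |y|) with hu
  have hy : 0 ≤ |y| := abs_nonneg y
  have hu0 : 0 < u := by positivity
  have hu1 : u ≤ 1 := by
    rw [hu, div_le_one (by linarith)]
    linarith
  set w : ℝ := Real.pi / 2 - u with hw
  have hw0 : 0 < w := by rw [hw]; linarith
  have hw1 : w < Real.pi / 2 := by rw [hw]; linarith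
  have hcosw : Real.cos w = Real.sin u := by rw [hw, Real.cos_pi_div_two_sub]
  obtain ⟨θ, hθ, hθy, hcos⟩ : ∃ θ : ℝ, |θ| < Real.pi / 2 ∧ y * θ = |y| * w ∧ Real.cos θ = Real.sin u := by
    rcases le_total 0 y with h | h
    · exact ⟨w, by rwa [abs_of_pos hw0], by rw [abs_of_nonneg h], hcosw⟩
    · refine ⟨-w, by rwa [abs_neg, abs_of_pos hw0], by rw [abs_of_nonpos h]; ring, ?_⟩
      rw [Real.cos_neg, hcosw]
  have h1 := Pool.Agent.LibPH.gam_bd (s := line x y) (by rw [AG_re]; exact hx0) hθ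
  rw [AG_re, AG_im, hθy, hcos] at h1
  have h2 : Real.pi / 2 * |y| ≤ 1 + |y| * w := by
    have h3 : |y| * u ≤ 1 := by
      rw [hu, mul_one_div, div_le_one (by linarith)]
      linarith
    rw [hw]
    nlinarith
  have h4 : Real.exp (Real.pi / 2 * |y|) ≤ Real.exp 1 * Real.exp (|y| * w) := by
    rw [← Real.exp_add]
    exact Real.exp_le_exp.2 h2
  have h5 : 2 / Real.pi * u ≤ Real.sin u := Real.mul_le_sin hu0.le (by linarith)
  have h6 : 0 < 2 / Real.pi * u := by positivity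
  have h7 : Real.sin u ^ (-x) ≤ (2 / Real.pi * u) ^ (-x) :=
    Real.rpow_le_rpow_of_nonpos h6 h5 (by linarith)
  have h8 : (2 / Real.pi * u) ^ (-x) = (Real.pi / 2 * (1 + |y|)) ^ x := by
    rw [Real.rpow_neg h6.le, ← Real.inv_rpow h6.le]
    congr 1
    rw [hu]
    field_simp
  have h9 : 1 ≤ Real.pi / 2 * (1 + |y|) := by nlinarith
  have h10 : (Real.pi / 2 * (1 + |y|)) ^ x ≤ (Real.pi / 2 * (1 + |y|)) ^ (N : ℝ) :=
    Real.rpow_le_rpow_of_exponent_le h9 hx.2
  have h11 : (Real.pi / 2 * (1 + |y|)) ^ (N : ℝ) = (Real.pi / 2) ^ N * (1 + |y|) ^ N := by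
    rw [Real.rpow_natCast, mul_pow]
  have h12 : Real.sin u ^ (-x) ≤ (Real.pi / 2) ^ N * (1 + |y|) ^ N := by
    rw [← h11]
    exact h7.trans (h8.le.trans h10)
  have h13 : 0 ≤ Real.sin u ^ (-x) := Real.rpow_nonneg (h6.le.trans h5) _
  calc ‖Complex.Gamma (line x y)‖ * Real.exp (Real.pi / 2 * |y|)
      ≤ ‖Complex.Gamma (line x y)‖ * (Real.exp 1 * Real.exp (|y| * w)) :=
        mul_le_mul_of_nonneg_left h4 (norm_nonneg _)
    _ = Real.exp 1 * (‖Complex.Gamma (line x y)‖ * Real.exp (|y| * w)) := by ring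
    _ ≤ Real.exp 1 * (Real.Gamma x * Real.sin u ^ (-x)) :=
        mul_le_mul_of_nonneg_left h1 (Real.exp_pos 1).le
    _ ≤ Real.exp 1 * (max B 1 * ((Real.pi / 2) ^ N * (1 + |y|) ^ N)) := by
        refine mul_le_mul_of_nonneg_left ?_ (Real.exp_pos 1).le
        exact mul_le_mul hGx h12 h13 (by positivity)
    _ = Real.exp 1 * (max B 1) * (Real.pi / 2) ^ N * (1 + |y|) ^ N := by ring

private theorem AG_strip : ∃ C : ℝ, 0 < C ∧ ∀ (j : ℕ), ∀ x ∈ Icc (1 / 2 - (j : ℝ)) (3 / 2), ∀ y : ℝ, 1 ≤ |y| →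
    ‖Complex.Gamma (line x y)‖ * Real.exp (Real.pi / 2 * |y|) ≤ C * (1 + |y|) ^ 2 := by
  obtain ⟨C, hC, h⟩ := AG_up 2
  refine ⟨C, hC, fun j => ?_⟩
  induction j with
  | zero =>
      intro x hx y _
      refine h x ⟨?_, ?_⟩ y
      · have := hx.1
        simpa using this
      · have := hx.2
        push_cast
        linarith
  | succ j ih =>
      intro x hx y hy
      rcases le_total (1 / 2 - (j : ℝ)) x with hc | hc
      · exact ih x ⟨hc, hx.2⟩ y hy
      · have h1 : x + 1 ∈ Icc (1 / 2 - (j : ℝ)) (3 / 2) := by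
          have h2 := hx.1
          push_cast at h2
          have hj : (0 : ℝ) ≤ j := Nat.cast_nonneg j
          exact ⟨by linarith, by linarith⟩
        have h3 : 1 ≤ ‖line x y‖ := hy.trans (AG_le_im x y)
        have h4 := AG_shift x y (AG_ne x y (lt_of_lt_of_le one_pos h3))
        refine le_trans ?_ (ih (x + 1) h1 y hy)
        rw [h4]
        refine mul_le_mul_of_nonneg_right ?_ (Real.exp_pos _).le
        exact le_mul_of_one_le_left (norm_nonneg _) h3

private theorem AG_exp (b : B3) (s : ℂ) :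
    ‖cexp (((SD.sg b.1 : ℂ) + SD.sg b.2.1 + SD.sg b.2.2) * Real.pi * I * s / 2)‖ ≤
      Real.exp (Real.pi / 2 * |s.im|) ^ 3 := by
  rw [Complex.norm_exp, ← Real.exp_nat_mul]
  refine Real.exp_le_exp.2 ?_
  have h1 : (((SD.sg b.1 : ℂ) + SD.sg b.2.1 + SD.sg b.2.2) * Real.pi * I * s / 2).re =
      -(((SD.sg b.1 : ℝ) + SD.sg b.2.1 + SD.sg b.2.2) * Real.pi * s.im / 2) := by
    have h2 : ((SD.sg b.1 : ℂ) + SD.sg b.2.1 + SD.sg b.2.2) * Real.pi * I * s / 2 =
        ((((SD.sg b.1 : ℝ) + SD.sg b.2.1 + SD.sg b.2.2) * Real.pi / 2 : ℝ) : ℂ) * (I * s) := by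
      push_cast
      ring
    rw [h2, Complex.re_ofReal_mul, Complex.I_mul_re]
    ring
  rw [h1]
  have h3 : |((SD.sg b.1 : ℝ) + SD.sg b.2.1 + SD.sg b.2.2)| ≤ 3 := by
    have h4 : ∀ c : Bool, |(SD.sg c : ℝ)| ≤ 1 := by
      intro c
      cases c <;> simp [SD.sg]
    have h5 := abs_add_le ((SD.sg b.1 : ℝ) + SD.sg b.2.1) (SD.sg b.2.2 : ℝ)
    have h6 := abs_add_le (SD.sg b.1 : ℝ) (SD.sg b.2.1 : ℝ)
    linarith [h4 b.1, h4 b.2.1, h4 b.2.2]
  have h7 : -(((SD.sg b.1 : ℝ) + SD.sg b.2.1 + SD.sg b.2.2) * Real.pi * s.im / 2) ≤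
      |((SD.sg b.1 : ℝ) + SD.sg b.2.1 + SD.sg b.2.2) * Real.pi * s.im / 2| := neg_le_abs _
  have h8 : |((SD.sg b.1 : ℝ) + SD.sg b.2.1 + SD.sg b.2.2) * Real.pi * s.im / 2| =
      |((SD.sg b.1 : ℝ) + SD.sg b.2.1 + SD.sg b.2.2)| * (Real.pi / 2 * |s.im|) := by
    rw [abs_div, abs_mul, abs_mul, abs_of_pos Real.pi_pos, abs_of_pos (by norm_num : (0 : ℝ) < 2)]
    ring
  have h9 : 0 ≤ Real.pi / 2 * |s.im| := by positivity
  have h10 := mul_le_mul_of_nonneg_right h3 h9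
  push_cast
  linarith

/-- The assembly: with `E = e^{π|y|/2}`, `‖gG‖ ≤ ‖Γ(s)‖ ‖Γ(1-s)‖³ E³`. -/
private theorem AG_main (b : B3) (x y P Q : ℝ) (hx : x ≤ 1) (hP : 0 ≤ P) (hQ : 0 ≤ Q)
    (h1 : ‖Complex.Gamma (line x y)‖ * Real.exp (Real.pi / 2 * |y|) ≤ P)
    (h2 : ‖Complex.Gamma (line (1 - x) (-y))‖ * Real.exp (Real.pi / 2 * |y|) ≤ Q) :
    ‖gG b (line x y)‖ ≤ P * Q ^ 3 * Real.exp (-(Real.pi / 2 * |y|)) := by
  have h3 : ‖(2 * Real.pi : ℂ) ^ (3 * line x y - 3)‖ ≤ 1 := by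
    have h4 : (2 * Real.pi : ℂ) = ((2 * Real.pi : ℝ) : ℂ) := by push_cast; ring
    rw [h4, Complex.norm_cpow_eq_rpow_re_of_pos (by positivity)]
    have h5 : (3 * line x y - 3).re = 3 * x - 3 := by
      rw [Complex.sub_re]
      have : (3 * line x y).re = 3 * x := by
        rw [show (3 : ℂ) = ((3 : ℝ) : ℂ) by norm_num, Complex.re_ofReal_mul, AG_re]
      rw [this]
      norm_num
    rw [h5]
    refine Real.rpow_le_one_of_one_le_of_nonpos ?_ (by linarith)
    have := Real.pi_gt_three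
    linarith
  have h6 := AG_exp b (1 - line x y)
  have h7 : |(1 - line x y).im| = |y| := by
    rw [AG_one_sub, AG_im, abs_neg]
  rw [h7] at h6
  unfold gG hb
  rw [AG_one_sub] at h6 ⊢
  rw [norm_mul, norm_mul, norm_mul, norm_pow]
  set E := Real.exp (Real.pi / 2 * |y|) with hE
  set G := ‖Complex.Gamma (line x y)‖ with hG
  set H := ‖Complex.Gamma (line (1 - x) (-y))‖ with hH
  have hE0 : 0 < E := Real.exp_pos _
  have hG0 : 0 ≤ G := norm_nonneg _
  have hH0 : 0 ≤ H := norm_nonneg _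
  have h8 : Real.exp (-(Real.pi / 2 * |y|)) = E⁻¹ := Real.exp_neg _
  rw [h8]
  have h9 : (H * E) ^ 3 ≤ Q ^ 3 := pow_le_pow_left₀ (by positivity) h2 3
  calc G * (‖(2 * Real.pi : ℂ) ^ (3 * line x y - 3)‖ * H ^ 3 *
        ‖cexp (((SD.sg b.1 : ℂ) + SD.sg b.2.1 + SD.sg b.2.2) * Real.pi * I * line (1 - x) (-y) / 2)‖)
      ≤ G * (1 * H ^ 3 * E ^ 3) := by
        refine mul_le_mul_of_nonneg_left ?_ hG0
        refine mul_le_mul ?_ h6 (norm_nonneg _) (by positivity)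
        exact mul_le_mul_of_nonneg_right h3 (by positivity)
    _ = (G * E) * (H * E) ^ 3 * E⁻¹ := by
        field_simp
    _ ≤ P * Q ^ 3 * E⁻¹ := by
        refine mul_le_mul_of_nonneg_right ?_ (inv_nonneg.2 hE0.le)
        exact mul_le_mul h1 h9 (by positivity) hP

theorem gG_half : ∃ C : ℝ, 0 < C ∧ ∀ (b : B3) (y : ℝ), ‖gG b (line (1 / 2) y)‖ ≤ C * Real.exp (-(Real.pi / 2 * |y|)) := by
  refine ⟨3 * 3 ^ 3, by norm_num, fun b y => ?_⟩
  refine AG_main b (1 / 2) y 3 3 (by norm_num) (by norm_num) (by norm_num) (AG_half y) ?_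
  have h := AG_half (-y)
  rw [abs_neg] at h
  rw [show (1 - 1 / 2 : ℝ) = 1 / 2 by norm_num]
  exact h

theorem gG_left (k : ℕ) : ∃ C : ℝ, 0 < C ∧ ∀ (b : B3) (y : ℝ),
    ‖gG b (line (-(k : ℝ) - 1 / 2) y)‖ ≤ C * (1 + |y|) ^ (3 * k + 3) * Real.exp (-(Real.pi / 2 * |y|)) := by
  refine ⟨(3 * 2 ^ (k + 1)) * (3 * ((k + 1).factorial : ℝ)) ^ 3, by positivity, fun b y => ?_⟩
  have hk : (0 : ℝ) ≤ k := Nat.cast_nonneg k
  have h1 := AG_leftG (k + 1) y
  have h2 := AG_rightG (k + 1) (-y)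
  rw [abs_neg] at h2
  have e1 : 1 / 2 - ((k + 1 : ℕ) : ℝ) = -(k : ℝ) - 1 / 2 := by
    push_cast
    ring
  have e2 : 1 / 2 + ((k + 1 : ℕ) : ℝ) = 1 - (-(k : ℝ) - 1 / 2) := by
    push_cast
    ring
  rw [e1] at h1
  rw [e2] at h2
  refine (AG_main b _ y _ _ (by linarith) (by positivity) (by positivity) h1 h2).trans (le_of_eq ?_)
  have e3 : 3 * k + 3 = (k + 1) * 3 := by ring
  rw [e3, pow_mul]
  ring

theorem gG_strip (k : ℕ) : ∃ C : ℝ, 0 < C ∧ ∀ (b : B3), ∀ x ∈ Icc (-(k : ℝ) - 1 / 2) (1 / 2), ∀ y : ℝ, 1 ≤ |y| →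
    ‖gG b (line x y)‖ ≤ C * (1 + |y|) ^ (3 * k + 9) * Real.exp (-(Real.pi / 2 * |y|)) := by
  obtain ⟨C, hC, h⟩ := AG_strip
  obtain ⟨D, hD, h'⟩ := AG_up (k + 2)
  refine ⟨C * D ^ 3, by positivity, fun b x hx y hy => ?_⟩
  have hk : (0 : ℝ) ≤ k := Nat.cast_nonneg k
  have h1 := h (k + 1) x ⟨by
    have := hx.1
    push_cast
    linarith, by
    have := hx.2
    linarith⟩ y hy
  have h2 := h' (1 - x) ⟨by
    have := hx.2
    linarith, by
    have := hx.1
    push_cast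
    linarith⟩ (-y)
  rw [abs_neg] at h2
  refine (AG_main b x y _ _ (by linarith [hx.2]) (by positivity) (by positivity) h1 h2).trans ?_
  refine mul_le_mul_of_nonneg_right ?_ (Real.exp_pos _).le
  have hy0 : 0 ≤ |y| := abs_nonneg y
  have e1 : C * (1 + |y|) ^ 2 * (D * (1 + |y|) ^ (k + 2)) ^ 3 = C * D ^ 3 * (1 + |y|) ^ (3 * k + 8) := by
    rw [mul_pow, ← pow_mul]
    rw [show 3 * k + 8 = 2 + (k + 2) * 3 by ring, pow_add]
    ring
  rw [e1]
  refine mul_le_mul_of_nonneg_left ?_ (by positivity)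
  exact pow_le_pow_right₀ (by linarith) (by omega)

/-- Continuity on the lines `Re s = 1/2` and `Re s = -k - 1/2`. -/
theorem gG_cont (b : B3) (c : ℝ) (hc : c = 1 / 2 ∨ ∃ k : ℕ, c = -(k : ℝ) - 1 / 2) : Continuous (fun y : ℝ => gG b (line c y)) := by
  have hl : Continuous (fun y : ℝ => line c y) := by
    unfold line
    fun_prop
  have hc1 : c ≤ 1 / 2 := by
    rcases hc with hc | ⟨k, hc⟩
    · exact hc.le
    · have hk : (0 : ℝ) ≤ k := Nat.cast_nonneg k
      rw [hc]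
      linarith
  have hc2 : ∀ m : ℕ, c ≠ -(m : ℝ) := by
    intro m hm
    rcases hc with hc | ⟨k, hc⟩
    · have : (0 : ℝ) ≤ m := Nat.cast_nonneg m
      rw [hc] at hm
      linarith
    · rw [hc] at hm
      have h1 : (2 * (k : ℝ) + 1) = 2 * m := by linarith
      have h2 : 2 * k + 1 = 2 * m := by exact_mod_cast h1
      omega
  have h1 : Continuous (fun y : ℝ => Complex.Gamma (line c y)) := by
    rw [continuous_iff_continuousAt]
    intro y
    have hd : DifferentiableAt ℂ Complex.Gamma (line c y) := by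
      refine Complex.differentiableAt_Gamma _ fun m hm => hc2 m ?_
      have := congrArg Complex.re hm
      rw [AG_re] at this
      simpa using this
    exact ContinuousAt.comp (f := fun y : ℝ => line c y) (x := y) hd.continuousAt hl.continuousAt
  have h2 : Continuous (fun y : ℝ => Complex.Gamma (1 - line c y)) := by
    rw [continuous_iff_continuousAt]
    intro y
    have hd : DifferentiableAt ℂ Complex.Gamma (1 - line c y) := by
      refine Complex.differentiableAt_Gamma _ fun m hm => ?_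
      have := congrArg Complex.re hm
      rw [AG_one_sub, AG_re] at this
      have hm0 : (0 : ℝ) ≤ m := Nat.cast_nonneg m
      simp only [Complex.neg_re, Complex.natCast_re] at this
      linarith
    exact ContinuousAt.comp (f := fun y : ℝ => 1 - line c y) (x := y) hd.continuousAt
      (continuous_const.sub hl).continuousAt
  have h3 : Continuous (fun y : ℝ => (2 * Real.pi : ℂ) ^ (3 * line c y - 3)) := by
    have h4 : (2 * Real.pi : ℂ) ≠ 0 := by
      have := Real.pi_ne_zero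
      have h5 : (Real.pi : ℂ) ≠ 0 := by exact_mod_cast this
      exact mul_ne_zero two_ne_zero h5
    exact Continuous.const_cpow (by fun_prop) (Or.inl h4)
  have h5 : Continuous (fun y : ℝ => cexp (((SD.sg b.1 : ℂ) + SD.sg b.2.1 + SD.sg b.2.2) * Real.pi * I *
      (1 - line c y) / 2)) := by
    fun_prop
  unfold gG hb
  exact h1.mul ((h3.mul (h2.pow 3)).mul h5)

end Pool.Agent.LibSM56A
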