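import Pool.Agent.LibSM56A.A_K
import Pool.Agent.LibSM56A.A_G
import Pool.Agent.LibPH.X02

/-! ROW A_B (MEDIUM): L¹ bounds of `Ω_b` on the two lines.

`‖Ω_b(c+iy)‖ ≤ ∫ ‖nv‖ ‖gG b (c+iy)‖ ‖K^{-(c+iy)}‖ dξ`, `‖K^{-(c+iy)}‖ = ‖K‖^{-c} e^{y arg K}`, and with `ρ = ‖w‖/w.re ≥ 1`:
`π/2 - |arg K| ≥ Re K/‖K‖ ≥ 1/(10ρ)` (see `e3_R` in LibSM47/D_E3.lean), `∫ (1+|y|)^M e^{-a|y|} dy ≤ C_M a^{-(M+1)}` for `0 < a ≤ 2`. So
`∫ (1+|y|)^B ‖gG‖ ‖K^{-s}‖ dy ≤ C ‖K‖^{-c} ρ^{B+3k+4}` (`gG_half`: `k = 0`; `gG_left`). `c = 1/2`: `‖K‖ ≥ Re K ≥ 1/T`; `c = -k-1/2`: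
`‖K‖^{k+1/2} ≤ (10‖w‖)^{k+1/2} ≤ C T^{-k-1/2} ρ^{k+1}`. Tonelli, `nv_norm`, `nu_momN` with `N = B+4k+5`. -/

set_option autoImplicit false

namespace Pool.Agent.LibSM56A

open MeasureTheory Set Filter Topology Complex
open Pool.Agent.LibSM47

private theorem ab_exp {a : ℝ} (ha : 0 < a) : Integrable (fun y : ℝ => Real.exp (-(a * |y|))) := by
  rw [← integrableOn_univ, ← Set.Iic_union_Ioi (a := (0 : ℝ)), integrableOn_union]
  constructor
  · refine (integrableOn_exp_mul_Iic ha 0).congr_fun (fun y hy => ?_) measurableSet_Iic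
    show Real.exp (a * y) = Real.exp (-(a * |y|))
    rw [abs_of_nonpos hy]
    ring_nf
  · refine (integrableOn_exp_mul_Ioi (a := -a) (neg_lt_zero.2 ha) 0).congr_fun
      (fun y hy => ?_) measurableSet_Ioi
    show Real.exp (-a * y) = Real.exp (-(a * |y|))
    rw [abs_of_pos hy]
    ring_nf

private theorem ab_int {a : ℝ} (ha : 0 < a) : ∫ y : ℝ, Real.exp (-(a * |y|)) = 2 / a := by
  rw [integral_comp_abs (f := fun y => Real.exp (-(a * y)))]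
  have h := integral_exp_mul_Ioi (a := -a) (neg_lt_zero.2 ha) 0
  have e : (fun y : ℝ => Real.exp (-(a * y))) = fun y => Real.exp (-a * y) := by
    ext y; ring_nf
  rw [e, h]
  simp
  field_simp

private theorem ab_le {δ : ℝ} (h0 : 0 < δ) (k : ℕ) (y : ℝ) :
    (1 + |y|) ^ k * Real.exp (-(δ * |y|))
      ≤ (k.factorial * Real.exp (δ / 2) / (δ / 2) ^ k) * Real.exp (-(δ / 2 * |y|)) := by
  have hx : 0 ≤ δ / 2 * (1 + |y|) := by positivity
  have h1 := Real.pow_div_factorial_le_exp (δ / 2 * (1 + |y|)) hx k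
  have h2 : (1 + |y|) ^ k ≤ k.factorial * Real.exp (δ / 2 * (1 + |y|)) / (δ / 2) ^ k := by
    rw [le_div_iff₀ (by positivity), mul_comm, ← mul_pow]
    rwa [div_le_iff₀ (by positivity), mul_comm (Real.exp _)] at h1
  have h3 : k.factorial * Real.exp (δ / 2 * (1 + |y|)) / (δ / 2) ^ k * Real.exp (-(δ * |y|))
      = (k.factorial * Real.exp (δ / 2) / (δ / 2) ^ k) * Real.exp (-(δ / 2 * |y|)) := by
    have h4 : Real.exp (δ / 2 * (1 + |y|)) * Real.exp (-(δ * |y|))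
        = Real.exp (δ / 2) * Real.exp (-(δ / 2 * |y|)) := by
      rw [← Real.exp_add, ← Real.exp_add]
      ring_nf
    rw [div_mul_eq_mul_div, mul_assoc, h4, ← mul_assoc, div_mul_eq_mul_div _ _ (Real.exp _)]
  rw [← h3]
  exact mul_le_mul_of_nonneg_right h2 (Real.exp_pos _).le

private theorem ab_R {z : ℂ} (hz : 0 < z.re) :
    0 < Real.pi / 2 - |arg z| ∧ Real.pi / 2 - |arg z| ≤ Real.pi / 2 ∧
      (Real.pi / 2 - |arg z|)⁻¹ ≤ ‖z‖ / z.re := by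
  have hφ : |arg z| < Real.pi / 2 := abs_arg_lt_pi_div_two_iff.mpr (Or.inl hz)
  have hφ0 : 0 ≤ |arg z| := abs_nonneg _
  have hα0 : 0 < Real.pi / 2 - |arg z| := by linarith
  have hz0 : 0 < ‖z‖ := by
    have h := Complex.abs_re_le_norm z
    rw [abs_of_pos hz] at h
    linarith
  refine ⟨hα0, by linarith, ?_⟩
  have hsα : Real.sin (Real.pi / 2 - |arg z|) = z.re / ‖z‖ := by
    rw [Real.sin_pi_div_two_sub, Real.cos_abs, Complex.cos_arg (norm_pos_iff.mp hz0)]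
  have h2 : z.re / ‖z‖ ≤ Real.pi / 2 - |arg z| := by rw [← hsα]; exact Real.sin_le hα0.le
  have h3 : 0 < z.re / ‖z‖ := by positivity
  calc (Real.pi / 2 - |arg z|)⁻¹ ≤ (z.re / ‖z‖)⁻¹ := by gcongr
    _ = ‖z‖ / z.re := by rw [inv_div]

/-- The inner integral. -/
private theorem ab_inner (b : B3) (c : ℝ) (M B : ℕ) {Cg : ℝ} (hCg : 0 < Cg)
    (hg : ∀ y : ℝ, ‖gG b (line c y)‖ ≤ Cg * (1 + |y|) ^ M * Real.exp (-(Real.pi / 2 * |y|)))
    (hgc : Continuous (fun y : ℝ => gG b (line c y))) {z : ℂ} (hz : 0 < z.re) {ρ : ℝ} (hρ : ‖z‖ / z.re ≤ 10 * ρ) :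
    Integrable (fun y : ℝ => (1 + |y|) ^ B * (‖gG b (line c y)‖ * ‖z ^ (-(line c y))‖)) ∧
    ∫ y : ℝ, (1 + |y|) ^ B * (‖gG b (line c y)‖ * ‖z ^ (-(line c y))‖) ≤
      (Cg * ((B + M).factorial * Real.exp (Real.pi / 4) * 20 ^ (B + M) * 40)) * (‖z‖ ^ (-c) * ρ ^ (B + M + 1)) := by
  obtain ⟨hα0, hα1, hα2⟩ := ab_R hz
  set α : ℝ := Real.pi / 2 - |arg z| with hα
  have hz0 : z ≠ 0 := by
    rintro rfl
    simp at hz
  have hpt : ∀ y : ℝ, (1 + |y|) ^ B * (‖gG b (line c y)‖ * ‖z ^ (-(line c y))‖) ≤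
      (Cg * ‖z‖ ^ (-c) * ((B + M).factorial * Real.exp (α / 2) / (α / 2) ^ (B + M))) *
        Real.exp (-(α / 2 * |y|)) := by
    intro y
    have h1 : ‖z ^ (-(line c y))‖ = ‖z‖ ^ (-c) * Real.exp (y * arg z) := by
      unfold line
      exact LibPH.cpow_norm hz c y
    have h2 : y * arg z ≤ |y| * |arg z| := by
      rw [← abs_mul]
      exact le_abs_self _
    have h3 := ab_le hα0 (B + M) y
    have hn : 0 ≤ ‖z‖ ^ (-c) := by positivity
    calc (1 + |y|) ^ B * (‖gG b (line c y)‖ * ‖z ^ (-(line c y))‖)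
        ≤ (1 + |y|) ^ B * ((Cg * (1 + |y|) ^ M * Real.exp (-(Real.pi / 2 * |y|))) *
          (‖z‖ ^ (-c) * Real.exp (|y| * |arg z|))) := by
          rw [h1]
          gcongr
          exact hg y
      _ = (Cg * ‖z‖ ^ (-c)) * ((1 + |y|) ^ (B + M) * (Real.exp (-(Real.pi / 2 * |y|)) *
          Real.exp (|y| * |arg z|))) := by
          rw [pow_add]; ring
      _ = (Cg * ‖z‖ ^ (-c)) * ((1 + |y|) ^ (B + M) * Real.exp (-(α * |y|))) := by
          rw [← Real.exp_add]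
          congr 3
          rw [hα]; ring
      _ ≤ (Cg * ‖z‖ ^ (-c)) * (((B + M).factorial * Real.exp (α / 2) / (α / 2) ^ (B + M)) *
          Real.exp (-(α / 2 * |y|))) := by gcongr
      _ = _ := by ring
  have hi := (ab_exp (a := α / 2) (by positivity)).const_mul
    (Cg * ‖z‖ ^ (-c) * ((B + M).factorial * Real.exp (α / 2) / (α / 2) ^ (B + M)))
  have hcont : Continuous (fun y : ℝ => (1 + |y|) ^ B * (‖gG b (line c y)‖ * ‖z ^ (-(line c y))‖)) := by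
    have h1 : Continuous (fun y : ℝ => z ^ (-(line c y))) := by
      unfold line
      exact Continuous.const_cpow (by fun_prop) (Or.inl hz0)
    fun_prop
  have hnn : ∀ y : ℝ, 0 ≤ (1 + |y|) ^ B * (‖gG b (line c y)‖ * ‖z ^ (-(line c y))‖) := fun y => by positivity
  have hint : Integrable (fun y : ℝ => (1 + |y|) ^ B * (‖gG b (line c y)‖ * ‖z ^ (-(line c y))‖)) := by
    refine hi.mono' hcont.aestronglyMeasurable (ae_of_all _ fun y => ?_)
    rw [Real.norm_of_nonneg (hnn y)]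
    exact hpt y
  refine ⟨hint, ?_⟩
  refine (integral_mono hint hi hpt).trans ?_
  rw [integral_const_mul, ab_int (by positivity)]
  have hαi : α⁻¹ ≤ 10 * ρ := hα2.trans hρ
  have hρ0 : 0 ≤ ρ := by
    have : 0 ≤ α⁻¹ := by positivity
    linarith
  have e1 : Real.exp (α / 2) ≤ Real.exp (Real.pi / 4) := Real.exp_le_exp.2 (by linarith)
  have e2 : 1 / (α / 2) ^ (B + M) ≤ (20 * ρ) ^ (B + M) := by
    rw [one_div, ← inv_pow]
    refine pow_le_pow_left₀ (by positivity) ?_ _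
    rw [inv_div, div_eq_mul_inv]
    linarith
  have e3 : 2 / (α / 2) ≤ 40 * ρ := by
    have : 2 / (α / 2) = 4 * α⁻¹ := by
      rw [div_div_eq_mul_div]
      ring
    rw [this]
    linarith
  have e0 : (0:ℝ) ≤ 1 / (α / 2) ^ (B + M) := by positivity
  calc Cg * ‖z‖ ^ (-c) * ((B + M).factorial * Real.exp (α / 2) / (α / 2) ^ (B + M)) * (2 / (α / 2))
      = Cg * ‖z‖ ^ (-c) * ((B + M).factorial * Real.exp (α / 2) * (1 / (α / 2) ^ (B + M))) * (2 / (α / 2)) := by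
        ring
    _ ≤ Cg * ‖z‖ ^ (-c) * ((B + M).factorial * Real.exp (Real.pi / 4) * (20 * ρ) ^ (B + M)) * (40 * ρ) := by
        gcongr
    _ = _ := by
        rw [mul_pow, pow_succ]; ring

private theorem ab_main (c : ℝ) (M B r : ℕ) (δ : ℝ) (hδ : 0 < δ) (hδ1 : δ ≤ 1 / 10)
    (hg : ∃ C : ℝ, 0 < C ∧ ∀ (b : B3) (y : ℝ),
      ‖gG b (line c y)‖ ≤ C * (1 + |y|) ^ M * Real.exp (-(Real.pi / 2 * |y|)))
    (hgc : ∀ b : B3, Continuous (fun y : ℝ => gG b (line c y)))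
    (hK : ∃ C : ℝ, 0 < C ∧ ∀ T : ℝ, 4 ≤ T → ∀ ξ ∈ Icc (-(1 / 4) : ℝ) (1 / 4),
      ‖KK (wq T ξ)‖ ^ (-c) ≤ C * T ^ c * (‖wq T ξ‖ / (wq T ξ).re) ^ r) :
    ∃ C T₀ : ℝ, 0 < C ∧ 4 ≤ T₀ ∧ ∀ T : ℝ, T₀ ≤ T → ∀ u : ℝ, 0 ≤ u → u ≤ T → ∀ b : B3,
      Integrable (fun y : ℝ => (1 + |y|) ^ B * ‖Om T (T ^ (1 - δ)) u b (line c y)‖) ∧
      ∫ y : ℝ, (1 + |y|) ^ B * ‖Om T (T ^ (1 - δ)) u b (line c y)‖ ≤
        C * T ^ (c + (((r + (B + M + 1) : ℕ) : ℝ) + 1) * δ - 1) := by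
  obtain ⟨Cg, hCg, hg⟩ := hg
  obtain ⟨C1, hC1, hK⟩ := hK
  obtain ⟨C2, T2, hC2, hmom⟩ := nu_momN (r + (B + M + 1)) δ hδ hδ1
  set C3 : ℝ := Cg * ((B + M).factorial * Real.exp (Real.pi / 4) * 20 ^ (B + M) * 40) with hC3
  have hC3p : 0 < C3 := by positivity
  refine ⟨2 * C3 * C1 * C2, max 4 T2, by positivity, le_max_left _ _, fun T hT u hu0 hu b => ?_⟩
  have hT4 : 4 ≤ T := le_trans (le_max_left _ _) hT
  have hT0 : 0 < T := by linarith
  have hTc : 0 < T ^ c := Real.rpow_pos_of_pos hT0 _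
  have hmom := hmom T (le_trans (le_max_right _ _) hT) u hu0 hu
  set V := T ^ (1 - δ) with hV
  set N := r + (B + M + 1) with hN
  have hwre : ∀ ξ : ℝ, (wq T ξ).re = 1 / T := fun ξ => by
    unfold wq; simp
  have hwpos : ∀ ξ : ℝ, 0 < (wq T ξ).re := fun ξ => by rw [hwre]; positivity
  have hKre : ∀ ξ ∈ Icc (-(1 / 4) : ℝ) (1 / 4), 0 < (KK (wq T ξ)).re := fun ξ hξ =>
    lt_of_lt_of_le (hwpos ξ) (KK_re (hwpos ξ) (wq_half hT4 hξ))
  have hrho : ∀ ξ ∈ Icc (-(1 / 4) : ℝ) (1 / 4),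
      ‖KK (wq T ξ)‖ / (KK (wq T ξ)).re ≤ 10 * (‖wq T ξ‖ / (wq T ξ).re) := by
    intro ξ hξ
    have h1 := KK_re (hwpos ξ) (wq_half hT4 hξ)
    have h2 := KK_norm (hwpos ξ) (wq_half hT4 hξ)
    have h3 := hwpos ξ
    calc ‖KK (wq T ξ)‖ / (KK (wq T ξ)).re ≤ (10 * ‖wq T ξ‖) / (wq T ξ).re := by gcongr
      _ = _ := by ring
  set μ : Measure ℝ := volume.restrict (Icc (-(1 / 4) : ℝ) (1 / 4)) with hμ
  set F : ℝ × ℝ → ℂ := fun p => ((((1 + |p.1|) ^ B : ℝ)) : ℂ) *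
    (gG b (line c p.1) * (nv T V u p.2 * KK (wq T p.2) ^ (-(line c p.1)))) with hF
  have hFn : ∀ y ξ : ℝ, ‖F (y, ξ)‖ = ‖nv T V u ξ‖ *
      ((1 + |y|) ^ B * (‖gG b (line c y)‖ * ‖KK (wq T ξ) ^ (-(line c y))‖)) := by
    intro y ξ
    simp only [hF]
    rw [norm_mul, norm_mul, norm_mul, Complex.norm_real, Real.norm_of_nonneg (by positivity)]
    ring
  -- measurability
  have hmeas : AEStronglyMeasurable F (volume.prod μ) := by
    have h1 : (volume : Measure ℝ).prod μ =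
        ((volume : Measure ℝ).prod (volume : Measure ℝ)).restrict (univ ×ˢ Icc (-(1 / 4) : ℝ) (1 / 4)) := by
      rw [hμ, ← Measure.prod_restrict, Measure.restrict_univ]
    rw [h1]
    refine ContinuousOn.aestronglyMeasurable ?_ (MeasurableSet.univ.prod measurableSet_Icc)
    have h2 : ContinuousOn (fun p : ℝ × ℝ => KK (wq T p.2) ^ (-(line c p.1)))
        (univ ×ˢ Icc (-(1 / 4) : ℝ) (1 / 4)) := by
      refine ContinuousOn.cpow ?_ ?_ ?_
      · exact ((KK_cont T).comp continuous_snd).continuousOn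
      · unfold line
        exact Continuous.continuousOn (by fun_prop)
      · intro p hp
        exact Or.inl (hKre p.2 hp.2)
    have h3 : Continuous (fun p : ℝ × ℝ => gG b (line c p.1)) := (hgc b).comp continuous_fst
    have h4 : Continuous (fun p : ℝ × ℝ => nv T V u p.2) := (nv_cont T V u).comp continuous_snd
    have h5 : Continuous (fun p : ℝ × ℝ => ((((1 + |p.1|) ^ B : ℝ)) : ℂ)) := by fun_prop
    exact h5.continuousOn.mul (h3.continuousOn.mul (h4.continuousOn.mul h2))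
  -- inner integrals
  have hin : ∀ ξ ∈ Icc (-(1 / 4) : ℝ) (1 / 4), Integrable (fun y : ℝ => F (y, ξ)) ∧
      ∫ y : ℝ, ‖F (y, ξ)‖ ≤ (2 * C3 * C1 * T ^ c) * ((‖wq T ξ‖ / (wq T ξ).re) ^ N * ‖nu T V u ξ‖) := by
    intro ξ hξ
    obtain ⟨g1, g2⟩ := ab_inner b c M B hCg (fun y => hg b y) (hgc b) (hKre ξ hξ) (hrho ξ hξ)
    have hcF : Continuous (fun y : ℝ => F (y, ξ)) := by
      have h1 : Continuous (fun y : ℝ => KK (wq T ξ) ^ (-(line c y))) := by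
        have hz0 : KK (wq T ξ) ≠ 0 := by
          intro h
          have := hKre ξ hξ
          rw [h] at this
          simp at this
        unfold line
        exact Continuous.const_cpow (by fun_prop) (Or.inl hz0)
      have h3 := hgc b
      simp only [hF]
      fun_prop
    constructor
    · rw [← integrable_norm_iff hcF.aestronglyMeasurable]
      have e : (fun y : ℝ => ‖F (y, ξ)‖) = fun y => ‖nv T V u ξ‖ *
          ((1 + |y|) ^ B * (‖gG b (line c y)‖ * ‖KK (wq T ξ) ^ (-(line c y))‖)) := by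
        ext y; exact hFn y ξ
      rw [e]
      exact g1.const_mul _
    · have e : (fun y : ℝ => ‖F (y, ξ)‖) = fun y => ‖nv T V u ξ‖ *
          ((1 + |y|) ^ B * (‖gG b (line c y)‖ * ‖KK (wq T ξ) ^ (-(line c y))‖)) := by
        ext y; exact hFn y ξ
      rw [e, integral_const_mul]
      have hρ0 : 0 ≤ ‖wq T ξ‖ / (wq T ξ).re := div_nonneg (norm_nonneg _) (hwpos ξ).le
      calc ‖nv T V u ξ‖ * ∫ y : ℝ, (1 + |y|) ^ B * (‖gG b (line c y)‖ * ‖KK (wq T ξ) ^ (-(line c y))‖)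
          ≤ (2 * ‖nu T V u ξ‖) * (C3 * ((C1 * T ^ c * (‖wq T ξ‖ / (wq T ξ).re) ^ r) *
            (‖wq T ξ‖ / (wq T ξ).re) ^ (B + M + 1))) := by
            refine mul_le_mul (nv_norm T V u hξ) (g2.trans ?_) (integral_nonneg fun y => by positivity)
              (by positivity)
            rw [← hC3]
            have := hK T hT4 ξ hξ
            gcongr
        _ = _ := by
            rw [hN, pow_add _ r]; ring
  have hae : ∀ᵐ ξ ∂μ, ξ ∈ Icc (-(1 / 4) : ℝ) (1 / 4) := ae_restrict_mem measurableSet_Icc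
  -- integrability of the majorant
  have hmajc : Integrable (fun ξ => (2 * C3 * C1 * T ^ c) * ((‖wq T ξ‖ / (wq T ξ).re) ^ N * ‖nu T V u ξ‖)) μ := by
    have hc1 : Continuous (fun ξ : ℝ => (2 * C3 * C1 * T ^ c) * ((‖wq T ξ‖ / (wq T ξ).re) ^ N * ‖nu T V u ξ‖)) := by
      have e : (fun ξ : ℝ => (2 * C3 * C1 * T ^ c) * ((‖wq T ξ‖ / (wq T ξ).re) ^ N * ‖nu T V u ξ‖)) =
          fun ξ : ℝ => (2 * C3 * C1 * T ^ c) * ((‖wq T ξ‖ / (1 / T)) ^ N * ‖nu T V u ξ‖) := by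
        ext ξ; rw [hwre]
      rw [e]
      unfold wq nu
      fun_prop
    exact hc1.continuousOn.integrableOn_compact isCompact_Icc
  have hnormint : Integrable (fun ξ => ∫ y : ℝ, ‖F (y, ξ)‖) μ := by
    refine hmajc.mono' ?_ ?_
    · exact (hmeas.norm.prod_swap).integral_prod_right'
    · filter_upwards [hae] with ξ hξ
      rw [Real.norm_of_nonneg (integral_nonneg fun y => norm_nonneg _)]
      exact (hin ξ hξ).2
  have hFint : Integrable F (volume.prod μ) := by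
    rw [integrable_prod_iff' hmeas]
    refine ⟨?_, hnormint⟩
    filter_upwards [hae] with ξ hξ
    exact (hin ξ hξ).1
  have hOm : ∀ y : ℝ, (1 + |y|) ^ B * ‖Om T V u b (line c y)‖ = ‖∫ ξ, F (y, ξ) ∂μ‖ := by
    intro y
    simp only [hF]
    rw [integral_const_mul, integral_const_mul, norm_mul, Complex.norm_real, Real.norm_of_nonneg (by positivity)]
    rfl
  constructor
  · have e : (fun y : ℝ => (1 + |y|) ^ B * ‖Om T V u b (line c y)‖) = fun y => ‖∫ ξ, F (y, ξ) ∂μ‖ := by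
      ext y; exact hOm y
    rw [e]
    exact hFint.integral_prod_left.norm
  · have e : (fun y : ℝ => (1 + |y|) ^ B * ‖Om T V u b (line c y)‖) = fun y => ‖∫ ξ, F (y, ξ) ∂μ‖ := by
      ext y; exact hOm y
    rw [e]
    have s1 : ∫ y : ℝ, ‖∫ ξ, F (y, ξ) ∂μ‖ ≤ ∫ y : ℝ, ∫ ξ, ‖F (y, ξ)‖ ∂μ := by
      refine integral_mono hFint.integral_prod_left.norm hFint.norm.integral_prod_left fun y => ?_
      exact norm_integral_le_integral_norm _
    have s2 : ∫ y : ℝ, (∫ ξ, ‖F (y, ξ)‖ ∂μ) = ∫ ξ, (∫ y : ℝ, ‖F (y, ξ)‖) ∂μ :=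
      integral_integral_swap (f := fun y ξ => ‖F (y, ξ)‖) hFint.norm
    have s3 : ∫ ξ, (∫ y : ℝ, ‖F (y, ξ)‖) ∂μ ≤
        ∫ ξ, (2 * C3 * C1 * T ^ c) * ((‖wq T ξ‖ / (wq T ξ).re) ^ N * ‖nu T V u ξ‖) ∂μ := by
      refine integral_mono_ae hnormint hmajc ?_
      filter_upwards [hae] with ξ hξ
      exact (hin ξ hξ).2
    refine s1.trans (s2.le.trans (s3.trans ?_))
    rw [integral_const_mul]
    have s4 : T ^ (c + ((N : ℝ) + 1) * δ - 1) = T ^ c * T ^ (((N : ℝ) + 1) * δ - 1) := by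
      rw [← Real.rpow_add hT0]
      congr 1
      ring
    rw [s4]
    calc (2 * C3 * C1 * T ^ c) * ∫ ξ, (‖wq T ξ‖ / (wq T ξ).re) ^ N * ‖nu T V u ξ‖ ∂μ
        ≤ (2 * C3 * C1 * T ^ c) * (C2 * T ^ (((N : ℝ) + 1) * δ - 1)) := by gcongr
      _ = _ := by ring

theorem Om_half (B : ℕ) (ε₁ δ : ℝ) (hε1 : 0 < ε₁) (hδ : 0 < δ) (hδ1 : δ ≤ 1 / 10) :
    ∃ C T₀ : ℝ, 0 < C ∧ ∀ T : ℝ, T₀ ≤ T → ∀ u : ℝ, ε₁ * T ≤ u → u ≤ T → ∀ b : B3,
      Integrable (fun y : ℝ => (1 + |y|) ^ B * ‖Om T (T ^ (1 - δ)) u b (line (1 / 2) y)‖) ∧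
      ∫ y : ℝ, (1 + |y|) ^ B * ‖Om T (T ^ (1 - δ)) u b (line (1 / 2) y)‖ ≤ C * T ^ (((B : ℝ) + 6) * δ - 1 / 2) := by
  obtain ⟨Cg, hCg, hg⟩ := gG_half
  obtain ⟨C, T₀, hC, hT4, h⟩ := ab_main (1 / 2) 0 B 0 δ hδ hδ1
    ⟨Cg, hCg, fun b y => by rw [pow_zero, mul_one]; exact hg b y⟩
    (fun b => gG_cont b _ (Or.inl rfl))
    ⟨1, one_pos, fun T hT ξ hξ => by
      have hT0 : 0 < T := by linarith
      have hre : (wq T ξ).re = 1 / T := by unfold wq; simp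
      have hpos : 0 < (wq T ξ).re := by rw [hre]; positivity
      have h1 := KK_re hpos (wq_half hT hξ)
      rw [hre] at h1
      have h2 : 1 / T ≤ ‖KK (wq T ξ)‖ := h1.trans ((le_abs_self _).trans (Complex.abs_re_le_norm _))
      rw [pow_zero, mul_one, one_mul]
      have h3 : T ^ (1 / 2 : ℝ) = (1 / T) ^ (-(1 / 2) : ℝ) := by
        rw [Real.rpow_neg (by positivity), Real.div_rpow zero_le_one hT0.le, Real.one_rpow, ← one_div, one_div_one_div]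
      rw [h3]
      exact Real.rpow_le_rpow_of_nonpos (by positivity) h2 (by norm_num)⟩
  refine ⟨C, T₀, hC, fun T hT u hu1 hu b => ?_⟩
  have hT0 : 4 ≤ T := hT4.trans hT
  obtain ⟨i1, i2⟩ := h T hT u (le_trans (by positivity) hu1) hu b
  refine ⟨i1, i2.trans ?_⟩
  refine mul_le_mul_of_nonneg_left ?_ hC.le
  refine Real.rpow_le_rpow_of_exponent_le (by linarith) ?_
  push_cast
  nlinarith

theorem Om_left (k B : ℕ) (ε₁ δ : ℝ) (hε1 : 0 < ε₁) (hδ : 0 < δ) (hδ1 : δ ≤ 1 / 10) :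
    ∃ C T₀ : ℝ, 0 < C ∧ ∀ T : ℝ, T₀ ≤ T → ∀ u : ℝ, ε₁ * T ≤ u → u ≤ T → ∀ b : B3,
      Integrable (fun y : ℝ => (1 + |y|) ^ B * ‖Om T (T ^ (1 - δ)) u b (line (-(k : ℝ) - 1 / 2) y)‖) ∧
      ∫ y : ℝ, (1 + |y|) ^ B * ‖Om T (T ^ (1 - δ)) u b (line (-(k : ℝ) - 1 / 2) y)‖ ≤
        C * T ^ (((B : ℝ) + 4 * k + 6) * δ - k - 3 / 2) := by
  obtain ⟨C, T₀, hC, hT4, h⟩ := ab_main (-(k : ℝ) - 1 / 2) (3 * k + 3) B (k + 1) δ hδ hδ1
    (gG_left k)
    (fun b => gG_cont b _ (Or.inr ⟨k, rfl⟩))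
    ⟨10 ^ (k + 1), by positivity, fun T hT ξ hξ => by
      have hT0 : 0 < T := by linarith
      have hre : (wq T ξ).re = 1 / T := by unfold wq; simp
      have hpos : 0 < (wq T ξ).re := by rw [hre]; positivity
      have h2 := KK_norm hpos (wq_half hT hξ)
      have hρ1 : 1 ≤ ‖wq T ξ‖ / (wq T ξ).re := by
        rw [le_div_iff₀ hpos, one_mul]
        exact (le_abs_self _).trans (Complex.abs_re_le_norm _)
      set ρ := ‖wq T ξ‖ / (wq T ξ).re with hρ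
      have hw : ‖wq T ξ‖ = ρ / T := by
        rw [hρ, hre]; field_simp
      have hK : ‖KK (wq T ξ)‖ ≤ 10 * ρ * T⁻¹ := by
        rw [hw] at h2
        calc ‖KK (wq T ξ)‖ ≤ 10 * (ρ / T) := h2
          _ = _ := by ring
      have he : -(-(k : ℝ) - 1 / 2) = (k : ℝ) + 1 / 2 := by ring
      rw [he]
      have h10 : 1 ≤ 10 * ρ := by linarith
      calc ‖KK (wq T ξ)‖ ^ ((k : ℝ) + 1 / 2) ≤ (10 * ρ * T⁻¹) ^ ((k : ℝ) + 1 / 2) := by gcongr
        _ = (10 * ρ) ^ ((k : ℝ) + 1 / 2) * T ^ (-(k : ℝ) - 1 / 2) := by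
          rw [Real.mul_rpow (by positivity) (by positivity), Real.inv_rpow hT0.le, ← Real.rpow_neg hT0.le]
          congr 2
          ring
        _ ≤ (10 * ρ) ^ ((k : ℝ) + 1) * T ^ (-(k : ℝ) - 1 / 2) := by
          refine mul_le_mul_of_nonneg_right ?_ (by positivity)
          exact Real.rpow_le_rpow_of_exponent_le h10 (by linarith)
        _ = 10 ^ (k + 1) * T ^ (-(k : ℝ) - 1 / 2) * ρ ^ (k + 1) := by
          have : (k : ℝ) + 1 = ((k + 1 : ℕ) : ℝ) := by push_cast; ring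
          rw [this, Real.rpow_natCast, mul_pow]
          ring⟩
  refine ⟨C, T₀, hC, fun T hT u hu1 hu b => ?_⟩
  have hT0 : 4 ≤ T := hT4.trans hT
  obtain ⟨i1, i2⟩ := h T hT u (le_trans (by positivity) hu1) hu b
  refine ⟨i1, i2.trans (le_of_eq ?_)⟩
  congr 2
  push_cast
  ring

end Pool.Agent.LibSM56A
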