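import Pool.Agent.LibSM47.FaceB
import Pool.Agent.LibSM47.D_F

/-! # SM56, part (A): the error term of the twisted third moment in Voronoi form. Definitions.

`m` = modulus, `n` = numerator; `w = wq T ξ = 1/T - iξ`, `ξ ∈ [-1/4, 1/4]`; `line c y = c + iy`. -/

set_option autoImplicit false

namespace Pool.Agent.LibSM56A

open MeasureTheory Set Filter Topology Complex
open Pool.Agent.LibSM47

/-- The point `c + iy`. -/
noncomputable def line (c y : ℝ) : ℂ := (c : ℂ) + y * I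

/-- `K(w) = 2πi(e^{-iw} - 1)`, so `th n m w = (n/m) K(w)`. -/
noncomputable def KK (w : ℂ) : ℂ := ((2 * Real.pi : ℝ) : ℂ) * I * (cexp (-(I * w)) - 1)

/-- `ν(ξ) e^{-iw/2}`. -/
noncomputable def nv (T V u ξ : ℝ) : ℂ := cexp (-(I * wq T ξ / 2)) * nu T V u ξ

/-- The window transform `W(s) = ∫ ν e^{-iw/2} K(w)^{-s} dξ`. -/
noncomputable def WW (T V u : ℝ) (s : ℂ) : ℂ := ∫ ξ in Icc (-(1 / 4) : ℝ) (1 / 4), nv T V u ξ * KK (wq T ξ) ^ (-s)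

/-- Three signs. -/
abbrev B3 : Type := Bool × Bool × Bool

/-- `(2π)^{3s-3} Γ(1-s)³ e^{ε_b πi(1-s)/2}`. -/
noncomputable def hb (b : B3) (s : ℂ) : ℂ :=
  (2 * Real.pi : ℂ) ^ (3 * s - 3) * Complex.Gamma (1 - s) ^ 3 *
    cexp (((SD.sg b.1 : ℂ) + SD.sg b.2.1 + SD.sg b.2.2) * Real.pi * I * (1 - s) / 2)

/-- `Γ(s) h_b(s)`. -/
noncomputable def gG (b : B3) (s : ℂ) : ℂ := Complex.Gamma s * hb b s

/-- `Ω_b(s) = Γ(s) h_b(s) W(s)`. -/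
noncomputable def Om (T V u : ℝ) (b : B3) (s : ℂ) : ℂ := gG b s * WW T V u s

/-- The error part of the twisted third moment. -/
noncomputable def VV (T V u : ℝ) (m n : ℕ) : ℂ :=
  ((2 * Real.pi * √((n : ℝ) / m) : ℝ) : ℂ) *
    ∫ ξ in Icc (-(1 / 4) : ℝ) (1 / 4), nv T V u ξ * LibPH.E3 n m (LibPH.th n m (wq T ξ))

/-- The error weight without the term of `E3`. -/
noncomputable def errA (η T : ℝ) (m n : ℕ) : ℝ :=
  (1 + (m : ℝ) / n) * (1 + (m : ℝ) ^ (-(1 / 2) + η) * T ^ (1 / 4 : ℝ)) + √((n : ℝ) / m) +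
  (m : ℝ) ^ (-(1 / 2) + η) * T ^ (1 / 2 : ℝ)

/-- The triples with product at most `Λ`. -/
def trLe (Λ : ℕ) : Finset SD.Tr :=
  ((Finset.Icc 1 (Nat.succPNat Λ)) ×ˢ ((Finset.Icc 1 (Nat.succPNat Λ)) ×ˢ (Finset.Icc 1 (Nat.succPNat Λ)))).filter
    (fun a => SD.pr a ≤ Λ)

/-- The short part of the dual series. -/
noncomputable def DSle (m : ℕ) [NeZero m] (n : ZMod m) (b : B3) (Λ : ℕ) (s : ℂ) : ℂ :=
  ∑ a ∈ trLe Λ, FT m (SD.Ph m n) (SD.sl m b a) * (SD.pr a : ℂ) ^ (-s)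

/-- The long part of the dual series. -/
noncomputable def DSgt (m : ℕ) [NeZero m] (n : ZMod m) (b : B3) (Λ : ℕ) (s : ℂ) : ℂ :=
  ∑' a : SD.Tr, if SD.pr a ≤ Λ then 0 else FT m (SD.Ph m n) (SD.sl m b a) * (SD.pr a : ℂ) ^ (-s)

/-- `∫ Γ h_b X^{-s} W(s) dy` on `Re s = c`. -/
noncomputable def Ic (T V u : ℝ) (b : B3) (X c : ℝ) : ℂ := ∫ y : ℝ, Om T V u b (line c y) * (X : ℂ) ^ (-(line c y))

/-- `∫ ν e^{-iw/2} K(w)^j dξ`. -/
noncomputable def Wj (T V u : ℝ) (j : ℕ) : ℂ := ∫ ξ in Icc (-(1 / 4) : ℝ) (1 / 4), nv T V u ξ * KK (wq T ξ) ^ j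

end Pool.Agent.LibSM56A
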