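import Pool.Agent.LibSM56A.A_G
import Pool.Agent.LibSM47.D_E1
import Pool.Agent.LibSM47.D_E2

/-! ROW A_S (MEDIUM): one step of the contour shift, across the pole `s = -j` of `Γ`.

`G(s) = κ^j Γ(1+(s+j)) Dk κ (s+j) h_b(s) X^{-s} / ∏_{i<j} (s+i)` is analytic for `-j-1 < Re s < -j+1` and is
`Γ(s) h_b(s) X^{-s} (κ^{-s} - κ^j)` off the zeros; decay: `gG_strip` for `|y| ≥ 1`, compactness for `|y| ≤ 1`. -/

set_option autoImplicit false

namespace Pool.Agent.LibSM56A

open MeasureTheory Set Filter Topology Complex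
open Pool.Agent.LibSM47

private theorem as_exp {a : ℝ} (ha : 0 < a) : Integrable (fun y : ℝ => Real.exp (-(a * |y|))) := by
  rw [← integrableOn_univ, ← Set.Iic_union_Ioi (a := (0 : ℝ)), integrableOn_union]
  constructor
  · refine (integrableOn_exp_mul_Iic ha 0).congr_fun (fun y hy => ?_) measurableSet_Iic
    show Real.exp (a * y) = Real.exp (-(a * |y|))
    rw [abs_of_nonpos hy]
    ring_nf
  · refine (integrableOn_exp_mul_Ioi (a := -a) (neg_lt_zero.2 ha) 0).congr_fun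
      (fun y hy => ?_) measurableSet_Ioi
    show Real.exp (-a * y) = Real.exp (-(a * |y|))
    rw [abs_of_pos hy]
    ring_nf

private theorem as_le {δ : ℝ} (h0 : 0 < δ) (k : ℕ) (y : ℝ) :
    (1 + |y|) ^ k * Real.exp (-(δ / 2 * |y|))
      ≤ (k.factorial * Real.exp (δ / 4) / (δ / 4) ^ k) * Real.exp (-(δ / 4 * |y|)) := by
  have hx : 0 ≤ δ / 4 * (1 + |y|) := by positivity
  have h1 := Real.pow_div_factorial_le_exp (δ / 4 * (1 + |y|)) hx k
  have h2 : (1 + |y|) ^ k ≤ k.factorial * Real.exp (δ / 4 * (1 + |y|)) / (δ / 4) ^ k := by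
    rw [le_div_iff₀ (by positivity), mul_comm, ← mul_pow]
    rwa [div_le_iff₀ (by positivity), mul_comm (Real.exp _)] at h1
  have h3 : k.factorial * Real.exp (δ / 4 * (1 + |y|)) / (δ / 4) ^ k * Real.exp (-(δ / 2 * |y|))
      = (k.factorial * Real.exp (δ / 4) / (δ / 4) ^ k) * Real.exp (-(δ / 4 * |y|)) := by
    have h4 : Real.exp (δ / 4 * (1 + |y|)) * Real.exp (-(δ / 2 * |y|))
        = Real.exp (δ / 4) * Real.exp (-(δ / 4 * |y|)) := by
      rw [← Real.exp_add, ← Real.exp_add]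
      ring_nf
    rw [div_mul_eq_mul_div, mul_assoc, h4, ← mul_assoc, div_mul_eq_mul_div _ _ (Real.exp _)]
  rw [← h3]
  exact mul_le_mul_of_nonneg_right h2 (Real.exp_pos _).le

private theorem as_lim {a : ℝ} (ha : 0 < a) {l : Filter ℝ} (hl : Tendsto (fun y : ℝ => |y|) l atTop) :
    Tendsto (fun y : ℝ => Real.exp (-(a * |y|))) l (𝓝 0) :=
  Real.tendsto_exp_neg_atTop_nhds_zero.comp (hl.const_mul_atTop ha)

private theorem as_tend {δ : ℝ} (h0 : 0 < δ) (k : ℕ) (c : ℝ) {l : Filter ℝ}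
    (hl : Tendsto (fun y : ℝ => |y|) l atTop) :
    Tendsto (fun y : ℝ => c * ((1 + |y|) ^ k * Real.exp (-(δ / 2 * |y|)))) l (𝓝 0) := by
  have h1 : Tendsto (fun y : ℝ => (1 + |y|) ^ k * Real.exp (-(δ / 2 * |y|))) l (𝓝 0) := by
    refine squeeze_zero (fun y => by positivity) (as_le h0 k) ?_
    have h2 := (as_lim (a := δ / 4) (by positivity) hl).const_mul
      ((k.factorial * Real.exp (δ / 4) / (δ / 4) ^ k : ℝ))
    rwa [mul_zero] at h2
  have h3 := h1.const_mul c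
  rwa [mul_zero] at h3

private theorem as_dom {δ : ℝ} (h0 : 0 < δ) (k : ℕ) (c : ℝ) :
    Integrable (fun y : ℝ => c * ((1 + |y|) ^ k * Real.exp (-(δ / 2 * |y|)))) ∧
    Tendsto (fun y : ℝ => c * ((1 + |y|) ^ k * Real.exp (-(δ / 2 * |y|)))) atTop (𝓝 0) ∧
    Tendsto (fun y : ℝ => c * ((1 + |y|) ^ k * Real.exp (-(δ / 2 * |y|)))) atBot (𝓝 0) := by
  refine ⟨?_, as_tend h0 k c tendsto_abs_atTop_atTop, as_tend h0 k c tendsto_abs_atBot_atTop⟩
  refine Integrable.const_mul ?_ c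
  refine Integrable.mono' ((as_exp (a := δ / 4) (by positivity)).const_mul
    (k.factorial * Real.exp (δ / 4) / (δ / 4) ^ k)) ?_ (Eventually.of_forall fun y => ?_)
  · exact (by fun_prop : Continuous fun y : ℝ =>
      (1 + |y|) ^ k * Real.exp (-(δ / 2 * |y|))).aestronglyMeasurable
  · rw [Real.norm_of_nonneg (by positivity)]
    exact as_le h0 k y

/-- the regularized integrand -/
private noncomputable def asG (j : ℕ) (b : B3) (X : ℝ) (κ s : ℂ) : ℂ :=
  κ ^ j * (Complex.Gamma (1 + (s + j)) * SD.Dk κ (s + j)) * hb b s * (X : ℂ) ^ (-s) / ∏ i ∈ Finset.range j, (s + i)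

private theorem as_prod (j : ℕ) (s : ℂ) (hs : ∀ i ∈ Finset.range j, s + (i : ℂ) ≠ 0) :
    Complex.Gamma (s + j) = (∏ i ∈ Finset.range j, (s + i)) * Complex.Gamma s := by
  induction j with
  | zero => simp
  | succ j ih =>
      have h1 : ∀ i ∈ Finset.range j, s + (i : ℂ) ≠ 0 := fun i hi =>
        hs i (Finset.mem_range.2 (lt_trans (Finset.mem_range.1 hi) (Nat.lt_succ_self j)))
      have h2 := ih h1
      rw [Finset.prod_range_succ, Nat.cast_succ, ← add_assoc, Complex.Gamma_add_one _ (hs j (Finset.self_mem_range_succ j)), h2]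
      ring

private theorem asG_eq (j : ℕ) (b : B3) (X : ℝ) {κ : ℂ} (hκ : 0 < κ.re) (s : ℂ)
    (hs : ∀ i ∈ Finset.range (j + 1), s + (i : ℂ) ≠ 0) :
    asG j b X κ s = gG b s * (X : ℂ) ^ (-s) * (κ ^ (-s) - κ ^ j) := by
  have hκ0 : κ ≠ 0 := by
    rintro rfl
    simp at hκ
  have h1 : ∀ i ∈ Finset.range j, s + (i : ℂ) ≠ 0 := fun i hi =>
    hs i (Finset.mem_range.2 (lt_trans (Finset.mem_range.1 hi) (Nat.lt_succ_self j)))
  have hj : s + (j : ℂ) ≠ 0 := hs j (Finset.self_mem_range_succ j)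
  have hprod : (∏ i ∈ Finset.range j, (s + (i : ℂ))) ≠ 0 := Finset.prod_ne_zero_iff.2 h1
  have h2 : κ ^ j * (κ ^ (-(s + j)) - 1) = κ ^ (-s) - κ ^ j := by
    have h3 : κ ^ (-s) = κ ^ j * κ ^ (-(s + j)) := by
      rw [← Complex.cpow_natCast κ j, ← Complex.cpow_add _ _ hκ0]
      congr 1
      ring
    rw [h3]
    ring
  unfold asG gG
  rw [SD.Dk_eq hκ hj, as_prod j s h1, ← h2]
  field_simp

private theorem asG_diff (j : ℕ) (b : B3) {X : ℝ} (hX : 0 < X) {κ : ℂ} (hκ : 0 < κ.re) (s : ℂ)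
    (h1 : -(j : ℝ) - 1 < s.re) (h2 : s.re < -(j : ℝ) + 1) : DifferentiableAt ℂ (asG j b X κ) s := by
  have hj0 : (0 : ℝ) ≤ j := Nat.cast_nonneg j
  have hX0 : (X : ℂ) ≠ 0 := by exact_mod_cast hX.ne'
  have hpi : (2 * Real.pi : ℂ) ≠ 0 := by
    norm_num
  unfold asG
  refine DifferentiableAt.div ?_ ?_ ?_
  · refine DifferentiableAt.mul (DifferentiableAt.mul (DifferentiableAt.mul (differentiableAt_const _) ?_) ?_) ?_
    · refine DifferentiableAt.mul ?_ ?_
      · refine DifferentiableAt.comp s (g := Complex.Gamma) (f := fun s : ℂ => 1 + (s + j)) ?_ (by fun_prop)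
        refine Complex.differentiableAt_Gamma _ fun k hk => ?_
        have h3 := congrArg Complex.re hk
        simp only [add_re, one_re, neg_re, natCast_re] at h3
        have hk0 : (0 : ℝ) ≤ k := Nat.cast_nonneg k
        linarith
      · exact DifferentiableAt.comp s (g := SD.Dk κ) (f := fun s : ℂ => s + j) (SD.Dk_diff hκ _) (by fun_prop)
    · unfold hb
      refine DifferentiableAt.mul (DifferentiableAt.mul ?_ ?_) ?_
      · exact DifferentiableAt.const_cpow (by fun_prop) (Or.inl hpi)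
      · refine DifferentiableAt.pow ?_ 3
        refine DifferentiableAt.comp s (g := Complex.Gamma) (f := fun s : ℂ => 1 - s) ?_ (by fun_prop)
        refine Complex.differentiableAt_Gamma _ fun k hk => ?_
        have h3 := congrArg Complex.re hk
        simp only [sub_re, one_re, neg_re, natCast_re] at h3
        have hk0 : (0 : ℝ) ≤ k := Nat.cast_nonneg k
        linarith
      · fun_prop
    · exact DifferentiableAt.const_cpow (by fun_prop) (Or.inl hX0)
  · fun_prop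
  · refine Finset.prod_ne_zero_iff.2 fun i hi => ?_
    intro h
    have h3 := congrArg Complex.re h
    simp only [add_re, natCast_re, zero_re] at h3
    have hi' : (i : ℝ) + 1 ≤ j := by exact_mod_cast Finset.mem_range.1 hi
    linarith

private theorem as_rect {G : ℂ → ℂ} {a b : ℝ} (hG : ∀ s : ℂ, a ≤ s.re → s.re ≤ b → DifferentiableAt ℂ G s) :
    ∃ K : ℝ, 0 ≤ K ∧ ∀ x ∈ Icc a b, ∀ y ∈ Icc (-1 : ℝ) 1, ‖G (x + y * I)‖ ≤ K := by
  have hc : IsCompact (Icc a b ×ˢ Icc (-1 : ℝ) 1) := isCompact_Icc.prod isCompact_Icc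
  have hcont : ContinuousOn (fun p : ℝ × ℝ => G ((p.1 : ℂ) + p.2 * I)) (Icc a b ×ˢ Icc (-1 : ℝ) 1) := by
    intro p hp
    have h1 : ContinuousAt G ((p.1 : ℂ) + p.2 * I) :=
      (hG _ (by simpa using hp.1.1) (by simpa using hp.1.2)).continuousAt
    have h2 : ContinuousAt (fun p : ℝ × ℝ => (p.1 : ℂ) + p.2 * I) p := by fun_prop
    exact (ContinuousAt.comp (f := fun p : ℝ × ℝ => (p.1 : ℂ) + p.2 * I) h1 h2).continuousWithinAt
  obtain ⟨K, hK⟩ := hc.exists_bound_of_continuousOn hcont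
  refine ⟨max K 0, le_max_right _ _, fun x hx y hy => ?_⟩
  exact (hK (x, y) ⟨hx, hy⟩).trans (le_max_left _ _)

private theorem as_pow {X : ℝ} (hX : 0 < X) (a b : ℝ) : ∃ K : ℝ, 0 < K ∧ ∀ x ∈ Icc a b, X ^ (-x) ≤ K := by
  have hcont : ContinuousOn (fun x : ℝ => X ^ (-x)) (Icc a b) :=
    (Real.continuous_const_rpow hX.ne').comp_continuousOn continuous_neg.continuousOn
  obtain ⟨K, hK⟩ := isCompact_Icc.exists_bound_of_continuousOn hcont
  refine ⟨max K 1, by positivity, fun x hx => ?_⟩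
  have h1 := hK x hx
  rw [Real.norm_eq_abs] at h1
  exact (le_abs_self _).trans (h1.trans (le_max_left _ _))

theorem shift_step (j : ℕ) (b : B3) {X : ℝ} (hX : 0 < X) {κ : ℂ} (hκ : 0 < κ.re) :
    ∫ y : ℝ, gG b (line (-(j : ℝ) + 1 / 2) y) * (X : ℂ) ^ (-(line (-(j : ℝ) + 1 / 2) y)) *
        (κ ^ (-(line (-(j : ℝ) + 1 / 2) y)) - κ ^ j) =
    ∫ y : ℝ, gG b (line (-(j : ℝ) - 1 / 2) y) * (X : ℂ) ^ (-(line (-(j : ℝ) - 1 / 2) y)) *
        (κ ^ (-(line (-(j : ℝ) - 1 / 2) y)) - κ ^ j) := by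
  have hj0 : (0 : ℝ) ≤ j := Nat.cast_nonneg j
  have hκ0 : κ ≠ 0 := by
    rintro rfl
    simp at hκ
  have hn : 0 < ‖κ‖ := norm_pos_iff.2 hκ0
  have harg : |arg κ| < Real.pi / 2 := Complex.abs_arg_lt_pi_div_two_iff.2 (Or.inl hκ)
  obtain ⟨a, ha⟩ : ∃ a : ℝ, a = Real.pi / 2 - |arg κ| := ⟨_, rfl⟩
  have ha0 : 0 < a := by rw [ha]; linarith
  obtain ⟨C, hC, hst⟩ := gG_strip j
  obtain ⟨K, hK0, hK⟩ := as_rect (G := asG j b X κ) (a := -(j : ℝ) - 1 / 2) (b := -(j : ℝ) + 1 / 2)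
    (fun s h1 h2 => asG_diff j b hX hκ s (by linarith) (by linarith))
  obtain ⟨K1, hK1, hX1⟩ := as_pow hX (-(j : ℝ) - 1 / 2) (-(j : ℝ) + 1 / 2)
  obtain ⟨K2, hK2, hX2⟩ := as_pow hn (-(j : ℝ) - 1 / 2) (-(j : ℝ) + 1 / 2)
  obtain ⟨N, hN⟩ : ∃ N : ℕ, N = 3 * j + 9 := ⟨_, rfl⟩
  rw [← hN] at hst
  obtain ⟨g1, g2, g3⟩ := as_dom (δ := 2 * a) (by positivity) N (C * K1 * (K2 + ‖κ‖ ^ j) + K * Real.exp a)
  have hnz : ∀ x y : ℝ, (∀ i ∈ Finset.range (j + 1), x + (i : ℝ) ≠ 0 ∨ y ≠ 0) →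
      ∀ i ∈ Finset.range (j + 1), ((x : ℂ) + y * I) + (i : ℂ) ≠ 0 := by
    intro x y h i hi h3
    rcases h i hi with h4 | h4
    · apply h4
      have := congrArg Complex.re h3
      simpa using this
    · apply h4
      have := congrArg Complex.im h3
      simpa using this
  have hbound : ∀ x ∈ Icc (-(j : ℝ) - 1 / 2) (-(j : ℝ) + 1 / 2), ∀ y : ℝ, ‖asG j b X κ (x + y * I)‖ ≤
      (C * K1 * (K2 + ‖κ‖ ^ j) + K * Real.exp a) * ((1 + |y|) ^ N * Real.exp (-(2 * a / 2 * |y|))) := by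
    intro x hx y
    have e0 : 2 * a / 2 = a := by ring
    rw [e0]
    have hE : 0 < Real.exp (-(a * |y|)) := Real.exp_pos _
    have hP : (1 : ℝ) ≤ (1 + |y|) ^ N := one_le_pow₀ (by linarith [abs_nonneg y])
    rcases le_or_gt |y| 1 with hy | hy
    · have h3 := hK x hx y (abs_le.mp hy)
      have h4 : 1 ≤ Real.exp a * Real.exp (-(a * |y|)) := by
        rw [← Real.exp_add]
        apply Real.one_le_exp
        nlinarith [abs_nonneg y]
      have h5 : K ≤ K * Real.exp a * ((1 + |y|) ^ N * Real.exp (-(a * |y|))) := by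
        calc K = K * 1 * 1 := by ring
          _ ≤ K * (Real.exp a * Real.exp (-(a * |y|))) * (1 + |y|) ^ N := by
              refine mul_le_mul (mul_le_mul_of_nonneg_left h4 hK0) hP (by norm_num) (by positivity)
          _ = _ := by ring
      have h6 : 0 ≤ C * K1 * (K2 + ‖κ‖ ^ j) * ((1 + |y|) ^ N * Real.exp (-(a * |y|))) := by positivity
      calc ‖asG j b X κ (x + y * I)‖ ≤ K := h3
        _ ≤ _ := by
          rw [add_mul]
          linarith
    · have hy0 : y ≠ 0 := by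
        rintro rfl
        simp at hy
        linarith
      rw [asG_eq j b X hκ _ (hnz x y fun i _ => Or.inr hy0)]
      have h3 := hst b x ⟨hx.1, by linarith [hx.2]⟩ y hy.le
      have hl : line x y = (x : ℂ) + y * I := rfl
      rw [hl] at h3
      have h4 : ‖(X : ℂ) ^ (-((x : ℂ) + y * I))‖ ≤ K1 := by
        rw [Complex.norm_cpow_eq_rpow_re_of_pos hX]
        have : (-((x : ℂ) + y * I)).re = -x := by simp
        rw [this]
        exact hX1 x hx
      have h5 : ‖κ ^ (-((x : ℂ) + y * I)) - κ ^ j‖ ≤ (K2 + ‖κ‖ ^ j) * Real.exp (|arg κ| * |y|) := by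
        refine (norm_sub_le _ _).trans ?_
        rw [LibPH.cpow_norm hκ, norm_pow]
        have h6 : y * arg κ ≤ |arg κ| * |y| := by
          rw [mul_comm |arg κ|, ← abs_mul]
          exact le_abs_self _
        have h7 : (1 : ℝ) ≤ Real.exp (|arg κ| * |y|) := Real.one_le_exp (by positivity)
        calc ‖κ‖ ^ (-x) * Real.exp (y * arg κ) + ‖κ‖ ^ j
            ≤ K2 * Real.exp (|arg κ| * |y|) + ‖κ‖ ^ j * Real.exp (|arg κ| * |y|) := by
              refine add_le_add ?_ ?_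
              · exact mul_le_mul (hX2 x hx) (Real.exp_le_exp.2 h6) (Real.exp_pos _).le hK2.le
              · exact le_mul_of_one_le_right (by positivity) h7
          _ = _ := by ring
      rw [norm_mul, norm_mul]
      calc ‖gG b ((x : ℂ) + y * I)‖ * ‖(X : ℂ) ^ (-((x : ℂ) + y * I))‖ * ‖κ ^ (-((x : ℂ) + y * I)) - κ ^ j‖
          ≤ (C * (1 + |y|) ^ N * Real.exp (-(Real.pi / 2 * |y|))) * K1 * ((K2 + ‖κ‖ ^ j) * Real.exp (|arg κ| * |y|)) := by
            refine mul_le_mul (mul_le_mul h3 h4 (norm_nonneg _) (by positivity)) h5 (norm_nonneg _) (by positivity)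
        _ = C * K1 * (K2 + ‖κ‖ ^ j) * ((1 + |y|) ^ N *
              (Real.exp (-(Real.pi / 2 * |y|)) * Real.exp (|arg κ| * |y|))) := by ring
        _ = C * K1 * (K2 + ‖κ‖ ^ j) * ((1 + |y|) ^ N * Real.exp (-(a * |y|))) := by
            rw [← Real.exp_add, ha]
            congr 3
            ring
        _ ≤ _ := by
            rw [add_mul]
            have : 0 ≤ K * Real.exp a * ((1 + |y|) ^ N * Real.exp (-(a * |y|))) := by positivity
            linarith
  have key := (Pool.Agent.LibZM.vertical_shift (G := asG j b X κ) (a := -(j : ℝ) - 1 / 2) (b := -(j : ℝ) + 1 / 2)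
    (by linarith) (fun s h1 h2 => asG_diff j b hX hκ s (by linarith) (by linarith)) g1 g2 g3 hbound).2
  have hne : ∀ c : ℝ, (c = -(j : ℝ) - 1 / 2 ∨ c = -(j : ℝ) + 1 / 2) → ∀ i ∈ Finset.range (j + 1), c + (i : ℝ) ≠ 0 := by
    intro c hc i hi h
    have h3 : ((2 * j : ℤ) : ℝ) = ((2 * i - 1 : ℤ) : ℝ) ∨ ((2 * j : ℤ) : ℝ) = ((2 * i + 1 : ℤ) : ℝ) := by
      rcases hc with hc | hc
      · left
        push_cast
        linarith
      · right
        push_cast
        linarith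
    rcases h3 with h3 | h3
    · have h4 : (2 * j : ℤ) = 2 * i - 1 := by exact_mod_cast h3
      omega
    · have h4 : (2 * j : ℤ) = 2 * i + 1 := by exact_mod_cast h3
      omega
  have e1 : ∀ y : ℝ, asG j b X κ (((-(j : ℝ) - 1 / 2 : ℝ) : ℂ) + y * I) =
      gG b (line (-(j : ℝ) - 1 / 2) y) * (X : ℂ) ^ (-(line (-(j : ℝ) - 1 / 2) y)) *
        (κ ^ (-(line (-(j : ℝ) - 1 / 2) y)) - κ ^ j) := fun y =>
    asG_eq j b X hκ _ (hnz _ y fun i hi => Or.inl (hne _ (Or.inl rfl) i hi))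
  have e2 : ∀ y : ℝ, asG j b X κ (((-(j : ℝ) + 1 / 2 : ℝ) : ℂ) + y * I) =
      gG b (line (-(j : ℝ) + 1 / 2) y) * (X : ℂ) ^ (-(line (-(j : ℝ) + 1 / 2) y)) *
        (κ ^ (-(line (-(j : ℝ) + 1 / 2) y)) - κ ^ j) := fun y =>
    asG_eq j b X hκ _ (hnz _ y fun i hi => Or.inl (hne _ (Or.inr rfl) i hi))
  simp only [e1, e2] at key
  exact key.symm

end Pool.Agent.LibSM56A
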