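import Pool.Agent.LibSM56A.A_F
import Pool.Agent.LibSM56A.A_S
import Pool.Agent.LibSM56A.A_G
import Pool.Agent.LibPH.X06

/-! ROW A_E1 (SHORT/MEDIUM): the step after the window integral.

`Ic T V u b X c = ∫ F(y) WW(c+iy) dy`, `F(y) = gG b (line c y) X^{-(line c y)}`, `‖F‖ ≤ C X^{-c} (1+|y|)^{3j+3} e^{-π|y|/2}` (`gG_half` for `j = 0`, `c = 1/2`; `gG_left`
otherwise). `fub_line` on both lines, `shift_step` for `κ = K(w)` (`KK_re`), the terms with `κ^j` give `(∫ F) Wj`. -/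

set_option autoImplicit false

namespace Pool.Agent.LibSM56A

open MeasureTheory Set Filter Topology Complex
open Pool.Agent.LibSM47

/-- The factor of `Ic` without the window transform. -/
private noncomputable def e1F (b : B3) (X c y : ℝ) : ℂ := gG b (line c y) * (X : ℂ) ^ (-(line c y))

private theorem e1_line (c : ℝ) : Continuous (line c) := by
  unfold line
  fun_prop

private theorem e1_KKre {T : ℝ} (hT : 4 ≤ T) {ξ : ℝ} (hξ : ξ ∈ Icc (-(1 / 4) : ℝ) (1 / 4)) : 0 < (KK (wq T ξ)).re := by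
  have h0 : 0 < (wq T ξ).re := by
    rw [wq_re]
    positivity
  exact h0.trans_le (KK_re h0 (wq_half hT hξ))

private theorem e1_Xnorm {X : ℝ} (hX : 0 < X) (c y : ℝ) : ‖(X : ℂ) ^ (-(line c y))‖ = X ^ (-c) := by
  rw [Complex.norm_cpow_eq_rpow_re_of_pos hX]
  congr 1
  unfold line
  simp

private theorem e1_F_cont (b : B3) {X : ℝ} (hX : 0 < X) {c : ℝ} (hc : c = 1 / 2 ∨ ∃ k : ℕ, c = -(k : ℝ) - 1 / 2) :
    Continuous (e1F b X c) := by
  unfold e1F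
  refine (gG_cont b c hc).mul ?_
  refine Continuous.const_cpow (e1_line c).neg (Or.inl ?_)
  exact_mod_cast hX.ne'

private theorem e1_F_bd {c : ℝ} (N : ℕ) {C : ℝ} {b : B3}
    (hG : ∀ y : ℝ, ‖gG b (line c y)‖ ≤ C * (1 + |y|) ^ N * Real.exp (-(Real.pi / 2 * |y|))) {X : ℝ} (hX : 0 < X) (y : ℝ) :
    ‖e1F b X c y‖ ≤ (C * X ^ (-c)) * (1 + |y|) ^ N * Real.exp (-(Real.pi / 2 * |y|)) := by
  unfold e1F
  rw [norm_mul, e1_Xnorm hX]
  have h := mul_le_mul_of_nonneg_right (hG y) (Real.rpow_nonneg hX.le (-c))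
  refine h.trans (le_of_eq ?_)
  ring

private theorem e1_dom {a : ℝ} (ha : 0 < a) (N : ℕ) (C : ℝ) :
    Integrable (fun y : ℝ => C * (1 + |y|) ^ N * Real.exp (-(a * |y|))) := by
  have h := LibPH.x06_dom (δ := 2 * a) (by positivity) N C
  refine h.congr (Eventually.of_forall fun y => ?_)
  simp only
  have e : -(2 * a / 2 * |y|) = -(a * |y|) := by ring
  rw [e]
  ring

private theorem e1_int {F : ℝ → ℂ} (hF : Continuous F) {N : ℕ} {C : ℝ}
    (hb : ∀ y : ℝ, ‖F y‖ ≤ C * (1 + |y|) ^ N * Real.exp (-(Real.pi / 2 * |y|))) : Integrable F :=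
  (e1_dom (a := Real.pi / 2) (by positivity) N C).mono' hF.aestronglyMeasurable (Eventually.of_forall hb)

private theorem e1_intK {F : ℝ → ℂ} (hF : Continuous F) {N : ℕ} {C : ℝ}
    (hb : ∀ y : ℝ, ‖F y‖ ≤ C * (1 + |y|) ^ N * Real.exp (-(Real.pi / 2 * |y|))) {κ : ℂ} (hκ : 0 < κ.re) (c : ℝ) :
    Integrable (fun y : ℝ => F y * κ ^ (-(line c y))) := by
  have hC : 0 ≤ C := by
    have h1 := hb 0
    simp only [abs_zero, add_zero, one_pow, mul_one, mul_zero, neg_zero, Real.exp_zero] at h1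
    exact (norm_nonneg _).trans h1
  have harg : |arg κ| < Real.pi / 2 := Complex.abs_arg_lt_pi_div_two_iff.2 (Or.inl hκ)
  have hd := e1_dom (a := Real.pi / 2 - |arg κ|) (by linarith) N (C * ‖κ‖ ^ (-c))
  refine hd.mono' ?_ (Eventually.of_forall fun y => ?_)
  · refine (hF.mul ?_).aestronglyMeasurable
    exact Continuous.const_cpow (e1_line c).neg (Or.inl fun h => by rw [h, zero_re] at hκ; exact lt_irrefl _ hκ)
  · have h1 : ‖κ ^ (-(line c y))‖ = ‖κ‖ ^ (-c) * Real.exp (y * arg κ) := by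
      unfold line
      exact LibPH.cpow_norm hκ c y
    have h2 : y * arg κ ≤ |arg κ| * |y| := by
      have h5 : y * arg κ ≤ |y * arg κ| := le_abs_self _
      rw [abs_mul] at h5
      linarith [mul_comm |y| |arg κ|]
    rw [norm_mul, h1]
    calc ‖F y‖ * (‖κ‖ ^ (-c) * Real.exp (y * arg κ))
        ≤ (C * (1 + |y|) ^ N * Real.exp (-(Real.pi / 2 * |y|))) * (‖κ‖ ^ (-c) * Real.exp (|arg κ| * |y|)) := by
          refine mul_le_mul (hb y) ?_ (by positivity) (by positivity)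
          exact mul_le_mul_of_nonneg_left (Real.exp_le_exp.2 h2) (by positivity)
      _ = C * ‖κ‖ ^ (-c) * (1 + |y|) ^ N * (Real.exp (-(Real.pi / 2 * |y|)) * Real.exp (|arg κ| * |y|)) := by ring
      _ = C * ‖κ‖ ^ (-c) * (1 + |y|) ^ N * Real.exp (-((Real.pi / 2 - |arg κ|) * |y|)) := by
          rw [← Real.exp_add]
          congr 2
          ring

private theorem e1_norm_int {F : ℝ → ℂ} (N : ℕ) {C R : ℝ}
    (hb : ∀ y : ℝ, ‖F y‖ ≤ (C * R) * (1 + |y|) ^ N * Real.exp (-(Real.pi / 2 * |y|))) :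
    ‖∫ y : ℝ, F y‖ ≤ C * (∫ y : ℝ, 1 * (1 + |y|) ^ N * Real.exp (-(Real.pi / 2 * |y|))) * R := by
  have h1 := norm_integral_le_of_norm_le (e1_dom (a := Real.pi / 2) (by positivity) N (C * R)) (Eventually.of_forall hb)
  refine h1.trans (le_of_eq ?_)
  rw [← integral_const_mul, ← integral_mul_const]
  refine integral_congr_ae (Eventually.of_forall fun y => ?_)
  simp only
  ring

private theorem e1_Ic {T V u : ℝ} (hT : 4 ≤ T) (b : B3) {X : ℝ} {c : ℝ} (hFc : Continuous (e1F b X c)) (N : ℕ) {C : ℝ}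
    (hb : ∀ y : ℝ, ‖e1F b X c y‖ ≤ C * (1 + |y|) ^ N * Real.exp (-(Real.pi / 2 * |y|))) :
    Ic T V u b X c = ∫ ξ in Icc (-(1 / 4) : ℝ) (1 / 4), nv T V u ξ * (∫ y : ℝ, e1F b X c y * KK (wq T ξ) ^ (-(line c y))) := by
  rw [(fub_line T V u c hT (e1F b X c) hFc N C hb).2]
  unfold Ic
  refine integral_congr_ae (Eventually.of_forall fun y => ?_)
  simp only
  unfold Om e1F
  ring

theorem Ic_step (j : ℕ) : ∃ C : ℝ, 0 < C ∧ ∀ T V u : ℝ, 4 ≤ T → ∀ (b : B3) (X : ℝ), 0 < X →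
    ‖Ic T V u b X (-(j : ℝ) + 1 / 2) - Ic T V u b X (-(j : ℝ) - 1 / 2)‖ ≤
      C * (X ^ ((j : ℝ) - 1 / 2) + X ^ ((j : ℝ) + 1 / 2)) * ‖Wj T V u j‖ := by
  obtain ⟨C2, hC2, h2⟩ := gG_left j
  have hex : ∃ C1 : ℝ, 0 < C1 ∧ (-(j : ℝ) + 1 / 2 = 1 / 2 ∨ ∃ k : ℕ, -(j : ℝ) + 1 / 2 = -(k : ℝ) - 1 / 2) ∧
      ∀ (b : B3) (y : ℝ), ‖gG b (line (-(j : ℝ) + 1 / 2) y)‖ ≤ C1 * (1 + |y|) ^ (3 * j + 3) * Real.exp (-(Real.pi / 2 * |y|)) := by
    rcases j with _ | k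
    · obtain ⟨C1, hC1, h1⟩ := gG_half
      refine ⟨C1, hC1, Or.inl (by norm_num), fun b y => ?_⟩
      have e : (-((0 : ℕ) : ℝ) + 1 / 2) = 1 / 2 := by norm_num
      rw [e]
      refine (h1 b y).trans ?_
      have hp : (1 : ℝ) ≤ (1 + |y|) ^ (3 * 0 + 3) := one_le_pow₀ (by linarith [abs_nonneg y])
      have he : 0 ≤ C1 * Real.exp (-(Real.pi / 2 * |y|)) := by positivity
      have := mul_le_mul_of_nonneg_left hp he
      linarith
    · obtain ⟨C1, hC1, h1⟩ := gG_left k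
      refine ⟨C1, hC1, Or.inr ⟨k, by push_cast; ring⟩, fun b y => ?_⟩
      have e : (-((k + 1 : ℕ) : ℝ) + 1 / 2) = -(k : ℝ) - 1 / 2 := by push_cast; ring
      rw [e]
      refine (h1 b y).trans ?_
      have hp : (1 + |y|) ^ (3 * k + 3) ≤ (1 + |y|) ^ (3 * (k + 1) + 3) :=
        pow_le_pow_right₀ (by linarith [abs_nonneg y]) (by omega)
      have he : 0 ≤ C1 * Real.exp (-(Real.pi / 2 * |y|)) := by positivity
      have := mul_le_mul_of_nonneg_left hp he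
      linarith
  obtain ⟨C1, hC1, hc1, h1⟩ := hex
  obtain ⟨J, hJ⟩ : ∃ J : ℝ, J = ∫ y : ℝ, 1 * (1 + |y|) ^ (3 * j + 3) * Real.exp (-(Real.pi / 2 * |y|)) := ⟨_, rfl⟩
  have hJ0 : 0 ≤ J := by
    rw [hJ]
    exact integral_nonneg fun y => by positivity
  refine ⟨(C1 + C2) * J + 1, by positivity, fun T V u hT b X hX => ?_⟩
  have hc2 : (-(j : ℝ) - 1 / 2 = 1 / 2 ∨ ∃ k : ℕ, -(j : ℝ) - 1 / 2 = -(k : ℝ) - 1 / 2) := Or.inr ⟨j, rfl⟩
  have hF1 := e1_F_cont b hX hc1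
  have hF2 := e1_F_cont b hX hc2
  have hb1 := fun y => e1_F_bd (3 * j + 3) (h1 b) hX y
  have hb2 := fun y => e1_F_bd (3 * j + 3) (h2 b) hX y
  have hi1 := e1_int hF1 hb1
  have hi2 := e1_int hF2 hb2
  have n1 := e1_norm_int (3 * j + 3) hb1
  have n2 := e1_norm_int (3 * j + 3) hb2
  rw [← hJ] at n1 n2
  have x1 : -(-(j : ℝ) + 1 / 2) = (j : ℝ) - 1 / 2 := by ring
  have x2 : -(-(j : ℝ) - 1 / 2) = (j : ℝ) + 1 / 2 := by ring
  rw [x1] at n1
  rw [x2] at n2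
  obtain ⟨A1, hA1⟩ : ∃ A1 : ℂ, A1 = ∫ y : ℝ, e1F b X (-(j : ℝ) + 1 / 2) y := ⟨_, rfl⟩
  obtain ⟨A2, hA2⟩ : ∃ A2 : ℂ, A2 = ∫ y : ℝ, e1F b X (-(j : ℝ) - 1 / 2) y := ⟨_, rfl⟩
  rw [← hA1] at n1
  rw [← hA2] at n2
  -- the identity of the inner integrals
  have key : ∀ ξ ∈ Icc (-(1 / 4) : ℝ) (1 / 4),
      (∫ y : ℝ, e1F b X (-(j : ℝ) + 1 / 2) y * KK (wq T ξ) ^ (-(line (-(j : ℝ) + 1 / 2) y))) =
      (∫ y : ℝ, e1F b X (-(j : ℝ) - 1 / 2) y * KK (wq T ξ) ^ (-(line (-(j : ℝ) - 1 / 2) y))) + KK (wq T ξ) ^ j * (A1 - A2) := by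
    intro ξ hξ
    have hκ := e1_KKre hT hξ
    have hs := shift_step j b hX hκ
    have k1 := e1_intK hF1 hb1 hκ (-(j : ℝ) + 1 / 2)
    have k2 := e1_intK hF2 hb2 hκ (-(j : ℝ) - 1 / 2)
    have l1 : (∫ y : ℝ, gG b (line (-(j : ℝ) + 1 / 2) y) * (X : ℂ) ^ (-(line (-(j : ℝ) + 1 / 2) y)) *
        (KK (wq T ξ) ^ (-(line (-(j : ℝ) + 1 / 2) y)) - KK (wq T ξ) ^ j)) =
        (∫ y : ℝ, e1F b X (-(j : ℝ) + 1 / 2) y * KK (wq T ξ) ^ (-(line (-(j : ℝ) + 1 / 2) y))) - KK (wq T ξ) ^ j * A1 := by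
      rw [hA1, ← integral_const_mul, ← integral_sub k1 (hi1.const_mul _)]
      refine integral_congr_ae (Eventually.of_forall fun y => ?_)
      simp only
      unfold e1F
      ring
    have l2 : (∫ y : ℝ, gG b (line (-(j : ℝ) - 1 / 2) y) * (X : ℂ) ^ (-(line (-(j : ℝ) - 1 / 2) y)) *
        (KK (wq T ξ) ^ (-(line (-(j : ℝ) - 1 / 2) y)) - KK (wq T ξ) ^ j)) =
        (∫ y : ℝ, e1F b X (-(j : ℝ) - 1 / 2) y * KK (wq T ξ) ^ (-(line (-(j : ℝ) - 1 / 2) y))) - KK (wq T ξ) ^ j * A2 := by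
      rw [hA2, ← integral_const_mul, ← integral_sub k2 (hi2.const_mul _)]
      refine integral_congr_ae (Eventually.of_forall fun y => ?_)
      simp only
      unfold e1F
      ring
    rw [l1, l2] at hs
    linear_combination hs
  have I1 := e1_Ic (V := V) (u := u) hT b hF1 (3 * j + 3) hb1
  have I2 := e1_Ic (V := V) (u := u) hT b hF2 (3 * j + 3) hb2
  have hcW : IntegrableOn (fun ξ => nv T V u ξ * (KK (wq T ξ) ^ j * (A1 - A2))) (Icc (-(1 / 4) : ℝ) (1 / 4)) := by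
    have hc : Continuous (fun ξ => nv T V u ξ * (KK (wq T ξ) ^ j * (A1 - A2))) :=
      (nv_cont T V u).mul (((KK_cont T).pow j).mul continuous_const)
    exact hc.continuousOn.integrableOn_Icc
  have hW : ∫ ξ in Icc (-(1 / 4) : ℝ) (1 / 4), nv T V u ξ * (KK (wq T ξ) ^ j * (A1 - A2)) = (A1 - A2) * Wj T V u j := by
    unfold Wj
    rw [← integral_const_mul]
    refine integral_congr_ae (Eventually.of_forall fun ξ => ?_)
    simp only
    ring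
  have hrhs : 0 ≤ ((C1 + C2) * J + 1) * (X ^ ((j : ℝ) - 1 / 2) + X ^ ((j : ℝ) + 1 / 2)) * ‖Wj T V u j‖ := by positivity
  by_cases hint : IntegrableOn (fun ξ => nv T V u ξ *
      (∫ y : ℝ, e1F b X (-(j : ℝ) - 1 / 2) y * KK (wq T ξ) ^ (-(line (-(j : ℝ) - 1 / 2) y)))) (Icc (-(1 / 4) : ℝ) (1 / 4))
  · have hsum : Ic T V u b X (-(j : ℝ) + 1 / 2) - Ic T V u b X (-(j : ℝ) - 1 / 2) = (A1 - A2) * Wj T V u j := by
      rw [I1, I2, ← hW, sub_eq_iff_eq_add', ← integral_add hint hcW]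
      refine setIntegral_congr_fun measurableSet_Icc fun ξ hξ => ?_
      rw [key ξ hξ]
      ring
    rw [hsum, norm_mul]
    have hA : ‖A1 - A2‖ ≤ ((C1 + C2) * J + 1) * (X ^ ((j : ℝ) - 1 / 2) + X ^ ((j : ℝ) + 1 / 2)) := by
      have p1 : 0 ≤ X ^ ((j : ℝ) - 1 / 2) := Real.rpow_nonneg hX.le _
      have p2 : 0 ≤ X ^ ((j : ℝ) + 1 / 2) := Real.rpow_nonneg hX.le _
      have q1 : 0 ≤ C2 * J * X ^ ((j : ℝ) - 1 / 2) := by positivity
      have q2 : 0 ≤ C1 * J * X ^ ((j : ℝ) + 1 / 2) := by positivity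
      calc ‖A1 - A2‖ ≤ ‖A1‖ + ‖A2‖ := norm_sub_le _ _
        _ ≤ C1 * J * X ^ ((j : ℝ) - 1 / 2) + C2 * J * X ^ ((j : ℝ) + 1 / 2) := add_le_add n1 n2
        _ ≤ _ := by nlinarith
    exact mul_le_mul_of_nonneg_right hA (norm_nonneg _)
  · have hint1 : ¬ IntegrableOn (fun ξ => nv T V u ξ *
        (∫ y : ℝ, e1F b X (-(j : ℝ) + 1 / 2) y * KK (wq T ξ) ^ (-(line (-(j : ℝ) + 1 / 2) y)))) (Icc (-(1 / 4) : ℝ) (1 / 4)) := by
      intro h
      apply hint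
      have h3 := h.sub hcW
      refine h3.congr ?_
      refine (ae_restrict_iff' measurableSet_Icc).2 (Eventually.of_forall fun ξ hξ => ?_)
      simp only [Pi.sub_apply]
      rw [key ξ hξ]
      ring
    rw [I1, I2, integral_undef hint1, integral_undef hint, sub_zero, norm_zero]
    exact hrhs

end Pool.Agent.LibSM56A
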