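import Pool.Agent.LibSM56A.A_Defs
import Pool.Agent.LibSM47.D_F

/-! ROW A_J (SHORT/MEDIUM): `AA` on the line `Re s = -1/2` and the expansion of `Lam`.

AA_line: the middle of the proof of `SD.D_core` (LibSM47/D_F.lean), `hdiff`, with `η = 1/2`; integrability from `SD.left_line (1/2) ..
(FT_le (1/2) ..) (gcd_sum (1/2) ..)` (see `D_main` in FaceA.lean), `c₀ = AA m n 1 - J(1)`, `‖AA m n 1‖ ≤ C` (`SD.AA_one`), `‖J(1)‖ ≤ C m^5 pw^{1/2} ≤ C m^6`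
(`pw m ≤ m`; left_line at `κ = 1`).
Lam_expand: `SD.Lam_one_sub` at `1 - s` (`Re (1-s) > 1`), `gf m (1-s) = m^{-s} (2π)^{s-1} Γ(1-s)`.
Lam_growth' : `SD.Lam_growth`. -/

set_option autoImplicit false

namespace Pool.Agent.LibSM56A

open MeasureTheory Set Filter Topology Complex
open Pool.Agent.LibSM47

private theorem aj_pw (m : ℕ) [NeZero m] : pw m ≤ m := by
  have hm : m ≠ 0 := NeZero.ne m
  refine Nat.le_of_dvd (Nat.pos_of_ne_zero hm) ?_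
  have h1 : m = ∏ p ∈ m.primeFactors, p ^ m.factorization p :=
    (Nat.prod_factorization_pow_eq_self hm).symm
  conv_rhs => rw [h1]
  exact Finset.prod_dvd_prod_of_subset _ _ _ (Finset.filter_subset _ _)

theorem AA_line : ∃ C : ℝ, 0 < C ∧ ∀ (m : ℕ) [NeZero m] (n : ZMod m), IsUnit n → ∃ c₀ : ℂ, ‖c₀‖ ≤ C * (m : ℝ) ^ 6 ∧ ∀ κ : ℂ, 0 < κ.re →
    Integrable (fun y : ℝ => SD.Lam m n (line (-(1 / 2)) y) * (Complex.Gamma (line (-(1 / 2)) y) * κ ^ (-(line (-(1 / 2)) y)))) ∧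
    SD.AA m n κ = c₀ + ((1 / (2 * Real.pi) : ℝ) : ℂ) *
      ∫ y : ℝ, SD.Lam m n (line (-(1 / 2)) y) * (Complex.Gamma (line (-(1 / 2)) y) * κ ^ (-(line (-(1 / 2)) y))) := by
  have hη : (0 : ℝ) < 1 / 2 := by norm_num
  obtain ⟨C, hC, hL⟩ := SD.left_line (1 / 2) hη le_rfl (FT_le (1 / 2) hη) (gcd_sum (1 / 2) hη)
  obtain ⟨C1, hC1, hA⟩ := SD.AA_one
  have e0 : ∀ y : ℝ, ((-(1 / 2 : ℝ) : ℝ) : ℂ) + y * I = line (-(1 / 2)) y := fun y => rfl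
  refine ⟨C1 + C, by positivity, fun m _ n hn => ?_⟩
  have h1re : (0 : ℝ) < (1 : ℂ).re := by simp
  obtain ⟨hI1, hA1⟩ := SD.mellin_Lam m n hn h1re
  obtain ⟨hJ1, hB1⟩ := hL m n hn 1 h1re
  refine ⟨SD.AA m n 1 - ((1 / (2 * Real.pi) : ℝ) : ℂ) * ∫ y : ℝ, SD.Lam m n (line (-(1 / 2)) y) *
    (Complex.Gamma (line (-(1 / 2)) y) * (1 : ℂ) ^ (-(line (-(1 / 2)) y))), ?_, ?_⟩
  · have hm1 : (1 : ℝ) ≤ m := by exact_mod_cast NeZero.one_le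
    have hm0 : (0 : ℝ) < m := by linarith
    refine (norm_sub_le _ _).trans ?_
    have a1 : ‖SD.AA m n 1‖ ≤ C1 * (m : ℝ) ^ 6 :=
      (hA m n).trans (le_mul_of_one_le_right hC1.le (one_le_pow₀ hm1))
    have a2 : (m : ℝ) ^ (3 / 2 + 7 * (1 / 2) : ℝ) * (pw m : ℝ) ^ (1 / 2 : ℝ) ≤ (m : ℝ) ^ 6 := by
      have b1 : (pw m : ℝ) ^ (1 / 2 : ℝ) ≤ (m : ℝ) ^ (1 / 2 : ℝ) :=
        Real.rpow_le_rpow (Nat.cast_nonneg _) (by exact_mod_cast aj_pw m) (by norm_num)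
      have b2 : (m : ℝ) ^ (1 / 2 : ℝ) ≤ m := by
        conv_rhs => rw [← Real.rpow_one (m : ℝ)]
        exact Real.rpow_le_rpow_of_exponent_le hm1 (by norm_num)
      have b3 : (m : ℝ) ^ (3 / 2 + 7 * (1 / 2) : ℝ) = (m : ℝ) ^ 5 := by
        rw [← Real.rpow_natCast]
        norm_num
      rw [b3]
      calc (m : ℝ) ^ 5 * (pw m : ℝ) ^ (1 / 2 : ℝ) ≤ (m : ℝ) ^ 5 * m :=
            mul_le_mul_of_nonneg_left (b1.trans b2) (by positivity)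
        _ = (m : ℝ) ^ 6 := by ring
    have a3 := hB1
    have a4 : ‖(1 : ℂ)‖ ^ (1 / 2 : ℝ) * (‖(1 : ℂ)‖ / (1 : ℂ).re) ^ 8 = 1 := by simp
    have a5 : C * (m : ℝ) ^ (3 / 2 + 7 * (1 / 2) : ℝ) * (pw m : ℝ) ^ (1 / 2 : ℝ) *
        ‖(1 : ℂ)‖ ^ (1 / 2 : ℝ) * (‖(1 : ℂ)‖ / (1 : ℂ).re) ^ 8 ≤ C * (m : ℝ) ^ 6 := by
      rw [mul_assoc _ (‖(1 : ℂ)‖ ^ (1 / 2 : ℝ)), a4, mul_one, mul_assoc]
      exact mul_le_mul_of_nonneg_left a2 hC.le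
    have a6 := a3.trans a5
    rw [add_mul]
    exact add_le_add a1 a6
  · intro κ hκ
    obtain ⟨hIκ, hAκ⟩ := SD.mellin_Lam m n hn hκ
    obtain ⟨hJκ, hBκ⟩ := hL m n hn κ hκ
    refine ⟨hJκ, ?_⟩
    have e2 : ∀ s : ℂ, SD.Lam m n s * (Complex.Gamma s * (κ ^ (-s) - 1)) =
        SD.Lam m n s * (Complex.Gamma s * κ ^ (-s)) -
          SD.Lam m n s * (Complex.Gamma s * (1 : ℂ) ^ (-s)) := by
      intro s
      rw [Complex.one_cpow]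
      ring
    have hsh := SD.shift_Lam m n hκ (1 / 2) hη le_rfl
    simp_rw [e2] at hsh
    rw [integral_sub hIκ hI1, integral_sub hJκ hJ1] at hsh
    have hdiff : SD.AA m n κ - SD.AA m n 1 = ((1 / (2 * Real.pi) : ℝ) : ℂ) *
        (∫ y : ℝ, SD.Lam m n (line (-(1 / 2)) y) *
          (Complex.Gamma (line (-(1 / 2)) y) * κ ^ (-(line (-(1 / 2)) y)))) -
        ((1 / (2 * Real.pi) : ℝ) : ℂ) * ∫ y : ℝ, SD.Lam m n (line (-(1 / 2)) y) *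
          (Complex.Gamma (line (-(1 / 2)) y) * (1 : ℂ) ^ (-(line (-(1 / 2)) y))) := by
      rw [hAκ, hA1, ← mul_sub, ← mul_sub, hsh]
      rfl
    linear_combination hdiff

theorem Lam_expand (m : ℕ) [NeZero m] (n : ZMod m) (hn : IsUnit n) {s : ℂ} (hs : s.re < 0) :
    SD.Lam m n s = (m : ℂ) ^ (-(3 * s)) * ∑ b : B3, hb b s * SD.DS m n b (1 - s) := by
  have h1 : 1 < (1 - s).re := by
    rw [sub_re, one_re]
    linarith
  have h2 := SD.Lam_one_sub m n hn h1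
  rw [sub_sub_cancel] at h2
  rw [h2, Finset.mul_sum, Finset.mul_sum]
  refine Finset.sum_congr rfl fun b _ => ?_
  have hm : (m : ℂ) ≠ 0 := Nat.cast_ne_zero.2 (NeZero.ne m)
  have hpi : (2 * Real.pi : ℂ) ≠ 0 := by
    have : (Real.pi : ℂ) ≠ 0 := by exact_mod_cast Real.pi_ne_zero
    simp [this]
  unfold hb SD.gf
  have e1 : ((m : ℂ) ^ (1 - s - 1)) ^ 3 = (m : ℂ) ^ (-(3 * s)) := by
    rw [← Complex.cpow_nat_mul]
    congr 1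
    push_cast
    ring
  have e2 : ((2 * Real.pi : ℂ) ^ (-(1 - s))) ^ 3 = (2 * Real.pi : ℂ) ^ (3 * s - 3) := by
    rw [← Complex.cpow_nat_mul]
    congr 1
    push_cast
    ring
  rw [mul_pow, mul_pow, e1, e2]
  ring

end Pool.Agent.LibSM56A
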