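import Pool.Agent.LibSM56A.A_F
import Pool.Agent.LibSM56A.A_G
import Pool.Agent.LibSM56A.A_J
import Pool.Agent.LibSM56A.A_D
import Pool.Agent.LibSM47.D_C4
import Pool.Agent.LibSM47.D_G

/-! ROW A_E2 (MEDIUM): `VV` on the line `Re s = -1/2`.

`E3 n m θ = AA m n θ` (`SD.E3_bridge n m θ`), `θ = (n/m) K(w)` (`th_KK`), `AA_line`, `((n/m)K)^{-s} = (n/m)^{-s} K^{-s}` (`Complex.mul_cpow_ofReal_nonneg`), `fub_line` with
`F(y) = Lam Γ (n/m)^{-s}` (`SD.Lam_growth`, `|Γ(-1/2+iy)| ≤ 2|Γ(1/2+iy)|`, constants may depend on `m,n`), then `Lam_expand` and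
`(n/m)^{-s} m^{-3s} = (n m²)^{-s}`; `WW` at `s = 0` is `Wj .. 0`. Integrability of each term of the sum over `b`: `DS` is bounded on the line
(`DS_summable`) and continuous (or use measurability), `gG_left 0`. -/

set_option autoImplicit false

namespace Pool.Agent.LibSM56A

open MeasureTheory Set Filter Topology Complex
open Pool.Agent.LibSM47

private theorem e2_re (c y : ℝ) : (line c y).re = c := by
  simp [line]

private theorem e2_im (c y : ℝ) : (line c y).im = y := by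
  simp [line]

private theorem e2_cont (c : ℝ) : Continuous (line c) := by
  unfold line
  fun_prop

private theorem e2_gamma_half (y : ℝ) : ‖Complex.Gamma (line (1 / 2) y)‖ ^ 2 =
    Real.pi / Real.cosh (Real.pi * y) := by
  have h := Complex.Gamma_mul_Gamma_one_sub (line (1 / 2) y)
  have h1 : 1 - line (1 / 2) y = (starRingEnd ℂ) (line (1 / 2) y) := by
    apply Complex.ext
    · rw [Complex.sub_re, Complex.one_re, Complex.conj_re, e2_re]
      norm_num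
    · rw [Complex.sub_im, Complex.one_im, Complex.conj_im, e2_im]
      norm_num
  rw [h1, Complex.Gamma_conj, Complex.mul_conj] at h
  have h2 : Complex.sin (Real.pi * line (1 / 2) y) = ((Real.cosh (Real.pi * y) : ℝ) : ℂ) := by
    have h3 : (Real.pi : ℂ) * line (1 / 2) y = ((Real.pi * y : ℝ) : ℂ) * I + Real.pi / 2 := by
      unfold line
      push_cast
      ring
    rw [h3, Complex.sin_add_pi_div_two, Complex.cos_mul_I, Complex.ofReal_cosh]
  rw [h2] at h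
  rw [Complex.sq_norm]
  exact_mod_cast h

private theorem e2_cosh (x : ℝ) : Real.exp |x| / 2 ≤ Real.cosh x := by
  rw [← Real.cosh_abs x, Real.cosh_eq]
  have := Real.exp_pos (-|x|)
  linarith

private theorem e2_gamma (y : ℝ) : ‖Complex.Gamma (line (-(1 / 2)) y)‖ ≤
    6 * Real.exp (-(Real.pi / 2 * |y|)) := by
  have hpi := Real.pi_pos
  have hpi4 : Real.pi < 4 := by linarith [Real.pi_lt_d2]
  have h1 : ‖Complex.Gamma (line (1 / 2) y)‖ ≤ 3 * Real.exp (-(Real.pi / 2 * |y|)) := by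
    refine le_of_sq_le_sq ?_ (by positivity)
    rw [e2_gamma_half, mul_pow, ← Real.exp_nat_mul]
    have h2 := e2_cosh (Real.pi * y)
    rw [abs_mul, abs_of_pos hpi] at h2
    have h3 : 0 < Real.exp (Real.pi * |y|) := Real.exp_pos _
    have h4 : Real.exp (((2 : ℕ) : ℝ) * -(Real.pi / 2 * |y|)) = (Real.exp (Real.pi * |y|))⁻¹ := by
      rw [← Real.exp_neg]
      congr 1
      push_cast
      ring
    rw [h4, div_le_iff₀ (Real.cosh_pos _)]
    have h5 : 3 ^ 2 * (Real.exp (Real.pi * |y|))⁻¹ * (Real.exp (Real.pi * |y|) / 2) = 9 / 2 := by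
      field_simp
      norm_num
    have h6 : 3 ^ 2 * (Real.exp (Real.pi * |y|))⁻¹ * (Real.exp (Real.pi * |y|) / 2) ≤
        3 ^ 2 * (Real.exp (Real.pi * |y|))⁻¹ * Real.cosh (Real.pi * y) :=
      mul_le_mul_of_nonneg_left h2 (by positivity)
    linarith
  have hs0 : line (-(1 / 2)) y ≠ 0 := by
    intro h
    have := congrArg Complex.re h
    rw [e2_re, Complex.zero_re] at this
    norm_num at this
  have h2 := Complex.Gamma_add_one (line (-(1 / 2)) y) hs0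
  have h3 : line (-(1 / 2)) y + 1 = line (1 / 2) y := by
    unfold line
    push_cast
    ring
  rw [h3] at h2
  have h4 : (1 / 2 : ℝ) ≤ ‖line (-(1 / 2)) y‖ := by
    have := Complex.abs_re_le_norm (line (-(1 / 2)) y)
    rw [e2_re, abs_neg, abs_of_pos (by norm_num : (0 : ℝ) < 1 / 2)] at this
    exact this
  have h5 : ‖line (-(1 / 2)) y‖ * ‖Complex.Gamma (line (-(1 / 2)) y)‖ =
      ‖Complex.Gamma (line (1 / 2) y)‖ := by
    rw [h2, norm_mul]
  have h6 : 1 / 2 * ‖Complex.Gamma (line (-(1 / 2)) y)‖ ≤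
      ‖line (-(1 / 2)) y‖ * ‖Complex.Gamma (line (-(1 / 2)) y)‖ :=
    mul_le_mul_of_nonneg_right h4 (norm_nonneg _)
  linarith

private theorem e2_gamma_cont : Continuous fun y : ℝ => Complex.Gamma (line (-(1 / 2)) y) := by
  rw [continuous_iff_continuousAt]
  intro y
  refine ContinuousAt.comp (f := fun y : ℝ => line (-(1 / 2)) y) (g := Complex.Gamma) ?_
    (e2_cont _).continuousAt
  refine (Complex.differentiableAt_Gamma _ fun k h => ?_).continuousAt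
  have h1 := congrArg Complex.re h
  rw [e2_re, Complex.neg_re, Complex.natCast_re] at h1
  have h2 : (2 * k : ℕ) = 1 := by
    have : (2 * (k : ℝ)) = 1 := by linarith
    exact_mod_cast this
  omega

private theorem e2_cpow_mul {ρ : ℝ} (hρ : 0 < ρ) {z : ℂ} (hz : z ≠ 0) (s : ℂ) :
    ((ρ : ℂ) * z) ^ s = (ρ : ℂ) ^ s * z ^ s := by
  have hρ' : (ρ : ℂ) ≠ 0 := by exact_mod_cast hρ.ne'
  rw [Complex.cpow_def_of_ne_zero (mul_ne_zero hρ' hz), Complex.cpow_def_of_ne_zero hρ',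
    Complex.cpow_def_of_ne_zero hz, Complex.log_ofReal_mul hρ hz, Complex.ofReal_log hρ.le,
    ← Complex.exp_add, add_mul]

private theorem e2_cpow (m n : ℕ) (hm : 0 < m) (hn : 0 < n) (s : ℂ) :
    ((n * m ^ 2 : ℕ) : ℂ) ^ (-s) = ((((n : ℝ) / m : ℝ)) : ℂ) ^ (-s) * (m : ℂ) ^ (-(3 * s)) := by
  have hm' : (0 : ℝ) < m := by exact_mod_cast hm
  have hn' : (0 : ℝ) < n := by exact_mod_cast hn
  have hρ : (0 : ℝ) < (n : ℝ) / m := by positivity
  have hmc : (m : ℂ) ≠ 0 := by exact_mod_cast hm.ne'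
  have h1 : ((n * m ^ 2 : ℕ) : ℂ) = ((((n : ℝ) / m : ℝ)) : ℂ) * (m : ℂ) ^ 3 := by
    push_cast
    field_simp
  have h2 : ((m : ℂ) ^ 3) ^ (-s) = (m : ℂ) ^ (-(3 * s)) := by
    have h3 : ((m : ℂ) ^ 3) = (((m : ℝ) ^ 3 : ℝ) : ℂ) := by push_cast; rfl
    have h4 : (m : ℂ) = ((m : ℝ) : ℂ) := by push_cast; rfl
    rw [h3, h4, Complex.cpow_def_of_ne_zero (by exact_mod_cast (pow_pos hm' 3).ne'),
      Complex.cpow_def_of_ne_zero (by exact_mod_cast hm'.ne'), ← Complex.ofReal_log (by positivity),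
      ← Complex.ofReal_log hm'.le, Real.log_pow]
    congr 1
    push_cast
    ring
  rw [h1, e2_cpow_mul hρ (pow_ne_zero 3 hmc), h2]

private theorem e2_AA_cont (m : ℕ) [NeZero m] (n : ZMod m) (κ : ℝ → ℂ) (hκ : Continuous κ)
    {κ0 : ℝ} (h0 : 0 < κ0) (S : Set ℝ) (hS : ∀ ξ ∈ S, κ0 ≤ (κ ξ).re) :
    ContinuousOn (fun ξ => SD.AA m n (κ ξ)) S := by
  unfold SD.AA
  have hs : Summable fun a : SD.Tr => 8 * ‖cexp (-((κ0 : ℝ) : ℂ) * SD.pr a)‖ :=
    (SD.summable_exp (κ := ((κ0 : ℝ) : ℂ)) (by simpa using h0)).mul_left 8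
  refine continuousOn_tsum (fun a => ?_) hs fun a ξ hξ => ?_
  · fun_prop
  · rw [norm_mul]
    refine mul_le_mul (SD.Ph_norm m n _) ?_ (norm_nonneg _) (by norm_num)
    rw [Complex.norm_exp, Complex.norm_exp]
    refine Real.exp_le_exp.2 ?_
    have h1 : (-(κ ξ) * (SD.pr a : ℂ)).re = -((κ ξ).re * SD.pr a) := by
      rw [neg_mul, Complex.neg_re, Complex.mul_re, Complex.natCast_re, Complex.natCast_im,
        mul_zero, sub_zero]
    have h2 : (-((κ0 : ℝ) : ℂ) * (SD.pr a : ℂ)).re = -(κ0 * SD.pr a) := by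
      rw [neg_mul, Complex.neg_re, Complex.mul_re, Complex.natCast_re, Complex.natCast_im,
        mul_zero, sub_zero, Complex.ofReal_re]
    rw [h1, h2]
    have h3 := mul_le_mul_of_nonneg_right (hS ξ hξ) (Nat.cast_nonneg (α := ℝ) (SD.pr a))
    linarith

theorem VV_line : ∃ C : ℝ, 0 < C ∧ ∀ T V u : ℝ, 4 ≤ T → ∀ (m : ℕ) [NeZero m] (n : ℕ), 1 ≤ n → Nat.Coprime n m →
    ‖VV T V u m n - ((√((n : ℝ) / m) : ℝ) : ℂ) * ∑ b : B3, ∫ y : ℝ, Om T V u b (line (-(1 / 2)) y) *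
        ((n * m ^ 2 : ℕ) : ℂ) ^ (-(line (-(1 / 2)) y)) * SD.DS m (n : ZMod m) b (1 - line (-(1 / 2)) y)‖ ≤
      C * √((n : ℝ) / m) * (m : ℝ) ^ 6 * ‖Wj T V u 0‖ := by
  obtain ⟨C, hC, hA⟩ := AA_line
  have hpi := Real.pi_pos
  refine ⟨2 * Real.pi * C, by positivity, ?_⟩
  intro T V u hT m _ n hn hnm
  have hm : 0 < m := NeZero.pos m
  have hm' : (0 : ℝ) < m := by exact_mod_cast hm
  have hn' : (0 : ℝ) < n := by exact_mod_cast hn
  have hT0 : 0 < T := by linarith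
  obtain ⟨ρ, hρd⟩ : ∃ ρ : ℝ, ρ = (n : ℝ) / m := ⟨_, rfl⟩
  have hρ : 0 < ρ := by rw [hρd]; positivity
  have hρc : (ρ : ℂ) ≠ 0 := by exact_mod_cast hρ.ne'
  have hu : IsUnit ((n : ℕ) : ZMod m) := (ZMod.isUnit_iff_coprime n m).2 hnm
  obtain ⟨c₀, hc₀, hAA⟩ := hA m (n : ZMod m) hu
  -- the function `F`
  obtain ⟨C1, hC1, hLam⟩ := SD.Lam_growth m (n : ZMod m)
  set F : ℝ → ℂ := fun y => SD.Lam m (n : ZMod m) (line (-(1 / 2)) y) *
    (Complex.Gamma (line (-(1 / 2)) y) * (ρ : ℂ) ^ (-(line (-(1 / 2)) y))) with hF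
  have hpow : Continuous fun y : ℝ => (ρ : ℂ) ^ (-(line (-(1 / 2)) y)) :=
    (e2_cont (-(1 / 2))).neg.const_cpow (Or.inl hρc)
  have hFc : Continuous F :=
    ((SD.Lam_diff m (n : ZMod m)).continuous.comp (e2_cont _)).mul (e2_gamma_cont.mul hpow)
  have hFb : ∀ y : ℝ, ‖F y‖ ≤ (C1 * 6 * ρ ^ (1 / 2 : ℝ)) * (1 + |y|) ^ 6 *
      Real.exp (-(Real.pi / 2 * |y|)) := by
    intro y
    have h1 : ‖SD.Lam m (n : ZMod m) (line (-(1 / 2)) y)‖ ≤ C1 * (1 + |y|) ^ 6 :=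
      hLam (-(1 / 2)) ⟨le_rfl, by norm_num⟩ y
    have h2 : ‖(ρ : ℂ) ^ (-(line (-(1 / 2)) y))‖ = ρ ^ (1 / 2 : ℝ) := by
      rw [Complex.norm_cpow_eq_rpow_re_of_pos hρ, Complex.neg_re, e2_re]
      norm_num
    rw [hF]
    simp only [norm_mul]
    rw [h2]
    calc _ ≤ (C1 * (1 + |y|) ^ 6) * ((6 * Real.exp (-(Real.pi / 2 * |y|))) * ρ ^ (1 / 2 : ℝ)) :=
          mul_le_mul h1 (mul_le_mul_of_nonneg_right (e2_gamma y) (by positivity))
            (by positivity) (by positivity)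
      _ = _ := by ring
  obtain ⟨hFi, hFub⟩ := fub_line T V u (-(1 / 2)) hT F hFc 6 _ hFb
  -- the real parts
  have hKre : ∀ ξ ∈ Icc (-(1 / 4) : ℝ) (1 / 4), 1 / T ≤ (KK (wq T ξ)).re := by
    intro ξ hξ
    have h1 : (wq T ξ).re = 1 / T := by
      simp [wq]
    have h2 := KK_re (w := wq T ξ) (by rw [h1]; positivity) (wq_half hT hξ)
    rwa [h1] at h2
  have hκre : ∀ ξ ∈ Icc (-(1 / 4) : ℝ) (1 / 4), ρ * (1 / T) ≤ ((ρ : ℂ) * KK (wq T ξ)).re := by
    intro ξ hξ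
    rw [Complex.re_ofReal_mul]
    exact mul_le_mul_of_nonneg_left (hKre ξ hξ) hρ.le
  have hκ0 : 0 < ρ * (1 / T) := by positivity
  have hE : ∀ ξ ∈ Icc (-(1 / 4) : ℝ) (1 / 4), LibPH.E3 n m (LibPH.th n m (wq T ξ)) =
      SD.AA m (n : ZMod m) ((ρ : ℂ) * KK (wq T ξ)) := by
    intro ξ _
    rw [SD.E3_bridge n m, th_KK m n, hρd]
  have hG : ∀ ξ ∈ Icc (-(1 / 4) : ℝ) (1 / 4), SD.AA m (n : ZMod m) ((ρ : ℂ) * KK (wq T ξ)) =
      c₀ + ((1 / (2 * Real.pi) : ℝ) : ℂ) *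
        ∫ y : ℝ, F y * KK (wq T ξ) ^ (-(line (-(1 / 2)) y)) := by
    intro ξ hξ
    have hκ := hκre ξ hξ
    rw [(hAA ((ρ : ℂ) * KK (wq T ξ)) (hκ0.trans_le hκ)).2]
    congr 2
    refine integral_congr_ae (ae_of_all _ fun y => ?_)
    have hz : KK (wq T ξ) ≠ 0 := by
      intro h
      have h1 := hKre ξ hξ
      rw [h, Complex.zero_re] at h1
      have : 0 < 1 / T := by positivity
      linarith
    show SD.Lam m (n : ZMod m) (line (-(1 / 2)) y) * (Complex.Gamma (line (-(1 / 2)) y) *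
      ((ρ : ℂ) * KK (wq T ξ)) ^ (-(line (-(1 / 2)) y))) = _
    rw [e2_cpow_mul hρ hz, hF]
    simp only []
    ring
  -- the integral over the window
  have hAc : ContinuousOn (fun ξ => SD.AA m (n : ZMod m) ((ρ : ℂ) * KK (wq T ξ)))
      (Icc (-(1 / 4) : ℝ) (1 / 4)) :=
    e2_AA_cont m _ _ (continuous_const.mul (KK_cont T)) hκ0 _ hκre
  have hi1 : IntegrableOn (fun ξ => nv T V u ξ * c₀) (Icc (-(1 / 4) : ℝ) (1 / 4)) :=
    ((nv_cont T V u).mul continuous_const).continuousOn.integrableOn_compact isCompact_Icc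
  have hi2 : IntegrableOn (fun ξ => nv T V u ξ *
      ∫ y : ℝ, F y * KK (wq T ξ) ^ (-(line (-(1 / 2)) y))) (Icc (-(1 / 4) : ℝ) (1 / 4)) := by
    have h1 : IntegrableOn (fun ξ => nv T V u ξ * (((2 * Real.pi : ℝ) : ℂ) *
        (SD.AA m (n : ZMod m) ((ρ : ℂ) * KK (wq T ξ)) - c₀))) (Icc (-(1 / 4) : ℝ) (1 / 4)) :=
      ((nv_cont T V u).continuousOn.mul (continuousOn_const.mul
        (hAc.sub continuousOn_const))).integrableOn_compact isCompact_Icc
    refine h1.congr_fun (fun ξ hξ => ?_) measurableSet_Icc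
    show nv T V u ξ * (((2 * Real.pi : ℝ) : ℂ) *
        (SD.AA m (n : ZMod m) ((ρ : ℂ) * KK (wq T ξ)) - c₀)) = _
    rw [hG ξ hξ, add_sub_cancel_left, ← mul_assoc (((2 * Real.pi : ℝ) : ℂ)), ← Complex.ofReal_mul,
      mul_one_div_cancel (by positivity), Complex.ofReal_one, one_mul]
  have hVV : VV T V u m n = ((2 * Real.pi * √ρ : ℝ) : ℂ) * (Wj T V u 0 * c₀ +
      ((1 / (2 * Real.pi) : ℝ) : ℂ) * ∫ y : ℝ, F y * WW T V u (line (-(1 / 2)) y)) := by
    unfold VV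
    rw [← hρd]
    congr 1
    have h1 : ∫ ξ in Icc (-(1 / 4) : ℝ) (1 / 4), nv T V u ξ *
        LibPH.E3 n m (LibPH.th n m (wq T ξ)) =
        ∫ ξ in Icc (-(1 / 4) : ℝ) (1 / 4), (nv T V u ξ * c₀ + ((1 / (2 * Real.pi) : ℝ) : ℂ) *
          (nv T V u ξ * ∫ y : ℝ, F y * KK (wq T ξ) ^ (-(line (-(1 / 2)) y)))) := by
      refine setIntegral_congr_fun measurableSet_Icc fun ξ hξ => ?_
      show nv T V u ξ * LibPH.E3 n m (LibPH.th n m (wq T ξ)) = _
      rw [hE ξ hξ, hG ξ hξ]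
      ring
    rw [h1, integral_add hi1 (hi2.const_mul _), integral_mul_const, integral_const_mul, hFub]
    unfold Wj
    simp only [pow_zero, mul_one]
  -- the terms of the dual series
  obtain ⟨C2, hC2, hgl⟩ := gG_left 0
  have hline0 : ∀ y : ℝ, line (-((0 : ℕ) : ℝ) - 1 / 2) y = line (-(1 / 2)) y := by
    intro y
    unfold line
    push_cast
    ring
  have hb : ∀ b : B3, Integrable (fun y : ℝ => Om T V u b (line (-(1 / 2)) y) *
      ((n * m ^ 2 : ℕ) : ℂ) ^ (-(line (-(1 / 2)) y)) *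
      SD.DS m (n : ZMod m) b (1 - line (-(1 / 2)) y)) := by
    intro b
    have hre : ∀ y : ℝ, (1 - line (-(1 / 2)) y).re = 3 / 2 := by
      intro y
      rw [Complex.sub_re, Complex.one_re, e2_re]
      norm_num
    have hterm : ∀ (a : SD.Tr) (y : ℝ), ‖FT m (SD.Ph m (n : ZMod m)) (SD.sl m b a) *
        (SD.pr a : ℂ) ^ (-(1 - line (-(1 / 2)) y))‖ = ‖FT m (SD.Ph m (n : ZMod m)) (SD.sl m b a) *
        (SD.pr a : ℂ) ^ (-(((3 / 2 : ℝ)) : ℂ))‖ := by
      intro a y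
      rw [norm_mul, norm_mul, SD.norm_pr_cpow, SD.norm_pr_cpow, Complex.neg_re, Complex.neg_re,
        hre, Complex.ofReal_re]
    have hsum : Summable (fun a : SD.Tr => ‖FT m (SD.Ph m (n : ZMod m)) (SD.sl m b a) *
        (SD.pr a : ℂ) ^ (-(((3 / 2 : ℝ)) : ℂ))‖) :=
      DS_summable m (n : ZMod m) b (by rw [Complex.ofReal_re]; norm_num)
    obtain ⟨B, hB⟩ : ∃ B : ℝ, B = ∑' a : SD.Tr, ‖FT m (SD.Ph m (n : ZMod m)) (SD.sl m b a) *
        (SD.pr a : ℂ) ^ (-(((3 / 2 : ℝ)) : ℂ))‖ := ⟨_, rfl⟩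
    have hDSb : ∀ y : ℝ, ‖SD.DS m (n : ZMod m) b (1 - line (-(1 / 2)) y)‖ ≤ B := by
      intro y
      rw [hB]
      unfold SD.DS
      refine tsum_of_norm_bounded hsum.hasSum fun a => ?_
      rw [hterm a y]
    have hDSc : Continuous fun y : ℝ => SD.DS m (n : ZMod m) b (1 - line (-(1 / 2)) y) := by
      unfold SD.DS
      refine continuous_tsum (fun a => ?_) hsum fun a y => ?_
      · refine continuous_const.mul (Continuous.const_cpow ?_ (Or.inl ?_))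
        · exact (continuous_const.sub (e2_cont _)).neg
        · exact_mod_cast (SD.pr_pos a).ne'
      · rw [hterm a y]
    have hNpos : 0 < n * m ^ 2 := by positivity
    have hNc : ((n * m ^ 2 : ℕ) : ℂ) ≠ 0 := by exact_mod_cast hNpos.ne'
    have hNr : (0 : ℝ) < ((n * m ^ 2 : ℕ) : ℝ) := by exact_mod_cast hNpos
    have hgc : Continuous fun y : ℝ => gG b (line (-(1 / 2)) y) :=
      gG_cont b (-(1 / 2)) (Or.inr ⟨0, by norm_num⟩)
    have hB0 : 0 ≤ B := (norm_nonneg _).trans (hDSb 0)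
    obtain ⟨hi, -⟩ := fub_line T V u (-(1 / 2)) hT (fun y => gG b (line (-(1 / 2)) y) *
      (((n * m ^ 2 : ℕ) : ℂ) ^ (-(line (-(1 / 2)) y)) *
        SD.DS m (n : ZMod m) b (1 - line (-(1 / 2)) y)))
      (hgc.mul (((e2_cont (-(1 / 2))).neg.const_cpow (Or.inl hNc)).mul hDSc)) 3
      (C2 * (((n * m ^ 2 : ℕ) : ℝ) ^ (1 / 2 : ℝ) * B)) (fun y => by
        have h1 := hgl b y
        rw [hline0] at h1
        have h2 : ‖((n * m ^ 2 : ℕ) : ℂ) ^ (-(line (-(1 / 2)) y))‖ =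
            ((n * m ^ 2 : ℕ) : ℝ) ^ (1 / 2 : ℝ) := by
          rw [Complex.norm_natCast_cpow_of_pos hNpos, Complex.neg_re, e2_re]
          norm_num
        rw [norm_mul, norm_mul, h2]
        calc _ ≤ (C2 * (1 + |y|) ^ (3 * 0 + 3) * Real.exp (-(Real.pi / 2 * |y|))) *
              (((n * m ^ 2 : ℕ) : ℝ) ^ (1 / 2 : ℝ) * B) :=
              mul_le_mul h1 (mul_le_mul_of_nonneg_left (hDSb y) (by positivity))
                (by positivity) (by positivity)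
          _ = _ := by ring)
    refine hi.congr (ae_of_all _ fun y => ?_)
    show gG b (line (-(1 / 2)) y) * (((n * m ^ 2 : ℕ) : ℂ) ^ (-(line (-(1 / 2)) y)) *
        SD.DS m (n : ZMod m) b (1 - line (-(1 / 2)) y)) * WW T V u (line (-(1 / 2)) y) = _
    unfold Om
    ring
  have hsumb : ∑ b : B3, ∫ y : ℝ, Om T V u b (line (-(1 / 2)) y) *
      ((n * m ^ 2 : ℕ) : ℂ) ^ (-(line (-(1 / 2)) y)) *
      SD.DS m (n : ZMod m) b (1 - line (-(1 / 2)) y) =
      ∫ y : ℝ, F y * WW T V u (line (-(1 / 2)) y) := by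
    rw [← integral_finsetSum _ fun b _ => hb b]
    refine integral_congr_ae (ae_of_all _ fun y => ?_)
    have h1 := Lam_expand m (n : ZMod m) hu (s := line (-(1 / 2)) y) (by rw [e2_re]; norm_num)
    have h2 := e2_cpow m n hm hn (line (-(1 / 2)) y)
    rw [← hρd] at h2
    show ∑ b : B3, Om T V u b (line (-(1 / 2)) y) *
      ((n * m ^ 2 : ℕ) : ℂ) ^ (-(line (-(1 / 2)) y)) *
      SD.DS m (n : ZMod m) b (1 - line (-(1 / 2)) y) =
      SD.Lam m (n : ZMod m) (line (-(1 / 2)) y) *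
        (Complex.Gamma (line (-(1 / 2)) y) * (ρ : ℂ) ^ (-(line (-(1 / 2)) y))) *
        WW T V u (line (-(1 / 2)) y)
    rw [h1, h2, Finset.mul_sum, Finset.sum_mul, Finset.sum_mul]
    refine Finset.sum_congr rfl fun b _ => ?_
    unfold Om gG
    ring
  rw [← hρd, hsumb, hVV]
  have h1 : ((2 * Real.pi * √ρ : ℝ) : ℂ) * (Wj T V u 0 * c₀ + ((1 / (2 * Real.pi) : ℝ) : ℂ) *
      ∫ y : ℝ, F y * WW T V u (line (-(1 / 2)) y)) - ((√ρ : ℝ) : ℂ) *
      ∫ y : ℝ, F y * WW T V u (line (-(1 / 2)) y) =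
      ((2 * Real.pi * √ρ : ℝ) : ℂ) * (Wj T V u 0 * c₀) := by
    have h2 : ((2 * Real.pi * √ρ : ℝ) : ℂ) * ((1 / (2 * Real.pi) : ℝ) : ℂ) = ((√ρ : ℝ) : ℂ) := by
      rw [← Complex.ofReal_mul]
      congr 1
      field_simp
    rw [mul_add, ← mul_assoc, ← mul_assoc, h2]
    ring
  rw [h1, norm_mul, norm_mul, Complex.norm_real, Real.norm_of_nonneg (by positivity)]
  calc 2 * Real.pi * √ρ * (‖Wj T V u 0‖ * ‖c₀‖) ≤
        2 * Real.pi * √ρ * (‖Wj T V u 0‖ * (C * (m : ℝ) ^ 6)) := by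
        gcongr
    _ = _ := by ring

end Pool.Agent.LibSM56A
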