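import Pool.Agent.LibSM56A.A_E1
import Pool.Agent.LibSM56A.A_D

/-! ROW A_E3 (MEDIUM): the short part on `Re s = 1/2`, the long part on `Re s = -k-1/2`.

`(n m²)^{-s} pr(a)^{-(1-s)} = pr(a)^{-1} X^{-s}`, `X = n m²/pr(a)`. le_part: finite sum of `Ic_step 0`. gt_part: exchange of `∑'` and `∫` (`hasSum_integral_of_summable_norm` or
`integral_tsum`; norms: `‖Om‖` integrable on the line by `fub_line`, `gG_left`), then `Ic_step j`, `j = 1..k`, for each `a`: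
`pr^{-1} (X^{j-1/2} + X^{j+1/2}) ≤ 2 (n m²)^{k+1/2} pr^{-3/2}` for `X = n m²/pr`, and `∑ pr^{-3/2} < ∞`. -/

set_option autoImplicit false

namespace Pool.Agent.LibSM56A

open MeasureTheory Set Filter Topology Complex
open Pool.Agent.LibSM47

private theorem e3_id (N p : ℕ) (hN : 0 < N) (hp : 0 < p) (s : ℂ) :
    (N : ℂ) ^ (-s) * (p : ℂ) ^ (-(1 - s)) = (p : ℂ)⁻¹ * ((((N : ℝ) / p : ℝ)) : ℂ) ^ (-s) := by
  have hp' : (0 : ℝ) < p := by exact_mod_cast hp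
  have hpc : (p : ℂ) ≠ 0 := by exact_mod_cast hp.ne'
  have h1 : (N : ℂ) = (((N : ℝ) / p : ℝ) : ℂ) * ((p : ℝ) : ℂ) := by
    rw [← Complex.ofReal_mul, div_mul_cancel₀ _ hp'.ne']
    simp
  have h2 : (N : ℂ) ^ (-s) = (((N : ℝ) / p : ℝ) : ℂ) ^ (-s) * (p : ℂ) ^ (-s) := by
    conv_lhs => rw [h1]
    rw [Complex.mul_cpow_ofReal_nonneg (by positivity) hp'.le]
    simp
  have h3 : (p : ℂ) ^ (-s) * (p : ℂ) ^ (-(1 - s)) = (p : ℂ)⁻¹ := by
    rw [← Complex.cpow_add _ _ hpc, show -s + -(1 - s) = -1 by ring, Complex.cpow_neg_one]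
  rw [h2, mul_assoc, h3, mul_comm]

private theorem e3_line_cont (c : ℝ) : Continuous (fun y : ℝ => line c y) := by
  unfold line
  fun_prop

private theorem e3_line_re (c y : ℝ) : (line c y).re = c := by
  simp [line]

private theorem e3_norm {X : ℝ} (hX : 0 < X) (c y : ℝ) :
    ‖(X : ℂ) ^ (-(line c y))‖ = X ^ (-c) := by
  rw [Complex.norm_cpow_eq_rpow_re_of_pos hX, Complex.neg_re, e3_line_re]

private theorem e3_int (T V u : ℝ) (hT : 4 ≤ T) (b : B3) {X : ℝ} (hX : 0 < X) (c : ℝ)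
    (hc : c = 1 / 2 ∨ ∃ k : ℕ, c = -(k : ℝ) - 1 / 2) :
    Integrable (fun y : ℝ => Om T V u b (line c y) * (X : ℂ) ^ (-(line c y))) := by
  have hcont : Continuous (fun y : ℝ => gG b (line c y) * (X : ℂ) ^ (-(line c y))) := by
    refine (gG_cont b c hc).mul ?_
    exact (e3_line_cont c).neg.const_cpow (Or.inl (by exact_mod_cast hX.ne'))
  have hb : ∃ (N : ℕ) (C : ℝ), ∀ y : ℝ, ‖gG b (line c y) * (X : ℂ) ^ (-(line c y))‖ ≤
      C * (1 + |y|) ^ N * Real.exp (-(Real.pi / 2 * |y|)) := by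
    rcases hc with hc | ⟨k, hc⟩
    · obtain ⟨C, -, hC⟩ := gG_half
      refine ⟨0, C * X ^ (-c), fun y => ?_⟩
      rw [norm_mul, e3_norm hX, pow_zero, mul_one]
      have h1 := hC b y
      rw [← hc] at h1
      calc ‖gG b (line c y)‖ * X ^ (-c) ≤ (C * Real.exp (-(Real.pi / 2 * |y|))) * X ^ (-c) :=
            mul_le_mul_of_nonneg_right h1 (Real.rpow_nonneg hX.le _)
        _ = _ := by ring
    · obtain ⟨C, -, hC⟩ := gG_left k
      refine ⟨3 * k + 3, C * X ^ (-c), fun y => ?_⟩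
      rw [norm_mul, e3_norm hX]
      have h1 := hC b y
      rw [← hc] at h1
      calc ‖gG b (line c y)‖ * X ^ (-c) ≤
            (C * (1 + |y|) ^ (3 * k + 3) * Real.exp (-(Real.pi / 2 * |y|))) * X ^ (-c) :=
            mul_le_mul_of_nonneg_right h1 (Real.rpow_nonneg hX.le _)
        _ = _ := by ring
  obtain ⟨N, C, hb⟩ := hb
  refine (fub_line T V u c hT _ hcont N C hb).1.congr (Eventually.of_forall fun y => ?_)
  simp only [Om]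
  ring

private theorem e3_om (T V u : ℝ) (hT : 4 ≤ T) (b : B3) (c : ℝ)
    (hc : c = 1 / 2 ∨ ∃ k : ℕ, c = -(k : ℝ) - 1 / 2) :
    Integrable (fun y : ℝ => Om T V u b (line c y)) := by
  have h := e3_int T V u hT b one_pos c hc
  simpa using h

private theorem e3_term (T V u : ℝ) (b : B3) (N p : ℕ) (hN : 0 < N) (hp : 0 < p) (z s : ℂ) :
    Om T V u b s * (N : ℂ) ^ (-s) * (z * (p : ℂ) ^ (-(1 - s))) =
      (z * (p : ℂ)⁻¹) * (Om T V u b s * (((N : ℝ) / p : ℝ) : ℂ) ^ (-s)) := by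
  have h := e3_id N p hN hp s
  calc Om T V u b s * (N : ℂ) ^ (-s) * (z * (p : ℂ) ^ (-(1 - s)))
      = Om T V u b s * z * ((N : ℂ) ^ (-s) * (p : ℂ) ^ (-(1 - s))) := by ring
    _ = _ := by rw [h]; ring

private theorem e3_tel {C : ℕ → ℝ}
    (hC : ∀ j : ℕ, ∀ T V u : ℝ, 4 ≤ T → ∀ (b : B3) (X : ℝ), 0 < X →
      ‖Ic T V u b X (-(j : ℝ) + 1 / 2) - Ic T V u b X (-(j : ℝ) - 1 / 2)‖ ≤
        C j * (X ^ ((j : ℝ) - 1 / 2) + X ^ ((j : ℝ) + 1 / 2)) * ‖Wj T V u j‖)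
    (T V u : ℝ) (hT : 4 ≤ T) (b : B3) {X : ℝ} (hX : 0 < X) (k : ℕ) :
    ‖Ic T V u b X (-(1 / 2)) - Ic T V u b X (-(k : ℝ) - 1 / 2)‖ ≤
      ∑ j ∈ Finset.Icc 1 k, C j * (X ^ ((j : ℝ) - 1 / 2) + X ^ ((j : ℝ) + 1 / 2)) *
        ‖Wj T V u j‖ := by
  induction k with
  | zero =>
    have h0 : (-((0 : ℕ) : ℝ) - 1 / 2) = -(1 / 2) := by norm_num
    rw [h0, sub_self, norm_zero]
    simp
  | succ k ih =>
    have h1 : (-(((k + 1 : ℕ)) : ℝ) + 1 / 2) = -(k : ℝ) - 1 / 2 := by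
      push_cast
      ring
    have h2 := hC (k + 1) T V u hT b X hX
    rw [h1] at h2
    rw [Finset.sum_Icc_succ_top (by omega)]
    calc ‖Ic T V u b X (-(1 / 2)) - Ic T V u b X (-((k + 1 : ℕ) : ℝ) - 1 / 2)‖
        = ‖(Ic T V u b X (-(1 / 2)) - Ic T V u b X (-(k : ℝ) - 1 / 2)) +
            (Ic T V u b X (-(k : ℝ) - 1 / 2) - Ic T V u b X (-((k + 1 : ℕ) : ℝ) - 1 / 2))‖ := by
          congr 1
          ring
      _ ≤ _ := (norm_add_le _ _).trans (add_le_add ih h2)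

private theorem e3_pow {N p : ℕ} (hN : 0 < N) (hp : 0 < p) (k : ℕ) {e : ℝ} (h1 : 1 / 2 ≤ e)
    (h2 : e ≤ k + 1) :
    (p : ℝ)⁻¹ * ((N : ℝ) / p) ^ e ≤ (N : ℝ) ^ (k + 1) * (p : ℝ) ^ (-(3 / 2) : ℝ) := by
  have hN1 : (1 : ℝ) ≤ N := by exact_mod_cast hN
  have hp1 : (1 : ℝ) ≤ p := by exact_mod_cast hp
  have hp0 : (0 : ℝ) < p := by linarith
  have h3 : ((N : ℝ) / p) ^ e = (N : ℝ) ^ e * (p : ℝ) ^ (-e) := by
    rw [Real.div_rpow (by linarith) hp0.le, Real.rpow_neg hp0.le]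
    rfl
  have h4 : (N : ℝ) ^ e ≤ (N : ℝ) ^ (k + 1) := by
    rw [← Real.rpow_natCast]
    refine Real.rpow_le_rpow_of_exponent_le hN1 ?_
    push_cast
    exact h2
  have h5 : (p : ℝ) ^ (-e) ≤ (p : ℝ) ^ (-(1 / 2) : ℝ) :=
    Real.rpow_le_rpow_of_exponent_le hp1 (by linarith)
  have h6 : (p : ℝ)⁻¹ * (p : ℝ) ^ (-(1 / 2) : ℝ) = (p : ℝ) ^ (-(3 / 2) : ℝ) := by
    rw [← Real.rpow_neg_one, ← Real.rpow_add hp0]
    norm_num
  rw [h3, ← h6]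
  calc (p : ℝ)⁻¹ * ((N : ℝ) ^ e * (p : ℝ) ^ (-e))
      ≤ (p : ℝ)⁻¹ * ((N : ℝ) ^ (k + 1) * (p : ℝ) ^ (-(1 / 2) : ℝ)) := by
        refine mul_le_mul_of_nonneg_left ?_ (by positivity)
        exact mul_le_mul h4 h5 (by positivity) (by positivity)
    _ = _ := by ring

theorem le_part : ∃ C : ℝ, 0 < C ∧ ∀ T V u : ℝ, 4 ≤ T → ∀ (m : ℕ) [NeZero m] (n Λ : ℕ), 1 ≤ n → ∀ b : B3,
    ‖(∫ y : ℝ, Om T V u b (line (-(1 / 2)) y) * ((n * m ^ 2 : ℕ) : ℂ) ^ (-(line (-(1 / 2)) y)) *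
          DSle m (n : ZMod m) b Λ (1 - line (-(1 / 2)) y)) -
      ∫ y : ℝ, Om T V u b (line (1 / 2) y) * ((n * m ^ 2 : ℕ) : ℂ) ^ (-(line (1 / 2) y)) *
          DSle m (n : ZMod m) b Λ (1 - line (1 / 2) y)‖ ≤
      C * (m : ℝ) ^ 3 * ((Λ : ℝ) + 1) ^ 4 * ((n : ℝ) * m ^ 2) * ‖Wj T V u 0‖ := by
  obtain ⟨C, hC0, hC⟩ := Ic_step 0
  refine ⟨16 * C, by positivity, fun T V u hT m _ n Λ hn b => ?_⟩
  have hm : 0 < m := Nat.pos_of_ne_zero (NeZero.ne m)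
  have hN : 0 < n * m ^ 2 := by positivity
  obtain ⟨N, hNdef⟩ : ∃ N, N = n * m ^ 2 := ⟨_, rfl⟩
  have hNR : (n : ℝ) * m ^ 2 = N := by
    rw [hNdef]
    push_cast
    ring
  rw [← hNdef] at hN ⊢
  rw [hNR]
  have key : ∀ c : ℝ, (c = 1 / 2 ∨ ∃ k : ℕ, c = -(k : ℝ) - 1 / 2) →
      (∫ y : ℝ, Om T V u b (line c y) * (N : ℂ) ^ (-(line c y)) *
        DSle m (n : ZMod m) b Λ (1 - line c y)) =
      ∑ a ∈ trLe Λ, (FT m (SD.Ph m (n : ZMod m)) (SD.sl m b a) * ((SD.pr a : ℕ) : ℂ)⁻¹) *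
        Ic T V u b ((N : ℝ) / SD.pr a) c := by
    intro c hc
    have h1 : ∀ y : ℝ, Om T V u b (line c y) * (N : ℂ) ^ (-(line c y)) *
        DSle m (n : ZMod m) b Λ (1 - line c y) =
        ∑ a ∈ trLe Λ, (FT m (SD.Ph m (n : ZMod m)) (SD.sl m b a) * ((SD.pr a : ℕ) : ℂ)⁻¹) *
          (Om T V u b (line c y) * (((N : ℝ) / SD.pr a : ℝ) : ℂ) ^ (-(line c y))) := by
      intro y
      unfold DSle
      rw [Finset.mul_sum]
      exact Finset.sum_congr rfl fun a _ => e3_term T V u b N (SD.pr a) hN (SD.pr_pos a) _ _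
    simp only [h1]
    rw [integral_finsetSum]
    · refine Finset.sum_congr rfl fun a _ => ?_
      rw [integral_const_mul]
      rfl
    · intro a _
      exact (e3_int T V u hT b (div_pos (by exact_mod_cast hN)
        (by exact_mod_cast SD.pr_pos a)) c hc).const_mul _
  rw [key (-(1 / 2)) (Or.inr ⟨0, by norm_num⟩), key (1 / 2) (Or.inl rfl), ← Finset.sum_sub_distrib]
  have hb : ∀ a ∈ trLe Λ, ‖(FT m (SD.Ph m (n : ZMod m)) (SD.sl m b a) * ((SD.pr a : ℕ) : ℂ)⁻¹) *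
        Ic T V u b ((N : ℝ) / SD.pr a) (-(1 / 2)) -
      (FT m (SD.Ph m (n : ZMod m)) (SD.sl m b a) * ((SD.pr a : ℕ) : ℂ)⁻¹) *
        Ic T V u b ((N : ℝ) / SD.pr a) (1 / 2)‖ ≤ 16 * C * (m : ℝ) ^ 3 * N * ‖Wj T V u 0‖ := by
    intro a _
    obtain ⟨p, hp⟩ : ∃ p, p = SD.pr a := ⟨_, rfl⟩
    have hp0 : 0 < p := by
      rw [hp]
      exact SD.pr_pos a
    rw [← hp]
    have hpR : (1 : ℝ) ≤ p := by exact_mod_cast hp0
    have hNR1 : (1 : ℝ) ≤ N := by exact_mod_cast hN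
    have hX : 0 < (N : ℝ) / p := by positivity
    rw [← mul_sub, norm_mul, norm_mul, norm_inv, Complex.norm_natCast]
    have h2 : ‖Ic T V u b ((N : ℝ) / p) (-(1 / 2)) - Ic T V u b ((N : ℝ) / p) (1 / 2)‖ ≤
        C * (((N : ℝ) / p) ^ (-(1 / 2) : ℝ) + ((N : ℝ) / p) ^ (1 / 2 : ℝ)) * ‖Wj T V u 0‖ := by
      have h3 := hC T V u hT b _ hX
      rw [norm_sub_rev]
      norm_num at h3 ⊢
      exact h3
    have h4 : (p : ℝ)⁻¹ * (((N : ℝ) / p) ^ (-(1 / 2) : ℝ) + ((N : ℝ) / p) ^ (1 / 2 : ℝ)) ≤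
        2 * N := by
      have h5 : (p : ℝ)⁻¹ * ((N : ℝ) / p) ^ (-(1 / 2) : ℝ) ≤ N := by
        have h6 : ((N : ℝ) / p) ^ (-(1 / 2) : ℝ) ≤ p := by
          rw [Real.rpow_neg hX.le, ← Real.inv_rpow hX.le, inv_div]
          have h7 : (p : ℝ) / N ≤ p := div_le_self (by linarith) hNR1
          calc ((p : ℝ) / N) ^ (1 / 2 : ℝ) ≤ (p : ℝ) ^ (1 / 2 : ℝ) :=
                Real.rpow_le_rpow (by positivity) h7 (by norm_num)
            _ ≤ (p : ℝ) ^ (1 : ℝ) := Real.rpow_le_rpow_of_exponent_le hpR (by norm_num)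
            _ = p := Real.rpow_one _
        calc (p : ℝ)⁻¹ * ((N : ℝ) / p) ^ (-(1 / 2) : ℝ) ≤ (p : ℝ)⁻¹ * p :=
              mul_le_mul_of_nonneg_left h6 (by positivity)
          _ = 1 := inv_mul_cancel₀ (by positivity)
          _ ≤ N := hNR1
      have h6 : (p : ℝ)⁻¹ * ((N : ℝ) / p) ^ (1 / 2 : ℝ) ≤ N := by
        have h7 := e3_pow hN hp0 0 (e := 1 / 2) le_rfl (by norm_num)
        refine h7.trans ?_
        rw [zero_add, pow_one]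
        have h8 : (p : ℝ) ^ (-(3 / 2) : ℝ) ≤ 1 :=
          Real.rpow_le_one_of_one_le_of_nonpos hpR (by norm_num)
        nlinarith
      rw [mul_add]
      linarith
    have h5 := FT_Ph_norm m (n : ZMod m) (SD.sl m b a)
    have h6 : (p : ℝ)⁻¹ * ‖Ic T V u b ((N : ℝ) / p) (-(1 / 2)) - Ic T V u b ((N : ℝ) / p) (1 / 2)‖ ≤
        2 * N * C * ‖Wj T V u 0‖ := by
      calc (p : ℝ)⁻¹ * ‖Ic T V u b ((N : ℝ) / p) (-(1 / 2)) - Ic T V u b ((N : ℝ) / p) (1 / 2)‖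
          ≤ (p : ℝ)⁻¹ * (C * (((N : ℝ) / p) ^ (-(1 / 2) : ℝ) + ((N : ℝ) / p) ^ (1 / 2 : ℝ)) *
              ‖Wj T V u 0‖) := mul_le_mul_of_nonneg_left h2 (by positivity)
        _ = ((p : ℝ)⁻¹ * (((N : ℝ) / p) ^ (-(1 / 2) : ℝ) + ((N : ℝ) / p) ^ (1 / 2 : ℝ))) *
              (C * ‖Wj T V u 0‖) := by ring
        _ ≤ (2 * N) * (C * ‖Wj T V u 0‖) :=
              mul_le_mul_of_nonneg_right h4 (by positivity)
        _ = _ := by ring
    calc ‖FT m (SD.Ph m (n : ZMod m)) (SD.sl m b a)‖ * (p : ℝ)⁻¹ *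
          ‖Ic T V u b ((N : ℝ) / p) (-(1 / 2)) - Ic T V u b ((N : ℝ) / p) (1 / 2)‖
        = ‖FT m (SD.Ph m (n : ZMod m)) (SD.sl m b a)‖ * ((p : ℝ)⁻¹ *
          ‖Ic T V u b ((N : ℝ) / p) (-(1 / 2)) - Ic T V u b ((N : ℝ) / p) (1 / 2)‖) := by ring
      _ ≤ (8 * (m : ℝ) ^ 3) * (2 * N * C * ‖Wj T V u 0‖) :=
          mul_le_mul h5 h6 (by positivity) (by positivity)
      _ = _ := by ring
  refine (norm_sum_le _ _).trans ((Finset.sum_le_sum hb).trans ?_)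
  rw [Finset.sum_const, nsmul_eq_mul]
  have h7 := card_trLe Λ
  have h8 : ((Λ : ℝ) + 1) ^ 3 ≤ ((Λ : ℝ) + 1) ^ 4 :=
    pow_le_pow_right₀ (by linarith [Nat.cast_nonneg (α := ℝ) Λ]) (by norm_num)
  calc ((trLe Λ).card : ℝ) * (16 * C * (m : ℝ) ^ 3 * N * ‖Wj T V u 0‖)
      ≤ ((Λ : ℝ) + 1) ^ 4 * (16 * C * (m : ℝ) ^ 3 * N * ‖Wj T V u 0‖) :=
        mul_le_mul_of_nonneg_right (h7.trans h8) (by positivity)
    _ = _ := by ring

theorem gt_part (k : ℕ) : ∃ C : ℝ, 0 < C ∧ ∀ T V u : ℝ, 4 ≤ T → ∀ (m : ℕ) [NeZero m] (n Λ : ℕ), 1 ≤ n → ∀ b : B3,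
    ‖(∫ y : ℝ, Om T V u b (line (-(1 / 2)) y) * ((n * m ^ 2 : ℕ) : ℂ) ^ (-(line (-(1 / 2)) y)) *
          DSgt m (n : ZMod m) b Λ (1 - line (-(1 / 2)) y)) -
      ∫ y : ℝ, Om T V u b (line (-(k : ℝ) - 1 / 2) y) * ((n * m ^ 2 : ℕ) : ℂ) ^ (-(line (-(k : ℝ) - 1 / 2) y)) *
          DSgt m (n : ZMod m) b Λ (1 - line (-(k : ℝ) - 1 / 2) y)‖ ≤
      C * (m : ℝ) ^ 3 * ((n : ℝ) * m ^ 2) ^ (k + 1) * ∑ j ∈ Finset.Icc 1 k, ‖Wj T V u j‖ := by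
  choose C hC0 hC using Ic_step
  obtain ⟨S, hS⟩ : ∃ S, S = ∑' a : SD.Tr, (SD.pr a : ℝ) ^ (-(3 / 2) : ℝ) := ⟨_, rfl⟩
  have hsum : Summable fun a : SD.Tr => (SD.pr a : ℝ) ^ (-(3 / 2) : ℝ) :=
    SD.summable_pr (by norm_num)
  have hS0 : 0 ≤ S := by
    rw [hS]
    exact tsum_nonneg fun a => by positivity
  obtain ⟨K, hK⟩ : ∃ K, K = ∑ j ∈ Finset.Icc 1 k, C j := ⟨_, rfl⟩
  have hK0 : 0 ≤ K := by
    rw [hK]
    exact Finset.sum_nonneg fun j _ => (hC0 j).le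
  refine ⟨16 * S * K + 1, by positivity, fun T V u hT m _ n Λ hn b => ?_⟩
  have hm : 0 < m := Nat.pos_of_ne_zero (NeZero.ne m)
  have hN : 0 < n * m ^ 2 := by positivity
  obtain ⟨N, hNdef⟩ : ∃ N, N = n * m ^ 2 := ⟨_, rfl⟩
  have hNR : (n : ℝ) * m ^ 2 = N := by
    rw [hNdef]
    push_cast
    ring
  rw [← hNdef] at hN ⊢
  rw [hNR]
  have hNR1 : (1 : ℝ) ≤ N := by exact_mod_cast hN
  have hFT : ∀ a : SD.Tr, ‖FT m (SD.Ph m (n : ZMod m)) (SD.sl m b a)‖ ≤ 8 * (m : ℝ) ^ 3 := fun a =>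
    FT_Ph_norm m (n : ZMod m) (SD.sl m b a)
  have key : ∀ l : ℕ, HasSum (fun a : SD.Tr => if SD.pr a ≤ Λ then (0 : ℂ) else
        (FT m (SD.Ph m (n : ZMod m)) (SD.sl m b a) * ((SD.pr a : ℕ) : ℂ)⁻¹) *
          Ic T V u b ((N : ℝ) / SD.pr a) (-(l : ℝ) - 1 / 2))
      (∫ y : ℝ, Om T V u b (line (-(l : ℝ) - 1 / 2) y) * (N : ℂ) ^ (-(line (-(l : ℝ) - 1 / 2) y)) *
        DSgt m (n : ZMod m) b Λ (1 - line (-(l : ℝ) - 1 / 2) y)) := by
    intro l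
    obtain ⟨c, hc⟩ : ∃ c, c = -(l : ℝ) - 1 / 2 := ⟨_, rfl⟩
    rw [← hc]
    have hc' : c = 1 / 2 ∨ ∃ k : ℕ, c = -(k : ℝ) - 1 / 2 := Or.inr ⟨l, hc⟩
    have h1 : ∀ y : ℝ, Om T V u b (line c y) * (N : ℂ) ^ (-(line c y)) *
        DSgt m (n : ZMod m) b Λ (1 - line c y) =
        ∑' a : SD.Tr, if SD.pr a ≤ Λ then (0 : ℂ) else
          (FT m (SD.Ph m (n : ZMod m)) (SD.sl m b a) * ((SD.pr a : ℕ) : ℂ)⁻¹) *
          (Om T V u b (line c y) * (((N : ℝ) / SD.pr a : ℝ) : ℂ) ^ (-(line c y))) := by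
      intro y
      unfold DSgt
      rw [← tsum_mul_left]
      refine tsum_congr fun a => ?_
      by_cases ha : SD.pr a ≤ Λ
      · rw [if_pos ha, if_pos ha, mul_zero]
      · rw [if_neg ha, if_neg ha]
        exact e3_term T V u b N (SD.pr a) hN (SD.pr_pos a) _ _
    simp only [h1]
    have hFint : ∀ a : SD.Tr, Integrable (fun y : ℝ => if SD.pr a ≤ Λ then (0 : ℂ) else
          (FT m (SD.Ph m (n : ZMod m)) (SD.sl m b a) * ((SD.pr a : ℕ) : ℂ)⁻¹) *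
          (Om T V u b (line c y) * (((N : ℝ) / SD.pr a : ℝ) : ℂ) ^ (-(line c y)))) := by
      intro a
      by_cases ha : SD.pr a ≤ Λ
      · simp only [if_pos ha]
        exact integrable_zero _ _ _
      · simp only [if_neg ha]
        exact (e3_int T V u hT b (div_pos (by exact_mod_cast hN)
          (by exact_mod_cast SD.pr_pos a)) c hc').const_mul _
    have hsum1 : Summable (fun a : SD.Tr => ∫ y : ℝ, ‖(if SD.pr a ≤ Λ then (0 : ℂ) else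
          (FT m (SD.Ph m (n : ZMod m)) (SD.sl m b a) * ((SD.pr a : ℕ) : ℂ)⁻¹) *
          (Om T V u b (line c y) * (((N : ℝ) / SD.pr a : ℝ) : ℂ) ^ (-(line c y))))‖) := by
      refine Summable.of_nonneg_of_le (fun a => integral_nonneg fun y => norm_nonneg _) (fun a => ?_)
        (hsum.mul_left (8 * (m : ℝ) ^ 3 * (N : ℝ) ^ (l + 1) * ∫ y : ℝ, ‖Om T V u b (line c y)‖))
      have hpos : 0 < SD.pr a := SD.pr_pos a
      have hO : Integrable (fun y : ℝ => ‖Om T V u b (line c y)‖) := (e3_om T V u hT b c hc').norm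
      calc ∫ y : ℝ, ‖(if SD.pr a ≤ Λ then (0 : ℂ) else
            (FT m (SD.Ph m (n : ZMod m)) (SD.sl m b a) * ((SD.pr a : ℕ) : ℂ)⁻¹) *
            (Om T V u b (line c y) * (((N : ℝ) / SD.pr a : ℝ) : ℂ) ^ (-(line c y))))‖
          ≤ ∫ y : ℝ, (8 * (m : ℝ) ^ 3 * ((N : ℝ) ^ (l + 1) * (SD.pr a : ℝ) ^ (-(3 / 2) : ℝ))) *
              ‖Om T V u b (line c y)‖ := by
            refine integral_mono (hFint a).norm (hO.const_mul _) fun y => ?_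
            show ‖(if SD.pr a ≤ Λ then (0 : ℂ) else
              (FT m (SD.Ph m (n : ZMod m)) (SD.sl m b a) * ((SD.pr a : ℕ) : ℂ)⁻¹) *
              (Om T V u b (line c y) * (((N : ℝ) / SD.pr a : ℝ) : ℂ) ^ (-(line c y))))‖ ≤
              (8 * (m : ℝ) ^ 3 * ((N : ℝ) ^ (l + 1) * (SD.pr a : ℝ) ^ (-(3 / 2) : ℝ))) *
              ‖Om T V u b (line c y)‖
            by_cases ha : SD.pr a ≤ Λ
            · rw [if_pos ha, norm_zero]
              positivity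
            · rw [if_neg ha, norm_mul, norm_mul, norm_mul, norm_inv, Complex.norm_natCast,
                e3_norm (div_pos (by exact_mod_cast hN) (by exact_mod_cast hpos))]
              have h2 := e3_pow hN hpos l (e := -c) (by rw [hc]; linarith [Nat.cast_nonneg (α := ℝ) l])
                (by rw [hc]; linarith)
              calc ‖FT m (SD.Ph m (n : ZMod m)) (SD.sl m b a)‖ * (SD.pr a : ℝ)⁻¹ *
                    (‖Om T V u b (line c y)‖ * ((N : ℝ) / SD.pr a) ^ (-c))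
                  = ‖FT m (SD.Ph m (n : ZMod m)) (SD.sl m b a)‖ *
                    ((SD.pr a : ℝ)⁻¹ * ((N : ℝ) / SD.pr a) ^ (-c)) * ‖Om T V u b (line c y)‖ := by ring
                _ ≤ (8 * (m : ℝ) ^ 3) * ((N : ℝ) ^ (l + 1) * (SD.pr a : ℝ) ^ (-(3 / 2) : ℝ)) *
                    ‖Om T V u b (line c y)‖ := by
                    refine mul_le_mul_of_nonneg_right ?_ (norm_nonneg _)
                    exact mul_le_mul (hFT a) h2 (by positivity) (by positivity)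
                _ = _ := by ring
        _ = _ := by
            rw [integral_const_mul]
            ring
    have h3 := hasSum_integral_of_summable_integral_norm hFint hsum1
    refine h3.congr_fun ?_
    intro a
    by_cases ha : SD.pr a ≤ Λ
    · simp only [if_pos ha, integral_zero]
    · simp only [if_neg ha]
      rw [integral_const_mul]
      rfl
  have k0 := key 0
  have h00 : (-((0 : ℕ) : ℝ) - 1 / 2) = -(1 / 2) := by norm_num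
  rw [h00] at k0
  have k1 := k0.sub (key k)
  rw [← k1.tsum_eq]
  have hbd : ∀ a : SD.Tr, ‖(if SD.pr a ≤ Λ then (0 : ℂ) else
        (FT m (SD.Ph m (n : ZMod m)) (SD.sl m b a) * ((SD.pr a : ℕ) : ℂ)⁻¹) *
          Ic T V u b ((N : ℝ) / SD.pr a) (-(1 / 2))) -
      (if SD.pr a ≤ Λ then (0 : ℂ) else
        (FT m (SD.Ph m (n : ZMod m)) (SD.sl m b a) * ((SD.pr a : ℕ) : ℂ)⁻¹) *
          Ic T V u b ((N : ℝ) / SD.pr a) (-(k : ℝ) - 1 / 2))‖ ≤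
      (16 * (m : ℝ) ^ 3 * (N : ℝ) ^ (k + 1) * ∑ j ∈ Finset.Icc 1 k, C j * ‖Wj T V u j‖) *
        (SD.pr a : ℝ) ^ (-(3 / 2) : ℝ) := by
    intro a
    have hsn : 0 ≤ ∑ j ∈ Finset.Icc 1 k, C j * ‖Wj T V u j‖ :=
      Finset.sum_nonneg fun j _ => mul_nonneg (hC0 j).le (norm_nonneg _)
    by_cases ha : SD.pr a ≤ Λ
    · rw [if_pos ha, if_pos ha, sub_self, norm_zero]
      positivity
    rw [if_neg ha, if_neg ha]
    obtain ⟨p, hp⟩ : ∃ p, p = SD.pr a := ⟨_, rfl⟩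
    have hp0 : 0 < p := by
      rw [hp]
      exact SD.pr_pos a
    rw [← hp]
    have hX : 0 < (N : ℝ) / p := by positivity
    rw [← mul_sub, norm_mul, norm_mul, norm_inv, Complex.norm_natCast]
    have h2 := e3_tel hC T V u hT b hX k
    have h6 : (p : ℝ)⁻¹ * ‖Ic T V u b ((N : ℝ) / p) (-(1 / 2)) -
        Ic T V u b ((N : ℝ) / p) (-(k : ℝ) - 1 / 2)‖ ≤
        2 * ((N : ℝ) ^ (k + 1) * (p : ℝ) ^ (-(3 / 2) : ℝ)) *
          ∑ j ∈ Finset.Icc 1 k, C j * ‖Wj T V u j‖ := by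
      refine (mul_le_mul_of_nonneg_left h2 (by positivity)).trans ?_
      rw [Finset.mul_sum, Finset.mul_sum]
      refine Finset.sum_le_sum fun j hj => ?_
      rw [Finset.mem_Icc] at hj
      have hj1 : (1 : ℝ) ≤ j := by exact_mod_cast hj.1
      have hjk : (j : ℝ) ≤ k := by exact_mod_cast hj.2
      have h7 := e3_pow hN hp0 k (e := (j : ℝ) - 1 / 2) (by linarith) (by linarith)
      have h8 := e3_pow hN hp0 k (e := (j : ℝ) + 1 / 2) (by linarith) (by linarith)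
      have h9 : 0 ≤ C j * ‖Wj T V u j‖ := mul_nonneg (hC0 j).le (norm_nonneg _)
      calc (p : ℝ)⁻¹ * (C j * (((N : ℝ) / p) ^ ((j : ℝ) - 1 / 2) + ((N : ℝ) / p) ^ ((j : ℝ) + 1 / 2)) *
            ‖Wj T V u j‖)
          = ((p : ℝ)⁻¹ * ((N : ℝ) / p) ^ ((j : ℝ) - 1 / 2) +
              (p : ℝ)⁻¹ * ((N : ℝ) / p) ^ ((j : ℝ) + 1 / 2)) * (C j * ‖Wj T V u j‖) := by ring
        _ ≤ (2 * ((N : ℝ) ^ (k + 1) * (p : ℝ) ^ (-(3 / 2) : ℝ))) * (C j * ‖Wj T V u j‖) :=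
            mul_le_mul_of_nonneg_right (by linarith) h9
    have h5 := hFT a
    calc ‖FT m (SD.Ph m (n : ZMod m)) (SD.sl m b a)‖ * (p : ℝ)⁻¹ *
          ‖Ic T V u b ((N : ℝ) / p) (-(1 / 2)) - Ic T V u b ((N : ℝ) / p) (-(k : ℝ) - 1 / 2)‖
        = ‖FT m (SD.Ph m (n : ZMod m)) (SD.sl m b a)‖ * ((p : ℝ)⁻¹ *
          ‖Ic T V u b ((N : ℝ) / p) (-(1 / 2)) - Ic T V u b ((N : ℝ) / p) (-(k : ℝ) - 1 / 2)‖) := by ring
      _ ≤ (8 * (m : ℝ) ^ 3) * (2 * ((N : ℝ) ^ (k + 1) * (p : ℝ) ^ (-(3 / 2) : ℝ)) *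
          ∑ j ∈ Finset.Icc 1 k, C j * ‖Wj T V u j‖) :=
          mul_le_mul h5 h6 (by positivity) (by positivity)
      _ = _ := by ring
  refine (tsum_of_norm_bounded (hsum.mul_left _).hasSum hbd).trans ?_
  rw [tsum_mul_left, ← hS]
  have h10 : ∑ j ∈ Finset.Icc 1 k, C j * ‖Wj T V u j‖ ≤
      K * ∑ j ∈ Finset.Icc 1 k, ‖Wj T V u j‖ := by
    rw [Finset.mul_sum]
    refine Finset.sum_le_sum fun j hj => ?_
    refine mul_le_mul_of_nonneg_right ?_ (norm_nonneg _)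
    rw [hK]
    exact Finset.single_le_sum (f := C) (fun i _ => (hC0 i).le) hj
  have h11 : 0 ≤ ∑ j ∈ Finset.Icc 1 k, ‖Wj T V u j‖ := Finset.sum_nonneg fun j _ => norm_nonneg _
  calc 16 * (m : ℝ) ^ 3 * (N : ℝ) ^ (k + 1) * (∑ j ∈ Finset.Icc 1 k, C j * ‖Wj T V u j‖) * S
      ≤ 16 * (m : ℝ) ^ 3 * (N : ℝ) ^ (k + 1) * (K * ∑ j ∈ Finset.Icc 1 k, ‖Wj T V u j‖) * S := by
        gcongr
    _ = (16 * S * K) * (m : ℝ) ^ 3 * (N : ℝ) ^ (k + 1) * ∑ j ∈ Finset.Icc 1 k, ‖Wj T V u j‖ := by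
        ring
    _ ≤ (16 * S * K + 1) * (m : ℝ) ^ 3 * (N : ℝ) ^ (k + 1) *
          ∑ j ∈ Finset.Icc 1 k, ‖Wj T V u j‖ := by
        gcongr
        linarith

end Pool.Agent.LibSM56A
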