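import Pool.Agent.LibSM56A.A_K
import Pool.Agent.LibSM47.B_01
import Pool.Agent.LibSM47.B_02

/-! ROW A_W (MEDIUM): `W(-j)` is tiny.

gauss_expC: `gauss_exp'` (B_01) for complex `t` (same completion of squares; or both sides are entire in `t`): the value is
`(√(2π) V)⁻¹ exp(-(t-u)²/(2V²))`.
Wj_small: `(e^{-iw} - 1)^j = ∑_i C(j,i) (-1)^{j-i} e^{-i i w}`, `nv e^{-i i w} = e^{-(i+1/2) i w} nu`, so each integral over `ℝ` is `gauss_expC` at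
`t = (i+1/2) i`: modulus `≤ V⁻¹ exp((j+1)²/2) exp(-u²/(2V²))`, `u²/V² ≥ ε₁² T^{2δ}`; the tail `|ξ| ≥ 1/4`:
`‖e^{-(i+1/2) i w}‖ ≤ e^{(j+1)|ξ|}`, `‖nu‖ ≤ e^{-V²ξ²/2}` (`nu_norm`), and `exp_small`. -/

set_option autoImplicit false

namespace Pool.Agent.LibSM56A

open MeasureTheory Set Filter Topology Complex
open Pool.Agent.LibSM47

theorem gauss_expC (T V u : ℝ) (t : ℂ) (hT : 0 < T) (hV : 0 < V) :
    ∫ ξ : ℝ, cexp (-(wq T ξ * t)) * nu T V u ξ = ((√(2 * Real.pi) * V)⁻¹ : ℝ) * cexp (-((t - u) ^ 2 / (2 * (V : ℂ) ^ 2))) := by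
  have hb : (-((V : ℂ) ^ 2) / 2).re < 0 := by
    have : (-((V : ℂ) ^ 2) / 2) = ((-(V ^ 2) / 2 : ℝ) : ℂ) := by push_cast; ring
    rw [this, Complex.ofReal_re]
    nlinarith [pow_pos hV 2]
  set c : ℂ := (t - (u : ℂ)) * I - ((V ^ 2 / T : ℝ) : ℂ) * I with hc
  set d : ℂ := -(t / (T : ℂ)) + ((V ^ 2 / (2 * T ^ 2) + u / T : ℝ) : ℂ) with hd
  have e1 : ∀ ξ : ℝ, cexp (-(wq T ξ * t)) * nu T V u ξ =
      ((1 / (2 * Real.pi) : ℝ) : ℂ) * cexp (-((V : ℂ) ^ 2) / 2 * (ξ : ℂ) ^ 2 + c * ξ + d) := by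
    intro ξ
    unfold nu wq
    rw [mul_left_comm, ← Complex.exp_add]
    congr 2
    rw [hc, hd]
    push_cast
    have hI : I ^ 2 = -1 := Complex.I_sq
    ring_nf
    rw [hI]
    ring
  simp_rw [e1]
  rw [integral_const_mul, integral_cexp_quadratic hb c d]
  have hV' : (V : ℂ) ≠ 0 := by exact_mod_cast hV.ne'
  have e2 : d - c ^ 2 / (4 * (-((V : ℂ) ^ 2) / 2)) = -((t - u) ^ 2 / (2 * (V : ℂ) ^ 2)) := by
    have hT' : (T : ℂ) ≠ 0 := by exact_mod_cast hT.ne'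
    have hc2 : c ^ 2 = -(((t - u) - (V : ℂ) ^ 2 / T) ^ 2) := by
      rw [hc]
      push_cast
      rw [← sub_mul, mul_pow, Complex.I_sq]
      ring
    rw [hc2, hd]
    push_cast
    field_simp
    ring
  have e3 : ((Real.pi : ℂ) / -(-((V : ℂ) ^ 2) / 2)) ^ (1 / 2 : ℂ) = ((√(2 * Real.pi) / V : ℝ) : ℂ) := by
    have h1 : (Real.pi : ℂ) / -(-((V : ℂ) ^ 2) / 2) = ((2 * Real.pi / V ^ 2 : ℝ) : ℂ) := by
      push_cast
      field_simp
    rw [h1, show (1 / 2 : ℂ) = ((1 / 2 : ℝ) : ℂ) by push_cast; ring, ← Complex.ofReal_cpow (by positivity),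
      ← Real.sqrt_eq_rpow, Real.sqrt_div (by positivity), Real.sqrt_sq hV.le]
  rw [e2, e3, ← mul_assoc, ← Complex.ofReal_mul]
  congr 2
  have hs : √(2 * Real.pi) * √(2 * Real.pi) = 2 * Real.pi := Real.mul_self_sqrt (by positivity)
  have hs0 : √(2 * Real.pi) ≠ 0 := by positivity
  have hp : (Real.pi : ℝ) ≠ 0 := Real.pi_ne_zero
  field_simp
  nlinarith [hs]

theorem aw_core {T V u a : ℝ} (hT : 1 ≤ T) (hV : 1 ≤ V) (hVT : V ≤ T) (hu : u ≤ T) (ha : 0 ≤ a) (ξ : ℝ) :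
    ‖cexp (-(wq T ξ * ((a : ℂ) * I))) * nu T V u ξ‖ ≤ Real.exp (a * |ξ|) * Real.exp (-(V ^ 2 * ξ ^ 2 / 2)) := by
  rw [norm_mul]
  refine mul_le_mul ?_ (nu_norm hT (by linarith) hVT hu ξ) (norm_nonneg _) (Real.exp_pos _).le
  rw [Complex.norm_exp]
  apply Real.exp_le_exp.2
  have e1 : -(wq T ξ * ((a : ℂ) * I)) = ((-(a * ξ) : ℝ) : ℂ) + ((-(a / T) : ℝ) : ℂ) * I := by
    unfold wq
    push_cast
    have hI : I ^ 2 = -1 := Complex.I_sq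
    ring_nf
    rw [hI]
    ring
  rw [e1]
  simp only [Complex.add_re, Complex.ofReal_re, Complex.re_ofReal_mul, Complex.I_re, mul_zero, add_zero]
  have := neg_abs_le ξ
  nlinarith

theorem aw_int {T V u a : ℝ} (hT : 1 ≤ T) (hV : 1 ≤ V) (hVT : V ≤ T) (hu : u ≤ T) (ha : 0 ≤ a) :
    Integrable (fun ξ : ℝ => cexp (-(wq T ξ * ((a : ℂ) * I))) * nu T V u ξ) := by
  have hg := (gauss_int (b := V ^ 2 / 4) (by positivity)).const_mul (Real.exp (a ^ 2))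
  refine Integrable.mono' hg ?_ (ae_of_all _ fun ξ => ?_)
  · have h1 := wq_cont T
    have h2 := nu_cont T V u
    have h3 : Continuous (fun ξ : ℝ => cexp (-(wq T ξ * ((a : ℂ) * I))) * nu T V u ξ) := by fun_prop
    exact h3.aestronglyMeasurable
  · refine (aw_core hT hV hVT hu ha ξ).trans ?_
    rw [← Real.exp_add, ← Real.exp_add]
    apply Real.exp_le_exp.2
    have h1 : ξ ^ 2 = |ξ| ^ 2 := (sq_abs ξ).symm
    rw [h1]
    have h2 : 1 ≤ V ^ 2 := by nlinarith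
    nlinarith [sq_nonneg (a - |ξ| / 2), abs_nonneg ξ, mul_nonneg (sub_nonneg.2 h2) (sq_nonneg |ξ|)]

theorem aw_tail {T V u a : ℝ} (hT : 1 ≤ T) (hV : 1 ≤ V) (hVT : V ≤ T) (hu : u ≤ T) (ha : 0 ≤ a)
    (haV : 32 * a ≤ V ^ 2) :
    ‖∫ ξ in (Icc (-(1 / 4) : ℝ) (1 / 4))ᶜ, cexp (-(wq T ξ * ((a : ℂ) * I))) * nu T V u ξ‖ ≤
      4 * Real.exp (-(V ^ 2 / 128)) := by
  have hV0 : 0 < V := by linarith
  have hb : 0 < V ^ 2 / 4 := by positivity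
  have hg := gauss_int hb
  have h1 : ‖∫ ξ in (Icc (-(1 / 4) : ℝ) (1 / 4))ᶜ, cexp (-(wq T ξ * ((a : ℂ) * I))) * nu T V u ξ‖ ≤
      ∫ ξ in (Icc (-(1 / 4) : ℝ) (1 / 4))ᶜ, Real.exp (-(V ^ 2 / 128)) * Real.exp (-(V ^ 2 / 4 * ξ ^ 2)) := by
    refine norm_integral_le_of_norm_le ((hg.const_mul _).integrableOn) ?_
    refine (ae_restrict_iff' measurableSet_Icc.compl).2 (ae_of_all _ fun ξ hξ => ?_)
    have h2 : 1 / 4 ≤ |ξ| := by
      by_contra hcon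
      push Not at hcon
      have := abs_lt.1 hcon
      exact hξ ⟨by linarith [this.1], by linarith [this.2]⟩
    refine (aw_core hT hV hVT hu ha ξ).trans ?_
    rw [← Real.exp_add, ← Real.exp_add]
    apply Real.exp_le_exp.2
    have h4 : ξ ^ 2 = |ξ| ^ 2 := (sq_abs ξ).symm
    rw [h4]
    have h5 : a * |ξ| ≤ 4 * a * |ξ| ^ 2 := by nlinarith [abs_nonneg ξ, mul_nonneg ha (abs_nonneg ξ)]
    have h6 : 4 * a * |ξ| ^ 2 ≤ V ^ 2 / 8 * |ξ| ^ 2 := by nlinarith [sq_nonneg |ξ|]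
    have h7 : (1 / 16 : ℝ) ≤ |ξ| ^ 2 := by nlinarith [abs_nonneg ξ]
    have h8 : V ^ 2 / 128 ≤ V ^ 2 / 8 * |ξ| ^ 2 := by nlinarith [pow_pos hV0 2]
    nlinarith
  have h4 : ∫ ξ in (Icc (-(1 / 4) : ℝ) (1 / 4))ᶜ, Real.exp (-(V ^ 2 / 128)) * Real.exp (-(V ^ 2 / 4 * ξ ^ 2)) ≤
      ∫ ξ : ℝ, Real.exp (-(V ^ 2 / 128)) * Real.exp (-(V ^ 2 / 4 * ξ ^ 2)) := by
    refine setIntegral_le_integral (hg.const_mul _) (ae_of_all _ fun ξ => ?_)
    positivity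
  have h5 : ∫ ξ : ℝ, Real.exp (-(V ^ 2 / 4 * ξ ^ 2)) = √(Real.pi / (V ^ 2 / 4)) := by
    have := integral_gaussian (V ^ 2 / 4)
    simpa [neg_mul] using this
  have h6 : √(Real.pi / (V ^ 2 / 4)) ≤ 4 := by
    rw [Real.sqrt_le_left (by norm_num), div_le_iff₀ hb]
    nlinarith [Real.pi_lt_d2]
  refine h1.trans (h4.trans ?_)
  rw [integral_const_mul, h5]
  have : 0 ≤ Real.exp (-(V ^ 2 / 128)) := by positivity
  nlinarith

theorem aw_main {T V u a : ℝ} (hT : 1 ≤ T) (hV : 1 ≤ V) (hVT : V ≤ T) (hu : u ≤ T) (ha : 0 ≤ a)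
    (haV : 32 * a ≤ V ^ 2) :
    ‖∫ ξ in Icc (-(1 / 4) : ℝ) (1 / 4), cexp (-(wq T ξ * ((a : ℂ) * I))) * nu T V u ξ‖ ≤
      Real.exp (a ^ 2 / 2) * Real.exp (-(u ^ 2 / (2 * V ^ 2))) + 4 * Real.exp (-(V ^ 2 / 128)) := by
  have hV0 : 0 < V := by linarith
  have h0 := integral_add_compl (s := Icc (-(1 / 4) : ℝ) (1 / 4)) measurableSet_Icc (aw_int hT hV hVT hu ha)
  rw [gauss_expC T V u ((a : ℂ) * I) (by linarith) hV0] at h0
  have h1 : ∫ ξ in Icc (-(1 / 4) : ℝ) (1 / 4), cexp (-(wq T ξ * ((a : ℂ) * I))) * nu T V u ξ =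
      ((√(2 * Real.pi) * V)⁻¹ : ℝ) * cexp (-((((a : ℂ) * I) - u) ^ 2 / (2 * (V : ℂ) ^ 2))) -
        ∫ ξ in (Icc (-(1 / 4) : ℝ) (1 / 4))ᶜ, cexp (-(wq T ξ * ((a : ℂ) * I))) * nu T V u ξ := by
    rw [← h0]
    ring
  rw [h1]
  refine (norm_sub_le _ _).trans (add_le_add ?_ (aw_tail hT hV hVT hu ha haV))
  rw [norm_mul, Complex.norm_real, Real.norm_of_nonneg (by positivity), Complex.norm_exp]
  have e1 : -((((a : ℂ) * I) - u) ^ 2 / (2 * (V : ℂ) ^ 2)) =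
      (((a ^ 2 - u ^ 2) / (2 * V ^ 2) : ℝ) : ℂ) + ((a * u / V ^ 2 : ℝ) : ℂ) * I := by
    have hV' : (V : ℂ) ≠ 0 := by exact_mod_cast hV0.ne'
    have hI : I ^ 2 = -1 := Complex.I_sq
    have e2 : (((a : ℂ) * I) - u) ^ 2 = -(a : ℂ) ^ 2 - 2 * a * u * I + (u : ℂ) ^ 2 := by
      ring_nf
      rw [hI]
      ring
    rw [e2]
    push_cast
    field_simp
    ring
  rw [e1]
  simp only [Complex.add_re, Complex.ofReal_re, Complex.re_ofReal_mul, Complex.I_re, mul_zero, add_zero]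
  have h2 : (√(2 * Real.pi) * V)⁻¹ ≤ 1 := by
    apply inv_le_one_of_one_le₀
    have : 1 ≤ √(2 * Real.pi) := by
      rw [Real.one_le_sqrt]
      nlinarith [Real.pi_gt_three]
    nlinarith
  have h3 : (a ^ 2 - u ^ 2) / (2 * V ^ 2) ≤ a ^ 2 / 2 + -(u ^ 2 / (2 * V ^ 2)) := by
    rw [sub_div]
    have : a ^ 2 / (2 * V ^ 2) ≤ a ^ 2 / 2 := by
      apply div_le_div_of_nonneg_left (sq_nonneg a) (by norm_num)
      nlinarith
    linarith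
  rw [← Real.exp_add]
  calc (√(2 * Real.pi) * V)⁻¹ * Real.exp ((a ^ 2 - u ^ 2) / (2 * V ^ 2))
      ≤ 1 * Real.exp (a ^ 2 / 2 + -(u ^ 2 / (2 * V ^ 2))) :=
        mul_le_mul h2 (Real.exp_le_exp.2 h3) (Real.exp_pos _).le (by norm_num)
    _ = _ := one_mul _

theorem Wj_small (j : ℕ) (A ε₁ δ : ℝ) (hε1 : 0 < ε₁) (hδ : 0 < δ) (hδ1 : δ ≤ 1 / 10) :
    ∃ T₀ : ℝ, ∀ T : ℝ, T₀ ≤ T → ∀ u : ℝ, ε₁ * T ≤ u → u ≤ T → ‖Wj T (T ^ (1 - δ)) u j‖ ≤ T ^ (-A) := by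
  obtain ⟨T₁, hT₁, h₁⟩ := exp_small ((2 * Real.pi) ^ j * 2 ^ j * Real.exp (((j : ℝ) + 1) ^ 2 / 2)) 0 (ε₁ ^ 2 / 2) (2 * δ)
    (A + 1) (by positivity) (by positivity)
  obtain ⟨T₂, hT₂, h₂⟩ := exp_small ((2 * Real.pi) ^ j * 2 ^ j * 4) 0 (1 / 128) (2 - 2 * δ) (A + 1) (by norm_num)
    (by linarith)
  have h3 := (tendsto_rpow_atTop (show 0 < 2 - 2 * δ by linarith)).eventually (eventually_ge_atTop (32 * ((j : ℝ) + 1)))
  obtain ⟨T₃, hT₃⟩ := h3.exists_forall_of_atTop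
  refine ⟨max (max T₁ T₂) (max T₃ 2), fun T hT u hu1 hu2 => ?_⟩
  have hTT1 : T₁ ≤ T := (le_max_left _ _).trans ((le_max_left _ _).trans hT)
  have hTT2 : T₂ ≤ T := (le_max_right _ _).trans ((le_max_left _ _).trans hT)
  have hTT3 : T₃ ≤ T := (le_max_left _ _).trans ((le_max_right _ _).trans hT)
  have hT2 : 2 ≤ T := (le_max_right _ _).trans ((le_max_right _ _).trans hT)
  have hT0 : 0 < T := by linarith
  have hT1 : 1 ≤ T := by linarith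
  set V := T ^ (1 - δ) with hVdef
  have hV : 1 ≤ V := Real.one_le_rpow hT1 (by linarith)
  have hVT : V ≤ T := by
    have := Real.rpow_le_rpow_of_exponent_le hT1 (show 1 - δ ≤ 1 by linarith)
    rwa [Real.rpow_one] at this
  have hVsq : V ^ 2 = T ^ (2 - 2 * δ) := by
    rw [hVdef, ← Real.rpow_natCast, ← Real.rpow_mul hT0.le]
    congr 1
    push_cast
    ring
  have hVbig : 32 * ((j : ℝ) + 1) ≤ V ^ 2 := by
    rw [hVsq]
    exact hT₃ T hTT3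
  -- expansion
  have hexp : ∀ ξ : ℝ, nv T V u ξ * KK (wq T ξ) ^ j =
      ∑ i ∈ Finset.range (j + 1), ((((2 * Real.pi : ℝ) : ℂ) * I) ^ j * (-1) ^ (j - i) * (j.choose i : ℂ)) *
        (cexp (-(wq T ξ * ((((i : ℝ) + 1 / 2 : ℝ) : ℂ) * I))) * nu T V u ξ) := by
    intro ξ
    unfold nv KK
    rw [mul_pow, sub_eq_add_neg (cexp (-(I * wq T ξ))) 1, add_pow, Finset.mul_sum, Finset.mul_sum]
    refine Finset.sum_congr rfl fun i _ => ?_
    have e1 : cexp (-(wq T ξ * ((((i : ℝ) + 1 / 2 : ℝ) : ℂ) * I))) = cexp (-(I * wq T ξ / 2)) * cexp (-(I * wq T ξ)) ^ i := by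
      rw [← Complex.exp_nat_mul, ← Complex.exp_add]
      congr 1
      push_cast
      ring
    rw [e1]
    ring
  have hW : Wj T V u j = ∑ i ∈ Finset.range (j + 1),
      ((((2 * Real.pi : ℝ) : ℂ) * I) ^ j * (-1) ^ (j - i) * (j.choose i : ℂ)) *
        ∫ ξ in Icc (-(1 / 4) : ℝ) (1 / 4), cexp (-(wq T ξ * ((((i : ℝ) + 1 / 2 : ℝ) : ℂ) * I))) * nu T V u ξ := by
    unfold Wj
    simp_rw [hexp]
    rw [integral_finsetSum _ (fun i _ => ?_)]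
    · refine Finset.sum_congr rfl fun i _ => ?_
      rw [integral_const_mul]
    · exact ((aw_int hT1 hV hVT hu2 (by positivity)).const_mul _).integrableOn
  have hu0 : 0 ≤ u := le_trans (by positivity) hu1
  have hu4 : ε₁ ^ 2 / 2 * T ^ (2 * δ) ≤ u ^ 2 / (2 * V ^ 2) := by
    rw [le_div_iff₀ (by positivity), hVsq]
    have e1 : T ^ (2 * δ) * T ^ (2 - 2 * δ) = T ^ 2 := by
      rw [← Real.rpow_add hT0, ← Real.rpow_natCast]
      congr 1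
      push_cast
      ring
    have e2 : (ε₁ * T) ^ 2 ≤ u ^ 2 := pow_le_pow_left₀ (by positivity) hu1 2
    calc ε₁ ^ 2 / 2 * T ^ (2 * δ) * (2 * T ^ (2 - 2 * δ)) = ε₁ ^ 2 * (T ^ (2 * δ) * T ^ (2 - 2 * δ)) := by ring
      _ = (ε₁ * T) ^ 2 := by rw [e1]; ring
      _ ≤ u ^ 2 := e2
  set B := Real.exp (((j : ℝ) + 1) ^ 2 / 2) * Real.exp (-(ε₁ ^ 2 / 2 * T ^ (2 * δ))) + 4 * Real.exp (-(V ^ 2 / 128)) with hB
  have hterm : ∀ i ∈ Finset.range (j + 1),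
      ‖((((2 * Real.pi : ℝ) : ℂ) * I) ^ j * (-1) ^ (j - i) * (j.choose i : ℂ)) *
        ∫ ξ in Icc (-(1 / 4) : ℝ) (1 / 4), cexp (-(wq T ξ * ((((i : ℝ) + 1 / 2 : ℝ) : ℂ) * I))) * nu T V u ξ‖ ≤
      (2 * Real.pi) ^ j * (j.choose i : ℝ) * B := by
    intro i hi
    have hij : (i : ℝ) ≤ j := by
      have := Finset.mem_range.1 hi
      exact_mod_cast Nat.lt_succ_iff.1 this
    have hi0 : (0 : ℝ) ≤ i := by positivity
    have h5 := aw_main (T := T) (V := V) (u := u) (a := (i : ℝ) + 1 / 2) hT1 hV hVT hu2 (by positivity) (by linarith)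
    rw [norm_mul, norm_mul, norm_mul, norm_pow, norm_mul, Complex.norm_I, mul_one, Complex.norm_real, norm_pow, norm_neg,
      norm_one, one_pow, mul_one, Real.norm_of_nonneg (by positivity), Complex.norm_natCast]
    refine mul_le_mul_of_nonneg_left (h5.trans ?_) (by positivity)
    rw [hB]
    refine add_le_add (mul_le_mul ?_ ?_ (Real.exp_pos _).le (Real.exp_pos _).le) le_rfl
    · apply Real.exp_le_exp.2
      nlinarith
    · apply Real.exp_le_exp.2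
      linarith
  rw [hW]
  refine (norm_sum_le _ _).trans ((Finset.sum_le_sum hterm).trans ?_)
  rw [← Finset.sum_mul, ← Finset.mul_sum]
  have hch : ∑ i ∈ Finset.range (j + 1), (j.choose i : ℝ) = 2 ^ j := by
    have := Nat.sum_range_choose j
    exact_mod_cast this
  rw [hch, hB]
  have h6 := h₁ T hTT1
  have h7 := h₂ T hTT2
  rw [Real.rpow_zero, mul_one] at h6 h7
  have h8 : V ^ 2 / 128 = 1 / 128 * T ^ (2 - 2 * δ) := by rw [hVsq]; ring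
  rw [h8]
  have h9 : T ^ (-(A + 1)) + T ^ (-(A + 1)) ≤ T ^ (-A) := by
    have e1 : T ^ (-A) = T ^ (-(A + 1)) * T := by
      rw [← Real.rpow_add_one hT0.ne']
      congr 1
      ring
    rw [e1]
    have : 0 < T ^ (-(A + 1)) := Real.rpow_pos_of_pos hT0 _
    nlinarith
  refine le_trans (le_of_eq ?_) ((add_le_add h6 h7).trans h9)
  ring

end Pool.Agent.LibSM56A
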