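import Pool.Agent.LibSM56A.A_E2
import Pool.Agent.LibSM56A.A_E3
import Pool.Agent.LibSM56A.A_W

/-! ROW A_E4 (SHORT/MEDIUM): assembly of the Voronoi form.

`VV_line`, `DS_split` (`Re (1-s) = 3/2 > 1`), integrability of both parts on the line, `le_part`, `gt_part k`, `Wj_small j (5k+60) ..` for `j ≤ k` (finitely many:
take the maximum of the `T₀`), `m, n ≤ T`, `Λ ≤ T^4`. -/

set_option autoImplicit false

namespace Pool.Agent.LibSM56A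

open MeasureTheory Set Filter Topology Complex
open Pool.Agent.LibSM47

private theorem e4_re (c y : ℝ) : (line c y).re = c := by
  unfold line
  simp

private theorem e4_cline (c : ℝ) : Continuous (fun y : ℝ => line c y) := by
  unfold line
  exact continuous_const.add (continuous_ofReal.mul continuous_const)

private theorem e4_int (T V u : ℝ) (hT : 4 ≤ T) (b : B3) (X : ℕ) (hX : 0 < X) (G : ℝ → ℂ)
    (hG : Continuous G) (M : ℝ) (hM : ∀ y, ‖G y‖ ≤ M) :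
    Integrable (fun y : ℝ => Om T V u b (line (-(1 / 2)) y) * (X : ℂ) ^ (-(line (-(1 / 2)) y)) *
      G y) := by
  obtain ⟨C, hC, hg⟩ := gG_left 0
  have hM0 : 0 ≤ M := (norm_nonneg _).trans (hM 0)
  have hXne : (X : ℂ) ≠ 0 := by exact_mod_cast hX.ne'
  have hcont : Continuous fun y : ℝ => gG b (line (-(1 / 2)) y) *
      (X : ℂ) ^ (-(line (-(1 / 2)) y)) * G y := by
    refine ((gG_cont b (-(1 / 2)) (Or.inr ⟨0, by norm_num⟩)).mul ?_).mul hG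
    exact (e4_cline _).neg.const_cpow (Or.inl hXne)
  have h := (fub_line T V u (-(1 / 2)) hT _ hcont 3 (C * (X : ℝ) ^ (1 / 2 : ℝ) * M) (by
    intro y
    rw [norm_mul, norm_mul, Complex.norm_natCast_cpow_of_pos hX, Complex.neg_re, e4_re]
    have h1 := hg b y
    have h2 : line (-((0 : ℕ) : ℝ) - 1 / 2) y = line (-(1 / 2)) y := by norm_num
    rw [h2] at h1
    have h3 : (X : ℝ) ^ (-(-(1 / 2)) : ℝ) = (X : ℝ) ^ (1 / 2 : ℝ) := by norm_num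
    rw [h3]
    have h4 : 0 ≤ (X : ℝ) ^ (1 / 2 : ℝ) := by positivity
    calc ‖gG b (line (-(1 / 2)) y)‖ * (X : ℝ) ^ (1 / 2 : ℝ) * ‖G y‖
        ≤ (C * (1 + |y|) ^ (3 * 0 + 3) * Real.exp (-(Real.pi / 2 * |y|))) *
          (X : ℝ) ^ (1 / 2 : ℝ) * M := by
          refine mul_le_mul (mul_le_mul_of_nonneg_right h1 h4) (hM y) (norm_nonneg _) ?_
          positivity
      _ = C * (X : ℝ) ^ (1 / 2 : ℝ) * M * (1 + |y|) ^ 3 *
          Real.exp (-(Real.pi / 2 * |y|)) := by ring)).1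
  have h5 : (fun y : ℝ => Om T V u b (line (-(1 / 2)) y) * (X : ℂ) ^ (-(line (-(1 / 2)) y)) *
      G y) = fun y : ℝ => gG b (line (-(1 / 2)) y) *
      (X : ℂ) ^ (-(line (-(1 / 2)) y)) * G y * WW T V u (line (-(1 / 2)) y) := by
    funext y
    unfold Om
    ring
  rw [h5]
  exact h

private theorem e4_term (m : ℕ) [NeZero m] (n : ZMod m) (b : B3) (a : SD.Tr) (y : ℝ) :
    ‖FT m (SD.Ph m n) (SD.sl m b a) * (SD.pr a : ℂ) ^ (-(1 - line (-(1 / 2)) y))‖ ≤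
      8 * (m : ℝ) ^ 3 * (SD.pr a : ℝ) ^ (-(3 / 2) : ℝ) := by
  rw [norm_mul, SD.norm_pr_cpow]
  have h1 : (-(1 - line (-(1 / 2)) y)).re = (-(3 / 2) : ℝ) := by
    rw [Complex.neg_re, Complex.sub_re, e4_re, Complex.one_re]
    norm_num
  rw [h1]
  exact mul_le_mul_of_nonneg_right (FT_Ph_norm m n _) (by positivity)

private theorem e4_termc (m : ℕ) [NeZero m] (n : ZMod m) (b : B3) (a : SD.Tr) :
    Continuous fun y : ℝ => FT m (SD.Ph m n) (SD.sl m b a) *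
      (SD.pr a : ℂ) ^ (-(1 - line (-(1 / 2)) y)) := by
  refine continuous_const.mul ?_
  refine (continuous_const.sub (e4_cline _)).neg.const_cpow (Or.inl ?_)
  exact_mod_cast (SD.pr_pos a).ne'

private theorem e4_sum (m : ℕ) : Summable fun a : SD.Tr =>
    8 * (m : ℝ) ^ 3 * (SD.pr a : ℝ) ^ (-(3 / 2) : ℝ) :=
  (SD.summable_pr (by norm_num : (1 : ℝ) < 3 / 2)).mul_left _

private theorem e4_le (T V u : ℝ) (hT : 4 ≤ T) (m : ℕ) [NeZero m] (n : ZMod m) (b : B3) (Λ : ℕ)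
    (X : ℕ) (hX : 0 < X) :
    Integrable (fun y : ℝ => Om T V u b (line (-(1 / 2)) y) * (X : ℂ) ^ (-(line (-(1 / 2)) y)) *
      DSle m n b Λ (1 - line (-(1 / 2)) y)) := by
  refine e4_int T V u hT b X hX _ ?_
    (∑ a ∈ trLe Λ, 8 * (m : ℝ) ^ 3 * (SD.pr a : ℝ) ^ (-(3 / 2) : ℝ)) ?_
  · unfold DSle
    exact continuous_finsetSum _ fun a _ => e4_termc m n b a
  · intro y
    unfold DSle
    exact (norm_sum_le _ _).trans (Finset.sum_le_sum fun a _ => e4_term m n b a y)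

private theorem e4_gt (T V u : ℝ) (hT : 4 ≤ T) (m : ℕ) [NeZero m] (n : ZMod m) (b : B3) (Λ : ℕ)
    (X : ℕ) (hX : 0 < X) :
    Integrable (fun y : ℝ => Om T V u b (line (-(1 / 2)) y) * (X : ℂ) ^ (-(line (-(1 / 2)) y)) *
      DSgt m n b Λ (1 - line (-(1 / 2)) y)) := by
  have hb : ∀ (a : SD.Tr) (y : ℝ), ‖(if SD.pr a ≤ Λ then (0 : ℂ) else
      FT m (SD.Ph m n) (SD.sl m b a) * (SD.pr a : ℂ) ^ (-(1 - line (-(1 / 2)) y)))‖ ≤
      8 * (m : ℝ) ^ 3 * (SD.pr a : ℝ) ^ (-(3 / 2) : ℝ) := by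
    intro a y
    by_cases h : SD.pr a ≤ Λ
    · rw [if_pos h, norm_zero]
      positivity
    · rw [if_neg h]
      exact e4_term m n b a y
  refine e4_int T V u hT b X hX _ ?_
    (∑' a : SD.Tr, 8 * (m : ℝ) ^ 3 * (SD.pr a : ℝ) ^ (-(3 / 2) : ℝ)) ?_
  · unfold DSgt
    refine continuous_tsum (fun a => ?_) (e4_sum m) hb
    by_cases h : SD.pr a ≤ Λ
    · simp only [if_pos h]
      exact continuous_const
    · simp only [if_neg h]
      exact e4_termc m n b a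
  · intro y
    unfold DSgt
    exact tsum_of_norm_bounded (e4_sum m).hasSum fun a => hb a y

private theorem e4_split (T V u : ℝ) (hT : 4 ≤ T) (m : ℕ) [NeZero m] (n : ZMod m) (b : B3) (Λ : ℕ)
    (X : ℕ) (hX : 0 < X) :
    (∫ y : ℝ, Om T V u b (line (-(1 / 2)) y) * (X : ℂ) ^ (-(line (-(1 / 2)) y)) *
      SD.DS m n b (1 - line (-(1 / 2)) y)) =
    (∫ y : ℝ, Om T V u b (line (-(1 / 2)) y) * (X : ℂ) ^ (-(line (-(1 / 2)) y)) *
      DSle m n b Λ (1 - line (-(1 / 2)) y)) +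
    ∫ y : ℝ, Om T V u b (line (-(1 / 2)) y) * (X : ℂ) ^ (-(line (-(1 / 2)) y)) *
      DSgt m n b Λ (1 - line (-(1 / 2)) y) := by
  rw [← integral_add (e4_le T V u hT m n b Λ X hX) (e4_gt T V u hT m n b Λ X hX)]
  refine integral_congr_ae (Filter.Eventually.of_forall fun y => ?_)
  have h1 : 1 < (1 - line (-(1 / 2)) y).re := by
    rw [Complex.sub_re, e4_re, Complex.one_re]
    norm_num
  show Om T V u b (line (-(1 / 2)) y) * (X : ℂ) ^ (-(line (-(1 / 2)) y)) *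
      SD.DS m n b (1 - line (-(1 / 2)) y) = _
  rw [DS_split m n b Λ h1, mul_add]

theorem voronoi (k : ℕ) (ε₁ δ : ℝ) (hε1 : 0 < ε₁) (hδ : 0 < δ) (hδ1 : δ ≤ 1 / 10) :
    ∃ T₀ : ℝ, ∀ T : ℝ, T₀ ≤ T → ∀ u : ℝ, ε₁ * T ≤ u → u ≤ T → ∀ (m : ℕ) [NeZero m] (n : ℕ), 1 ≤ n → Nat.Coprime n m →
      (m : ℝ) ≤ T → (n : ℝ) ≤ T → ∀ Λ : ℕ, (Λ : ℝ) ≤ T ^ 4 →
    ‖VV T (T ^ (1 - δ)) u m n - ((√((n : ℝ) / m) : ℝ) : ℂ) * ∑ b : B3,
      ((∫ y : ℝ, Om T (T ^ (1 - δ)) u b (line (1 / 2) y) * ((n * m ^ 2 : ℕ) : ℂ) ^ (-(line (1 / 2) y)) *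
          DSle m (n : ZMod m) b Λ (1 - line (1 / 2) y)) +
       ∫ y : ℝ, Om T (T ^ (1 - δ)) u b (line (-(k : ℝ) - 1 / 2) y) * ((n * m ^ 2 : ℕ) : ℂ) ^ (-(line (-(k : ℝ) - 1 / 2) y)) *
          DSgt m (n : ZMod m) b Λ (1 - line (-(k : ℝ) - 1 / 2) y))‖ ≤ T ^ (-(2 : ℝ)) := by
  obtain ⟨C1, hC1, h1⟩ := VV_line
  obtain ⟨C2, hC2, h2⟩ := le_part
  obtain ⟨C3, hC3, h3⟩ := gt_part k
  have hW : ∀ j : ℕ, ∃ T₀ : ℝ, ∀ T : ℝ, T₀ ≤ T → ∀ u : ℝ, ε₁ * T ≤ u → u ≤ T →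
      ‖Wj T (T ^ (1 - δ)) u j‖ ≤ T ^ (-(5 * (k : ℝ) + 60)) := fun j =>
    Wj_small j (5 * (k : ℝ) + 60) ε₁ δ hε1 hδ hδ1
  choose T0 hT0 using hW
  refine ⟨4 + (∑ j ∈ Finset.range (k + 1), |T0 j|) + (C1 + 128 * C2 + 8 * C3 * k), ?_⟩
  intro T hT u hu1 hu2 m _ n hn hco hmT hnT Λ hΛ
  have hS0 : 0 ≤ ∑ j ∈ Finset.range (k + 1), |T0 j| := Finset.sum_nonneg fun _ _ => abs_nonneg _
  have hC0 : 0 ≤ C1 + 128 * C2 + 8 * C3 * k := by positivity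
  have hT4 : 4 ≤ T := by linarith
  have hTC : C1 + 128 * C2 + 8 * C3 * k ≤ T := by linarith
  have hTpos : 0 < T := by linarith
  have hWj : ∀ j, j ≤ k → ‖Wj T (T ^ (1 - δ)) u j‖ ≤ T ^ (-(5 * (k : ℝ) + 60)) := by
    intro j hj
    refine hT0 j T ?_ u hu1 hu2
    have h4 : |T0 j| ≤ ∑ j ∈ Finset.range (k + 1), |T0 j| :=
      Finset.single_le_sum (f := fun j => |T0 j|) (fun _ _ => abs_nonneg _)
        (Finset.mem_range.2 (by omega))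
    have h5 := le_abs_self (T0 j)
    linarith
  have hm1 : 1 ≤ m := Nat.one_le_iff_ne_zero.2 (NeZero.ne m)
  have hm1' : (1 : ℝ) ≤ m := by exact_mod_cast hm1
  have hX : 0 < n * m ^ 2 := by positivity
  obtain ⟨V, hV⟩ : ∃ V : ℝ, V = T ^ (1 - δ) := ⟨_, rfl⟩
  rw [← hV] at hWj ⊢
  obtain ⟨r, hr⟩ : ∃ r : ℝ, r = √((n : ℝ) / m) := ⟨_, rfl⟩
  have hr0 : 0 ≤ r := by rw [hr]; exact Real.sqrt_nonneg _
  have hrT : r ≤ T := by
    rw [hr]
    refine Real.sqrt_le_iff.2 ⟨by linarith, ?_⟩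
    have h4 : (n : ℝ) / m ≤ n := div_le_self (by positivity) hm1'
    nlinarith
  obtain ⟨W, hWdef⟩ : ∃ W : ℝ, W = T ^ (-(5 * (k : ℝ) + 60)) := ⟨_, rfl⟩
  rw [← hWdef] at hWj
  have hW0 : 0 ≤ W := by rw [hWdef]; positivity
  have e1 := h1 T V u hT4 m n hn hco
  rw [← hr] at e1 ⊢
  have e2 : ∀ b : B3, _ := fun b => h2 T V u hT4 m n Λ hn b
  have e3 : ∀ b : B3, _ := fun b => h3 T V u hT4 m n Λ hn b
  have e4 : ∀ b : B3, _ := fun b => e4_split T V u hT4 m (n : ZMod m) b Λ (n * m ^ 2) hX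
  -- names for the integrals
  obtain ⟨A, hA⟩ : ∃ A : B3 → ℂ, A = fun b => ∫ y : ℝ, Om T V u b (line (-(1 / 2)) y) *
      ((n * m ^ 2 : ℕ) : ℂ) ^ (-(line (-(1 / 2)) y)) *
      DSle m (n : ZMod m) b Λ (1 - line (-(1 / 2)) y) := ⟨_, rfl⟩
  obtain ⟨B, hB⟩ : ∃ B : B3 → ℂ, B = fun b => ∫ y : ℝ, Om T V u b (line (-(1 / 2)) y) *
      ((n * m ^ 2 : ℕ) : ℂ) ^ (-(line (-(1 / 2)) y)) *
      DSgt m (n : ZMod m) b Λ (1 - line (-(1 / 2)) y) := ⟨_, rfl⟩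
  obtain ⟨A', hA'⟩ : ∃ A' : B3 → ℂ, A' = fun b => ∫ y : ℝ, Om T V u b (line (1 / 2) y) *
      ((n * m ^ 2 : ℕ) : ℂ) ^ (-(line (1 / 2) y)) *
      DSle m (n : ZMod m) b Λ (1 - line (1 / 2) y) := ⟨_, rfl⟩
  obtain ⟨B', hB'⟩ : ∃ B' : B3 → ℂ, B' = fun b => ∫ y : ℝ,
      Om T V u b (line (-(k : ℝ) - 1 / 2) y) *
      ((n * m ^ 2 : ℕ) : ℂ) ^ (-(line (-(k : ℝ) - 1 / 2) y)) *
      DSgt m (n : ZMod m) b Λ (1 - line (-(k : ℝ) - 1 / 2) y) := ⟨_, rfl⟩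
  have f2 : ∀ b, ‖A b - A' b‖ ≤
      C2 * (m : ℝ) ^ 3 * ((Λ : ℝ) + 1) ^ 4 * ((n : ℝ) * m ^ 2) * ‖Wj T V u 0‖ := by
    intro b
    rw [hA, hA']
    exact e2 b
  have f3 : ∀ b, ‖B b - B' b‖ ≤ C3 * (m : ℝ) ^ 3 * ((n : ℝ) * m ^ 2) ^ (k + 1) *
      ∑ j ∈ Finset.Icc 1 k, ‖Wj T V u j‖ := by
    intro b
    rw [hB, hB']
    exact e3 b
  have f1 : ‖VV T V u m n - (r : ℂ) * ∑ b : B3, (A b + B b)‖ ≤
      C1 * r * (m : ℝ) ^ 6 * ‖Wj T V u 0‖ := by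
    have h5 : ∑ b : B3, (A b + B b) = ∑ b : B3, ∫ y : ℝ, Om T V u b (line (-(1 / 2)) y) *
        ((n * m ^ 2 : ℕ) : ℂ) ^ (-(line (-(1 / 2)) y)) *
        SD.DS m (n : ZMod m) b (1 - line (-(1 / 2)) y) := by
      refine Finset.sum_congr rfl fun b _ => ?_
      rw [e4 b, hA, hB]
    rw [h5]
    exact e1
  have f4 : (∑ b : B3, ((∫ y : ℝ, Om T V u b (line (1 / 2) y) *
      ((n * m ^ 2 : ℕ) : ℂ) ^ (-(line (1 / 2) y)) *
      DSle m (n : ZMod m) b Λ (1 - line (1 / 2) y)) + ∫ y : ℝ,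
      Om T V u b (line (-(k : ℝ) - 1 / 2) y) *
      ((n * m ^ 2 : ℕ) : ℂ) ^ (-(line (-(k : ℝ) - 1 / 2) y)) *
      DSgt m (n : ZMod m) b Λ (1 - line (-(k : ℝ) - 1 / 2) y))) = ∑ b : B3, (A' b + B' b) := by
    rw [hA', hB']
  rw [f4]
  have g0 : VV T V u m n - (r : ℂ) * ∑ b : B3, (A' b + B' b) =
      (VV T V u m n - (r : ℂ) * ∑ b : B3, (A b + B b)) +
      (r : ℂ) * ∑ b : B3, ((A b - A' b) + (B b - B' b)) := by
    have h6 : ∑ b : B3, ((A b - A' b) + (B b - B' b)) =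
        ∑ b : B3, (A b + B b) - ∑ b : B3, (A' b + B' b) := by
      rw [← Finset.sum_sub_distrib]
      exact Finset.sum_congr rfl fun b _ => by ring
    rw [h6]
    ring
  have hm0 : (0 : ℝ) ≤ m := by positivity
  have hn0 : (0 : ℝ) ≤ n := by positivity
  have g1 : C1 * r * (m : ℝ) ^ 6 * ‖Wj T V u 0‖ ≤ C1 * (T ^ 7 * W) := by
    have h6 : (m : ℝ) ^ 6 ≤ T ^ 6 := pow_le_pow_left₀ hm0 hmT 6
    calc C1 * r * (m : ℝ) ^ 6 * ‖Wj T V u 0‖ ≤ C1 * T * T ^ 6 * W := by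
          refine mul_le_mul (mul_le_mul (mul_le_mul_of_nonneg_left hrT hC1.le) h6 (by positivity)
            (by positivity)) (hWj 0 (Nat.zero_le _)) (norm_nonneg _) (by positivity)
      _ = C1 * (T ^ 7 * W) := by ring
  have hΛ1 : (Λ : ℝ) + 1 ≤ 2 * T ^ 4 := by
    have h6 : (1 : ℝ) ≤ T ^ 4 := one_le_pow₀ (by linarith)
    linarith
  have hnm : (n : ℝ) * m ^ 2 ≤ T ^ 3 := by
    have h6 : (m : ℝ) ^ 2 ≤ T ^ 2 := pow_le_pow_left₀ hm0 hmT 2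
    calc (n : ℝ) * m ^ 2 ≤ T * T ^ 2 := mul_le_mul hnT h6 (by positivity) (by positivity)
      _ = T ^ 3 := by ring
  have hm3 : (m : ℝ) ^ 3 ≤ T ^ 3 := pow_le_pow_left₀ hm0 hmT 3
  have g2 : ∀ b, ‖A b - A' b‖ ≤ C2 * (16 * (T ^ 22 * W)) := by
    intro b
    refine (f2 b).trans ?_
    have h6 : ((Λ : ℝ) + 1) ^ 4 ≤ (2 * T ^ 4) ^ 4 := pow_le_pow_left₀ (by positivity) hΛ1 4
    calc C2 * (m : ℝ) ^ 3 * ((Λ : ℝ) + 1) ^ 4 * ((n : ℝ) * m ^ 2) * ‖Wj T V u 0‖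
        ≤ C2 * T ^ 3 * (2 * T ^ 4) ^ 4 * T ^ 3 * W := by
          refine mul_le_mul (mul_le_mul (mul_le_mul (mul_le_mul_of_nonneg_left hm3 hC2.le) h6
            (by positivity) (by positivity)) hnm (by positivity) (by positivity))
            (hWj 0 (Nat.zero_le _)) (norm_nonneg _) (by positivity)
      _ = C2 * (16 * (T ^ 22 * W)) := by ring
  have g3 : ∀ b, ‖B b - B' b‖ ≤ C3 * (k * (T ^ (3 * k + 6) * W)) := by
    intro b
    refine (f3 b).trans ?_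
    have h6 : ((n : ℝ) * m ^ 2) ^ (k + 1) ≤ (T ^ 3) ^ (k + 1) :=
      pow_le_pow_left₀ (by positivity) hnm (k + 1)
    have h7 : ∑ j ∈ Finset.Icc 1 k, ‖Wj T V u j‖ ≤ k * W := by
      calc ∑ j ∈ Finset.Icc 1 k, ‖Wj T V u j‖ ≤ ∑ j ∈ Finset.Icc 1 k, W :=
            Finset.sum_le_sum fun j hj => hWj j (Finset.mem_Icc.1 hj).2
        _ = k * W := by
            rw [Finset.sum_const, Nat.card_Icc, nsmul_eq_mul]
            norm_num
    calc C3 * (m : ℝ) ^ 3 * ((n : ℝ) * m ^ 2) ^ (k + 1) * ∑ j ∈ Finset.Icc 1 k, ‖Wj T V u j‖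
        ≤ C3 * T ^ 3 * (T ^ 3) ^ (k + 1) * (k * W) := by
          refine mul_le_mul (mul_le_mul (mul_le_mul_of_nonneg_left hm3 hC3.le) h6
            (by positivity) (by positivity)) h7
            (Finset.sum_nonneg fun _ _ => norm_nonneg _) (by positivity)
      _ = C3 * (k * (T ^ (3 * k + 6) * W)) := by
          rw [← pow_mul]
          have h8 : T ^ 3 * T ^ (3 * (k + 1)) = T ^ (3 * k + 6) := by
            rw [← pow_add]
            congr 1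
            ring
          calc C3 * T ^ 3 * T ^ (3 * (k + 1)) * (k * W)
              = C3 * (T ^ 3 * T ^ (3 * (k + 1))) * (k * W) := by ring
            _ = C3 * (k * (T ^ (3 * k + 6) * W)) := by rw [h8]; ring
  have hT1 : (1 : ℝ) ≤ T := by linarith
  have p1 : T ^ 7 * W ≤ T ^ (3 * k + 23) * W :=
    mul_le_mul_of_nonneg_right (pow_le_pow_right₀ hT1 (by omega)) hW0
  have p2 : T * (T ^ 22 * W) ≤ T ^ (3 * k + 23) * W := by
    have h6 : T * (T ^ 22 * W) = T ^ 23 * W := by ring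
    rw [h6]
    exact mul_le_mul_of_nonneg_right (pow_le_pow_right₀ hT1 (by omega)) hW0
  have p3 : T * (T ^ (3 * k + 6) * W) ≤ T ^ (3 * k + 23) * W := by
    have h6 : T * (T ^ (3 * k + 6) * W) = T ^ (3 * k + 7) * W := by ring
    rw [h6]
    exact mul_le_mul_of_nonneg_right (pow_le_pow_right₀ hT1 (by omega)) hW0
  have hcard : (Finset.univ : Finset B3).card = 8 := by decide
  have q1 : ‖∑ b : B3, ((A b - A' b) + (B b - B' b))‖ ≤
      8 * (C2 * (16 * (T ^ 22 * W)) + C3 * (k * (T ^ (3 * k + 6) * W))) := by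
    calc ‖∑ b : B3, ((A b - A' b) + (B b - B' b))‖
        ≤ ∑ b : B3, ‖(A b - A' b) + (B b - B' b)‖ := norm_sum_le _ _
      _ ≤ ∑ b : B3, (C2 * (16 * (T ^ 22 * W)) + C3 * (k * (T ^ (3 * k + 6) * W))) :=
          Finset.sum_le_sum fun b _ => (norm_add_le _ _).trans (add_le_add (g2 b) (g3 b))
      _ = 8 * (C2 * (16 * (T ^ 22 * W)) + C3 * (k * (T ^ (3 * k + 6) * W))) := by
          rw [Finset.sum_const, hcard, nsmul_eq_mul]
          norm_num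
  have hTT : T ^ (3 * k + 23) * W ≤ T ^ (-(3 : ℝ)) := by
    rw [hWdef, ← Real.rpow_natCast, ← Real.rpow_add hTpos]
    refine Real.rpow_le_rpow_of_exponent_le hT1 ?_
    push_cast
    have : (0 : ℝ) ≤ k := Nat.cast_nonneg k
    linarith
  rw [g0]
  refine (norm_add_le _ _).trans ?_
  rw [norm_mul, Complex.norm_real, Real.norm_of_nonneg hr0]
  have q2 : r * ‖∑ b : B3, ((A b - A' b) + (B b - B' b))‖ ≤
      T * (8 * (C2 * (16 * (T ^ 22 * W)) + C3 * (k * (T ^ (3 * k + 6) * W)))) :=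
    mul_le_mul hrT q1 (norm_nonneg _) (by linarith)
  have q3 : C1 * (T ^ 7 * W) ≤ C1 * (T ^ (3 * k + 23) * W) :=
    mul_le_mul_of_nonneg_left p1 hC1.le
  have q4 : T * (8 * (C2 * (16 * (T ^ 22 * W)) + C3 * (k * (T ^ (3 * k + 6) * W)))) ≤
      (128 * C2 + 8 * C3 * k) * (T ^ (3 * k + 23) * W) := by
    have h6 : T * (8 * (C2 * (16 * (T ^ 22 * W)) + C3 * (k * (T ^ (3 * k + 6) * W)))) =
        128 * C2 * (T * (T ^ 22 * W)) + 8 * C3 * k * (T * (T ^ (3 * k + 6) * W)) := by ring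
    rw [h6, add_mul]
    exact add_le_add (mul_le_mul_of_nonneg_left p2 (by positivity))
      (mul_le_mul_of_nonneg_left p3 (by positivity))
  have q5 : (C1 + 128 * C2 + 8 * C3 * k) * (T ^ (3 * k + 23) * W) ≤ T * T ^ (-(3 : ℝ)) :=
    mul_le_mul hTC hTT (by positivity) (by linarith)
  have q6 : T * T ^ (-(3 : ℝ)) = T ^ (-(2 : ℝ)) := by
    nth_rewrite 1 [← Real.rpow_one T]
    rw [← Real.rpow_add hTpos]
    norm_num
  rw [← q6]
  have q7 : (C1 + 128 * C2 + 8 * C3 * k) * (T ^ (3 * k + 23) * W) =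
      C1 * (T ^ (3 * k + 23) * W) + (128 * C2 + 8 * C3 * k) * (T ^ (3 * k + 23) * W) := by ring
  linarith [f1, g1]

end Pool.Agent.LibSM56A
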