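import Pool.Agent.LibSM56A.A_Defs
import Pool.Agent.LibPH.X12
import Pool.Agent.LibSM47.B_03

/-! ROW A_K (SHORT): basic facts about `K(w)`, `ν e^{-iw/2}` and moments of `ν`.

KK_re, KK_norm: `LibPH.th_bd` with `n = m = 1` and `th_KK`. nv_norm: `‖e^{-iw/2}‖ = e^{-ξ/2} ≤ 2` for `|ξ| ≤ 1/4` (`w = wq T ξ`).
nu_momN: same proof as `nu_mom` (B_03) with `8` replaced by `N`: `(1+|x|)^N e^{-x²/2} ≤ C_N e^{-x²/4}`. -/

set_option autoImplicit false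

namespace Pool.Agent.LibSM56A

open MeasureTheory Set Filter Topology Complex
open Pool.Agent.LibSM47

theorem th_KK (m n : ℕ) (w : ℂ) : LibPH.th n m w = (((n : ℝ) / m : ℝ) : ℂ) * KK w := by
  rw [LibPH.x12_th_eq]
  unfold KK
  push_cast
  ring

theorem KK_re {w : ℂ} (h0 : 0 < w.re) (h1 : ‖w‖ ≤ 1 / 2) : w.re ≤ (KK w).re := by
  have h := (LibPH.th_bd (m := 1) (n := 1) le_rfl le_rfl h0 h1).1
  have e : LibPH.th 1 1 w = KK w := by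
    rw [th_KK]
    norm_num
  rw [e] at h
  norm_num at h
  exact h

theorem KK_norm {w : ℂ} (h0 : 0 < w.re) (h1 : ‖w‖ ≤ 1 / 2) : ‖KK w‖ ≤ 10 * ‖w‖ := by
  have h := (LibPH.th_bd (m := 1) (n := 1) le_rfl le_rfl h0 h1).2.1
  have e : LibPH.th 1 1 w = KK w := by
    rw [th_KK]
    norm_num
  rw [e] at h
  norm_num at h
  exact h

theorem wq_half {T ξ : ℝ} (hT : 4 ≤ T) (hξ : ξ ∈ Icc (-(1 / 4) : ℝ) (1 / 4)) : ‖wq T ξ‖ ≤ 1 / 2 := by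
  have hT0 : 0 < T := by linarith
  refine (wq_norm_le hT0 ξ).trans ?_
  have h1 : 1 / T ≤ 1 / 4 := one_div_le_one_div_of_le (by norm_num) hT
  have h2 : |ξ| ≤ 1 / 4 := abs_le.2 ⟨hξ.1, hξ.2⟩
  linarith

theorem KK_cont (T : ℝ) : Continuous (fun ξ : ℝ => KK (wq T ξ)) := by
  have h := wq_cont T
  unfold KK
  fun_prop

theorem nv_cont (T V u : ℝ) : Continuous (nv T V u) := by
  have h := wq_cont T
  have h2 := nu_cont T V u
  unfold nv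
  fun_prop

theorem nv_norm (T V u : ℝ) {ξ : ℝ} (hξ : ξ ∈ Icc (-(1 / 4) : ℝ) (1 / 4)) : ‖nv T V u ξ‖ ≤ 2 * ‖nu T V u ξ‖ := by
  unfold nv
  rw [norm_mul]
  refine mul_le_mul_of_nonneg_right ?_ (norm_nonneg _)
  rw [Complex.norm_exp]
  have h1 : (-(I * wq T ξ / 2)).re = -ξ / 2 := by
    have h2 : -(I * wq T ξ / 2) = ((1 / 2 : ℝ) : ℂ) * (-(I * wq T ξ)) := by
      push_cast
      ring
    rw [h2, Complex.re_ofReal_mul, Complex.neg_re, Complex.mul_re, Complex.I_re, Complex.I_im, wq_im]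
    ring
  rw [h1]
  have h3 : -ξ / 2 ≤ 1 / 8 := by linarith [hξ.1]
  refine (Real.exp_le_exp.2 h3).trans ?_
  have h4 : Real.exp (1 / 8) ≤ 1 / (1 - 1 / 8) := by
    have h5 := Real.add_one_le_exp (-(1 / 8) : ℝ)
    rw [Real.exp_neg] at h5
    have h6 := Real.exp_pos (1 / 8 : ℝ)
    rw [le_div_iff₀ (by norm_num)]
    have h7 : (-(1 / 8) + 1) * Real.exp (1 / 8) ≤ (Real.exp (1 / 8))⁻¹ * Real.exp (1 / 8) :=
      mul_le_mul_of_nonneg_right h5 h6.le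
    rw [inv_mul_cancel₀ h6.ne'] at h7
    linarith
  refine h4.trans ?_
  norm_num

private theorem ak_poly (N : ℕ) (x : ℝ) :
    (1 + |x|) ^ N * Real.exp (-(x ^ 2 / 2)) ≤ Real.exp ((N : ℝ) ^ 2) * Real.exp (-(x ^ 2 / 4)) := by
  have h1 : 1 + |x| ≤ Real.exp |x| := by linarith [Real.add_one_le_exp |x|]
  have h2 : (1 + |x|) ^ N ≤ Real.exp ((N : ℝ) * |x|) := by
    rw [Real.exp_nat_mul]
    exact pow_le_pow_left₀ (by positivity) h1 N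
  have h3 : (N : ℝ) * |x| ≤ x ^ 2 / 4 + (N : ℝ) ^ 2 := by
    have := sq_nonneg (|x| / 2 - (N : ℝ))
    have h4 : |x| ^ 2 = x ^ 2 := sq_abs x
    nlinarith
  calc (1 + |x|) ^ N * Real.exp (-(x ^ 2 / 2)) ≤ Real.exp (x ^ 2 / 4 + (N : ℝ) ^ 2) * Real.exp (-(x ^ 2 / 2)) := by
        refine mul_le_mul_of_nonneg_right (h2.trans (Real.exp_le_exp.2 h3)) (Real.exp_pos _).le
    _ = _ := by
        rw [← Real.exp_add, ← Real.exp_add]
        congr 1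
        ring

theorem nu_momN (N : ℕ) (δ : ℝ) (hδ : 0 < δ) (hδ1 : δ ≤ 1 / 10) :
    ∃ C T₀ : ℝ, 0 < C ∧ ∀ T : ℝ, T₀ ≤ T → ∀ u : ℝ, 0 ≤ u → u ≤ T →
      ∫ ξ in Icc (-(1 / 4) : ℝ) (1 / 4), (‖wq T ξ‖ / (wq T ξ).re) ^ N * ‖nu T (T ^ (1 - δ)) u ξ‖ ≤
        C * T ^ (((N : ℝ) + 1) * δ - 1) := by
  refine ⟨Real.exp ((N : ℝ) ^ 2) * 4, 1, by positivity, fun T hT u hu0 hu => ?_⟩
  have hT0 : 0 < T := by linarith
  set V := T ^ (1 - δ) with hVdef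
  have hV : 0 < V := Real.rpow_pos_of_pos hT0 _
  have hVT : V ≤ T := by
    calc V = T ^ (1 - δ) := rfl
      _ ≤ T ^ (1 : ℝ) := Real.rpow_le_rpow_of_exponent_le hT (by linarith)
      _ = T := Real.rpow_one T
  have hTV : T = T ^ δ * V := by
    rw [hVdef, ← Real.rpow_add hT0]
    simp
  have hTd : 1 ≤ T ^ δ := Real.one_le_rpow hT hδ.le
  have hg := gauss_int (b := V ^ 2 / 4) (by positivity)
  have hpt : ∀ ξ : ℝ, (‖wq T ξ‖ / (wq T ξ).re) ^ N * ‖nu T V u ξ‖ ≤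
      T ^ ((N : ℝ) * δ) * Real.exp ((N : ℝ) ^ 2) * Real.exp (-(V ^ 2 / 4 * ξ ^ 2)) := by
    intro ξ
    have h1 : ‖wq T ξ‖ / (wq T ξ).re ≤ T ^ δ * (1 + |V * ξ|) := by
      rw [wq_re, div_le_iff₀ (by positivity)]
      refine (wq_norm_le hT0 ξ).trans ?_
      rw [abs_mul, abs_of_pos hV]
      have h2 : T ^ δ * (1 + V * |ξ|) * (1 / T) = T ^ δ * (1 / T) + (T ^ δ * V) * |ξ| * (1 / T) := by ring
      rw [h2, ← hTV]
      have h3 : T * |ξ| * (1 / T) = |ξ| := by field_simp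
      rw [h3]
      have h4 : 1 / T ≤ T ^ δ * (1 / T) := by
        have : 0 < 1 / T := by positivity
        nlinarith
      linarith
    have h5 : 0 ≤ ‖wq T ξ‖ / (wq T ξ).re := by
      rw [wq_re]
      positivity
    have h6 : (‖wq T ξ‖ / (wq T ξ).re) ^ N ≤ T ^ ((N : ℝ) * δ) * (1 + |V * ξ|) ^ N := by
      refine (pow_le_pow_left₀ h5 h1 N).trans (le_of_eq ?_)
      rw [mul_pow, ← Real.rpow_natCast (T ^ δ), ← Real.rpow_mul hT0.le]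
      congr 2
      ring
    have h7 := nu_norm hT hV hVT hu ξ
    have h8 := ak_poly N (V * ξ)
    have h9 : 0 < T ^ ((N : ℝ) * δ) := Real.rpow_pos_of_pos hT0 _
    calc (‖wq T ξ‖ / (wq T ξ).re) ^ N * ‖nu T V u ξ‖
        ≤ (T ^ ((N : ℝ) * δ) * (1 + |V * ξ|) ^ N) * Real.exp (-(V ^ 2 * ξ ^ 2 / 2)) := by
          refine mul_le_mul h6 h7 (norm_nonneg _) (by positivity)
      _ = T ^ ((N : ℝ) * δ) * ((1 + |V * ξ|) ^ N * Real.exp (-((V * ξ) ^ 2 / 2))) := by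
          rw [mul_pow V ξ 2]; ring
      _ ≤ T ^ ((N : ℝ) * δ) * (Real.exp ((N : ℝ) ^ 2) * Real.exp (-((V * ξ) ^ 2 / 4))) := by gcongr
      _ = _ := by
          have : -((V * ξ) ^ 2 / 4) = -(V ^ 2 / 4 * ξ ^ 2) := by ring
          rw [this]
          ring
  have hint := hg.const_mul (T ^ ((N : ℝ) * δ) * Real.exp ((N : ℝ) ^ 2))
  have h1 : ∫ ξ in Icc (-(1 / 4) : ℝ) (1 / 4), (‖wq T ξ‖ / (wq T ξ).re) ^ N * ‖nu T V u ξ‖ ≤
      ∫ ξ in Icc (-(1 / 4) : ℝ) (1 / 4), T ^ ((N : ℝ) * δ) * Real.exp ((N : ℝ) ^ 2) * Real.exp (-(V ^ 2 / 4 * ξ ^ 2)) := by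
    refine integral_mono_of_nonneg (ae_of_all _ fun ξ => ?_) hint.integrableOn (ae_of_all _ fun ξ => hpt ξ)
    have : 0 ≤ ‖wq T ξ‖ / (wq T ξ).re := by
      rw [wq_re]
      positivity
    positivity
  have h2 : ∫ ξ in Icc (-(1 / 4) : ℝ) (1 / 4), T ^ ((N : ℝ) * δ) * Real.exp ((N : ℝ) ^ 2) * Real.exp (-(V ^ 2 / 4 * ξ ^ 2)) ≤
      ∫ ξ : ℝ, T ^ ((N : ℝ) * δ) * Real.exp ((N : ℝ) ^ 2) * Real.exp (-(V ^ 2 / 4 * ξ ^ 2)) := by
    refine setIntegral_le_integral hint (ae_of_all _ fun ξ => ?_)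
    have : 0 < T ^ ((N : ℝ) * δ) := Real.rpow_pos_of_pos hT0 _
    positivity
  have h5 : ∫ ξ : ℝ, Real.exp (-(V ^ 2 / 4 * ξ ^ 2)) = √(Real.pi / (V ^ 2 / 4)) := by
    have := integral_gaussian (V ^ 2 / 4)
    simpa [neg_mul] using this
  have h6 : √(Real.pi / (V ^ 2 / 4)) ≤ 4 / V := by
    rw [Real.sqrt_le_left (by positivity), div_le_iff₀ (by positivity)]
    have : (4 / V) ^ 2 * (V ^ 2 / 4) = 4 := by
      field_simp
    rw [this]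
    linarith [Real.pi_le_four]
  refine h1.trans (h2.trans ?_)
  rw [integral_const_mul, h5]
  have h7 : 0 < T ^ ((N : ℝ) * δ) := Real.rpow_pos_of_pos hT0 _
  have h8 : T ^ (((N : ℝ) + 1) * δ - 1) = T ^ ((N : ℝ) * δ) / V := by
    rw [hVdef, ← Real.rpow_sub hT0]
    congr 1
    ring
  rw [h8]
  calc T ^ ((N : ℝ) * δ) * Real.exp ((N : ℝ) ^ 2) * √(Real.pi / (V ^ 2 / 4)) ≤
        T ^ ((N : ℝ) * δ) * Real.exp ((N : ℝ) ^ 2) * (4 / V) := by gcongr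
    _ = Real.exp ((N : ℝ) ^ 2) * 4 * (T ^ ((N : ℝ) * δ) / V) := by ring

end Pool.Agent.LibSM56A
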