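import Pool.Agent.LibSM56A.A_Defs
import Pool.Agent.LibSM47.R_3

/-! ROW A_R1 (SHORT): `F3` near `2πi n/m` with `E3` kept. Template: `polar_ref` in Pool/Agent/LibSM47/R_3.lean: copy the private lemma `R_3_key` (identity)
and use `SR.I3_sum η hη` for the remaining sum (`r^5 ≤ r^8`, `r = ‖θ‖/θ.re ≥ 1`). -/

set_option autoImplicit false

namespace Pool.Agent.LibSM56A

open MeasureTheory Set Filter Topology Complex
open Pool.Agent.LibSM47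
open Pool.Agent.LibPH (C2 G0 Hn F3)

private theorem AR1_key (n : ℕ) {m : ℕ} (hm : 1 ≤ m) {θ : ℂ} (hθ : 0 < θ.re) :
    F3 (θ + ((2 * Real.pi * n / m : ℝ) : ℂ) * I) - C2 (fun s => G0 s * Hn m s * θ ^ (-(1 + s))) =
      LibPH.E3 n m θ + (3 * ∑ e ∈ m.divisors, ((ArithmeticFunction.moebius e : ℤ) : ℂ) *
        ((m / e).divisors.card : ℂ) * LibPH.I3 (((m * e : ℕ) : ℂ) * θ) -
      3 / m * ∑ d ∈ m.divisors, (Nat.totient d : ℂ) * LibPH.I3 ((d : ℂ) * θ) +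
        1 / m * LibPH.fB m 0 * LibPH.I3 θ) := by
  have hθ0 : θ ≠ 0 := by
    intro h
    rw [h, Complex.zero_re] at hθ
    exact lt_irrefl _ hθ
  rw [LibPH.F3_shift hm hθ, LibPH.x12a_polar hm hθ0]
  have hF : ∀ k : ℕ, 1 ≤ k →
      F3 ((k : ℂ) * θ) = LibPH.I3 ((k : ℂ) * θ) + LibPH.P3 ((k : ℂ) * θ) := by
    intro k hk
    have hk' : (1 : ℝ) ≤ k := by exact_mod_cast hk
    apply LibPH.F3_eq
    rw [← Complex.ofReal_natCast, Complex.re_ofReal_mul]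
    positivity
  have s1 : ∑ e ∈ m.divisors, ((ArithmeticFunction.moebius e : ℤ) : ℂ) *
      ((m / e).divisors.card : ℂ) * F3 (((m * e : ℕ) : ℂ) * θ) =
      (∑ e ∈ m.divisors, ((ArithmeticFunction.moebius e : ℤ) : ℂ) *
      ((m / e).divisors.card : ℂ) * LibPH.I3 (((m * e : ℕ) : ℂ) * θ)) +
      ∑ e ∈ m.divisors, ((ArithmeticFunction.moebius e : ℤ) : ℂ) *
      ((m / e).divisors.card : ℂ) * LibPH.P3 (((m * e : ℕ) : ℂ) * θ) := by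
    rw [← Finset.sum_add_distrib]
    refine Finset.sum_congr rfl fun e he => ?_
    rw [hF _ (Nat.mul_pos hm (LibPH.x12a_pos he))]
    ring
  have s2 : ∑ d ∈ m.divisors, (Nat.totient d : ℂ) * F3 ((d : ℂ) * θ) =
      (∑ d ∈ m.divisors, (Nat.totient d : ℂ) * LibPH.I3 ((d : ℂ) * θ)) +
      ∑ d ∈ m.divisors, (Nat.totient d : ℂ) * LibPH.P3 ((d : ℂ) * θ) := by
    rw [← Finset.sum_add_distrib]
    refine Finset.sum_congr rfl fun d hd => ?_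
    rw [hF _ (LibPH.x12a_pos hd)]
    ring
  have s3 : F3 θ = LibPH.I3 θ + LibPH.P3 θ := LibPH.F3_eq hθ
  rw [s1, s2, s3]
  ring

theorem polar_V (η : ℝ) (hη : 0 < η) : ∃ C : ℝ, 0 < C ∧ ∀ m n : ℕ, 1 ≤ m → ∀ θ : ℂ, 0 < θ.re →
    ‖F3 (θ + ((2 * Real.pi * n / m : ℝ) : ℂ) * I) - C2 (fun s => G0 s * Hn m s * θ ^ (-(1 + s))) - LibPH.E3 n m θ‖ ≤
      C * ((m : ℝ) ^ (-(1 / 2) + η) * ‖θ‖ ^ (-(1 / 2) : ℝ)) * (‖θ‖ / θ.re) ^ 8 := by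
  obtain ⟨C3, hC3, h3⟩ := SR.I3_sum η hη
  refine ⟨C3, hC3, fun m n hm θ hθ => ?_⟩
  have hr : 1 ≤ ‖θ‖ / θ.re := by
    rw [one_le_div hθ]
    exact (le_abs_self _).trans (Complex.abs_re_le_norm θ)
  have h6 := h3 m hm θ hθ
  rw [AR1_key n hm hθ, add_sub_cancel_left]
  obtain ⟨Y, hY⟩ : ∃ Y : ℝ, Y = (m : ℝ) ^ (-(1 / 2) + η) * ‖θ‖ ^ (-(1 / 2) : ℝ) := ⟨_, rfl⟩
  obtain ⟨r, hrr⟩ : ∃ r : ℝ, r = ‖θ‖ / θ.re := ⟨_, rfl⟩
  have hY0 : 0 ≤ Y := by rw [hY]; positivity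
  rw [← hrr] at hr
  have hr58 : r ^ 5 ≤ r ^ 8 := pow_le_pow_right₀ hr (by norm_num)
  have h9 : C3 * Y * r ^ 5 ≤ C3 * Y * r ^ 8 := mul_le_mul_of_nonneg_left hr58 (by positivity)
  refine h6.trans ?_
  rw [← hY, ← hrr]
  refine le_trans (le_of_eq ?_) h9
  rw [hY, hrr]
  ring

end Pool.Agent.LibSM56A
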