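import Pool.Agent.LibSM56A.A_R1
import Pool.Agent.LibSM47.R_4

/-! ROW A_R2 (SHORT): `polar_V` at `θ = th n m w`. Template: `F_part` in Pool/Agent/LibSM47/R_4.lean (same estimates `th_bd`, h2, h6; the term `(1+‖θ‖)^η`
is absent). -/

set_option autoImplicit false

namespace Pool.Agent.LibSM56A

open MeasureTheory Set Filter Topology Complex
open Pool.Agent.LibSM47

theorem F_part_V (η : ℝ) (hη : 0 < η) : ∃ C : ℝ, 0 < C ∧ ∀ m n : ℕ, 1 ≤ m → 1 ≤ n → ∀ w : ℂ, 0 < w.re → ‖w‖ ≤ 1 / 2 →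
    ‖LibPH.F3 (LibPH.zw n m w) - LibPH.C2 (fun s => LibPH.G0 s * LibPH.Hn m s * (LibPH.th n m w) ^ (-(1 + s))) -
        LibPH.E3 n m (LibPH.th n m w)‖ ≤
      C * ((m : ℝ) ^ (-(1 / 2) + η) * (√((m : ℝ) / n) * w.re ^ (-(1 / 2) : ℝ))) * (‖w‖ / w.re) ^ 8 := by
  obtain ⟨C1, hC1, hF⟩ := polar_V η hη
  refine ⟨10 ^ 8 * C1, by positivity, fun m n hm hn w h0 h1 => ?_⟩
  have hm' : (1:ℝ) ≤ m := by exact_mod_cast hm
  have hn' : (1:ℝ) ≤ n := by exact_mod_cast hn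
  have hwre : w.re ≤ ‖w‖ := Complex.re_le_norm w
  have hw0 : 0 < ‖w‖ := lt_of_lt_of_le h0 hwre
  obtain ⟨ht1, ht2, -⟩ := LibPH.th_bd hn hm h0 h1
  have hq : 0 < (n:ℝ) / m := by positivity
  have hqw : 0 < (n:ℝ) / m * w.re := by positivity
  have htre : 0 < (LibPH.th n m w).re := by linarith
  have hzth : LibPH.th n m w + ((2 * Real.pi * n / m : ℝ) : ℂ) * I = LibPH.zw n m w := by
    unfold LibPH.th
    ring
  have hF' := hF m n hm (LibPH.th n m w) htre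
  rw [hzth] at hF'
  refine hF'.trans ?_
  clear hF' hzth
  have hnn : (LibPH.th n m w).re ≤ ‖LibPH.th n m w‖ := Complex.re_le_norm _
  have h2 : ‖LibPH.th n m w‖ / (LibPH.th n m w).re ≤ 10 * (‖w‖ / w.re) := by
    rw [div_le_iff₀ htre]
    calc ‖LibPH.th n m w‖ ≤ 10 * ((n:ℝ) / m) * ‖w‖ := ht2
      _ = 10 * (‖w‖ / w.re) * ((n:ℝ) / m * w.re) := by field_simp
      _ ≤ 10 * (‖w‖ / w.re) * (LibPH.th n m w).re := by
          apply mul_le_mul_of_nonneg_left ht1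
          positivity
  have h6 : ‖LibPH.th n m w‖ ^ (-(1 / 2) : ℝ) ≤ √((m : ℝ) / n) * w.re ^ (-(1 / 2) : ℝ) := by
    calc ‖LibPH.th n m w‖ ^ (-(1 / 2) : ℝ) ≤ ((n:ℝ) / m * w.re) ^ (-(1 / 2) : ℝ) :=
          Real.rpow_le_rpow_of_nonpos hqw (ht1.trans hnn) (by norm_num)
      _ = ((n:ℝ) / m) ^ (-(1 / 2) : ℝ) * w.re ^ (-(1 / 2) : ℝ) := Real.mul_rpow hq.le h0.le
      _ = √((m : ℝ) / n) * w.re ^ (-(1 / 2) : ℝ) := by
          rw [Real.rpow_neg hq.le, ← Real.inv_rpow hq.le, inv_div, Real.sqrt_eq_rpow]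
  have hq0 : 0 ≤ ‖LibPH.th n m w‖ / (LibPH.th n m w).re := by positivity
  have h7 : (‖LibPH.th n m w‖ / (LibPH.th n m w).re) ^ 8 ≤ 10 ^ 8 * (‖w‖ / w.re) ^ 8 := by
    calc (‖LibPH.th n m w‖ / (LibPH.th n m w).re) ^ 8 ≤ (10 * (‖w‖ / w.re)) ^ 8 :=
          pow_le_pow_left₀ hq0 h2 8
      _ = _ := by ring
  have hM2 : 0 ≤ (m : ℝ) ^ (-(1 / 2) + η) := by positivity
  have hU : 0 ≤ √((m : ℝ) / n) * w.re ^ (-(1 / 2) : ℝ) := by positivity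
  have hr8 : 0 ≤ (‖w‖ / w.re) ^ 8 := by positivity
  have hs8 : 0 ≤ (‖LibPH.th n m w‖ / (LibPH.th n m w).re) ^ 8 := by positivity
  generalize (m : ℝ) ^ (-(1 / 2) + η) = M2 at *
  generalize √((m : ℝ) / n) * w.re ^ (-(1 / 2) : ℝ) = U at *
  generalize (‖w‖ / w.re) ^ 8 = R at *
  generalize (‖LibPH.th n m w‖ / (LibPH.th n m w).re) ^ 8 = S at *
  generalize ‖LibPH.th n m w‖ ^ (-(1 / 2) : ℝ) = U' at *
  have h10 : M2 * U' ≤ M2 * U := mul_le_mul_of_nonneg_left h6 hM2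
  have h11 : 0 ≤ M2 * U := mul_nonneg hM2 hU
  calc C1 * (M2 * U') * S ≤ C1 * (M2 * U) * (10 ^ 8 * R) := by
        refine mul_le_mul (mul_le_mul_of_nonneg_left h10 hC1.le) h7 hs8 (by positivity)
    _ = 10 ^ 8 * C1 * (M2 * U) * R := by ring

end Pool.Agent.LibSM56A
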