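import Pool.Agent.LibSM56A.A_R2
import Pool.Agent.LibSM47.R_8
import Pool.Agent.LibSM47.E_01

/-! ROW A_R3 (MEDIUM, adaptation): the refined form of `exp21_ref` (Pool/Agent/LibSM47/R_8.lean) with `E3` kept.

Copy the private lemma `R_8_asm` and apply it with `J' = J - A e E`, `F' = F - E`, `Iz' = Iz - E`, `Y = 0` where `E = E3 n m (th n m w)`,
`A = 2π√(n/m)`, `e = cexp (-(I*w/2))`: then `A e Iz' - J' = A e Iz - J`, `Iz' = F' - P`, and `F' - Kt` is bounded by `F_part_V` (use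
`C (0 + 0 + M (S' T2))` in place of `1 + Y + ..`, i.e. it is `≤ C (1 + 0 + M (S' T2))`). `HnRef η` is `EH.Hn_refined η hη` (E_01). -/

set_option autoImplicit false

namespace Pool.Agent.LibSM56A

open MeasureTheory Set Filter Topology Complex
open Pool.Agent.LibSM47

/-- the assembly, with all objects abstract -/
private lemma A_R3_asm (J K Kt Iz F P e : ℂ) (S S' M T4 T2 Y X ρ q q1 v C1 C2' C3 C4 C5 : ℝ)
    (hC1 : 0 < C1) (hC2 : 0 < C2') (hC3 : 0 < C3) (hC4 : 0 < C4) (hC5 : 0 < C5)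
    (hS : 0 ≤ S) (hM : 0 ≤ M) (hT4 : 0 ≤ T4) (hT2 : 0 ≤ T2) (hY : 0 ≤ Y) (hX : 1 ≤ X)
    (hρ : 1 ≤ ρ) (hq : 0 ≤ q) (hq1 : 0 ≤ q1) (hv : 0 < v) (hSS : S * S' = 1)
    (hSq : S * q ≤ 2 * X * T4) (hSq1 : S * q1 ≤ 2 * X)
    (he1 : ‖e - 1‖ ≤ v) (he2 : ‖e‖ ≤ 2) (hIF : Iz = F - P)
    (h1 : ‖((2 * Real.pi * S : ℝ) : ℂ) * e * Iz - J‖ ≤ C1)
    (h2 : ‖F - Kt‖ ≤ C2' * (1 + Y + M * (S' * T2)) * ρ)
    (h3 : ‖Kt - K‖ ≤ C3 * M * q)
    (h4 : ‖P‖ ≤ C4 * q1)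
    (h5 : ‖K‖ ≤ C5 * M * q * v⁻¹) :
    ‖J - ((2 * Real.pi * S : ℝ) : ℂ) * K‖ ≤
      (C1 + 16 * C2' + 32 * C3 + 32 * C4 + 16 * C5) *
        (X * (1 + M * T4) + S * (1 + Y) + M * T2) * ρ := by
  obtain ⟨A, hA⟩ : ∃ A : ℝ, A = 2 * Real.pi * S := ⟨_, rfl⟩
  rw [← hA] at h1 ⊢
  have hpi4 : 2 * Real.pi ≤ 8 := by linarith [Real.pi_le_four]
  have hpi0 : 0 < Real.pi := Real.pi_pos
  have hA0 : 0 ≤ A := by rw [hA]; positivity
  have hA8 : A ≤ 8 * S := by rw [hA]; exact mul_le_mul_of_nonneg_right hpi4 hS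
  have hkey : J - ((A : ℝ) : ℂ) * K =
      -(((A : ℝ) : ℂ) * e * Iz - J) + ((A : ℝ) : ℂ) * e * (F - Kt) +
        ((A : ℝ) : ℂ) * e * (Kt - K) - ((A : ℝ) : ℂ) * e * P +
        ((A : ℝ) : ℂ) * (e - 1) * K := by
    rw [hIF]
    ring
  rw [hkey]
  have hAn : ‖((A : ℝ) : ℂ)‖ = A := by rw [Complex.norm_real, Real.norm_of_nonneg hA0]
  have hAe : ‖((A : ℝ) : ℂ) * e‖ ≤ 16 * S := by
    rw [norm_mul, hAn]
    calc A * ‖e‖ ≤ (8 * S) * 2 := mul_le_mul hA8 he2 (norm_nonneg _) (by positivity)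
      _ = _ := by ring
  have hX0 : 0 ≤ X := by linarith
  have hρ0 : 0 ≤ ρ := by linarith
  obtain ⟨Er, hEr⟩ : ∃ Er : ℝ, Er = X * (1 + M * T4) + S * (1 + Y) + M * T2 := ⟨_, rfl⟩
  rw [← hEr]
  have e1 : X * (1 + M * T4) ≤ Er := by
    have h6 : 0 ≤ S * (1 + Y) := by positivity
    have h7 : 0 ≤ M * T2 := by positivity
    rw [hEr]
    linarith
  have e2 : S * (1 + Y) + M * T2 ≤ Er := by
    have h6 : 0 ≤ X * (1 + M * T4) := by positivity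
    rw [hEr]
    linarith
  have hMT : 0 ≤ M * T4 := by positivity
  have e3 : X ≤ Er := by nlinarith
  have e4 : M * (X * T4) ≤ Er := by nlinarith
  have hEr0 : 0 ≤ Er := le_trans hX0 e3
  have e5 : Er ≤ Er * ρ := by nlinarith
  have b1 : ‖((A : ℝ) : ℂ) * e * Iz - J‖ ≤ C1 * (Er * ρ) := by
    refine h1.trans ?_
    have : 1 ≤ Er * ρ := by linarith
    nlinarith
  have b2 : ‖((A : ℝ) : ℂ) * e * (F - Kt)‖ ≤ 16 * C2' * (Er * ρ) := by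
    rw [norm_mul]
    calc ‖((A : ℝ) : ℂ) * e‖ * ‖F - Kt‖
        ≤ (16 * S) * (C2' * (1 + Y + M * (S' * T2)) * ρ) :=
          mul_le_mul hAe h2 (norm_nonneg _) (by positivity)
      _ = 16 * C2' * ((S * (1 + Y) + M * ((S * S') * T2)) * ρ) := by ring
      _ = 16 * C2' * ((S * (1 + Y) + M * T2) * ρ) := by rw [hSS, one_mul]
      _ ≤ 16 * C2' * (Er * ρ) := by
          apply mul_le_mul_of_nonneg_left _ (by positivity)
          exact mul_le_mul_of_nonneg_right e2 hρ0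
  have b3 : ‖((A : ℝ) : ℂ) * e * (Kt - K)‖ ≤ 32 * C3 * (Er * ρ) := by
    rw [norm_mul]
    calc ‖((A : ℝ) : ℂ) * e‖ * ‖Kt - K‖
        ≤ (16 * S) * (C3 * M * q) := mul_le_mul hAe h3 (norm_nonneg _) (by positivity)
      _ = 16 * C3 * M * (S * q) := by ring
      _ ≤ 16 * C3 * M * (2 * X * T4) := mul_le_mul_of_nonneg_left hSq (by positivity)
      _ = 32 * C3 * (M * (X * T4)) := by ring
      _ ≤ 32 * C3 * (Er * ρ) := mul_le_mul_of_nonneg_left (e4.trans e5) (by positivity)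
  have b4 : ‖((A : ℝ) : ℂ) * e * P‖ ≤ 32 * C4 * (Er * ρ) := by
    rw [norm_mul]
    calc ‖((A : ℝ) : ℂ) * e‖ * ‖P‖
        ≤ (16 * S) * (C4 * q1) := mul_le_mul hAe h4 (norm_nonneg _) (by positivity)
      _ = 16 * C4 * (S * q1) := by ring
      _ ≤ 16 * C4 * (2 * X) := mul_le_mul_of_nonneg_left hSq1 (by positivity)
      _ = 32 * C4 * X := by ring
      _ ≤ 32 * C4 * (Er * ρ) := mul_le_mul_of_nonneg_left (e3.trans e5) (by positivity)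
  have b5 : ‖((A : ℝ) : ℂ) * (e - 1) * K‖ ≤ 16 * C5 * (Er * ρ) := by
    rw [norm_mul, norm_mul, hAn]
    calc A * ‖e - 1‖ * ‖K‖
        ≤ (8 * S) * v * (C5 * M * q * v⁻¹) := by
          apply mul_le_mul _ h5 (norm_nonneg _) (by positivity)
          exact mul_le_mul hA8 he1 (norm_nonneg _) (by positivity)
      _ = 8 * C5 * M * (S * q) := by
          field_simp
      _ ≤ 8 * C5 * M * (2 * X * T4) := mul_le_mul_of_nonneg_left hSq (by positivity)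
      _ = 16 * C5 * (M * (X * T4)) := by ring
      _ ≤ 16 * C5 * (Er * ρ) := mul_le_mul_of_nonneg_left (e4.trans e5) (by positivity)
  have hfin : ‖-(((A : ℝ) : ℂ) * e * Iz - J) +
        ((A : ℝ) : ℂ) * e * (F - Kt) +
        ((A : ℝ) : ℂ) * e * (Kt - K) - ((A : ℝ) : ℂ) * e * P +
        ((A : ℝ) : ℂ) * (e - 1) * K‖ ≤
      ‖((A : ℝ) : ℂ) * e * Iz - J‖ + ‖((A : ℝ) : ℂ) * e * (F - Kt)‖ +
        ‖((A : ℝ) : ℂ) * e * (Kt - K)‖ + ‖((A : ℝ) : ℂ) * e * P‖ +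
        ‖((A : ℝ) : ℂ) * (e - 1) * K‖ := by
    refine (norm_add_le _ _).trans (add_le_add_left ?_ _)
    refine (norm_sub_le _ _).trans (add_le_add_left ?_ _)
    refine (norm_add_le _ _).trans (add_le_add_left ?_ _)
    refine (norm_add_le _ _).trans ?_
    rw [norm_neg]
  refine hfin.trans ?_
  have : (C1 + 16 * C2' + 32 * C3 + 32 * C4 + 16 * C5) * Er * ρ =
      C1 * (Er * ρ) + 16 * C2' * (Er * ρ) + 32 * C3 * (Er * ρ) +
      32 * C4 * (Er * ρ) + 16 * C5 * (Er * ρ) := by ring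
  rw [this]
  linarith

theorem exp21_V (η : ℝ) (hη : 0 < η) : ∃ C : ℝ, 0 < C ∧ ∀ m n : ℕ, 1 ≤ m → 1 ≤ n →
    ∀ w : ℂ, 0 < w.re → ‖w‖ ≤ 1 / 2 →
    ‖(∫ t in Ioi (0:ℝ), LibPH.z21 t * LibPH.tw n m t * cexp (-(w * t))) -
      LibPH.C2 (fun s => LibPH.G0 s * ((2 * Real.pi : ℝ) : ℂ) ^ (-s) * LibPH.kk n m s * w ^ (-(1 + s))) -
      ((2 * Real.pi * √((n : ℝ) / m) : ℝ) : ℂ) * cexp (-(I * w / 2)) * LibPH.E3 n m (LibPH.th n m w)‖ ≤
      C * errA η (1 / w.re) m n * (‖w‖ / w.re) ^ 8 := by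
  have hH : SR.HnRef η := EH.Hn_refined η hη
  obtain ⟨C1, hC1, hI⟩ := LibPH.I3_zw
  obtain ⟨C2', hC2, hF⟩ := F_part_V η hη
  obtain ⟨C3, hC3, hW⟩ := SR.polar_w_ref η hH
  obtain ⟨C4, hC4, hP⟩ := SR.P_part
  obtain ⟨C5, hC5, hK⟩ := SR.K_part η hH
  refine ⟨C1 + 16 * C2' + 32 * C3 + 32 * C4 + 16 * C5, by positivity, ?_⟩
  intro m n hm hn w h0 h1
  have hm' : (0:ℝ) < m := by exact_mod_cast hm
  have hn' : (0:ℝ) < n := by exact_mod_cast hn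
  have hwre : w.re ≤ ‖w‖ := Complex.re_le_norm w
  have hw0 : 0 < ‖w‖ := lt_of_lt_of_le h0 hwre
  have hT1 : 1 ≤ 1 / w.re := by
    rw [le_div_iff₀ h0]
    linarith
  have hρ1 : 1 ≤ (‖w‖ / w.re) ^ 8 := by
    apply one_le_pow₀
    rw [le_div_iff₀ h0]
    linarith
  have hx0 : (0:ℝ) < (m : ℝ) / n := by positivity
  have hxi : 1 / ((m : ℝ) / n) = (n : ℝ) / m := one_div_div _ _
  have hSq := SR.num_x hx0 hT1
  have hSq1 := SR.num_x hx0 (le_refl (1:ℝ))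
  rw [hxi] at hSq hSq1
  rw [Real.one_rpow, mul_one (2 * (1 + (m : ℝ) / n))] at hSq1
  have hSS : √((n : ℝ) / m) * √((m : ℝ) / n) = 1 := by
    rw [← Real.sqrt_mul (by positivity)]
    have : (n : ℝ) / m * ((m : ℝ) / n) = 1 := by field_simp
    rw [this, Real.sqrt_one]
  have hT2 : (1 / w.re) ^ (1 / 2 : ℝ) = w.re ^ (-(1 / 2) : ℝ) := by
    rw [one_div w.re, Real.inv_rpow h0.le, Real.rpow_neg h0.le]
  have hnorm2 : ‖-(I * w / 2)‖ = ‖w‖ / 2 := by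
    rw [norm_neg, norm_div, norm_mul, norm_I, one_mul]
    norm_num
  have he1 : ‖cexp (-(I * w / 2)) - 1‖ ≤ ‖w‖ := by
    have := Complex.norm_exp_sub_one_le (x := -(I * w / 2)) (by rw [hnorm2]; linarith)
    rw [hnorm2] at this
    linarith
  have he2 : ‖cexp (-(I * w / 2))‖ ≤ 2 := by
    have h2 := norm_add_le (cexp (-(I * w / 2)) - 1) 1
    rw [sub_add_cancel, norm_one] at h2
    linarith
  have hIF : LibPH.I3 (LibPH.zw n m w) - LibPH.E3 n m (LibPH.th n m w) =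
      (LibPH.F3 (LibPH.zw n m w) - LibPH.E3 n m (LibPH.th n m w)) - LibPH.P3 (LibPH.zw n m w) := by
    rw [LibPH.F3_eq (LibPH.zw_re hn hm h0 h1)]; ring
  have hI' := hI n m hn hm w h0 h1
  have hF' : ‖(LibPH.F3 (LibPH.zw n m w) - LibPH.E3 n m (LibPH.th n m w)) -
      LibPH.C2 (fun s => LibPH.G0 s * LibPH.Hn m s * (LibPH.th n m w) ^ (-(1 + s)))‖ ≤
      C2' * (1 + 0 + (m : ℝ) ^ (-(1 / 2) + η) * (√((m : ℝ) / n) * w.re ^ (-(1 / 2) : ℝ))) *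
        (‖w‖ / w.re) ^ 8 := by
    have h2 := hF m n hm hn w h0 h1
    rw [sub_right_comm] at h2
    refine h2.trans ?_
    apply mul_le_mul_of_nonneg_right _ (by positivity)
    apply mul_le_mul_of_nonneg_left _ hC2.le
    linarith
  rw [LibPH.x13_K hn hm h0, sub_right_comm]
  unfold errA
  rw [hT2]
  have hE1 : √((n : ℝ) / m) = √((n : ℝ) / m) * (1 + 0) := by ring
  have hE2 : (1 + (m : ℝ) / n) * (1 + (m : ℝ) ^ (-(1 / 2) + η) * (1 / w.re) ^ (1 / 4 : ℝ)) +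
      √((n : ℝ) / m) + (m : ℝ) ^ (-(1 / 2) + η) * w.re ^ (-(1 / 2) : ℝ) =
      (1 + (m : ℝ) / n) * (1 + (m : ℝ) ^ (-(1 / 2) + η) * (1 / w.re) ^ (1 / 4 : ℝ)) +
      √((n : ℝ) / m) * (1 + 0) + (m : ℝ) ^ (-(1 / 2) + η) * w.re ^ (-(1 / 2) : ℝ) := by ring
  rw [hE2]
  refine A_R3_asm _ _ _ _ _ _ _ (√((n : ℝ) / m)) (√((m : ℝ) / n)) ((m : ℝ) ^ (-(1 / 2) + η))
    ((1 / w.re) ^ (1 / 4 : ℝ)) (w.re ^ (-(1 / 2) : ℝ))
    0 (1 + (m : ℝ) / n)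
    ((‖w‖ / w.re) ^ 8) ((m : ℝ) / n * ((n : ℝ) / m + (m : ℝ) / n * (1 / w.re)) ^ (1 / 4 : ℝ))
    ((m : ℝ) / n * ((n : ℝ) / m + (m : ℝ) / n * 1) ^ (1 / 4 : ℝ)) ‖w‖ C1 C2' C3 C4 C5
    hC1 hC2 hC3 hC4 hC5 (Real.sqrt_nonneg _) (Real.rpow_nonneg hm'.le _)
    (Real.rpow_nonneg (by positivity) _) (Real.rpow_nonneg h0.le _) le_rfl (by linarith)
    hρ1 (by positivity) (by positivity) hw0 hSS hSq hSq1 he1 he2 hIF
    ?_ hF' (hW m n hm hn w h0 h1)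
    (hP m n hm hn w h0 h1) (hK m n hm hn w h0 h1)
  have hfin : ((2 * Real.pi * √((n : ℝ) / m) : ℝ) : ℂ) * cexp (-(I * w / 2)) *
        (LibPH.I3 (LibPH.zw n m w) - LibPH.E3 n m (LibPH.th n m w)) -
      ((∫ t in Ioi (0:ℝ), LibPH.z21 t * LibPH.tw n m t * cexp (-(w * t))) -
        ((2 * Real.pi * √((n : ℝ) / m) : ℝ) : ℂ) * cexp (-(I * w / 2)) *
          LibPH.E3 n m (LibPH.th n m w)) =
      ((2 * Real.pi * √((n : ℝ) / m) : ℝ) : ℂ) * cexp (-(I * w / 2)) *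
        LibPH.I3 (LibPH.zw n m w) -
      (∫ t in Ioi (0:ℝ), LibPH.z21 t * LibPH.tw n m t * cexp (-(w * t))) := by
    ring
  rw [hfin]
  exact hI'

end Pool.Agent.LibSM56A
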