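import Pool.Agent.LibSM56A.A_R3
import Pool.Agent.LibSM56A.A_K
import Pool.Agent.LibSM47.D_A2
import Pool.Agent.LibSM47.E_07b
import Pool.Agent.LibSM47.D_G

/-! ROW A_R4 (MEDIUM, adaptation): `II` as a C2 plus `VV`. Template: `II_C2` in Pool/Agent/LibSM47/E_07b.lean.

E3_cont: `LibPH.E3 n m θ = SD.AA m (n : ZMod m) θ` (`SD.E3_bridge n m`), a series with terms `‖Ph‖ ≤ 8` (`SD.Ph_norm`) times `e^{-κ pr a}`; on
`{κ | c < κ.re}` dominated by `8 e^{-c pr a}` (`SD.summable_exp`): `continuousOn_tsum` (locally). -/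

set_option autoImplicit false

namespace Pool.Agent.LibSM56A

open MeasureTheory Set Filter Topology Complex
open Pool.Agent.LibSM47

theorem E3_cont (m n : ℕ) (hm : 1 ≤ m) : ContinuousOn (fun θ : ℂ => LibPH.E3 n m θ) {θ : ℂ | 0 < θ.re} := by
  have : NeZero m := ⟨by omega⟩
  have hE : (fun θ : ℂ => LibPH.E3 n m θ) = fun θ : ℂ => ∑' a : SD.Tr, SD.Ph m (n : ZMod m) (SD.red m a) * cexp (-θ * SD.pr a) := by
    funext θ
    rw [SD.E3_bridge n m θ]
    rfl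
  rw [hE]
  intro θ₀ hθ₀
  have hθ₀' : 0 < θ₀.re := hθ₀
  set c : ℝ := θ₀.re / 2 with hc
  have hc0 : 0 < c := by positivity
  have hcl : c < θ₀.re := by
    rw [hc]
    linarith
  set U : Set ℂ := {θ : ℂ | c < θ.re} with hU
  have hUo : IsOpen U := isOpen_lt continuous_const Complex.continuous_re
  have hsum : Summable fun a : SD.Tr => 8 * ‖cexp (-(c : ℂ) * SD.pr a)‖ :=
    (SD.summable_exp (κ := (c : ℂ)) (by rw [Complex.ofReal_re]; exact hc0)).mul_left 8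
  have hcon : ContinuousOn (fun θ : ℂ => ∑' a : SD.Tr, SD.Ph m (n : ZMod m) (SD.red m a) * cexp (-θ * SD.pr a)) U := by
    refine continuousOn_tsum (fun a => ?_) hsum (fun a θ hθ => ?_)
    · exact Continuous.continuousOn (by fun_prop)
    · rw [norm_mul]
      refine mul_le_mul (SD.Ph_norm m _ _) ?_ (norm_nonneg _) (by norm_num)
      rw [Complex.norm_exp, Complex.norm_exp, Real.exp_le_exp]
      have h1 : (-θ * (SD.pr a : ℂ)).re = -(θ.re * SD.pr a) := by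
        rw [← Complex.ofReal_natCast, Complex.re_mul_ofReal, Complex.neg_re, neg_mul]
      have h2 : (-(c : ℂ) * (SD.pr a : ℂ)).re = -(c * SD.pr a) := by
        rw [← Complex.ofReal_natCast, Complex.re_mul_ofReal, Complex.neg_re, neg_mul, Complex.ofReal_re]
      rw [h1, h2]
      have h3 : (0 : ℝ) ≤ SD.pr a := Nat.cast_nonneg _
      have h4 : c < θ.re := hθ
      nlinarith
  exact ((hcon.continuousAt (hUo.mem_nhds hcl)).continuousWithinAt)

/-- The integrand of `VV` is integrable. -/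
theorem VV_int (T V u : ℝ) (hT : 4 ≤ T) (m n : ℕ) (hm : 1 ≤ m) (hn : 1 ≤ n) :
    IntegrableOn (fun ξ : ℝ => nv T V u ξ * LibPH.E3 n m (LibPH.th n m (wq T ξ))) (Icc (-(1 / 4) : ℝ) (1 / 4)) := by
  have hT0 : 0 < T := by linarith
  have hm0 : (0 : ℝ) < m := by exact_mod_cast hm
  have hn0 : (0 : ℝ) < n := by exact_mod_cast hn
  refine ContinuousOn.integrableOn_compact isCompact_Icc ?_
  refine ContinuousOn.mul (nv_cont T V u).continuousOn ?_
  have h1 : ContinuousOn (fun ξ : ℝ => LibPH.th n m (wq T ξ)) (Icc (-(1 / 4) : ℝ) (1 / 4)) := by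
    have h2 : (fun ξ : ℝ => LibPH.th n m (wq T ξ)) = fun ξ : ℝ => (((n : ℝ) / m : ℝ) : ℂ) * KK (wq T ξ) := by
      funext ξ
      exact th_KK m n _
    rw [h2]
    exact (continuous_const.mul (KK_cont T)).continuousOn
  refine (E3_cont m n hm).comp h1 ?_
  intro ξ hξ
  show 0 < (LibPH.th n m (wq T ξ)).re
  rw [th_KK, Complex.re_ofReal_mul]
  have hre : (wq T ξ).re = 1 / T := EH.wq_re T ξ
  have hre0 : 0 < (wq T ξ).re := by
    rw [hre]
    positivity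
  have h3 := KK_re hre0 (wq_half hT hξ)
  exact mul_pos (by positivity) (lt_of_lt_of_le hre0 h3)

private theorem A_R4_pow {a : ℂ} (ha : a ∈ Complex.slitPlane) {f : ℂ → ℂ} {s : ℂ}
    (hf : AnalyticAt ℂ f s) : AnalyticAt ℂ (fun s => a ^ (f s)) s :=
  AnalyticAt.cpow analyticAt_const hf ha

private theorem A_R4_B {m n : ℕ} (hm : 1 ≤ m) (hn : 1 ≤ n) {s : ℂ} (hs : ‖s‖ ≤ 1 / 4) :
    AnalyticAt ℂ (fun s => LibPH.G0 s * ((2 * Real.pi : ℝ) : ℂ) ^ (-s) * LibPH.kk n m s) s := by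
  have hid : AnalyticAt ℂ (fun s : ℂ => s) s := analyticAt_id
  have hm1 : (m : ℂ) ∈ Complex.slitPlane := by
    left
    simpa using (show 0 < m by omega)
  have hn1 : (n : ℂ) ∈ Complex.slitPlane := by
    left
    simpa using (show 0 < n by omega)
  have hp1 : ((2 * Real.pi : ℝ) : ℂ) ∈ Complex.slitPlane := by
    left
    rw [Complex.ofReal_re]
    positivity
  have h1 : AnalyticAt ℂ (fun s : ℂ => 1 / 2 + s) s := analyticAt_const.add hid
  refine ((LibPH.G0_analytic (by linarith)).mul (A_R4_pow hp1 hid.neg)).mul ?_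
  unfold LibPH.kk
  exact ((A_R4_pow hm1 h1).mul (A_R4_pow hn1 h1.neg)).mul (LibPH.Hn_analytic hm s)

theorem II_C2_V (ε₁ δ η : ℝ) (hε1 : 0 < ε₁) (hδ : 0 < δ) (hδ1 : δ ≤ 1 / 100) (hη : 0 < η) :
    ∃ C T₀ : ℝ, 0 < C ∧ ∀ T : ℝ, T₀ ≤ T → ∀ u : ℝ, ε₁ * T ≤ u → u ≤ T → ∀ m n : ℕ, 1 ≤ m → 1 ≤ n →
      ‖II (T ^ (1 - δ)) u m n
        - LibPH.C2 (fun s => LibPH.G0 s * ((2 * Real.pi : ℝ) : ℂ) ^ (-s) * LibPH.kk n m s * EH.Kint T (T ^ (1 - δ)) u s)
        - VV T (T ^ (1 - δ)) u m n‖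
      ≤ T ^ (-2 : ℝ) + C * T ^ (9 * δ - 1) * errA η T m n := by
  obtain ⟨T1, hII⟩ := II_exp ε₁ δ hε1 hδ (by linarith)
  obtain ⟨Cn, T2, hCn, hnu⟩ := nu_mom δ hδ (by linarith)
  obtain ⟨Ce, hCe, hexp⟩ := exp21_V η hη
  refine ⟨Ce * Cn, max (max T1 T2) 4, by positivity, ?_⟩
  intro T hT u hu1 hu2 m n hm hn
  have hT1 : T1 ≤ T := (le_max_left _ _).trans ((le_max_left _ _).trans hT)
  have hT2 : T2 ≤ T := (le_max_right _ _).trans ((le_max_left _ _).trans hT)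
  have hT4 : 4 ≤ T := (le_max_right _ _).trans hT
  have hT0 : 0 < T := by linarith
  have hu0 : 0 ≤ u := (mul_nonneg hε1.le hT0.le).trans hu1
  set V : ℝ := T ^ (1 - δ) with hV
  set S : Set ℝ := Icc (-(1 / 4) : ℝ) (1 / 4) with hS
  set B : ℂ → ℂ := fun s => LibPH.G0 s * ((2 * Real.pi : ℝ) : ℂ) ^ (-s) * LibPH.kk n m s with hB
  set Lf : ℝ → ℂ := fun ξ => ∫ t in Ioi (0 : ℝ), LibPH.z21 t * LibPH.tw n m t * cexp (-(wq T ξ * t)) with hLf
  set Cf : ℝ → ℂ := fun ξ => LibPH.C2 (fun s => B s * (wq T ξ) ^ (-(1 + s))) with hCf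
  set A : ℂ := ((2 * Real.pi * √((n : ℝ) / m) : ℝ) : ℂ) with hA
  set Ef : ℝ → ℂ := fun ξ => A * cexp (-(I * wq T ξ / 2)) * LibPH.E3 n m (LibPH.th n m (wq T ξ)) with hEf
  obtain ⟨hCi, hsw⟩ := EH.C2_swap T V u hT0 B fun s hs => A_R4_B hm hn hs
  have hLi : IntegrableOn (fun ξ => Lf ξ * nu T V u ξ) S :=
    ((EH.lap_cont T hT0 m n).mul (EH.nu_cont T V u)).continuousOn.integrableOn_compact isCompact_Icc
  have hEe : (fun ξ => Ef ξ * nu T V u ξ) = fun ξ => A * (nv T V u ξ * LibPH.E3 n m (LibPH.th n m (wq T ξ))) := by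
    funext ξ
    rw [hEf]
    unfold nv
    ring
  have hEi : IntegrableOn (fun ξ => Ef ξ * nu T V u ξ) S := by
    rw [hEe]
    exact (VV_int T V u hT4 m n hm hn).const_mul A
  have hEV : ∫ ξ in S, Ef ξ * nu T V u ξ = VV T V u m n := by
    rw [hEe, integral_const_mul]
    rfl
  have h1 := hII T hT1 u hu1 hu2 m n hm hn
  have herr0 : 0 ≤ errA η T m n := by
    unfold errA
    positivity
  have hpt : ∀ ξ ∈ S, ‖Lf ξ * nu T V u ξ - Cf ξ * nu T V u ξ - Ef ξ * nu T V u ξ‖ ≤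
      Ce * errA η T m n * ((‖wq T ξ‖ / (wq T ξ).re) ^ 8 * ‖nu T V u ξ‖) := by
    intro ξ hξ
    have hre : (wq T ξ).re = 1 / T := EH.wq_re T ξ
    have hre0 : 0 < (wq T ξ).re := by
      rw [hre]
      positivity
    have hnorm : ‖wq T ξ‖ ≤ 1 / 2 := wq_half hT4 hξ
    have h2 := hexp m n hm hn (wq T ξ) hre0 hnorm
    rw [hre, one_div_one_div, ← hre] at h2
    rw [← sub_mul, ← sub_mul, norm_mul]
    calc ‖Lf ξ - Cf ξ - Ef ξ‖ * ‖nu T V u ξ‖
        ≤ (Ce * errA η T m n * (‖wq T ξ‖ / (wq T ξ).re) ^ 8) * ‖nu T V u ξ‖ :=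
          mul_le_mul_of_nonneg_right h2 (norm_nonneg _)
      _ = _ := by ring
  have h2 : ‖(∫ ξ in S, Lf ξ * nu T V u ξ) - (∫ ξ in S, Cf ξ * nu T V u ξ) - ∫ ξ in S, Ef ξ * nu T V u ξ‖ ≤
      Ce * errA η T m n * (Cn * T ^ (9 * δ - 1)) := by
    have hLCi : IntegrableOn (fun ξ => Lf ξ * nu T V u ξ - Cf ξ * nu T V u ξ) S := hLi.sub hCi
    rw [← integral_sub hLi hCi, ← integral_sub hLCi hEi]
    have h3 : ‖∫ ξ in S, (Lf ξ * nu T V u ξ - Cf ξ * nu T V u ξ - Ef ξ * nu T V u ξ)‖ ≤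
        ∫ ξ in S, Ce * errA η T m n * ((‖wq T ξ‖ / (wq T ξ).re) ^ 8 * ‖nu T V u ξ‖) := by
      refine norm_integral_le_of_norm_le ((EH.mom_int T V u hT0).const_mul _) ?_
      rw [ae_restrict_iff' measurableSet_Icc]
      exact Eventually.of_forall hpt
    refine h3.trans ?_
    rw [integral_const_mul]
    exact mul_le_mul_of_nonneg_left (hnu T hT2 u hu0 hu2) (by positivity)
  rw [hsw, hEV] at h2
  have h4 : II V u m n - LibPH.C2 (fun s => B s * EH.Kint T V u s) - VV T V u m n =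
      (II V u m n - ∫ ξ in S, Lf ξ * nu T V u ξ) +
      ((∫ ξ in S, Lf ξ * nu T V u ξ) - LibPH.C2 (fun s => B s * EH.Kint T V u s) - VV T V u m n) := by ring
  show ‖II V u m n - LibPH.C2 (fun s => B s * EH.Kint T V u s) - VV T V u m n‖ ≤ _
  rw [h4]
  refine (norm_add_le _ _).trans (add_le_add h1 (h2.trans (le_of_eq ?_)))
  ring

end Pool.Agent.LibSM56A
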