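import Pool.Agent.LibSM56A.A_R4
import Pool.Agent.LibSM47.E_07c

/-! ROW A_R5 (MEDIUM, adaptation): one fraction with `VV` kept. Template: `one_fraction'` in Pool/Agent/LibSM47/E_07c.lean with `II_C2_V` in place of
`II_C2` (`EH.C2_err`, `EH.main_value`, `EH.MT_le`, `EH.one_le_errS` are unchanged). -/

set_option autoImplicit false

namespace Pool.Agent.LibSM56A

open MeasureTheory Set Filter Topology Complex
open Pool.Agent.LibSM47

theorem one_fraction_V (ε₁ δ η : ℝ) (hε1 : 0 < ε₁) (hδ : 0 < δ) (hδ1 : δ ≤ 1 / 100) (hη : 0 < η) :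
    ∃ C T₀ : ℝ, 0 < C ∧ ∀ T : ℝ, T₀ ≤ T → ∀ u : ℝ, ε₁ * T ≤ u → u ≤ T → ∀ m n : ℕ, 1 ≤ m → 1 ≤ n →
      (m : ℝ) ≤ T → (n : ℝ) ≤ T →
      ‖II (T ^ (1 - δ)) u m n
        - ((((m : ℝ) * n) ^ (-(1 / 2) : ℝ) * mainS m (Real.log (u / (2 * Real.pi)) + Real.log m - Real.log n) : ℝ) : ℂ)
        - VV T (T ^ (1 - δ)) u m n‖
      ≤ C * ((m : ℝ) * n) ^ (-(1 / 2) : ℝ) * Real.log T * errS m + C * T ^ (9 * δ - 1) * errA η T m n := by
  obtain ⟨C1, T1, hC1, h1⟩ := II_C2_V ε₁ δ η hε1 hδ hδ1 hη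
  obtain ⟨C2, T2, hC2, h2⟩ := EH.C2_err ε₁ δ hε1 hδ hδ1
  obtain ⟨C3, hC3, h3⟩ := EH.MT_le (|Real.log ε₁| + Real.log (2 * Real.pi) + 1)
  refine ⟨1 + C1 + C2 + C3, max (max T1 T2) (Real.exp 1), by linarith, ?_⟩
  intro T hT u hu1 hu2 m n hm hn hmT hnT
  have hT1 : T1 ≤ T := (le_max_left _ _).trans ((le_max_left _ _).trans hT)
  have hT2 : T2 ≤ T := (le_max_right _ _).trans ((le_max_left _ _).trans hT)
  have hTe : Real.exp 1 ≤ T := (le_max_right _ _).trans hT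
  have hT0 : 0 < T := (Real.exp_pos 1).trans_le hTe
  have hL : 1 ≤ Real.log T := by
    rw [Real.le_log_iff_exp_le hT0]
    exact hTe
  have hT1' : 1 ≤ T := by
    have : (1 : ℝ) ≤ Real.exp 1 := Real.one_le_exp (by norm_num)
    linarith
  have hu0 : 0 < u := lt_of_lt_of_le (by positivity) hu1
  have hm0 : (0 : ℝ) < m := by exact_mod_cast hm
  have hn0 : (0 : ℝ) < n := by exact_mod_cast hn
  have hmn0 : (0 : ℝ) < (m : ℝ) * n := mul_pos hm0 hn0
  have h2pi : (0 : ℝ) < 2 * Real.pi := by positivity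
  have hlpi : 0 ≤ Real.log (2 * Real.pi) := by
    apply Real.log_nonneg
    linarith [Real.pi_gt_three]
  -- the size of `lam`
  set lam : ℝ := Real.log (u / (2 * Real.pi)) with hlam
  have hlam1 : lam = Real.log u - Real.log (2 * Real.pi) := by
    rw [hlam, Real.log_div hu0.ne' h2pi.ne']
  have hlu1 : Real.log u ≤ Real.log T := Real.log_le_log hu0 hu2
  have hlu2 : Real.log ε₁ + Real.log T ≤ Real.log u := by
    rw [← Real.log_mul hε1.ne' hT0.ne']
    exact Real.log_le_log (by positivity) hu1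
  have hlamA : |lam| ≤ (|Real.log ε₁| + Real.log (2 * Real.pi) + 1) * Real.log T := by
    have h4 := neg_abs_le (Real.log ε₁)
    have h5 := abs_nonneg (Real.log ε₁)
    have h6 : |Real.log ε₁| ≤ |Real.log ε₁| * Real.log T := le_mul_of_one_le_right h5 hL
    have h7 : Real.log (2 * Real.pi) ≤ Real.log (2 * Real.pi) * Real.log T :=
      le_mul_of_one_le_right hlpi hL
    rw [abs_le]
    constructor
    · nlinarith
    · nlinarith
  have hlm : Real.log m ≤ Real.log T := Real.log_le_log hm0 hmT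
  have hln : Real.log n ≤ Real.log T := Real.log_le_log hn0 hnT
  have e1 := h1 T hT1 u hu1 hu2 m n hm hn
  have e2 := h2 T hT2 u hu1 hu2 m n hm hn hmT hnT
  have e3 := h3 m n hm hn lam (Real.log T) hL hlamA hlm hln
  rw [EH.main_value m n hm hn u hu0] at e2
  -- abbreviations
  set S : ℝ := errS m with hS
  have hS1 : 1 ≤ S := EH.one_le_errS m hm
  have hR0 : 0 ≤ errA η T m n := by
    unfold errA
    have h4 : 0 ≤ 1 + (m : ℝ) / n := by positivity
    positivity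
  set q : ℝ := ((m : ℝ) * n) ^ (-(1 / 2) : ℝ) with hq
  have hq0 : 0 < q := Real.rpow_pos_of_pos hmn0 _
  have hqT : T ^ (-2 : ℝ) ≤ q := by
    have h4 : (m : ℝ) * n ≤ T ^ (2 : ℝ) := by
      rw [Real.rpow_two, pow_two]
      exact mul_le_mul hmT hnT hn0.le hT0.le
    calc T ^ (-2 : ℝ) ≤ T ^ (-1 : ℝ) := Real.rpow_le_rpow_of_exponent_le hT1' (by norm_num)
      _ = (T ^ (2 : ℝ)) ^ (-(1 / 2) : ℝ) := by
          rw [← Real.rpow_mul hT0.le]
          norm_num
      _ ≤ q := Real.rpow_le_rpow_of_nonpos hmn0 h4 (by norm_num)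
  have e3' : ‖(q : ℂ) * EH.MT m (lam + Real.log m - Real.log n) -
      ((q * mainS m (lam + Real.log m - Real.log n) : ℝ) : ℂ)‖ ≤ q * (C3 * (Real.log T * S)) := by
    rw [Complex.ofReal_mul, ← mul_sub, norm_mul, Complex.norm_real, Real.norm_of_nonneg hq0.le]
    exact mul_le_mul_of_nonneg_left e3 hq0.le
  have hTp : 0 ≤ T ^ (9 * δ - 1) := Real.rpow_nonneg hT0.le _
  have hLS : 1 ≤ Real.log T * S := by nlinarith
  have hqLS : q ≤ q * (Real.log T * S) := le_mul_of_one_le_right hq0.le hLS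
  have key : ∀ (a x y z v : ℂ), ‖a - z - v‖ ≤ ‖a - x - v‖ + (‖x - y‖ + ‖y - z‖) := by
    intro a x y z v
    have h5 : a - z - v = (a - x - v) + ((x - y) + (y - z)) := by ring
    rw [h5]
    exact (norm_add_le _ _).trans (add_le_add le_rfl (norm_add_le _ _))
  refine (key _ _ _ _ _).trans ((add_le_add e1 (add_le_add e2 e3')).trans ?_)
  have k1 : T ^ (-2 : ℝ) ≤ q * (Real.log T * S) := hqT.trans hqLS
  have k2 : C2 * q ≤ C2 * (q * (Real.log T * S)) := mul_le_mul_of_nonneg_left hqLS hC2.le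
  have k3 : 0 ≤ T ^ (9 * δ - 1) * errA η T m n := mul_nonneg hTp hR0
  have k4 : 0 ≤ C1 * (q * (Real.log T * S)) := by positivity
  have k5 : 0 ≤ (1 + C2 + C3) * (T ^ (9 * δ - 1) * errA η T m n) := by positivity
  linarith

end Pool.Agent.LibSM56A
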