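import Pool.Agent.LibSM56A.A_Defs
import Pool.Agent.LibSM56.Regions
import Pool.Agent.LibSM47.M_B1
import Pool.Agent.LibSM47.M_A2c

/-! ROW A_X1 (MEDIUM): bounds for the weights `cP` and the sum of `errA`.

cP_bound: `P` is bounded (compact support); if some `P(log d/L, log e/L, log n/L) ≠ 0` with `de = m` then `z + z' = log m/L` and the three support
conditions of `AdmP`; `∑_{de=m} φ(d)/d = hh m` (`Nat.sum_divisorsAntidiagonal`).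
errA_sum: `η = ε/1000`, `hh m ≤ d(m) ≤ C m^η` (`hh_le_card`, `card_div_le` of M_B1). With `mn ≤ T^{1-ε}`, `m/n ≤ T^{1/2-ε}`, `m ≤ T^{3/4-ε}`, the terms of
`(mn)^{-1/2} m^η errA`: `(mn)^{-1/2} m^η`: sum over `n ≤ T^{1-ε}/m`: `≤ 2 T^{(1-ε)/2} ∑ m^{-1+η}`; `(m/n)(mn)^{-1/2} m^η ≤ T^{1/2-ε} (mn)^{-1/2} m^η`;
`(m/n) m^{-1/2+η} T^{1/4} (mn)^{-1/2} m^η = T^{1/4} m^{2η} n^{-3/2}`: sum `≤ C T^{1/4} (T^{3/4-ε})^{1+2η}`; `√(n/m)(mn)^{-1/2} m^η = m^{-1+η}`: sum over `n`: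
`T^{1-ε} m^{-2+η}`; `m^{-1/2+η} T^{1/2} (mn)^{-1/2} m^η = T^{1/2} m^{-1+2η} n^{-1/2}`: `2 T^{1/2} T^{(1-ε)/2} ∑ m^{-3/2+2η}`; `m^{-1/2+η} T^{1/4}` is smaller than
the last. All `≤ C T^{1-ε/4}`. Template: LibSM47/M_B1.lean (`reg1`, ..), M_B4.lean. -/

set_option autoImplicit false

namespace Pool.Agent.LibSM56A

open MeasureTheory Set Filter Topology Complex
open Pool.Agent.LibSM47 Pool.Agent.LibSM56

theorem cP_bound (P : ℝ × ℝ × ℝ → ℝ) (ε : ℝ) (hε : 0 < ε) (hP : AdmP ε P) : ∃ M : ℝ, 0 < M ∧ ∀ T : ℝ, 2 ≤ T → ∀ q ∈ idx T,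
    |cP P T q| ≤ M * hh q.1 * ((q.1 : ℝ) * q.2) ^ (-(1 / 2) : ℝ) ∧
    (cP P T q ≠ 0 → (q.1 : ℝ) * q.2 ≤ T ^ (1 - ε) ∧ (q.1 : ℝ) / q.2 ≤ T ^ (1 / 2 - ε) ∧ (q.1 : ℝ) ≤ T ^ (3 / 4 - ε)) := by
  obtain ⟨hc, hs, hA⟩ := hP
  obtain ⟨C, hC⟩ := hc.bounded_above_of_compact_support hs
  refine ⟨max C 1, lt_max_of_lt_right one_pos, ?_⟩
  intro T hT q hq
  obtain ⟨m, n⟩ := q
  simp only [idx, Finset.mem_filter, Finset.mem_product, Finset.mem_Icc] at hq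
  obtain ⟨⟨⟨hm1, _⟩, hn1, _⟩, _⟩ := hq
  have hm : (1 : ℝ) ≤ m := by exact_mod_cast hm1
  have hn : (1 : ℝ) ≤ n := by exact_mod_cast hn1
  have hm0 : (0 : ℝ) < m := by linarith
  have hn0 : (0 : ℝ) < n := by linarith
  have hT0 : (0 : ℝ) < T := by linarith
  have hlT : 0 < Real.log T := Real.log_pos (by linarith)
  have hln : 0 ≤ Real.log n := Real.log_nonneg hn
  have hmx : (0 : ℝ) ≤ max C 1 := zero_le_one.trans (le_max_right _ _)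
  refine ⟨?_, ?_⟩
  · simp only [cP]
    have h1 : (0 : ℝ) ≤ ((m : ℝ) * n) ^ (-(1 / 2) : ℝ) := Real.rpow_nonneg (by positivity) _
    have h3 : |∑ x ∈ m.divisorsAntidiagonal, (Nat.totient x.1 : ℝ) / x.1 *
        P (Real.log x.1 / Real.log T, Real.log x.2 / Real.log T, Real.log n / Real.log T)| ≤
        hh m * max C 1 := by
      have h4 : hh m = ∑ x ∈ m.divisorsAntidiagonal, (Nat.totient x.1 : ℝ) / x.1 := by
        unfold hh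
        exact (Nat.sum_divisorsAntidiagonal (fun d _ : ℕ => (Nat.totient d : ℝ) / (d : ℝ))).symm
      rw [h4, Finset.sum_mul]
      refine (Finset.abs_sum_le_sum_abs _ _).trans (Finset.sum_le_sum fun x _ => ?_)
      have h5 : (0 : ℝ) ≤ (Nat.totient x.1 : ℝ) / x.1 :=
        div_nonneg (Nat.cast_nonneg _) (Nat.cast_nonneg _)
      rw [abs_mul, abs_of_nonneg h5]
      refine mul_le_mul_of_nonneg_left ?_ h5
      have h6 := hC (Real.log x.1 / Real.log T, Real.log x.2 / Real.log T, Real.log n / Real.log T)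
      rw [Real.norm_eq_abs] at h6
      exact h6.trans (le_max_left _ _)
    rw [abs_mul, abs_of_nonneg h1]
    calc _ ≤ ((m : ℝ) * n) ^ (-(1 / 2) : ℝ) * (hh m * max C 1) :=
          mul_le_mul_of_nonneg_left h3 h1
      _ = max C 1 * hh m * ((m : ℝ) * n) ^ (-(1 / 2) : ℝ) := by ring
  · intro hne
    have hsum : ∑ x ∈ m.divisorsAntidiagonal, (Nat.totient x.1 : ℝ) / x.1 *
        P (Real.log x.1 / Real.log T, Real.log x.2 / Real.log T, Real.log n / Real.log T) ≠ 0 := by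
      intro h0
      apply hne
      simp only [cP]
      rw [h0, mul_zero]
    obtain ⟨x, hx, hx0⟩ := Finset.exists_ne_zero_of_sum_ne_zero hsum
    have hPne := right_ne_zero_of_mul hx0
    have hxm : x.1 * x.2 = m := (Nat.mem_divisorsAntidiagonal.1 hx).1
    have hmne : m ≠ 0 := (Nat.mem_divisorsAntidiagonal.1 hx).2
    have hx1 : x.1 ≠ 0 := by
      rintro h
      rw [h, zero_mul] at hxm
      exact hmne hxm.symm
    have hx2 : x.2 ≠ 0 := by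
      rintro h
      rw [h, mul_zero] at hxm
      exact hmne hxm.symm
    have hx1' : (1 : ℝ) ≤ x.1 := by exact_mod_cast Nat.one_le_iff_ne_zero.2 hx1
    have hx2' : (1 : ℝ) ≤ x.2 := by exact_mod_cast Nat.one_le_iff_ne_zero.2 hx2
    obtain ⟨h1, h2, h3⟩ := hA _ _ _ (div_nonneg (Real.log_nonneg hx1') hlT.le)
      (div_nonneg (Real.log_nonneg hx2') hlT.le) (div_nonneg hln hlT.le) hPne
    have hz : Real.log x.1 / Real.log T + Real.log x.2 / Real.log T = Real.log m / Real.log T := by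
      rw [← add_div, ← Real.log_mul (by positivity) (by positivity), ← hxm]
      push_cast
      rfl
    rw [hz] at h1 h2 h3
    obtain ⟨z, hzd⟩ : ∃ z, z = Real.log m / Real.log T := ⟨_, rfl⟩
    obtain ⟨y, hyd⟩ : ∃ y, y = Real.log n / Real.log T := ⟨_, rfl⟩
    rw [← hzd] at h1 h2 h3
    rw [← hyd] at h1 h2
    have hmx' : Real.log m = Real.log T * z := by rw [hzd]; field_simp
    have hny : Real.log n = Real.log T * y := by rw [hyd]; field_simp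
    have hmT : (m : ℝ) = T ^ z := by
      rw [Real.rpow_def_of_pos hT0, ← hmx', Real.exp_log hm0]
    have hnT : (n : ℝ) = T ^ y := by
      rw [Real.rpow_def_of_pos hT0, ← hny, Real.exp_log hn0]
    have hT1 : (1 : ℝ) ≤ T := by linarith
    refine ⟨?_, ?_, ?_⟩
    · simp only
      rw [hmT, hnT, ← Real.rpow_add hT0]
      exact Real.rpow_le_rpow_of_exponent_le hT1 h1
    · simp only
      rw [hmT, hnT, ← Real.rpow_sub hT0]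
      exact Real.rpow_le_rpow_of_exponent_le hT1 h2
    · simp only
      rw [hmT]
      exact Real.rpow_le_rpow_of_exponent_le hT1 h3

/-- the region -/
private noncomputable def rgA (ε T : ℝ) : Finset (ℕ × ℕ) :=
  (idx T).filter (fun q => (q.1 : ℝ) * q.2 ≤ T ^ (1 - ε) ∧ (q.1 : ℝ) / q.2 ≤ T ^ (1 / 2 - ε) ∧
    (q.1 : ℝ) ≤ T ^ (3 / 4 - ε))

private theorem X1_le (ε T : ℝ) (f : ℕ × ℕ → ℝ) (hf : ∀ q, 0 ≤ f q) (g : ℕ → ℝ)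
    (hg : ∀ m : ℕ, 1 ≤ m → ∑ n ∈ (Finset.Icc 1 ⌊T⌋₊).filter
      (fun n : ℕ => (m : ℝ) * n ≤ T ^ (1 - ε) ∧ (m : ℝ) ≤ T ^ (3 / 4 - ε)), f (m, n) ≤ g m) :
    ∑ q ∈ rgA ε T, f q ≤ ∑ m ∈ Finset.Icc 1 ⌊T⌋₊, g m := by
  classical
  have h1 : rgA ε T ⊆ ((Finset.Icc 1 ⌊T⌋₊) ×ˢ (Finset.Icc 1 ⌊T⌋₊)).filter
      (fun q : ℕ × ℕ => (q.1 : ℝ) * q.2 ≤ T ^ (1 - ε) ∧ (q.1 : ℝ) ≤ T ^ (3 / 4 - ε)) := by
    intro q hq
    unfold rgA idx at hq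
    rw [Finset.mem_filter, Finset.mem_filter] at hq
    exact Finset.mem_filter.2 ⟨hq.1.1, hq.2.1, hq.2.2.2⟩
  refine (Finset.sum_le_sum_of_subset_of_nonneg h1 fun q _ _ => hf q).trans ?_
  rw [Finset.sum_filter, Finset.sum_product]
  refine Finset.sum_le_sum fun m hm => ?_
  rw [Finset.mem_Icc] at hm
  rw [← Finset.sum_filter]
  exact hg m hm.1

private theorem X1_X {m n : ℕ} (hm : 1 ≤ m) {Y : ℝ} (h : (m : ℝ) * n ≤ Y) :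
    (n : ℝ) ≤ Y * (m : ℝ)⁻¹ := by
  have hm0 : (0 : ℝ) < m := by exact_mod_cast hm
  rw [← div_eq_mul_inv, le_div_iff₀ hm0, mul_comm]
  exact h

private theorem X1_half (N : ℕ) : ∑ n ∈ Finset.Icc 1 N, (n : ℝ) ^ (-(1 / 2) : ℝ) ≤
    2 * (N : ℝ) ^ (1 / 2 : ℝ) := by
  have key : ∀ n : ℕ, ((n : ℝ)) ^ (-(1 / 2) : ℝ) = 1 / √(n : ℝ) := by
    intro n
    rw [Real.rpow_neg (Nat.cast_nonneg _), ← Real.sqrt_eq_rpow, one_div]
  simp only [key, ← Real.sqrt_eq_rpow]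
  induction N with
  | zero => simp
  | succ N ih =>
    rw [Finset.sum_Icc_succ_top (by omega)]
    have h0 : (0 : ℝ) ≤ N := Nat.cast_nonneg _
    have h1 : √(N : ℝ) ^ 2 = N := Real.sq_sqrt h0
    have h2 : √((N + 1 : ℕ) : ℝ) ^ 2 = N + 1 := by
      rw [Real.sq_sqrt (Nat.cast_nonneg _)]
      push_cast
      ring
    have h3 : 0 < √((N + 1 : ℕ) : ℝ) := Real.sqrt_pos.2 (by positivity)
    have h4 : 0 ≤ √(N : ℝ) := Real.sqrt_nonneg _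
    have h5 : 1 / √((N + 1 : ℕ) : ℝ) ≤ 2 * √((N + 1 : ℕ) : ℝ) - 2 * √(N : ℝ) := by
      rw [div_le_iff₀ h3]
      nlinarith [sq_nonneg (√((N + 1 : ℕ) : ℝ) - √(N : ℝ))]
    linarith

private theorem X1_half' (s : Finset ℕ) (X : ℝ) (hX : 0 ≤ X) (hs : ∀ n ∈ s, 1 ≤ n ∧ (n : ℝ) ≤ X) :
    ∑ n ∈ s, (n : ℝ) ^ (-(1 / 2) : ℝ) ≤ 2 * X ^ (1 / 2 : ℝ) := by
  have h1 : s ⊆ Finset.Icc 1 ⌊X⌋₊ := fun n hn =>
    Finset.mem_Icc.2 ⟨(hs n hn).1, Nat.le_floor (hs n hn).2⟩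
  refine (Finset.sum_le_sum_of_subset_of_nonneg h1 fun n _ _ =>
    Real.rpow_nonneg (Nat.cast_nonneg _) _).trans ?_
  refine (X1_half _).trans ?_
  have h2 : ((⌊X⌋₊ : ℕ) : ℝ) ^ (1 / 2 : ℝ) ≤ X ^ (1 / 2 : ℝ) :=
    Real.rpow_le_rpow (Nat.cast_nonneg _) (Nat.floor_le hX) (by norm_num)
  linarith

private theorem X1_card (s : Finset ℕ) (X : ℝ) (hX : 0 ≤ X) (hs : ∀ n ∈ s, 1 ≤ n ∧ (n : ℝ) ≤ X) :
    (s.card : ℝ) ≤ X := by
  have h1 : s ⊆ Finset.Icc 1 ⌊X⌋₊ := fun n hn =>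
    Finset.mem_Icc.2 ⟨(hs n hn).1, Nat.le_floor (hs n hn).2⟩
  have h2 := Finset.card_le_card h1
  rw [Nat.card_Icc, Nat.add_sub_cancel] at h2
  exact le_trans (by exact_mod_cast h2) (Nat.floor_le hX)

private theorem rgA1 (α ε : ℝ) (hα : α < -(1 / 2)) : ∃ C : ℝ, 0 < C ∧ ∀ T : ℝ, 2 ≤ T →
    ∑ q ∈ rgA ε T, (q.1 : ℝ) ^ α * (q.2 : ℝ) ^ (-(1 / 2) : ℝ) ≤ C * T ^ ((1 - ε) / 2) := by
  have hsum : Summable (fun n : ℕ => (n : ℝ) ^ (α - 1 / 2)) :=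
    Real.summable_nat_rpow.2 (by linarith)
  have hpos : 0 ≤ ∑' n : ℕ, (n : ℝ) ^ (α - 1 / 2) :=
    tsum_nonneg fun n => Real.rpow_nonneg (Nat.cast_nonneg _) _
  refine ⟨2 * (∑' n : ℕ, (n : ℝ) ^ (α - 1 / 2)) + 1, by linarith, fun T hT => ?_⟩
  have hT0 : 0 < T := by linarith
  have hY : 0 ≤ T ^ ((1 - ε) / 2) := Real.rpow_nonneg hT0.le _
  have h1 := X1_le ε T (fun q => (q.1 : ℝ) ^ α * (q.2 : ℝ) ^ (-(1 / 2) : ℝ))
    (fun q => mul_nonneg (Real.rpow_nonneg (Nat.cast_nonneg _) _) (Real.rpow_nonneg (Nat.cast_nonneg _) _))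
    (fun m => 2 * T ^ ((1 - ε) / 2) * (m : ℝ) ^ (α - 1 / 2)) ?_
  · refine h1.trans ?_
    rw [← Finset.mul_sum]
    have h2 : ∑ m ∈ Finset.Icc 1 ⌊T⌋₊, (m : ℝ) ^ (α - 1 / 2) ≤ ∑' n : ℕ, (n : ℝ) ^ (α - 1 / 2) :=
      hsum.sum_le_tsum _ fun n _ => Real.rpow_nonneg (Nat.cast_nonneg _) _
    calc 2 * T ^ ((1 - ε) / 2) * ∑ m ∈ Finset.Icc 1 ⌊T⌋₊, (m : ℝ) ^ (α - 1 / 2)
        ≤ 2 * T ^ ((1 - ε) / 2) * ∑' n : ℕ, (n : ℝ) ^ (α - 1 / 2) :=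
          mul_le_mul_of_nonneg_left h2 (by positivity)
      _ ≤ _ := by nlinarith
  · intro m hm
    have hm0 : (0 : ℝ) < m := by exact_mod_cast hm
    simp only
    rw [← Finset.mul_sum]
    have h3 := X1_half' ((Finset.Icc 1 ⌊T⌋₊).filter
      (fun n : ℕ => (m : ℝ) * n ≤ T ^ (1 - ε) ∧ (m : ℝ) ≤ T ^ (3 / 4 - ε)))
      (T ^ (1 - ε) * (m : ℝ)⁻¹)
      (mul_nonneg (Real.rpow_nonneg hT0.le _) (inv_nonneg.2 hm0.le)) ?_
    · have h4 : (T ^ (1 - ε) * (m : ℝ)⁻¹) ^ (1 / 2 : ℝ) =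
          T ^ ((1 - ε) / 2) * (m : ℝ) ^ (-(1 / 2) : ℝ) := by
        rw [Real.mul_rpow (Real.rpow_nonneg hT0.le _) (inv_nonneg.2 hm0.le),
          ← Real.rpow_mul hT0.le, Real.inv_rpow hm0.le, ← Real.rpow_neg hm0.le]
        congr 2
        ring
      rw [h4] at h3
      have h5 : (m : ℝ) ^ (α - 1 / 2) = (m : ℝ) ^ α * (m : ℝ) ^ (-(1 / 2) : ℝ) := by
        rw [← Real.rpow_add hm0]
        congr 1
      rw [h5]
      calc _ ≤ (m : ℝ) ^ α * (2 * (T ^ ((1 - ε) / 2) * (m : ℝ) ^ (-(1 / 2) : ℝ))) :=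
            mul_le_mul_of_nonneg_left h3 (Real.rpow_nonneg hm0.le _)
        _ = _ := by ring
    · intro n hn
      rw [Finset.mem_filter, Finset.mem_Icc] at hn
      exact ⟨hn.1.1, X1_X hm hn.2.1⟩

private theorem rgA2 (α ε : ℝ) (hα : 0 ≤ α) : ∃ C : ℝ, 0 < C ∧ ∀ T : ℝ, 2 ≤ T →
    ∑ q ∈ rgA ε T, (q.1 : ℝ) ^ α * (q.2 : ℝ) ^ (-(3 / 2) : ℝ) ≤ C * T ^ ((3 / 4 - ε) * (α + 1)) := by
  have hsum : Summable (fun n : ℕ => (n : ℝ) ^ (-(3 / 2) : ℝ)) :=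
    Real.summable_nat_rpow.2 (by norm_num)
  have hpos : 0 ≤ ∑' n : ℕ, (n : ℝ) ^ (-(3 / 2) : ℝ) :=
    tsum_nonneg fun n => Real.rpow_nonneg (Nat.cast_nonneg _) _
  obtain ⟨Z, hZ⟩ : ∃ Z : ℝ, Z = ∑' n : ℕ, (n : ℝ) ^ (-(3 / 2) : ℝ) := ⟨_, rfl⟩
  rw [← hZ] at hpos
  refine ⟨Z + 1, by linarith, fun T hT => ?_⟩
  have hT0 : 0 < T := by linarith
  have hY : 0 ≤ T ^ (3 / 4 - ε) := Real.rpow_nonneg hT0.le _
  have h1 := X1_le ε T (fun q => (q.1 : ℝ) ^ α * (q.2 : ℝ) ^ (-(3 / 2) : ℝ))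
    (fun q => mul_nonneg (Real.rpow_nonneg (Nat.cast_nonneg _) _) (Real.rpow_nonneg (Nat.cast_nonneg _) _))
    (fun m => if (m : ℝ) ≤ T ^ (3 / 4 - ε) then (T ^ (3 / 4 - ε)) ^ α * Z else 0) ?_
  · refine h1.trans ?_
    rw [← Finset.sum_filter, Finset.sum_const, nsmul_eq_mul]
    have h2 := X1_card ((Finset.Icc 1 ⌊T⌋₊).filter (fun m : ℕ => (m : ℝ) ≤ T ^ (3 / 4 - ε)))
      (T ^ (3 / 4 - ε)) hY (fun m hm => by
        rw [Finset.mem_filter, Finset.mem_Icc] at hm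
        exact ⟨hm.1.1, hm.2⟩)
    have h3 : T ^ ((3 / 4 - ε) * (α + 1)) = T ^ (3 / 4 - ε) * (T ^ (3 / 4 - ε)) ^ α := by
      rw [← Real.rpow_mul hT0.le, ← Real.rpow_add hT0]
      congr 1
      ring
    rw [h3]
    have h4 : 0 ≤ (T ^ (3 / 4 - ε)) ^ α := Real.rpow_nonneg hY _
    calc _ ≤ T ^ (3 / 4 - ε) * ((T ^ (3 / 4 - ε)) ^ α * Z) :=
          mul_le_mul_of_nonneg_right h2 (mul_nonneg h4 hpos)
      _ = Z * (T ^ (3 / 4 - ε) * (T ^ (3 / 4 - ε)) ^ α) := by ring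
      _ ≤ _ := mul_le_mul_of_nonneg_right (by linarith) (mul_nonneg hY h4)
  · intro m hm
    have hm0 : (0 : ℝ) < m := by exact_mod_cast hm
    simp only
    split_ifs with hmT
    · rw [← Finset.mul_sum]
      have h5 : ∑ n ∈ (Finset.Icc 1 ⌊T⌋₊).filter
          (fun n : ℕ => (m : ℝ) * n ≤ T ^ (1 - ε) ∧ (m : ℝ) ≤ T ^ (3 / 4 - ε)),
          (n : ℝ) ^ (-(3 / 2) : ℝ) ≤ Z := by
        rw [hZ]
        exact hsum.sum_le_tsum _ fun n _ => Real.rpow_nonneg (Nat.cast_nonneg _) _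
      exact mul_le_mul (Real.rpow_le_rpow hm0.le hmT hα) h5
        (Finset.sum_nonneg fun n _ => Real.rpow_nonneg (Nat.cast_nonneg _) _)
        (Real.rpow_nonneg hY _)
    · refine le_of_eq (Finset.sum_eq_zero fun n hn => ?_)
      rw [Finset.mem_filter] at hn
      exact absurd hn.2.2 hmT

private theorem rgA3 (α ε : ℝ) (hα : α < 0) : ∃ C : ℝ, 0 < C ∧ ∀ T : ℝ, 2 ≤ T →
    ∑ q ∈ rgA ε T, (q.1 : ℝ) ^ α ≤ C * T ^ (1 - ε) := by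
  have hsum : Summable (fun n : ℕ => (n : ℝ) ^ (α - 1)) :=
    Real.summable_nat_rpow.2 (by linarith)
  have hpos : 0 ≤ ∑' n : ℕ, (n : ℝ) ^ (α - 1) :=
    tsum_nonneg fun n => Real.rpow_nonneg (Nat.cast_nonneg _) _
  refine ⟨(∑' n : ℕ, (n : ℝ) ^ (α - 1)) + 1, by linarith, fun T hT => ?_⟩
  have hT0 : 0 < T := by linarith
  have hY : 0 ≤ T ^ (1 - ε) := Real.rpow_nonneg hT0.le _
  have h1 := X1_le ε T (fun q => (q.1 : ℝ) ^ α)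
    (fun q => Real.rpow_nonneg (Nat.cast_nonneg _) _)
    (fun m => T ^ (1 - ε) * (m : ℝ) ^ (α - 1)) ?_
  · refine h1.trans ?_
    rw [← Finset.mul_sum]
    have h2 : ∑ m ∈ Finset.Icc 1 ⌊T⌋₊, (m : ℝ) ^ (α - 1) ≤ ∑' n : ℕ, (n : ℝ) ^ (α - 1) :=
      hsum.sum_le_tsum _ fun n _ => Real.rpow_nonneg (Nat.cast_nonneg _) _
    calc T ^ (1 - ε) * ∑ m ∈ Finset.Icc 1 ⌊T⌋₊, (m : ℝ) ^ (α - 1)
        ≤ T ^ (1 - ε) * ∑' n : ℕ, (n : ℝ) ^ (α - 1) :=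
          mul_le_mul_of_nonneg_left h2 hY
      _ ≤ _ := by nlinarith
  · intro m hm
    have hm0 : (0 : ℝ) < m := by exact_mod_cast hm
    simp only
    rw [Finset.sum_const, nsmul_eq_mul]
    have h2 := X1_card ((Finset.Icc 1 ⌊T⌋₊).filter
        (fun n : ℕ => (m : ℝ) * n ≤ T ^ (1 - ε) ∧ (m : ℝ) ≤ T ^ (3 / 4 - ε)))
        (T ^ (1 - ε) * (m : ℝ)⁻¹)
        (mul_nonneg hY (inv_nonneg.2 hm0.le)) (fun n hn => by
          rw [Finset.mem_filter, Finset.mem_Icc] at hn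
          exact ⟨hn.1.1, X1_X hm hn.2.1⟩)
    have h5 : (m : ℝ) ^ (α - 1) = (m : ℝ) ^ α * (m : ℝ)⁻¹ := by
      rw [Real.rpow_sub_one hm0.ne', div_eq_mul_inv]
    rw [h5]
    calc _ ≤ T ^ (1 - ε) * (m : ℝ)⁻¹ * (m : ℝ) ^ α :=
          mul_le_mul_of_nonneg_right h2 (Real.rpow_nonneg hm0.le _)
      _ = _ := by ring

private theorem X1_point (η T : ℝ) (hη0 : 0 < η) (hη1 : η ≤ 1 / 2) (hT : 2 ≤ T) (m n : ℕ)
    (hm : 1 ≤ m) (hn : 1 ≤ n) (hmT : (m : ℝ) ≤ T) {B : ℝ} (hB : (m : ℝ) / n ≤ B) :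
    ((m : ℝ) * n) ^ (-(1 / 2) : ℝ) * (m : ℝ) ^ η * errA η T m n ≤
      ((m : ℝ) ^ (-η - 1 / 2) * (n : ℝ) ^ (-(1 / 2) : ℝ)) * (T ^ (2 * η) * (1 + B + T ^ (1 / 4 : ℝ))) +
      ((m : ℝ) ^ (2 * η) * (n : ℝ) ^ (-(3 / 2) : ℝ)) * T ^ (1 / 4 : ℝ) +
      (m : ℝ) ^ (η - 1) +
      ((m : ℝ) ^ (2 * η - 1) * (n : ℝ) ^ (-(1 / 2) : ℝ)) * T ^ (1 / 2 : ℝ) := by
  obtain ⟨a, ha⟩ : ∃ a : ℝ, a = m := ⟨_, rfl⟩
  obtain ⟨b, hb⟩ : ∃ b : ℝ, b = n := ⟨_, rfl⟩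
  have ha1 : 1 ≤ a := by
    rw [ha]
    exact_mod_cast hm
  have hb1 : 1 ≤ b := by
    rw [hb]
    exact_mod_cast hn
  unfold errA
  rw [← ha, ← hb]
  rw [← ha] at hmT
  rw [← ha, ← hb] at hB
  have ha0 : 0 < a := by linarith
  have hb0 : 0 < b := by linarith
  have hT0 : 0 < T := by linarith
  obtain ⟨u, hu⟩ : ∃ u : ℝ, u = a ^ (-(1 / 2) + η) := ⟨_, rfl⟩
  obtain ⟨r, hr⟩ : ∃ r : ℝ, r = b ^ (-(1 / 2) : ℝ) := ⟨_, rfl⟩
  have hu0 : 0 < u := by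
    rw [hu]
    exact Real.rpow_pos_of_pos ha0 _
  have hr0 : 0 < r := by
    rw [hr]
    exact Real.rpow_pos_of_pos hb0 _
  have hu1 : u ≤ 1 := by
    rw [hu]
    exact Real.rpow_le_one_of_one_le_of_nonpos ha1 (by linarith)
  have hX : (a * b) ^ (-(1 / 2) : ℝ) * a ^ η = u * r := by
    rw [Real.mul_rpow ha0.le hb0.le, hu, hr, Real.rpow_add ha0]
    ring
  have f0 : u ≤ a ^ (-η - 1 / 2) * T ^ (2 * η) := by
    have e1 : a ^ (2 * η) ≤ T ^ (2 * η) := Real.rpow_le_rpow ha0.le hmT (by linarith)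
    have e2 : u = a ^ (-η - 1 / 2) * a ^ (2 * η) := by
      rw [hu, ← Real.rpow_add ha0]
      congr 1
      ring
    rw [e2]
    exact mul_le_mul_of_nonneg_left e1 (Real.rpow_nonneg ha0.le _)
  have f2 : b ^ (-(3 / 2) : ℝ) = r / b := by
    rw [hr, show (-(3 / 2) : ℝ) = -(1 / 2) - 1 by ring, Real.rpow_sub_one hb0.ne']
  have f3 : a ^ (2 * η - 1) = u * u := by
    rw [hu, ← Real.rpow_add ha0]
    congr 1
    ring
  have f4 : a ^ (2 * η) = a * (u * u) := by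
    rw [← f3, show 2 * η = 1 + (2 * η - 1) by ring, Real.rpow_add ha0, Real.rpow_one]
    congr 2
    ring
  have f5 : √(b / a) * (u * r) = a ^ (η - 1) := by
    have e1 : √(b / a) = a ^ (-(1 / 2) : ℝ) * b ^ (1 / 2 : ℝ) := by
      rw [Real.sqrt_eq_rpow, Real.div_rpow hb0.le ha0.le, Real.rpow_neg ha0.le]
      ring
    have e2 : b ^ (1 / 2 : ℝ) * r = 1 := by
      rw [hr, ← Real.rpow_add hb0]
      norm_num
    have e3 : a ^ (-(1 / 2) : ℝ) * u = a ^ (η - 1) := by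
      rw [hu, ← Real.rpow_add ha0]
      congr 1
      ring
    rw [e1, ← e3]
    linear_combination (a ^ (-(1 / 2) : ℝ) * u) * e2
  obtain ⟨t4, ht4⟩ : ∃ t : ℝ, t = T ^ (1 / 4 : ℝ) := ⟨_, rfl⟩
  obtain ⟨t2, ht2⟩ : ∃ t : ℝ, t = T ^ (1 / 2 : ℝ) := ⟨_, rfl⟩
  have ht40 : 0 ≤ t4 := by
    rw [ht4]
    exact Real.rpow_nonneg hT0.le _
  rw [hX, f2, f3, f4, ← hu, ← hr, ← ht4, ← ht2]
  have e : u * r * ((1 + a / b) * (1 + u * t4) + √(b / a) + u * t2) =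
      u * r * (1 + a / b + u * t4) +
      (a * (u * u) * (r / b)) * t4 + √(b / a) * (u * r) +
      (u * u * r) * t2 := by
    field_simp
    ring
  rw [e, f5]
  have g1 : 1 + a / b + u * t4 ≤ 1 + B + t4 := by
    have : u * t4 ≤ 1 * t4 := mul_le_mul_of_nonneg_right hu1 ht40
    linarith
  have g2 : 0 ≤ 1 + a / b + u * t4 := by positivity
  have g3 : u * r ≤ a ^ (-η - 1 / 2) * r * T ^ (2 * η) := by
    calc u * r ≤ a ^ (-η - 1 / 2) * T ^ (2 * η) * r := mul_le_mul_of_nonneg_right f0 hr0.le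
      _ = _ := by ring
  have g4 : u * r * (1 + a / b + u * t4) ≤
      a ^ (-η - 1 / 2) * r * (T ^ (2 * η) * (1 + B + t4)) := by
    calc u * r * (1 + a / b + u * t4) ≤ a ^ (-η - 1 / 2) * r * T ^ (2 * η) * (1 + B + t4) :=
          mul_le_mul g3 g1 g2 (by positivity)
      _ = _ := by ring
  linarith

theorem errA_sum (P : ℝ × ℝ × ℝ → ℝ) (ε : ℝ) (hε : 0 < ε) (hε' : ε ≤ 1 / 10) (hP : AdmP ε P) :
    ∃ C : ℝ, 0 < C ∧ ∀ T : ℝ, 2 ≤ T → ∑ q ∈ idx T, |cP P T q| * errA (ε / 1000) T q.1 q.2 ≤ C * T ^ (1 - ε / 4) := by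
  obtain ⟨η, hη⟩ : ∃ η, η = ε / 1000 := ⟨_, rfl⟩
  rw [← hη]
  have hη0 : 0 < η := by
    rw [hη]
    positivity
  obtain ⟨M, hM, hcc⟩ := cP_bound P ε hε hP
  obtain ⟨D, hD, hdiv⟩ := card_div_le η hη0
  obtain ⟨C1, hC1, h1⟩ := rgA1 (-η - 1 / 2) ε (by linarith)
  obtain ⟨C2, hC2, h2⟩ := rgA2 (2 * η) ε (by linarith)
  obtain ⟨C3, hC3, h3⟩ := rgA3 (η - 1) ε (by linarith)
  obtain ⟨C4, hC4, h4⟩ := rgA1 (2 * η - 1) ε (by linarith)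
  refine ⟨M * D * (3 * C1 + C2 + C3 + C4), by positivity, fun T hT => ?_⟩
  have hT0 : 0 < T := by linarith
  have hT1 : 1 ≤ T := by linarith
  have hpt : ∀ q ∈ rgA ε T, |cP P T q| * errA η T q.1 q.2 ≤ M * D *
      (((q.1 : ℝ) ^ (-η - 1 / 2) * (q.2 : ℝ) ^ (-(1 / 2) : ℝ)) *
        (T ^ (2 * η) * (1 + T ^ (1 / 2 - ε) + T ^ (1 / 4 : ℝ))) +
      ((q.1 : ℝ) ^ (2 * η) * (q.2 : ℝ) ^ (-(3 / 2) : ℝ)) * T ^ (1 / 4 : ℝ) +
      (q.1 : ℝ) ^ (η - 1) +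
      ((q.1 : ℝ) ^ (2 * η - 1) * (q.2 : ℝ) ^ (-(1 / 2) : ℝ)) * T ^ (1 / 2 : ℝ)) := by
    intro q hq
    obtain ⟨hqi, hq1, hq2, hq3⟩ := Finset.mem_filter.1 hq
    have hq2' := Finset.mem_product.1 (Finset.mem_filter.1 hqi).1
    have hm := Finset.mem_Icc.1 hq2'.1
    have hn := Finset.mem_Icc.1 hq2'.2
    have hmT : (q.1 : ℝ) ≤ T := by
      have h1 : (q.1 : ℝ) ≤ (⌊T⌋₊ : ℝ) := by exact_mod_cast hm.2
      exact h1.trans (Nat.floor_le hT0.le)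
    have hp := X1_point η T hη0 (by linarith) hT q.1 q.2 hm.1 hn.1 hmT hq2
    have herr : 0 ≤ errA η T q.1 q.2 := by
      unfold errA
      positivity
    have hb : |cP P T q| ≤ M * D * (((q.1 : ℝ) * q.2) ^ (-(1 / 2) : ℝ) * (q.1 : ℝ) ^ η) := by
      refine (hcc T hT q hqi).1.trans ?_
      have h6 : hh q.1 ≤ D * (q.1 : ℝ) ^ η := (hh_le_card q.1).trans (hdiv q.1 hm.1)
      calc M * hh q.1 * ((q.1 : ℝ) * q.2) ^ (-(1 / 2) : ℝ)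
          ≤ M * (D * (q.1 : ℝ) ^ η) * ((q.1 : ℝ) * q.2) ^ (-(1 / 2) : ℝ) := by gcongr
        _ = M * D * (((q.1 : ℝ) * q.2) ^ (-(1 / 2) : ℝ) * (q.1 : ℝ) ^ η) := by ring
    calc |cP P T q| * errA η T q.1 q.2
        ≤ M * D * (((q.1 : ℝ) * q.2) ^ (-(1 / 2) : ℝ) * (q.1 : ℝ) ^ η) * errA η T q.1 q.2 :=
          mul_le_mul_of_nonneg_right hb herr
      _ = M * D * (((q.1 : ℝ) * q.2) ^ (-(1 / 2) : ℝ) * (q.1 : ℝ) ^ η * errA η T q.1 q.2) := by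
          ring
      _ ≤ _ := mul_le_mul_of_nonneg_left hp (by positivity)
  have hreg : ∑ q ∈ idx T, |cP P T q| * errA η T q.1 q.2 =
      ∑ q ∈ rgA ε T, |cP P T q| * errA η T q.1 q.2 := by
    unfold rgA
    symm
    apply Finset.sum_filter_of_ne
    intro q hq hne
    have hc : cP P T q ≠ 0 := by
      intro h
      apply hne
      rw [h, abs_zero, zero_mul]
    exact (hcc T hT q hq).2 hc
  have b1 : (∑ q ∈ rgA ε T, (q.1 : ℝ) ^ (-η - 1 / 2) * (q.2 : ℝ) ^ (-(1 / 2) : ℝ)) *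
      (T ^ (2 * η) * (1 + T ^ (1 / 2 - ε) + T ^ (1 / 4 : ℝ))) ≤ 3 * C1 * T ^ (1 - ε / 4) := by
    have k1 : (1 : ℝ) ≤ T ^ (1 / 2 - ε) := Real.one_le_rpow hT1 (by linarith)
    have k2 : T ^ (1 / 4 : ℝ) ≤ T ^ (1 / 2 - ε) :=
      Real.rpow_le_rpow_of_exponent_le hT1 (by linarith)
    have k3 : T ^ ((1 - ε) / 2) * (T ^ (2 * η) * T ^ (1 / 2 - ε)) ≤ T ^ (1 - ε / 4) := by
      rw [← Real.rpow_add hT0, ← Real.rpow_add hT0]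
      exact Real.rpow_le_rpow_of_exponent_le hT1 (by linarith)
    calc _ ≤ (C1 * T ^ ((1 - ε) / 2)) * (T ^ (2 * η) * (3 * T ^ (1 / 2 - ε))) := by
          refine mul_le_mul (h1 T hT) ?_ (by positivity) (by positivity)
          refine mul_le_mul_of_nonneg_left (by linarith) (by positivity)
      _ = 3 * C1 * (T ^ ((1 - ε) / 2) * (T ^ (2 * η) * T ^ (1 / 2 - ε))) := by ring
      _ ≤ _ := by gcongr
  have b2 : (∑ q ∈ rgA ε T, (q.1 : ℝ) ^ (2 * η) * (q.2 : ℝ) ^ (-(3 / 2) : ℝ)) *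
      T ^ (1 / 4 : ℝ) ≤ C2 * T ^ (1 - ε / 4) := by
    have h6 := h2 T hT
    have h7 : T ^ ((3 / 4 - ε) * (2 * η + 1)) * T ^ (1 / 4 : ℝ) ≤ T ^ (1 - ε / 4) := by
      rw [← Real.rpow_add hT0]
      refine Real.rpow_le_rpow_of_exponent_le hT1 ?_
      nlinarith
    calc _ ≤ (C2 * T ^ ((3 / 4 - ε) * (2 * η + 1))) * T ^ (1 / 4 : ℝ) := by gcongr
      _ = C2 * (T ^ ((3 / 4 - ε) * (2 * η + 1)) * T ^ (1 / 4 : ℝ)) := by ring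
      _ ≤ _ := by gcongr
  have b3 : ∑ q ∈ rgA ε T, (q.1 : ℝ) ^ (η - 1) ≤ C3 * T ^ (1 - ε / 4) := by
    refine (h3 T hT).trans ?_
    have : T ^ (1 - ε) ≤ T ^ (1 - ε / 4) :=
      Real.rpow_le_rpow_of_exponent_le hT1 (by linarith)
    gcongr
  have b4 : (∑ q ∈ rgA ε T, (q.1 : ℝ) ^ (2 * η - 1) * (q.2 : ℝ) ^ (-(1 / 2) : ℝ)) *
      T ^ (1 / 2 : ℝ) ≤ C4 * T ^ (1 - ε / 4) := by
    have h6 := h4 T hT
    have h7 : T ^ ((1 - ε) / 2) * T ^ (1 / 2 : ℝ) ≤ T ^ (1 - ε / 4) := by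
      rw [← Real.rpow_add hT0]
      exact Real.rpow_le_rpow_of_exponent_le hT1 (by linarith)
    calc _ ≤ (C4 * T ^ ((1 - ε) / 2)) * T ^ (1 / 2 : ℝ) := by gcongr
      _ = C4 * (T ^ ((1 - ε) / 2) * T ^ (1 / 2 : ℝ)) := by ring
      _ ≤ _ := by gcongr
  rw [hreg]
  refine (Finset.sum_le_sum hpt).trans ?_
  rw [← Finset.mul_sum, mul_assoc (M * D)]
  apply mul_le_mul_of_nonneg_left _ (by positivity)
  simp only [Finset.sum_add_distrib, ← Finset.sum_mul]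
  linarith

end Pool.Agent.LibSM56A
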