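import Pool.Agent.LibSM56A.A_X1
import Pool.Agent.LibSM56A.A_R5
import Pool.Agent.LibSM47.M_B5

/-! ROW A_X2 (MEDIUM): reduction of `ErrOK` to the error part `VV`. Template: `II_sum'` in LibSM47/M_B6.lean.

Given `ε₁`: `δ₀ = min (δ₀ of VVOK) (ε/1000)`; `one_fraction_V ε₁ δ (ε/1000)`, real parts, sum with `|cP|` (`cP_bound`: `|cP| ≤ M hh (mn)^{-1/2}`, so
`∑ |cP| (mn)^{-1/2} errS ≤ M C L^5` by `errS_sum` (M_B5), times `L`), `errA_sum` with `T^{9δ-1} T^{1-ε/4} ≤ 1`, and `L ≥ 1`. -/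

set_option autoImplicit false

namespace Pool.Agent.LibSM56A

open MeasureTheory Set Filter Topology Complex
open Pool.Agent.LibSM47 Pool.Agent.LibSM56

/-- The error part is small on average for the weight `P`. -/
def VVOK (P : ℝ × ℝ × ℝ → ℝ) : Prop :=
  ∀ ε₁ : ℝ, 0 < ε₁ → ∃ δ₀ : ℝ, 0 < δ₀ ∧ ∀ δ : ℝ, 0 < δ → δ ≤ δ₀ → ∃ C T₀ : ℝ, ∀ T : ℝ, T₀ ≤ T →
    ∀ u : ℝ, ε₁ * T ≤ u → u ≤ T →
      |∑ q ∈ idx T, cP P T q * (VV T (T ^ (1 - δ)) u q.1 q.2).re| ≤ C * (Real.log T) ^ 6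

theorem errOK_of_VVOK (P : ℝ × ℝ × ℝ → ℝ) (ε : ℝ) (hε : 0 < ε) (hε' : ε ≤ 1 / 10) (hP : AdmP ε P) (hV : VVOK P) :
    ErrOK P := by
  intro ε₁ hε1
  obtain ⟨δ₁, hδ₁, hVV⟩ := hV ε₁ hε1
  refine ⟨min δ₁ (ε / 1000), lt_min hδ₁ (by positivity), fun δ hδ hδle => ?_⟩
  have hδ1 : δ ≤ δ₁ := hδle.trans (min_le_left _ _)
  have hδ2 : δ ≤ ε / 1000 := hδle.trans (min_le_right _ _)
  obtain ⟨CV, TV, hVV⟩ := hVV δ hδ hδ1
  obtain ⟨C, T₀, hC, hone⟩ := one_fraction_V ε₁ δ (ε / 1000) hε1 hδ (by linarith) (by positivity)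
  obtain ⟨CS, hCS, hS⟩ := errS_sum
  obtain ⟨CR, hCR, hR⟩ := errA_sum P ε hε hε' hP
  obtain ⟨M, hM, hcc⟩ := cP_bound P ε hε hP
  refine ⟨C * M * CS + C * CR + CV, max (max T₀ TV) (Real.exp 1), fun T hT u hu1 hu2 => ?_⟩
  have hT0 : T₀ ≤ T := (le_max_left _ _).trans ((le_max_left _ _).trans hT)
  have hTV : TV ≤ T := (le_max_right _ _).trans ((le_max_left _ _).trans hT)
  have hTe : Real.exp 1 ≤ T := (le_max_right _ _).trans hT
  have hT2 : 2 ≤ T := by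
    have := Real.add_one_le_exp (1 : ℝ)
    linarith
  have hTpos : 0 < T := by linarith
  have hL : 1 ≤ Real.log T := by
    rw [Real.le_log_iff_exp_le hTpos]
    exact hTe
  have hL0 : 0 ≤ Real.log T := zero_le_one.trans hL
  have hVT := hVV T hTV u hu1 hu2
  have hterm : ∀ q ∈ idx T, |cP P T q * (II (T ^ (1 - δ)) u q.1 q.2).re - cP P T q * mainT u q -
      cP P T q * (VV T (T ^ (1 - δ)) u q.1 q.2).re| ≤
      C * M * Real.log T * (hh q.1 * ((q.1 : ℝ) * q.2)⁻¹ * errS q.1) +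
        C * T ^ (9 * δ - 1) * (|cP P T q| * errA (ε / 1000) T q.1 q.2) := by
    intro q hq
    have hcq := (hcc T hT2 q hq).1
    simp only [idx, Finset.mem_filter, Finset.mem_product, Finset.mem_Icc] at hq
    obtain ⟨⟨⟨h1, h2⟩, h3, h4⟩, h5⟩ := hq
    have h2' : (q.1 : ℝ) ≤ T := (Nat.le_floor_iff hTpos.le).mp h2
    have h4' : (q.2 : ℝ) ≤ T := (Nat.le_floor_iff hTpos.le).mp h4
    have hk := hone T hT0 u hu1 hu2 q.1 q.2 h1 h3 h2' h4'
    have hmn : (0 : ℝ) < (q.1 : ℝ) * q.2 := by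
      have : (0 : ℝ) < (q.1 : ℝ) := by exact_mod_cast h1
      have : (0 : ℝ) < (q.2 : ℝ) := by exact_mod_cast h3
      positivity
    have hr0 : 0 ≤ ((q.1 : ℝ) * q.2) ^ (-(1 / 2) : ℝ) := Real.rpow_nonneg hmn.le _
    have hrr : ((q.1 : ℝ) * q.2) ^ (-(1 / 2) : ℝ) * ((q.1 : ℝ) * q.2) ^ (-(1 / 2) : ℝ) =
        ((q.1 : ℝ) * q.2)⁻¹ := by
      rw [← Real.rpow_add hmn, ← Real.rpow_neg_one]
      norm_num
    have hh0 : 0 ≤ hh q.1 := hh_nonneg _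
    have hS0 : 0 ≤ errS q.1 := by
      unfold errS
      exact Finset.sum_nonneg fun d _ => by positivity
    rw [← mul_sub, ← mul_sub, abs_mul]
    have hre : |(II (T ^ (1 - δ)) u q.1 q.2).re - mainT u q -
        (VV T (T ^ (1 - δ)) u q.1 q.2).re| ≤
        C * ((q.1 : ℝ) * q.2) ^ (-(1 / 2) : ℝ) * Real.log T * errS q.1 +
          C * T ^ (9 * δ - 1) * errA (ε / 1000) T q.1 q.2 := by
      refine le_trans ?_ hk
      have h6 := Complex.abs_re_le_norm (II (T ^ (1 - δ)) u q.1 q.2 -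
        ((((q.1 : ℝ) * q.2) ^ (-(1 / 2) : ℝ) *
          mainS q.1 (Real.log (u / (2 * Real.pi)) + Real.log q.1 - Real.log q.2) : ℝ) : ℂ) -
        VV T (T ^ (1 - δ)) u q.1 q.2)
      rw [Complex.sub_re, Complex.sub_re, Complex.ofReal_re] at h6
      exact h6
    have hc : |cP P T q| ≤ hh q.1 * ((q.1 : ℝ) * q.2) ^ (-(1 / 2) : ℝ) * M := by
      refine hcq.trans (le_of_eq ?_)
      ring
    calc |cP P T q| * |(II (T ^ (1 - δ)) u q.1 q.2).re - mainT u q -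
        (VV T (T ^ (1 - δ)) u q.1 q.2).re|
        ≤ |cP P T q| * (C * ((q.1 : ℝ) * q.2) ^ (-(1 / 2) : ℝ) * Real.log T * errS q.1 +
          C * T ^ (9 * δ - 1) * errA (ε / 1000) T q.1 q.2) :=
          mul_le_mul_of_nonneg_left hre (abs_nonneg _)
      _ = |cP P T q| * (C * ((q.1 : ℝ) * q.2) ^ (-(1 / 2) : ℝ) * Real.log T * errS q.1) +
          C * T ^ (9 * δ - 1) * (|cP P T q| * errA (ε / 1000) T q.1 q.2) := by ring
      _ ≤ (hh q.1 * ((q.1 : ℝ) * q.2) ^ (-(1 / 2) : ℝ) * M) *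
            (C * ((q.1 : ℝ) * q.2) ^ (-(1 / 2) : ℝ) * Real.log T * errS q.1) +
          C * T ^ (9 * δ - 1) * (|cP P T q| * errA (ε / 1000) T q.1 q.2) := by
          refine add_le_add (mul_le_mul_of_nonneg_right hc ?_) le_rfl
          exact mul_nonneg (mul_nonneg (mul_nonneg hC.le hr0) hL0) hS0
      _ = C * M * Real.log T * (hh q.1 * (((q.1 : ℝ) * q.2) ^ (-(1 / 2) : ℝ) *
            ((q.1 : ℝ) * q.2) ^ (-(1 / 2) : ℝ)) * errS q.1) +
          C * T ^ (9 * δ - 1) * (|cP P T q| * errA (ε / 1000) T q.1 q.2) := by ring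
      _ = C * M * Real.log T * (hh q.1 * ((q.1 : ℝ) * q.2)⁻¹ * errS q.1) +
          C * T ^ (9 * δ - 1) * (|cP P T q| * errA (ε / 1000) T q.1 q.2) := by rw [hrr]
  have hsum : |∑ q ∈ idx T, (cP P T q * (II (T ^ (1 - δ)) u q.1 q.2).re - cP P T q * mainT u q -
      cP P T q * (VV T (T ^ (1 - δ)) u q.1 q.2).re)| ≤
      C * M * Real.log T * (∑ q ∈ idx T, hh q.1 * ((q.1 : ℝ) * q.2)⁻¹ * errS q.1) +
        C * T ^ (9 * δ - 1) * (∑ q ∈ idx T, |cP P T q| * errA (ε / 1000) T q.1 q.2) := by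
    refine (Finset.abs_sum_le_sum_abs _ _).trans ((Finset.sum_le_sum hterm).trans ?_)
    rw [Finset.sum_add_distrib, ← Finset.mul_sum, ← Finset.mul_sum]
  have hA : C * M * Real.log T * (∑ q ∈ idx T, hh q.1 * ((q.1 : ℝ) * q.2)⁻¹ * errS q.1) ≤
      C * M * CS * Real.log T ^ 6 := by
    calc C * M * Real.log T * (∑ q ∈ idx T, hh q.1 * ((q.1 : ℝ) * q.2)⁻¹ * errS q.1)
        ≤ C * M * Real.log T * (CS * (Real.log T) ^ 5) :=
          mul_le_mul_of_nonneg_left (hS T hT2) (mul_nonneg (mul_nonneg hC.le hM.le) hL0)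
      _ = C * M * CS * Real.log T ^ 6 := by ring
  have hB : C * T ^ (9 * δ - 1) *
      (∑ q ∈ idx T, |cP P T q| * errA (ε / 1000) T q.1 q.2) ≤ C * CR * Real.log T ^ 6 := by
    have hT1 : 0 ≤ T ^ (9 * δ - 1) := Real.rpow_nonneg hTpos.le _
    calc C * T ^ (9 * δ - 1) * (∑ q ∈ idx T, |cP P T q| * errA (ε / 1000) T q.1 q.2)
        ≤ C * T ^ (9 * δ - 1) * (CR * T ^ (1 - ε / 4)) :=
          mul_le_mul_of_nonneg_left (hR T hT2) (mul_nonneg hC.le hT1)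
      _ = C * CR * (T ^ (9 * δ - 1) * T ^ (1 - ε / 4)) := by ring
      _ = C * CR * T ^ (9 * δ - 1 + (1 - ε / 4)) := by rw [← Real.rpow_add hTpos]
      _ ≤ C * CR * 1 := by
          refine mul_le_mul_of_nonneg_left ?_ (mul_nonneg hC.le hCR.le)
          exact Real.rpow_le_one_of_one_le_of_nonpos (by linarith) (by linarith)
      _ ≤ C * CR * Real.log T ^ 6 :=
          mul_le_mul_of_nonneg_left (one_le_pow₀ hL) (mul_nonneg hC.le hCR.le)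
  rw [Finset.sum_sub_distrib, Finset.sum_sub_distrib] at hsum
  have habs := abs_le.1 (hsum.trans (add_le_add hA hB))
  have habs2 := abs_le.1 hVT
  rw [abs_le]
  constructor
  · linarith [habs.1, habs2.1]
  · linarith [habs.2, habs2.2]

end Pool.Agent.LibSM56A
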